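import Pool.Agent.ME.CEAll
import Pool.Agent.NS.TAll
import Pool.Agent.N2.T2_FGP
import Pool.Agent.MUX.XTF7

/-!
# ME2, library for the blocks T of the exceptional fields (helper4)

`R : RepsE A B n ι` has one element (`one_elt`). An automorphism `σ` of `ℂ / k` acts on the points of level `m`, `m` even, of all normalised lattices as `c`, `c ≡ 1` modulo `2`
(`actE`); if it fixes `℘(om/m'')`, `m'' ∣ m`, `m'' ≥ 2`, then `c ≡ ± 1` modulo `m''` (`cong_pm`). `e(c) σ(PhiI b e x y/om) = PhiI b e x y/om` (`valE`). The values `PhiI b e x y/om`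
are algebraic (`algE`) and generated by finitely many of them (`fgE`).
-/

set_option autoImplicit false

namespace Pool.Agent.ME2

open _root_.MU3 Pool.Agent.MU3A Pool.Agent.MU3B Pool.Agent.RI Pool.Agent.MUX Pool.Agent.MUXU
open OnePoint Pool.Agent.NS
open Pool.Agent.ME hiding ActE
open Pool.Agent.MUXY (ActN Dn)
open Pool.Agent.NST (KIn)

noncomputable section

variable {A B : ℤ}

lemma natCast_mem_idl (m : ℕ) : ((m : ℕ) : OO A B) ∈ idl (A := A) (B := B) m :=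
  Ideal.mem_span_singleton_self _

lemma idl_mono {a b : ℕ} (h : a ∣ b) : idl (A := A) (B := B) b ≤ idl (A := A) (B := B) a := by
  obtain ⟨k, rfl⟩ := h
  rw [Ideal.span_singleton_le_span_singleton]
  exact ⟨((k : ℕ) : OO A B), by push_cast; rfl⟩

lemma mem_idl_iff {n : ℕ} {x : OO A B} :
    x ∈ idl (A := A) (B := B) n ↔ (n : ℤ) ∣ x.re ∧ (n : ℤ) ∣ x.im := by
  rw [Ideal.mem_span_singleton]
  have e1 : ((n : ℕ) : OO A B).re = n := QuadraticAlgebra.re_natCast _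
  have e2 : ((n : ℕ) : OO A B).im = 0 := QuadraticAlgebra.im_natCast _
  constructor
  · rintro ⟨y, rfl⟩
    rw [QuadraticAlgebra.re_mul, QuadraticAlgebra.im_mul, e1, e2]
    exact ⟨⟨y.re, by ring⟩, ⟨y.im, by ring⟩⟩
  · rintro ⟨⟨a, ha⟩, ⟨b, hb⟩⟩
    refine ⟨⟨a, b⟩, ?_⟩
    ext
    · rw [QuadraticAlgebra.re_mul, e1, e2, ha]; ring
    · rw [QuadraticAlgebra.im_mul, e1, e2, hb]; ring

/-- the set of representatives has one element -/
theorem one_elt (h : CaseE A B) {n : ℕ} {ι : Type} (R : RepsE A B n ι) (i : ι) : i = R.i0 := by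
  have hC := h.toCQ
  obtain ⟨h1, -, -⟩ := MEC.c_SGQ A B (R.L R.i0) (R.L i) (R.nl R.i0).nrm (R.nl i).nrm
  have h0 : R.om R.i0 ∈ (R.L R.i0).lattice := by
    refine ((R.nl R.i0).mem _).2 ⟨1, ?_, ?_⟩
    · rw [R.b0]
      trivial
    · rw [MUX.emb_one hC, mul_one]
  obtain ⟨β, hβ, hom⟩ := ((R.nl i).mem _).1 ((h1 _).1 h0)
  have hβ0 : β ≠ 0 := by
    rintro rfl
    rw [MUX.emb_zero hC, mul_zero] at hom
    exact (R.nl R.i0).om_ne hom
  have hb : R.b i = sp β := by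
    apply le_antisymm
    · intro x hx
      have h2 : R.om i * emb x ∈ (R.L i).lattice := ((R.nl i).mem _).2 ⟨x, hx, rfl⟩
      obtain ⟨y, -, hy⟩ := ((R.nl R.i0).mem _).1 ((h1 _).2 h2)
      rw [hom, mul_assoc, ← MUX.emb_mul hC] at hy
      have h3 := MUX.emb_inj hC (mul_left_cancel₀ (R.nl i).om_ne hy)
      rw [h3]
      exact Ideal.mul_mem_right _ _ (Ideal.mem_span_singleton_self β)
    · rw [Ideal.span_singleton_le_iff_mem]
      exact hβ
  refine R.inj i R.i0 1 β ?_ hβ0 ?_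
  · intro h2
    have h3 : (1 : ℤ) = 0 := congrArg QuadraticAlgebra.re h2
    exact one_ne_zero h3
  · have h4 : sp (1 : OO A B) = ⊤ := Ideal.span_singleton_one
    rw [R.b0, Ideal.mul_top, hb, h4, Ideal.top_mul]

/-! ### The action on the points of level `m` -/

/-- `σ` fixes the invariants -/
lemma cj_self {L : PeriodPair} (hL : NrmE A B L) (σ : ℂ ≃+* ℂ) : IsCj σ L L := by
  constructor
  · rw [hL.g2]
    unfold g2E
    split_ifs
    · exact (map_ofNat σ 4).symm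
    · exact (map_zero σ).symm
  · rw [hL.g3]
    unfold g3E
    split_ifs
    · exact (map_zero σ).symm
    · rw [map_neg, map_ofNat]

/-- change of the lattice -/
lemma actN_congr {σ : ℂ ≃+* ℂ} {m : ℕ} {a : Ideal (OO A B)} {mu : ℂ} {L M : PeriodPair}
    (hL : NrmE A B L) (hM : NrmE A B M) (h : ActN σ m a L L mu) : ActN σ m a M M mu := by
  obtain ⟨h1, -, h2⟩ := MEC.c_SGQ A B L M hL hM
  have hP : ∀ z, M.weierstrassP z = L.weierstrassP z := fun z => ((h2 z).1).symm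
  have hP' : ∀ z, M.derivWeierstrassP z = L.derivWeierstrassP z := by
    intro z
    have h3 := (h2 z).2
    unfold yy at h3
    linear_combination -2 * h3
  refine ⟨cj_self hM σ, h.cop, h.ne, fun z => ?_, fun z hz hzM => ?_⟩
  · rw [← h1]
    rw [h.isq z]
    exact forall₂_congr fun x _ => h1 _
  · rw [← h1] at hz hzM
    obtain ⟨h3, h4, h5⟩ := h.act z hz hzM
    rw [← h1, hP, hP, hP', hP']
    exact ⟨h3, h4, h5⟩

theorem actE (h : CaseE A B) (T : TorXE A B) {m : ℕ} (hm : m ≠ 0) (h2 : 2 ∣ m) {σ : ℂ ≃+* ℂ}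
    (hσ : FixK A B σ) :
    ∃ c : OO A B, c - 1 ∈ idl (A := A) (B := B) 2 ∧ IsCoprime (sp c) (idl (A := A) (B := B) m) ∧
      (∀ (b : Ideal (OO A B)) (L : PeriodPair) (om : ℂ), IsNE b L om →
        ActN σ m (sp c) L L (emb c)) ∧
      ∀ z : ℂ, z ^ m = 1 → σ z = z ^ nI (sp c) := by
  have hC := h.toCQ
  have hI : idl (A := A) (B := B) m ≠ ⊥ := by
    rw [Ne, Ideal.span_singleton_eq_bot]
    exact natCast_ne_zero' hC hm
  have htop : (⊤ : Ideal (OO A B)) ≠ ⊥ := by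
    intro h0
    have h3 : (1 : OO A B) ∈ (⊥ : Ideal (OO A B)) := h0 ▸ trivial
    rw [Ideal.mem_bot] at h3
    have h4 : (1 : ℤ) = 0 := congrArg QuadraticAlgebra.re h3
    exact one_ne_zero h4
  obtain ⟨L₀, om₀, hL₀⟩ := MEC.exists_isNE h (⊤ : Ideal (OO A B)) htop
  obtain ⟨a, hcop, ha⟩ := T.act (idl m) hI σ hσ
  obtain ⟨b', L', om', mu, hL', hA⟩ := ha _ _ _ hL₀
  obtain ⟨c, hmu, hac, hc1⟩ := T.two (idl m) a σ _ L₀ L' om₀ mu hI (idl_mono h2) hσ hL₀ hA
    hL'.nrm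
  obtain ⟨hlat, -, hpt⟩ := MEC.c_SGQ A B L₀ L' hL₀.nrm hL'.nrm
  subst hac
  subst hmu
  have hN : ActN σ m (sp c) L₀ L₀ (emb c) := by
    refine ⟨cj_self hL₀.nrm σ, hcop, hA.isq.1, fun z => ?_, fun z hz hz0 => ?_⟩
    · rw [hlat]
      exact hA.isq.2 z
    · have hT : Tor (idl (A := A) (B := B) m) L₀ z := by
        intro x hx
        obtain ⟨y, rfl⟩ := Ideal.mem_span_singleton'.1 hx
        rw [MUX.emb_mul hC, MUX.emb_natCast hC, mul_assoc]
        exact hL₀.toIsLI.hasCM hC y _ hz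
      rcases hA.act z hT with h3 | h3
      · exact absurd h3.1 hz0
      · refine ⟨fun h4 => h3.2.1 ((hlat _).1 h4), ?_, ?_⟩
        · have h5 := h3.2.2.1
          rw [← (hpt _).1] at h5
          exact h5.symm
        · have h5 := h3.2.2.2
          rw [← (hpt _).2] at h5
          unfold yy at h5
          rw [map_div₀, map_ofNat] at h5
          linear_combination -2 * h5
  refine ⟨c, hc1, hcop, fun b L om hL => actN_congr hL₀.nrm hL.nrm hN, fun z hz => ?_⟩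
  exact (T.zeta m (idl m) (sp c) σ _ _ _ _ (emb c) hI hσ hm le_rfl hL₀ hA z hz).2

/-- an automorphism which fixes `℘(om/m'')` acts as `± 1` modulo `m''` -/
theorem cong_pm (hC : CQ A B) {m'' : ℕ} (hm2 : 2 ≤ m'') {σ : ℂ ≃+* ℂ}
    {L : PeriodPair} {om : ℂ} (hL : IsNE (⊤ : Ideal (OO A B)) L om) {c : OO A B}
    (hP : σ (L.weierstrassP (om / m'')) = L.weierstrassP (emb c * (om / m'')))
    (hc0 : emb c * (om / m'') ∉ L.lattice)
    (hfix : σ (L.weierstrassP (om / m'')) = L.weierstrassP (om / m'')) :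
    c - 1 ∈ idl (A := A) (B := B) m'' ∨ c + 1 ∈ idl (A := A) (B := B) m'' := by
  have hmC : (m'' : ℂ) ≠ 0 := by
    have : m'' ≠ 0 := by omega
    exact_mod_cast this
  have hom : om ≠ 0 := hL.om_ne
  -- points of the lattice
  have key : ∀ y : OO A B, emb y * (om / m'') ∈ L.lattice → y ∈ idl (A := A) (B := B) m'' := by
    intro y hy
    obtain ⟨x, -, hx⟩ := (hL.mem _).1 hy
    have h1 : emb y = emb (x * ((m'' : ℕ) : OO A B)) := by
      rw [MUX.emb_mul hC, MUX.emb_natCast hC]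
      field_simp at hx
      linear_combination hx
    rw [MUX.emb_inj hC h1]
    exact Ideal.mul_mem_left _ _ (Ideal.mem_span_singleton_self _)
  have h1 : om / m'' ∉ L.lattice := by
    intro h
    have h2 := key 1 (by rwa [MUX.emb_one hC, one_mul])
    rw [mem_idl_iff] at h2
    have h3 : ((m'' : ℕ) : ℤ) ∣ 1 := h2.1
    have := Int.le_of_dvd one_pos h3
    omega
  rw [hfix] at hP
  rcases b_NEQ L (om / m'') _ h1 hc0 hP.symm with h3 | h3
  · left
    apply key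
    rw [MUX.emb_sub hC, MUX.emb_one hC, sub_mul, one_mul]
    exact h3
  · right
    apply key
    rw [MUX.emb_add hC, MUX.emb_one hC, add_mul, one_mul]
    exact h3

/-! ### The values -/

lemma phi_infty (b : Ideal (OO A B)) (e : OO A B → ℂ) : MUX.PhiI b e ∞ ∞ = 0 := by
  unfold MUX.PhiI
  exact sub_self _

lemma phi_sub (b : Ideal (OO A B)) (e : OO A B → ℂ) (x y : OnePoint ℚ) :
    MUX.PhiI b e x y = MUX.PhiI b e ∞ y - MUX.PhiI b e ∞ x := by
  unfold MUX.PhiI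
  ring

/-- conjugation of the values; `σ` fixes the values of `e` -/
theorem valE (hC : CQ A B) {b : Ideal (OO A B)} {L : PeriodPair} {om : ℂ} (hL : IsLI b L om)
    {m : ℕ} (hm : m ≠ 0) {σ : ℂ ≃+* ℂ} {c : OO A B} (hA : ActN σ m (sp c) L L (emb c))
    (hz : ∀ z : ℂ, z ^ m = 1 → σ z = z ^ nI (sp c)) {g : Ideal (OO A B)} {e : OO A B → ℂ}
    (he : IsEI g e) (hg : g ≠ ⊤) (hmg : ((m : ℕ) : OO A B) ∈ g)
    (hcop : IsCoprime (sp ((nI b : ℕ) : OO A B)) g) (hσ : ∀ x, σ (e x) = e x)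
    (x y : OnePoint ℚ) (hx : Dn m x) (hy : Dn m y) :
    e c * σ (PhiI b e x y / om) = PhiI b e x y / om := by
  have hn0 : nI b ≠ 0 := Pool.Agent.MUX.nI_ne_zero hC hL.b_ne
  have hnC : ((nI b : ℕ) : ℂ) ≠ 0 := Nat.cast_ne_zero.2 hn0
  have hen : e ((nI b : ℕ) : OO A B) ≠ 0 := (he.supp _).2 hcop
  have hfe : (fun x => σ (e x)) = e := funext hσ
  have isF : MUXY.IsF b b om om (emb c) (fun x => c * x) :=
    { mem := fun x hx => b.mul_mem_left _ hx
      eq := fun x _ => by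
        rw [MUX.emb_mul hC]
        ring
      add := fun x _ y _ => mul_add _ _ _
      sub := fun x _ y _ => mul_sub _ _ _
      smul := fun x _ r => by ring
      nb := fun x _ => by ring }
  have key : ∀ x : OnePoint ℚ, Dn m x →
      e c * σ (PhiI b e ∞ x / om) = PhiI b e ∞ x / om := by
    intro x hx
    induction x using OnePoint.rec with
    | infty => rw [phi_infty, zero_div, map_zero, mul_zero]
    | coe r =>
      have h1 := MUXY.y_RA1 A B (MUXY.cqF hC) σ m (MUX.sp c) b b L L om om (emb c)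
        (fun x => c * x) (MUXY.liF hL) (MUXY.liF hL) hA isF hz g e (MUXY.eiF he) hg hm hmg r.den
        r.den_nz (hx r rfl) r.num
      rw [Rat.num_div_den, hfe, hσ, hσ] at h1
      have h4 : ((nI b : ℕ) : ℂ) * e (c * ((nI b : ℕ) : OO A B)) *
            σ (PhiI b e ∞ (r : OnePoint ℚ) / om) =
          ((nI b : ℕ) : ℂ) * e ((nI b : ℕ) : OO A B) *
            (PhiI b e ∞ (r : OnePoint ℚ) / om) := h1
      rw [he.mul] at h4
      have h3 : ((nI b : ℕ) : ℂ) * e ((nI b : ℕ) : OO A B) *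
          (e c * σ (PhiI b e ∞ (r : OnePoint ℚ) / om)) =
          ((nI b : ℕ) : ℂ) * e ((nI b : ℕ) : OO A B) *
          (PhiI b e ∞ (r : OnePoint ℚ) / om) := by
        linear_combination h4
      exact mul_left_cancel₀ (mul_ne_zero hnC hen) h3
  rw [phi_sub b e x y, sub_div, map_sub, mul_sub, key x hx, key y hy]

/-- the values are algebraic -/
theorem algE (h : CaseE A B) (T : TorXE A B) {b : Ideal (OO A B)} {L : PeriodPair} {om : ℂ}
    (hL : IsNE b L om) {g : Ideal (OO A B)} {e : OO A B → ℂ} (he : IsEI g e) (hg : g ≠ ⊤)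
    {n : ℕ} (hn : n ≠ 0) (hng : ((n : ℕ) : OO A B) ∈ g)
    (hcop : IsCoprime (sp ((nI b : ℕ) : OO A B)) g) {r : ℕ} (hr : r ≠ 0)
    (her : ∀ x, e x ≠ 0 → e x ^ r = 1) (x y : OnePoint ℚ) :
    IsAlgebraic ℚ (PhiI b e x y / om) := by
  have hC := h.toCQ
  obtain ⟨hE, hZ⟩ := MUXY.y_FEC A B e r hr her
  refine u_AUT (kk A B) (Pool.Agent.MUXC.FGL.isAlgebraic_kk hC) _ ?_
  have hfin := ((hE.prod (hZ.prod hZ)).image (fun q : (OO A B → ℂ) × ℂ × ℂ =>
    (nI b : ℂ) * q.2.1 / (nI b * q.2.2) * (PhiI b q.1 x y / om)))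
  refine hfin.subset ?_
  rintro z ⟨σ, hσ, rfl⟩
  have hfix : FixK A B σ := hσ _ (wC_mem A B)
  obtain ⟨m, hm⟩ : ∃ m, m = 2 * n * (Pool.Agent.N2T.dc x * Pool.Agent.N2T.dc y) := ⟨_, rfl⟩
  have hm0 : m ≠ 0 := by
    rw [hm]
    exact mul_ne_zero (mul_ne_zero two_ne_zero hn)
      (mul_ne_zero (Pool.Agent.N2T.dc_pos x) (Pool.Agent.N2T.dc_pos y))
  have hx : Dn m x := Pool.Agent.N2T.dn_of (by
    rw [hm]
    exact (dvd_mul_right _ _).trans (dvd_mul_left _ _))
  have hy : Dn m y := Pool.Agent.N2T.dn_of (by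
    rw [hm]
    exact (dvd_mul_left _ _).trans (dvd_mul_left _ _))
  have hmg : ((m : ℕ) : OO A B) ∈ g := by
    rw [hm, Nat.cast_mul, Nat.cast_mul]
    exact g.mul_mem_right _ (g.mul_mem_left _ hng)
  obtain ⟨c, -, -, hA, hz⟩ := actE h T hm0 (by
    rw [hm, mul_assoc]
    exact dvd_mul_right _ _) hfix
  obtain ⟨C, -, ⟨x₁, x₂, -, -, hCe⟩, hS⟩ := MUXY.y_RAT A B (MUXY.cqF hC) σ m (sp c) b b L L om om
    (emb c) (MUXY.liF hL.toIsLI) (MUXY.liF hL.toIsLI) (hA b L om hL) hz g e (MUXY.eiF he) hg hm0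
    hmg hcop hcop
  refine ⟨((fun x => σ (e x)), σ (e x₁), σ (e x₂)),
    ⟨⟨σ, rfl⟩, ⟨σ, x₁, rfl⟩, ⟨σ, x₂, rfl⟩⟩, ?_⟩
  have h5 := hS x y hx hy
  have h6 : σ (PhiI b e x y / om) = C * (PhiI b (fun x => σ (e x)) x y / om) := h5
  rw [h6, hCe]
  rfl

/-- finitely many values generate all values -/
theorem fgE (hC : CQ A B) {b g : Ideal (OO A B)} {e : OO A B → ℂ} (hb : b ≠ ⊥) (hg : g ≠ ⊥)
    (he : IsEI g e) (s : ℂ) :
    ∃ (S : Finset (OnePoint ℚ × OnePoint ℚ)) (N : ℕ), N ≠ 0 ∧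
      (∀ q ∈ S, Dn N q.1 ∧ Dn N q.2) ∧
      ∀ x y, PhiI b e x y / s ∈ AddSubgroup.closure
        ((fun q : OnePoint ℚ × OnePoint ℚ => PhiI b e q.1 q.2 / s) ''
          (S : Set (OnePoint ℚ × OnePoint ℚ))) := by
  classical
  obtain ⟨S, hS⟩ := Pool.Agent.MUXT.fg_EI A B (MUXY.cqF hC) b g e hb hg (MUXY.eiF he)
  obtain ⟨S', j0, N0, hN00, -, hSD0, hgen⟩ := Pool.Agent.N2T.fgp
    (fun x y => PhiI b e x y / s) (S.image fun z => z / s) (fun x y => by
      have hle : AddSubgroup.closure (S : Set ℂ) ≤ (AddSubgroup.closure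
          ((S.image fun z => z / s : Finset ℂ) : Set ℂ)).comap (AddMonoidHom.mulRight (s⁻¹)) := by
        rw [AddSubgroup.closure_le]
        intro t ht
        refine AddSubgroup.subset_closure ?_
        rw [Finset.mem_coe, Finset.mem_image]
        exact ⟨t, ht, div_eq_mul_inv t s⟩
      have h1 := hle (hS x y)
      rw [AddSubgroup.mem_comap, AddMonoidHom.coe_mulRight] at h1
      rw [div_eq_mul_inv]
      exact h1)
  exact ⟨S', 3 ^ j0 * N0, mul_ne_zero (pow_ne_zero _ three_ne_zero) hN00, hSD0, hgen⟩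

end

end Pool.Agent.ME2
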