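import Pool.Agent.ME2.Defs3
import Pool.Agent.ME2.T_Lib
import Pool.Agent.N2.T2_TYF

/-!
# ME2, block T, `p = 2`, `D = -3` (helper4): the result `T3_TYF`

`σ` in the inertia group at `V` of a large Galois extension `F / k` acts on the points of level `m` as `c`, `c ≡ 1` modulo `2` (`actE`), and `c ≡ η` modulo `3`, `η ∈ O^*` (`unit3`), so
`σ(u a3) = η⁻¹ u a3` (`sguE`), and `ε σ Q = Q` for the values `Q = PhiI/(u a3 om)`, `ε = e(c) η⁻¹`. `σ³` acts on the points of order three as `± 1`, so it is trivial on `RFE (2 m')` (`T3_RFIN`) and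
`c³ ≡ ± 1` modulo `2 m'`: `ε³ = 1`. So the quotients of the values and `Q³` are in the inertia field.
-/

set_option autoImplicit false

namespace Pool.Agent.ME2

open _root_.MU3 Pool.Agent.MU3A Pool.Agent.MU3B Pool.Agent.RI Pool.Agent.MUX Pool.Agent.MUXU
open OnePoint Pool.Agent.NS
open Pool.Agent.ME hiding ActE
open Pool.Agent.N2 (GoodT)
open Pool.Agent.MUXY (ActN Dn)
open Pool.Agent.NST (KIn nt_GLC)
open Pool.Agent.NST.TYF (dn_mono idl_ne_bot)

noncomputable section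

/-! ### Units modulo 3 -/

/-- the elements prime to 3 are congruent to units modulo 3 -/
lemma unit3 {A B : ℤ} (hC : CQ A B) (hA : A = -1) (hB : B = 1) {c : OO A B}
    (hc : IsCoprime (sp c) (idl (A := A) (B := B) 3)) :
    ∃ η η' : OO A B, η * η' = 1 ∧ (η ^ 3 = 1 ∨ η ^ 3 = -1) ∧
      c - η ∈ idl (A := A) (B := B) 3 := by
  subst hA
  subst hB
  have hne : ¬ (3 : ℤ) ∣ c.re - c.im := by
    rintro ⟨k, hk⟩
    obtain ⟨p, hp, q, hq, hpq⟩ := Ideal.isCoprime_iff_exists.1 hc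
    obtain ⟨t, rfl⟩ := Ideal.mem_span_singleton'.1 hp
    have hn : nm (t * c) = nm t * nm c := nm_mul hC t c
    rw [mem_idl_iff] at hq
    obtain ⟨⟨q1, hq1⟩, ⟨q2, hq2⟩⟩ := hq
    have hp' : t * c = 1 - q := by rw [← hpq]; ring
    have e1 : (1 - q).re = 1 - q.re := by
      rw [QuadraticAlgebra.re_sub, QuadraticAlgebra.re_one]
    have e2 : (1 - q).im = -q.im := by
      rw [QuadraticAlgebra.im_sub, QuadraticAlgebra.im_one]
      ring
    have h1 : nm (1 - q) = (1 - q.re) ^ 2 + (1 - q.re) * (-q.im) + q.im ^ 2 := by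
      unfold nm
      rw [e1, e2]
      ring
    have h2 : nm c = c.re ^ 2 + c.re * c.im + c.im ^ 2 := by
      unfold nm
      ring
    rw [hp', h1, h2] at hn
    push_cast at hq1 hq2
    have hre : c.re = c.im + 3 * k := by linarith
    rw [hre, hq1, hq2] at hn
    have h3 : (3 : ℤ) ∣ 1 := by
      refine ⟨nm t * (c.im ^ 2 + 3 * k * c.im + 3 * k ^ 2) - (-2 * q1 + 3 * q1 ^ 2 - q2 +
        3 * q1 * q2 + 3 * q2 ^ 2), ?_⟩
      linear_combination hn
    omega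
  have key : ∀ (η η' : OO (-1) 1), η * η' = 1 → (η ^ 3 = 1 ∨ η ^ 3 = -1) →
      (3 : ℤ) ∣ c.re - η.re → (3 : ℤ) ∣ c.im - η.im →
      ∃ η η' : OO (-1) 1, η * η' = 1 ∧ (η ^ 3 = 1 ∨ η ^ 3 = -1) ∧
        c - η ∈ idl (A := -1) (B := 1) 3 := by
    intro η η' h1 h2 h3 h4
    refine ⟨η, η', h1, h2, ?_⟩
    rw [mem_idl_iff, QuadraticAlgebra.re_sub, QuadraticAlgebra.im_sub]
    exact ⟨h3, h4⟩
  have h1 : c.re % 3 = 0 ∨ c.re % 3 = 1 ∨ c.re % 3 = 2 := by omega
  have h2 : c.im % 3 = 0 ∨ c.im % 3 = 1 ∨ c.im % 3 = 2 := by omega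
  rcases h1 with h1 | h1 | h1 <;> rcases h2 with h2 | h2 | h2
  · omega
  · exact key ⟨0, 1⟩ ⟨1, -1⟩ (QuadraticAlgebra.ext rfl rfl)
      (Or.inr (QuadraticAlgebra.ext rfl rfl)) (by show (3 : ℤ) ∣ c.re - 0; omega)
      (by show (3 : ℤ) ∣ c.im - 1; omega)
  · exact key ⟨0, -1⟩ ⟨-1, 1⟩ (QuadraticAlgebra.ext rfl rfl)
      (Or.inl (QuadraticAlgebra.ext rfl rfl)) (by show (3 : ℤ) ∣ c.re - 0; omega)
      (by show (3 : ℤ) ∣ c.im - -1; omega)
  · exact key ⟨1, 0⟩ ⟨1, 0⟩ (QuadraticAlgebra.ext rfl rfl)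
      (Or.inl (QuadraticAlgebra.ext rfl rfl)) (by show (3 : ℤ) ∣ c.re - 1; omega)
      (by show (3 : ℤ) ∣ c.im - 0; omega)
  · omega
  · exact key ⟨1, -1⟩ ⟨0, 1⟩ (QuadraticAlgebra.ext rfl rfl)
      (Or.inr (QuadraticAlgebra.ext rfl rfl)) (by show (3 : ℤ) ∣ c.re - 1; omega)
      (by show (3 : ℤ) ∣ c.im - -1; omega)
  · exact key ⟨-1, 0⟩ ⟨-1, 0⟩ (QuadraticAlgebra.ext rfl rfl)
      (Or.inr (QuadraticAlgebra.ext rfl rfl)) (by show (3 : ℤ) ∣ c.re - -1; omega)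
      (by show (3 : ℤ) ∣ c.im - 0; omega)
  · exact key ⟨-1, 1⟩ ⟨0, -1⟩ (QuadraticAlgebra.ext rfl rfl)
      (Or.inl (QuadraticAlgebra.ext rfl rfl)) (by show (3 : ℤ) ∣ c.re - -1; omega)
      (by show (3 : ℤ) ∣ c.im - 1; omega)
  · omega

/-! ### The multiplier of `u a3` -/

section
variable {A B : ℤ} {L : PeriodPair} {om : ℂ} {b : Ideal (OO A B)}

/-- units are homotheties of `L` -/
lemma unit_hom (hC : CQ A B) (hL : IsLI b L om) {η η' : OO A B} (hη : η * η' = 1) :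
    emb η ≠ 0 ∧ (∀ z, z ∈ L.lattice ↔ emb η * z ∈ L.lattice) ∧
      (∀ z, L.weierstrassP (emb η * z) = L.weierstrassP z / emb η ^ 2) ∧
      ∀ z, L.derivWeierstrassP (emb η * z) = L.derivWeierstrassP z / emb η ^ 3 := by
  have hee : emb η * emb η' = 1 := by
    rw [← MUX.emb_mul hC, hη, MUX.emb_one hC]
  have h0 : emb η ≠ 0 := left_ne_zero_of_mul_eq_one hee
  have hiff : ∀ z, z ∈ L.lattice ↔ emb η * z ∈ L.lattice := by
    intro z
    refine ⟨fun h => hL.hasCM hC η z h, fun h => ?_⟩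
    have h1 := hL.hasCM hC η' _ h
    rwa [← mul_assoc, mul_comm (emb η'), hee, one_mul] at h1
  obtain ⟨h1, h2, -⟩ := ta_SCP L L (emb η) h0 hiff
  exact ⟨h0, hiff, h1, h2⟩

/-- congruent multipliers -/
lemma wp_cong (hC : CQ A B) (hL : IsLI b L om) {n : ℕ} {c c' : OO A B}
    (hc : c - c' ∈ idl (A := A) (B := B) n) {w : ℂ} (hw : (n : ℂ) * w ∈ L.lattice) :
    L.weierstrassP (emb c * w) = L.weierstrassP (emb c' * w) ∧
      L.derivWeierstrassP (emb c * w) = L.derivWeierstrassP (emb c' * w) := by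
  obtain ⟨y, hy⟩ := Ideal.mem_span_singleton'.1 hc
  have h1 : emb c * w - emb c' * w = emb y * (n * w) := by
    have h2 : emb c - emb c' = emb y * n := by
      rw [← MUX.emb_sub hC, ← hy, MUX.emb_mul hC, MUX.emb_natCast hC]
    linear_combination w * h2
  have h3 : emb c * w - emb c' * w ∈ L.lattice := by
    rw [h1]
    exact hL.hasCM hC y _ hw
  refine ⟨?_, NST.SGU.der_congr L h3⟩
  have h4 := L.weierstrassP_add_coe (emb c' * w) ⟨_, h3⟩
  have h5 : emb c' * w + ((⟨emb c * w - emb c' * w, h3⟩ : L.lattice) : ℂ) = emb c * w := by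
    show emb c' * w + (emb c * w - emb c' * w) = emb c * w
    ring
  rw [h5] at h4
  exact h4

theorem sguE {V : ValuationSubring ℂ} (hC : CQ A B) (hL : IsLI b L om) {u e a1 a3 : ℂ}
    (hG : GoodT V L u e a1 a3) {m : ℕ} (h3 : 3 ∣ m) {σ : ℂ ≃+* ℂ} {c η η' : OO A B}
    (hA : ActN σ m (sp c) L L (emb c)) (hη : η * η' = 1)
    (hc : c - η ∈ idl (A := A) (B := B) 3) : emb η * σ (u * a3) = u * a3 := by
  obtain ⟨w1, w2, h31, h32, hw1, hw2, -, -, he, hu2⟩ := hG.tor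
  have hu0 := hG.u0
  obtain ⟨hη0, -, hP, hP'⟩ := unit_hom hC hL hη
  -- the action on the points of order three
  have hact : ∀ w : ℂ, 3 * w ∈ L.lattice → w ∉ L.lattice →
      σ (L.weierstrassP w) = L.weierstrassP w / emb η ^ 2 ∧
      σ (L.derivWeierstrassP w) = L.derivWeierstrassP w / emb η ^ 3 := by
    intro w h3w hw
    have hmul : (m : ℂ) * w ∈ L.lattice := by
      obtain ⟨k, rfl⟩ := h3
      have h1 := nsmul_mem h3w k
      rw [nsmul_eq_mul] at h1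
      have e1 : ((3 * k : ℕ) : ℂ) * w = (k : ℂ) * (3 * w) := by push_cast; ring
      rw [e1]
      exact h1
    obtain ⟨-, h1, h2⟩ := hA.act w hmul hw
    obtain ⟨h4, h5⟩ := wp_cong hC hL hc (w := w) (by exact_mod_cast h3w)
    rw [← h1, ← h2, h4, h5, hP, hP']
    exact ⟨rfl, rfl⟩
  obtain ⟨hP1, hD1⟩ := hact w1 h31 hw1
  obtain ⟨hP2, -⟩ := hact w2 h32 hw2
  have hsu2 : σ (u ^ 2) = u ^ 2 / emb η ^ 2 := by
    rw [hu2, map_sub, hP1, hP2, sub_div]
  have heq := hG.eq w1 hw1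
  rw [← he, sub_self, zero_div, mul_zero, zero_add, zero_pow (by norm_num), mul_zero,
    zero_add] at heq
  have hua : u * a3 = L.derivWeierstrassP w1 / u ^ 2 ∨
      u * a3 = -(L.derivWeierstrassP w1 / u ^ 2) := by
    apply sq_eq_sq_iff_eq_or_eq_neg.1
    rw [mul_pow, ← heq]
    field_simp
  have h5 : emb η * σ (L.derivWeierstrassP w1 / u ^ 2) = L.derivWeierstrassP w1 / u ^ 2 := by
    rw [map_div₀, hD1, hsu2]
    field_simp
  rcases hua with hua | hua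
  · rw [hua, h5]
  · rw [hua, map_neg, mul_neg, h5]

/-- points killed by `n` are killed by the ideal `(n)` -/
lemma tor_of_mul (hC : CQ A B) (hL : IsLI b L om) {n : ℕ} {z : ℂ}
    (hz : (n : ℂ) * z ∈ L.lattice) : Tor (idl (A := A) (B := B) n) L z := by
  intro x hx
  obtain ⟨y, rfl⟩ := Ideal.mem_span_singleton'.1 hx
  rw [MUX.emb_mul hC, MUX.emb_natCast hC, mul_assoc]
  exact hL.hasCM hC y _ hz

lemma wp_mem (hC : CQ A B) (hL : IsNE b L om) {n : ℕ} {z : ℂ} (hz : z ∉ L.lattice)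
    (hz' : (n : ℂ) * z ∈ L.lattice) :
    L.weierstrassP z ∈ RFE (idl (A := A) (B := B) n) :=
  IntermediateField.subset_adjoin _ _
    ⟨b, L, om, hL, Or.inr ⟨z, tor_of_mul hC hL.toIsLI hz', hz, rfl⟩⟩

lemma alg_RFE (hC : CQ A B) (T : TorXE A B) {n : ℕ} (hn : n ≠ 0) {y : ℂ}
    (hy : y ∈ RFE (idl (A := A) (B := B) n)) : IsAlgebraic ℚ y := by
  have hkk := Pool.Agent.MUXC.FGL.isAlgebraic_kk hC
  have hfd := T.fin _ (idl_ne_bot hC hn)
  have h1 : IsAlgebraic (kk A B) (⟨y, hy⟩ : RFE (idl (A := A) (B := B) n)) :=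
    Algebra.IsAlgebraic.isAlgebraic _
  have h2 : IsAlgebraic (kk A B) y := h1.algebraMap (A := ℂ)
  exact h2.restrictScalars ℚ

lemma alg_uaE (hC : CQ A B) (T : TorXE A B) {V : ValuationSubring ℂ} (hL : IsNE b L om)
    {u e a1 a3 : ℂ} (hG : GoodT V L u e a1 a3) : IsAlgebraic ℚ (u * a3) := by
  obtain ⟨w1, w2, h31, h32, hw1, hw2, -, -, he, hu2⟩ := hG.tor
  have hu0 := hG.u0
  have h31' : ((3 : ℕ) : ℂ) * w1 ∈ L.lattice := by exact_mod_cast h31
  have h32' : ((3 : ℕ) : ℂ) * w2 ∈ L.lattice := by exact_mod_cast h32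
  have hP1 : IsAlgebraic ℚ (L.weierstrassP w1) :=
    alg_RFE hC T three_ne_zero (wp_mem hC hL hw1 h31')
  have hP2 : IsAlgebraic ℚ (L.weierstrassP w2) :=
    alg_RFE hC T three_ne_zero (wp_mem hC hL hw2 h32')
  have hu2a : IsAlgebraic ℚ (u ^ 2) := by rw [hu2]; exact hP2.sub hP1
  have h4 : IsAlgebraic ℚ (4 : ℂ) := by simpa using NST.ALT.alg_num 4
  have h0 : IsAlgebraic ℚ (0 : ℂ) := isAlgebraic_zero
  have hg2 : IsAlgebraic ℚ L.g₂ := by
    rw [hL.nrm.g2]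
    unfold g2E
    split_ifs
    · exact h4
    · exact h0
  have hg3 : IsAlgebraic ℚ L.g₃ := by
    rw [hL.nrm.g3]
    unfold g3E
    split_ifs
    · exact h0
    · exact h4.neg
  have hD : IsAlgebraic ℚ (L.derivWeierstrassP w1) := by
    apply IsAlgebraic.of_pow two_pos
    rw [L.derivWeierstrassP_sq w1 hw1]
    exact ((h4.mul (hP1.pow 3)).sub (hg2.mul hP1)).sub hg3
  have heq := hG.eq w1 hw1
  rw [← he, sub_self, zero_div, mul_zero, zero_add, zero_pow (by norm_num), mul_zero,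
    zero_add] at heq
  have hua : (u * a3) ^ 2 = (L.derivWeierstrassP w1) ^ 2 * ((u ^ 2) ^ 2)⁻¹ := by
    rw [mul_pow, ← heq]
    field_simp
  apply IsAlgebraic.of_pow two_pos
  rw [hua]
  exact (hD.pow 2).mul (hu2a.pow 2).inv

/-- the cube of `σ` -/
lemma act3 (hC : CQ A B) (hL : IsLI b L om) {m : ℕ} {σ : ℂ ≃+* ℂ} {c : OO A B}
    (hA : ActN σ m (sp c) L L (emb c)) {z : ℂ} (hz : (m : ℂ) * z ∈ L.lattice)
    (hz0 : z ∉ L.lattice) : emb (c ^ 3) * z ∉ L.lattice ∧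
      σ (σ (σ (L.weierstrassP z))) = L.weierstrassP (emb (c ^ 3) * z) := by
  have hm : ∀ w : ℂ, (m : ℂ) * w ∈ L.lattice → (m : ℂ) * (emb c * w) ∈ L.lattice := by
    intro w hw
    rw [mul_left_comm]
    exact hL.hasCM hC c _ hw
  obtain ⟨h1, h2, -⟩ := hA.act z hz hz0
  obtain ⟨h3, h4, -⟩ := hA.act _ (hm z hz) h1
  obtain ⟨h5, h6, -⟩ := hA.act _ (hm _ (hm z hz)) h3
  have e : emb (c ^ 3) * z = emb c * (emb c * (emb c * z)) := by
    rw [MUX.emb_pow hC]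
    ring
  rw [e]
  exact ⟨h5, by rw [h6, h4, h2]⟩

end

/-! ### The result -/

open Pool.Agent.N2T in
theorem t3_TYF (hR : T3_RFIN) : T3_TYF := by
  intro A B V f hS hT ι _ R u el a1 a3 hG e he r hr her ka hka
  have hE := hS.case
  have hQ : CQ A B := hE.toCQ
  have hL := R.nl R.i0
  have hom0 : R.om R.i0 ≠ 0 := hL.om_ne
  have hu0 : u ≠ 0 := hG.u0
  have ha30 : a3 ≠ 0 := by
    rintro rfl
    have := hG.v3
    rw [map_zero] at this
    exact zero_ne_one this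
  have hr0 : r ≠ 0 := by
    rintro rfl
    exact hr (dvd_zero 2)
  have h2r0 : 2 * r ≠ 0 := mul_ne_zero two_ne_zero hr0
  -- `v 2 < 1`
  have h2 : V.valuation (2 : ℂ) < 1 := by
    have h1 : ((2 : ℕ) : OO A B) ∈ idl (A := A) (B := B) 2 := Ideal.mem_span_singleton_self _
    have h3 := (hS.hV _).2 h1
    rw [ValuationSubring.mem_nonunits_iff, MUX.emb_natCast hQ] at h3
    exact_mod_cast h3
  have hv2 : V.valuation (2 : ℂ) ≠ 0 := (Valuation.ne_zero_iff _).2 two_ne_zero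
  have h3f : 3 ∣ f := by
    have h1 : (3 : ℤ) ∣ (f : ℤ) := (Dvd.intro _ rfl).trans hS.fD
    exact_mod_cast h1
  have hf3 : 3 ≤ f := Nat.le_of_dvd (Nat.pos_of_ne_zero hS.f0) h3f
  have h2f : 2 * f ≠ 0 := mul_ne_zero (by norm_num) hS.f0
  have hgt : idl (A := A) (B := B) (2 * f) ≠ ⊤ := NST.VAL.idl_ne_top (by omega)
  have hgb : idl (A := A) (B := B) (2 * f) ≠ ⊥ := idl_ne_bot hQ h2f
  have hcopb : IsCoprime (sp ((nI (R.b R.i0) : ℕ) : OO A B))
      (idl (A := A) (B := B) (2 * f)) := NST.VAL.coprime_idl (R.cop R.i0)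
  obtain ⟨U, hU⟩ : ∃ U, U = u * a3 := ⟨_, rfl⟩
  have hU0 : U ≠ 0 := by rw [hU]; exact mul_ne_zero hu0 ha30
  have hUa : IsAlgebraic ℚ U := by
    rw [hU]
    exact alg_uaE hQ hT hL hG
  -- the values of `P = PhiI/(u a3 om_0)`
  obtain ⟨Q, hQdef⟩ : ∃ Q : OnePoint ℚ × OnePoint ℚ → ℂ,
    Q = fun q => PhiI (R.b R.i0) e q.1 q.2 / (U * R.om R.i0) := ⟨_, rfl⟩
  obtain ⟨S, N00, hN00, hSD0, hgen⟩ := fgE hQ hL.b_ne hgb he.toIsEI (U * R.om R.i0)
  have hgen' : ∀ x y, Q (x, y) ∈ AddSubgroup.closure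
      (Q '' (S : Set (OnePoint ℚ × OnePoint ℚ))) := by
    rw [hQdef]
    exact hgen
  obtain ⟨j, N, hN2, hjN⟩ := Nat.exists_eq_pow_mul_and_not_dvd hN00 2 (by norm_num)
  rw [hjN] at hSD0
  have hN0 : N ≠ 0 := by
    rintro rfl
    exact hN2 (dvd_zero 2)
  obtain ⟨m', hm'⟩ : ∃ m', m' = f * N := ⟨_, rfl⟩
  have hm'0 : m' ≠ 0 := by rw [hm']; exact mul_ne_zero hS.f0 hN0
  have hm'2 : ¬ 2 ∣ m' := by
    intro h
    rw [hm'] at h
    rcases (Nat.Prime.dvd_mul Nat.prime_two).1 h with h | h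
    · exact hS.fp h
    · exact hN2 h
  have hfm : f ∣ m' := by rw [hm']; exact Dvd.intro _ rfl
  have h3m : 3 ∣ m' := h3f.trans hfm
  obtain ⟨m, hm⟩ : ∃ m, m = 2 ^ (j + 1) * m' := ⟨_, rfl⟩
  have hm0 : m ≠ 0 := by rw [hm]; exact mul_ne_zero (by positivity) hm'0
  have hmm : 2 * m' ∣ m := by
    rw [hm, pow_succ]
    exact mul_dvd_mul (dvd_mul_left _ _) dvd_rfl
  have hpm : 2 * f ∣ 2 * m' := mul_dvd_mul_left 2 hfm
  have h3m2 : 3 ∣ 2 * m' := h3m.mul_left 2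
  have hdvd : 2 ^ j * N ∣ m := by
    rw [hm, hm']
    exact mul_dvd_mul (pow_dvd_pow 2 (Nat.le_succ j)) (Dvd.intro_left _ rfl)
  have hQalg : ∀ q, IsAlgebraic ℚ (Q q) := by
    intro q
    have h1 := algE hE hT hL he.toIsEI hgt h2f (natCast_mem_idl (2 * f)) hcopb h2r0 her q.1 q.2
    have h3 : Q q = PhiI (R.b R.i0) e q.1 q.2 / R.om R.i0 * U⁻¹ := by
      rw [hQdef]
      field_simp
    rw [h3]
    exact h1.mul hUa.inv
  -- the field
  set Ts : Set ℂ := (Q '' (S : Set (OnePoint ℚ × OnePoint ℚ))) ∪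
    ((Polynomial.nthRootsFinset r (1 : ℂ) : Finset ℂ) : Set ℂ) with hTs
  have hTfin : Ts.Finite :=
    Set.Finite.union ((Finset.finite_toSet S).image _) (Finset.finite_toSet _)
  have hTalg : ∀ t ∈ Ts, IsAlgebraic ℚ t := by
    rintro t (⟨q, -, rfl⟩ | ht)
    · exact hQalg q
    · rw [Finset.mem_coe, Polynomial.mem_nthRootsFinset (Nat.pos_of_ne_zero hr0)] at ht
      refine ⟨Polynomial.X ^ r - 1, Polynomial.X_pow_sub_C_ne_zero
        (Nat.pos_of_ne_zero hr0) (1 : ℚ), ?_⟩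
      simp [ht]
  obtain ⟨F, hFf, hFg, hEF, hTF⟩ := nt_GLC A B hQ (RFE (idl (A := A) (B := B) (2 * m')))
    (hT.fin _ (idl_ne_bot hQ (mul_ne_zero two_ne_zero hm'0))) Ts hTfin hTalg
  have hrF : ∀ z : ℂ, z ^ r = 1 → z ∈ F := fun z hz => hTF (Or.inr (by
    rw [Finset.mem_coe, Polynomial.mem_nthRootsFinset (Nat.pos_of_ne_zero hr0)]
    exact hz))
  have hQF : ∀ q ∈ S, Q q ∈ F := fun q hq => hTF (Or.inl ⟨q, hq, rfl⟩)
  have hunf := unf2 hQ hS.hV F
  -- the key point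
  have hkey : ∀ σ : ℂ ≃+* ℂ, InI A B V (F : Set ℂ) σ →
      ∃ ε : ℂ, ε ^ 3 = 1 ∧ ∀ q ∈ S, ε * σ (Q q) = Q q := by
    intro σ hσ
    obtain ⟨c, -, hcop, hact, hz⟩ := actE hE hT hm0 ((dvd_mul_right 2 m').trans hmm) hσ.fix
    have hA := hact _ _ _ hL
    have h3m3 : 3 ∣ m := h3m2.trans hmm
    have hcop3 : IsCoprime (sp c) (idl (A := A) (B := B) 3) := by
      rw [Ideal.isCoprime_iff_sup_eq] at hcop ⊢
      rw [eq_top_iff, ← hcop]
      exact sup_le_sup_left (idl_mono h3m3) _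
    obtain ⟨η, η', hη, hη3, hcη⟩ := unit3 hQ hE.hA hS.hB hcop3
    have hη0 : emb η ≠ 0 := (unit_hom hQ hL.toIsLI hη).1
    have hsu : emb η * σ U = U := by
      rw [hU]
      exact sguE hQ hL.toIsLI hG h3m3 hA hη hcη
    have hroot : ∀ z : ℂ, (z = 0 ∨ z ^ (2 * r) = 1) → σ z = z := by
      refine rtu2 h2 hr σ ?_
      intro z hz
      have hz1 : V.valuation z = 1 := NST.RTU.v_root hr0 hz
      have h1 := hσ.iner z (hrF z hz) ((V.valuation_le_one_iff _).1 hz1.le)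
      rwa [ValuationSubring.mem_nonunits_iff] at h1
    have hse : ∀ x, σ (e x) = e x := by
      intro x
      apply hroot
      by_cases hx : e x = 0
      · exact Or.inl hx
      · exact Or.inr (her x hx)
    -- `c³` is `± 1` modulo `3`
    have hc3 : c ^ 3 - η ^ 3 ∈ idl (A := A) (B := B) 3 := by
      have h1 : c ^ 3 - η ^ 3 = (c ^ 2 + c * η + η ^ 2) * (c - η) := by ring
      rw [h1]
      exact Ideal.mul_mem_left _ _ hcη
    -- the cube of `σ`
    obtain ⟨s3, hs3⟩ : ∃ s3 : ℂ ≃+* ℂ, ∀ z, s3 z = σ (σ (σ z)) :=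
      ⟨(σ.trans σ).trans σ, fun z => rfl⟩
    have hs3f : FixK A B s3 := by
      show s3 (wC A B) = wC A B
      rw [hs3, hσ.fix, hσ.fix, hσ.fix]
    have hs3i : ∀ y ∈ RFE (idl (A := A) (B := B) (2 * m')), y ∈ V → s3 y - y ∈ V.nonunits := by
      intro y hy hyV
      have hn : ∀ y ∈ F, y ∈ V → V.valuation (σ y - y) < 1 ∧ σ y ∈ F ∧ σ y ∈ V := by
        intro y hy hyV
        have h1 := hσ.iner y hy hyV
        rw [ValuationSubring.mem_nonunits_iff] at h1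
        refine ⟨h1, hσ.stab y hy, ?_⟩
        have h3 : σ y = (σ y - y) + y := by ring
        rw [h3]
        exact V.add_mem _ _ ((V.valuation_le_one_iff _).1 h1.le) hyV
      obtain ⟨a1, a2, a3'⟩ := hn y (hEF hy) hyV
      obtain ⟨b1, b2, b3⟩ := hn _ a2 a3'
      obtain ⟨c1, -, -⟩ := hn _ b2 b3
      rw [ValuationSubring.mem_nonunits_iff, hs3]
      have h3 : σ (σ (σ y)) - y = (σ (σ (σ y)) - σ (σ y)) + (σ (σ y) - σ y) + (σ y - y) := by
        ring
      rw [h3]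
      exact lt_of_le_of_lt (V.valuation.map_add _ _) (max_lt
        (lt_of_le_of_lt (V.valuation.map_add _ _) (max_lt c1 b1)) a1)
    have hs3t : ∀ y ∈ RFE (idl (A := A) (B := B) 3), s3 y = y := by
      intro y hy
      unfold RFE at hy
      induction hy using IntermediateField.adjoin_induction with
      | mem x hx =>
        obtain ⟨b, L, om, hLn, rfl | ⟨z, hzT, hz0, rfl⟩⟩ := hx
        · unfold kapE
          rw [hLn.nrm.g2, hLn.nrm.g3]
          unfold g2E g3E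
          split_ifs
          · rw [add_zero, map_ofNat]
          · rw [zero_add, map_neg, map_ofNat]
        · have h3z : ((3 : ℕ) : ℂ) * z ∈ L.lattice := by
            have h1 := hzT _ (natCast_mem_idl 3)
            rwa [MUX.emb_natCast hQ] at h1
          have hmz : (m : ℂ) * z ∈ L.lattice := by
            obtain ⟨k, rfl⟩ := h3m3
            have h1 := nsmul_mem h3z k
            rw [nsmul_eq_mul] at h1
            have e1 : ((3 * k : ℕ) : ℂ) * z = (k : ℂ) * (((3 : ℕ) : ℂ) * z) := by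
              push_cast; ring
            rw [e1]
            exact h1
          obtain ⟨-, h4⟩ := act3 hQ hLn.toIsLI (hact b L om hLn) hmz hz0
          show s3 (L.weierstrassP z) = L.weierstrassP z
          rw [hs3, h4, (wp_cong hQ hLn.toIsLI hc3 h3z).1]
          rcases hη3 with h5 | h5
          · rw [h5, MUX.emb_one hQ, one_mul]
          · rw [h5, MUX.emb_neg hQ, MUX.emb_one hQ, neg_one_mul, L.weierstrassP_neg]
      | algebraMap x => exact Pool.Agent.MUXC.FGL.fix hs3f _ x.2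
      | add x y _ _ hx hy => rw [map_add, hx, hy]
      | inv x _ hx => rw [map_inv₀, hx]
      | mul x y _ _ hx hy => rw [map_mul, hx, hy]
    have hfix := (hR A B V hE hS.hB hS.hV hT).2 m' hm'0 hm'2 h3m s3 hs3f hs3i hs3t
    -- `c³` is `± 1` modulo `2 m'`
    have hm2 : 2 ≤ 2 * m' := by omega
    have hL0 : IsNE (⊤ : Ideal (OO A B)) (R.L R.i0) (R.om R.i0) := by
      have h1 := hL
      rw [R.b0] at h1
      exact h1
    have hmC : ((2 * m' : ℕ) : ℂ) ≠ 0 := by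
      have : 2 * m' ≠ 0 := by omega
      exact_mod_cast this
    have hzl : ((2 * m' : ℕ) : ℂ) * (R.om R.i0 / ((2 * m' : ℕ) : ℂ)) ∈ (R.L R.i0).lattice := by
      rw [mul_div_cancel₀ _ hmC]
      exact (hL0.mem _).2 ⟨1, trivial, by rw [MUX.emb_one hQ, mul_one]⟩
    have hz0 : R.om R.i0 / ((2 * m' : ℕ) : ℂ) ∉ (R.L R.i0).lattice := by
      intro h
      obtain ⟨x, -, hx⟩ := (hL0.mem _).1 h
      have h1 : emb (1 : OO A B) = emb (((2 * m' : ℕ) : OO A B) * x) := by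
        rw [MUX.emb_mul hQ, MUX.emb_natCast hQ, MUX.emb_one hQ]
        rw [div_eq_iff hmC] at hx
        apply mul_left_cancel₀ hom0
        linear_combination hx
      have h3 := MUX.emb_inj hQ h1
      have h4 : (1 : OO A B) ∈ idl (A := A) (B := B) (2 * m') := by
        rw [h3]
        exact Ideal.mul_mem_right _ _ (natCast_mem_idl _)
      rw [mem_idl_iff] at h4
      have h5 : ((2 * m' : ℕ) : ℤ) ∣ 1 := h4.1
      have := Int.le_of_dvd one_pos h5
      omega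
    have hmz : (m : ℂ) * (R.om R.i0 / ((2 * m' : ℕ) : ℂ)) ∈ (R.L R.i0).lattice := by
      obtain ⟨k, hk⟩ := hmm
      have h1 := nsmul_mem hzl k
      rw [nsmul_eq_mul] at h1
      have e1 : (m : ℂ) * (R.om R.i0 / ((2 * m' : ℕ) : ℂ)) =
          (k : ℂ) * (((2 * m' : ℕ) : ℂ) * (R.om R.i0 / ((2 * m' : ℕ) : ℂ))) := by
        rw [hk]
        push_cast
        ring
      rw [e1]
      exact h1
    obtain ⟨h6, h7⟩ := act3 hQ hL.toIsLI hA hmz hz0
    have hpm1 := cong_pm hQ hm2 (σ := s3) hL0 (c := c ^ 3) (by rw [hs3, h7]) h6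
      (hfix _ (wp_mem hQ hL hz0 hzl))
    -- `ε³ = 1`
    have hsig : ∃ s : ℤ, (s = 1 ∨ s = -1) ∧ c ^ 3 - (s : OO A B) ∈
        idl (A := A) (B := B) (2 * m') := by
      rcases hpm1 with h | h
      · exact ⟨1, Or.inl rfl, by rw [Int.cast_one]; exact h⟩
      · exact ⟨-1, Or.inr rfl, by rw [Int.cast_neg, Int.cast_one, sub_neg_eq_add]; exact h⟩
    obtain ⟨s, hs, hcs⟩ := hsig
    have hec : e c ^ 3 = (s : ℂ) := by
      have h1 : e c ^ 3 = e (c ^ 3) := by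
        rw [pow_succ c, pow_two c, he.mul, he.mul]
        ring
      rw [h1, he.per _ _ (idl_mono hpm hcs)]
      rcases hs with rfl | rfl
      · rw [Int.cast_one, Int.cast_one, he.one]
      · rw [Int.cast_neg, Int.cast_one, Int.cast_neg, Int.cast_one, he.neg]
    have hηs : η ^ 3 = (s : OO A B) := by
      have h1 := Ideal.sub_mem _ (idl_mono h3m2 hcs) hc3
      have h3 : c ^ 3 - (s : OO A B) - (c ^ 3 - η ^ 3) = η ^ 3 - (s : OO A B) := by ring
      rw [h3] at h1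
      rcases hη3 with h5 | h5 <;> rcases hs with rfl | rfl
      · rw [h5, Int.cast_one]
      · exfalso
        rw [h5, mem_idl_iff] at h1
        have h4 : (3 : ℤ) ∣ 1 - (-1) := h1.1
        omega
      · exfalso
        rw [h5, mem_idl_iff] at h1
        have h4 : (3 : ℤ) ∣ -1 - 1 := h1.1
        omega
      · rw [h5, Int.cast_neg, Int.cast_one]
    refine ⟨e c * (emb η)⁻¹, ?_, fun q hq => ?_⟩
    · rw [mul_pow, hec, inv_pow, ← MUX.emb_pow hQ, hηs, MUX.emb_intCast hQ]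
      rcases hs with rfl | rfl <;> norm_num
    · have h1 := valE hQ hL.toIsLI hm0 hA hz he.toIsEI hgt
        (idl_mono (hpm.trans hmm) (natCast_mem_idl m)) hcopb hse q.1 q.2
        (dn_mono hdvd (hSD0 q hq).1) (dn_mono hdvd (hSD0 q hq).2)
      have hσU : σ U = U / emb η := by
        rw [eq_div_iff hη0, mul_comm]
        exact hsu
      have h3 : ∀ q, Q q = PhiI (R.b R.i0) e q.1 q.2 / R.om R.i0 / U := by
        intro q
        rw [hQdef]
        field_simp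
      rw [h3, map_div₀, hσU]
      nth_rewrite 2 [← h1]
      field_simp
  have hi0 : ∀ i, i = R.i0 := one_elt hE R
  have hQU : ∀ x y, PhiKE R e ka x y / (u * R.om R.i0) = ka R.i0 * a3 * Q (x, y) := by
    intro x y
    unfold PhiKE
    rw [Finset.sum_eq_single R.i0 (fun i _ hi => absurd (hi0 i) hi)
      (fun h => absurd (Finset.mem_univ _) h), hQdef, hU]
    field_simp
  have hvk : V.valuation (ka R.i0) = 1 := NST.RTU.v_root h2r0 (hka R.i0)
  by_cases hS0 : ∀ q ∈ S, Q q = 0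
  · -- all values are zero
    refine ⟨1, KIn A B V F, 0, by norm_num, fun x y => ⟨0, (KIn A B V F).zero_mem, ?_⟩,
      fun w hw hw1 => hunf w hw hw1, by rw [map_one, one_pow, pow_zero, one_mul]⟩
    have h1 : AddSubgroup.closure (Q '' (S : Set (OnePoint ℚ × OnePoint ℚ))) ≤ ⊥ := by
      rw [AddSubgroup.closure_le]
      rintro _ ⟨q, hq, rfl⟩
      exact hS0 q hq
    have h3 : Q (x, y) = 0 := h1 (hgen' x y)
    rw [hQU, h3, mul_zero, mul_zero]
  push Not at hS0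
  obtain ⟨q0, hq0, hq00⟩ := hS0
  -- the quotients
  have hquo : ∀ q ∈ S, Q q / Q q0 ∈ KIn A B V F := by
    intro q hq
    refine ⟨F.div_mem (hQF q hq) (hQF q0 hq0), fun σ hσ => ?_⟩
    obtain ⟨ε, hε, h1⟩ := hkey σ hσ
    have hε0 : ε ≠ 0 := by
      rintro rfl
      norm_num at hε
    have h3 := h1 q hq
    have h4 := h1 q0 hq0
    rw [map_div₀]
    nth_rewrite 2 [← h3]
    nth_rewrite 2 [← h4]
    rw [mul_div_mul_left _ _ hε0]
  have hcub : Q q0 ^ 3 ∈ KIn A B V F := by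
    refine ⟨F.pow_mem (hQF q0 hq0) 3, fun σ hσ => ?_⟩
    obtain ⟨ε, hε, h1⟩ := hkey σ hσ
    have h4 := h1 q0 hq0
    rw [map_pow]
    nth_rewrite 2 [← h4]
    rw [mul_pow, hε, one_mul]
  obtain ⟨k, hk⟩ := disc h2 (KIn A B V F) (fun w hw hw1 => hunf w hw hw1) hcub
    ((hQalg q0).pow 3) (pow_ne_zero 3 hq00)
  -- `k = 3 l - i`
  obtain ⟨l, i, hi, hkl⟩ : ∃ (l : ℤ) (i : ℕ), i ≤ 2 ∧ k = 3 * l - i := by
    refine ⟨(k + 2) / 3, (3 * ((k + 2) / 3) - k).toNat, ?_, ?_⟩ <;> omega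
  have h2K : (2 : ℂ) ∈ KIn A B V F := by
    have := natCast_mem (KIn A B V F) 2
    exact_mod_cast this
  have h2l : (2 : ℂ) ^ l ∈ KIn A B V F := zpow_mem h2K l
  have h2l0 : (2 : ℂ) ^ l ≠ 0 := zpow_ne_zero _ two_ne_zero
  refine ⟨ka R.i0 * a3 * Q q0 / 2 ^ l, KIn A B V F, i, hi, fun x y => ?_,
    fun w hw hw1 => hunf w hw hw1, ?_⟩
  · have hle : AddSubgroup.closure (Q '' (S : Set (OnePoint ℚ × OnePoint ℚ))) ≤
        ((KIn A B V F).toAddSubgroup).map (AddMonoidHom.mulLeft (Q q0)) := by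
      rw [AddSubgroup.closure_le]
      rintro _ ⟨q, hq, rfl⟩
      refine ⟨Q q / Q q0, hquo q hq, ?_⟩
      rw [AddMonoidHom.coe_mulLeft]
      field_simp
    obtain ⟨w', hw', hw2⟩ := hle (hgen' x y)
    refine ⟨2 ^ l * w', (KIn A B V F).mul_mem h2l hw', ?_⟩
    rw [hQU, ← hw2, AddMonoidHom.coe_mulLeft]
    field_simp
  · have h1 : V.valuation (ka R.i0 * a3 * Q q0 / 2 ^ l) ^ 3 =
        V.valuation (2 : ℂ) ^ (-(i : ℤ)) := by
      rw [map_div₀, map_mul, map_mul, hvk, hG.v3, one_mul, one_mul, div_pow, ← map_pow, hk,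
        map_zpow₀, hkl]
      rw [← zpow_natCast (V.valuation (2 : ℂ) ^ l) 3, ← zpow_mul, ← zpow_sub₀ hv2]
      congr 1
      push_cast
      ring
    rw [h1, zpow_neg, zpow_natCast]
    exact inv_mul_cancel₀ (pow_ne_zero _ hv2)

end

end Pool.Agent.ME2
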