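import Pool.Agent.ME.StXEE
import Pool.Agent.N2.DefsT

/-!
# ME2: `p = 2` for the exceptional field `ℚ(√-3)` (`2` is inert): definitions and final statements of the blocks (helper34)

Twin of `Pool/Agent/N2/DefsT.lean` in the frame of `Pool/Agent/ME/DefsE.lean` (helper21), `(A, B) = (-1, 1)`, `w = exp(2 π i/6)`. The normalised lattice `L = Om O` has `(g₂, g₃) = (0, -4)`, the curve
`y² = x³ + 1`, `x = ℘`, `y = ℘'/2`; the points of order two are rational over `k`, all levels are even. `O^* → (O/2)^*` is onto; the pairs `(i, x)` of `XXE` have `x ≡ 1` modulo `2`.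
Good supersingular model at `V | 2` (`GoodT` of `DefsT.lean`, it depends only on the lattice): the points of order three have `x = 0` or `x³ = -4`, so `u² = ℘(w2) - ℘(w1)` has additive valuation `2/3`,
`u² ∈ RFE (3)`; for `e = 0`: `u⁶ = -4`, `a1 = 0`, `a3² = -1`.
For odd `f` divisible by `3` the field `RFE (2 f)` is the ray class field modulo `2 f`; its inertia group at `V` has order three and acts faithfully on `u² = -4^(1/3)`: an automorphism of the inertia group which fixes the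
`x`-coordinates of the points of order three is trivial. The values of `v` on `RFE (2 f)` are in `(1/3) ℤ`. For characters `e` with `e(ζ x) = ζ e(x)` (`ζ ∈ O^*`) the sum of `e(x) ee(x Om/m)` over the `x ≡ 1` modulo `2` is `1/3` of the
sum over all `x`; `3` is a unit at `V`.

* `SetT3` : standing hypotheses. `f` odd, divisible by `9`.
* `TT2E`, `InCycE`, `HalfSE` : twins of `TT2`, `InCyc`, `HalfS`.
* `T3_RFIN`, `T3_EFIN`, `T3_TYF`, `T3_GPT`, `T3_HFIN` : twins of `S2_RFIN`, `S2_EFIN`, `S2_TYF`, `S2_GPT`, `S2_HFIN`; `S2_KEY0` is used as it is.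
-/

set_option autoImplicit false

namespace Pool.Agent.ME2

open _root_.MU3 Pool.Agent.MU3A Pool.Agent.MU3B Pool.Agent.RI Pool.Agent.MUX Pool.Agent.MUXE
  Pool.Agent.MuSym Pool.Agent.MUXH Pool.Agent.NS OnePoint
open Pool.Agent.ME hiding ActE
open Pool.Agent.N2 (GoodT et yt WT IsTei2 OddT PTq)

noncomputable section

/-- `D = -3`, `2` is inert: the standing hypotheses -/
structure SetT3 (A B : ℤ) (V : ValuationSubring ℂ) (f : ℕ) : Prop where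
  case : CaseE A B
  hB : B = 1
  hV : OverI V (idl (A := A) (B := B) 2)
  f0 : f ≠ 0
  fp : ¬ 2 ∣ f
  fD : 3 * absD A B ∣ (f : ℤ)

section
variable {A B : ℤ} {n : ℕ} {ι : Type}

/-- half systems of `XXE` modulo `x ↦ -x` -/
structure HalfSE (R : RepsE A B n ι) (m : ℕ) {D : IntermediateField ℚ ℂ} (h : kk A B ≤ D)
    (τ : letI := algC h; D ≃ₐ[kk A B] D)
    (S : Finset (ι × (OO A B ⧸ idl (A := A) (B := B) m))) : Prop where
  sub : ∀ q ∈ S, q ∈ XXE R m h τ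
  cov : ∀ q ∈ XXE R m h τ, q ∈ S ∨ (q.1, -q.2) ∈ S
  dis : ∀ q ∈ S, (q.1, -q.2) ∉ S

/-- `T(τ)` with the weights `om` -/
def TT2E (R : RepsE A B n ι) (om : OO A B → ℂ) (m a : ℕ) {D : IntermediateField ℚ ℂ}
    (h : kk A B ≤ D) (τ : letI := algC h; D ≃ₐ[kk A B] D) : ℂ :=
  1 / 2 * ∑ᶠ q ∈ XXE R m h τ, om (Quotient.out q.2) * muXE R q.1 *
    dlX (R.L q.1) a (ptE R m q.1 (Quotient.out q.2))

end

/-- every automorphism which is trivial on `RFE (4 f)` and on the `M`-th roots of unity is trivial on `D` -/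
def InCycE (A B : ℤ) (f M : ℕ) (D : IntermediateField ℚ ℂ) : Prop :=
  ∀ σ : ℂ ≃+* ℂ, FixK A B σ → (∀ y ∈ RFE (idl (A := A) (B := B) (lvX 2 f 0)), σ y = y) →
    (∀ z : ℂ, z ^ M = 1 → σ z = z) → ∀ y ∈ D, σ y = y

/-! ## Final statements of the blocks -/

/-- (RFIN) the reduction of the normalised lattice, and uniqueness in the form: an automorphism in the inertia group of
`RFE (idl (2 f))` (`f` odd, divisible by `3`) which fixes the `x`-coordinates of the points of order three is trivial on `RFE (idl (2 f))`. -/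
def T3_RFIN : Prop :=
  ∀ (A B : ℤ) (V : ValuationSubring ℂ), CaseE A B → B = 1 →
    OverI V (idl (A := A) (B := B) 2) → TorXE A B →
    (∀ (b : Ideal (OO A B)) (L : PeriodPair) (om : ℂ), IsNE b L om →
      ∃ u e a1 a3 : ℂ, GoodT V L u e a1 a3 ∧ u ^ 2 ∈ RFE (idl (A := A) (B := B) 3) ∧
        e ∈ RFE (idl (A := A) (B := B) 3)) ∧
    ∀ f : ℕ, f ≠ 0 → ¬ 2 ∣ f → 3 ∣ f → ∀ σ : ℂ ≃+* ℂ, FixK A B σ →
      (∀ y ∈ RFE (idl (A := A) (B := B) (2 * f)), y ∈ V → σ y - y ∈ V.nonunits) →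
      (∀ y ∈ RFE (idl (A := A) (B := B) 3), σ y = y) →
      ∀ y ∈ RFE (idl (A := A) (B := B) (2 * f)), σ y = y

/-- (EFIN) the improved criterion: `v(T(τ)/u) ≥ 1/2`, and `v ≥ 3/2` at squares. `C` is a conjugate family, products of
`Θ_a` over half systems of `XXE`. -/
def T3_EFIN : Prop :=
  ∀ (A B : ℤ) (V : ValuationSubring ℂ) (f : ℕ), SetT3 A B V f → TorXE A B →
    ∀ (ι : Type) [Fintype ι] (R : RepsE A B (2 * f) ι) (u e a1 a3 : ℂ),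
    GoodT V (R.L R.i0) u e a1 a3 → ∀ om : OO A B → ℂ, OddT f V om →
    ∀ n : ℕ, 2 ≤ n →
    ∀ (H : ι → Finset ℂ), (∀ i, IsHalf (R.L i) (aX 2 f : ℂ) (H i)) →
    ∀ (D : IntermediateField ℚ ℂ) (h : kk A B ≤ D),
      (∀ y ∈ D, y ∈ RFE (idl (A := A) (B := B) (lvX 2 f n))) → InCycE A B f (2 ^ (n + 2)) D →
    letI := algC h
    ∀ (C : (D ≃ₐ[kk A B] D) → ℂ),
    (∀ τ : D ≃ₐ[kk A B] D, ∃ y : D, (y : ℂ) = C 1 ∧ ((τ y : D) : ℂ) = C τ) →
    (∀ τ : D ≃ₐ[kk A B] D, ∃ S, HalfSE R (lvX 2 f n) h τ S ∧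
      C τ = ∏ q ∈ S, ThetaH (R.L q.1) (H q.1) (ptE R (lvX 2 f n) q.1 (Quotient.out q.2))) →
    (∀ τ : D ≃ₐ[kk A B] D,
      V.valuation (TT2E R om (lvX 2 f n) (aX 2 f) h τ / u) ^ 2 ≤ V.valuation (2 : ℂ)) ∧
    ∀ g : (D ≃ₐ[kk A B] D) → ℤ,
      (∃ y ∈ D, y ^ 2 = ∏ᶠ τ : D ≃ₐ[kk A B] D, C τ ^ g τ) →
      ∀ τ' : D ≃ₐ[kk A B] D,
        V.valuation ((∑ᶠ τ : D ≃ₐ[kk A B] D, (g τ : ℂ) *
          TT2E R om (lvX 2 f n) (aX 2 f) h (τ * τ')) / u) ^ 2 ≤ V.valuation (2 : ℂ) ^ 3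

/-- (TYF) the type of the values: all values `PhiKE/(u om)` are in `pi KI`, `v` is unramified on the field `KI`, and
`v(pi)³ v(2)^i = 1` with `i ≤ 2`. -/
def T3_TYF : Prop :=
  ∀ (A B : ℤ) (V : ValuationSubring ℂ) (f : ℕ), SetT3 A B V f → TorXE A B →
    ∀ (ι : Type) [Fintype ι] (R : RepsE A B (2 * f) ι) (u el a1 a3 : ℂ),
    GoodT V (R.L R.i0) u el a1 a3 →
    ∀ e : OO A B → ℂ, IsEIE (idl (A := A) (B := B) (2 * f)) e → ∀ r : ℕ, ¬ 2 ∣ r →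
    (∀ x, e x ≠ 0 → e x ^ (2 * r) = 1) → ∀ kk : ι → ℂ, (∀ i, kk i ^ (2 * r) = 1) →
    ∃ (pi : ℂ) (KI : Subfield ℂ) (i : ℕ), i ≤ 2 ∧
      (∀ x y, ∃ w ∈ KI, PhiKE R e kk x y / (u * R.om R.i0) = pi * w) ∧
      (∀ w ∈ KI, V.valuation w < 1 → V.valuation w ≤ V.valuation (2 : ℂ)) ∧
      V.valuation pi ^ 3 * V.valuation (2 : ℂ) ^ i = 1

/-- (GPT) Theorem G for the translates `P_(1/16)` and `P_(1/4, 1/16)` of `P = PhiKE R e kk / (u om_(i0))`: the first coefficients are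
`3 (1 - ζ_16)` (`v = 1/8`) and `3 (1 - i)(1 - ζ_16)` (`v = 5/8`). -/
def T3_GPT : Prop :=
  ∀ (A B : ℤ) (V : ValuationSubring ℂ) (f : ℕ), SetT3 A B V f → TorXE A B →
    ∀ (ι : Type) [Fintype ι] (R : RepsE A B (2 * f) ι) (u el a1 a3 : ℂ),
    GoodT V (R.L R.i0) u el a1 a3 →
    ∀ e : OO A B → ℂ, IsEIE (idl (A := A) (B := B) (2 * f)) e → ∀ r : ℕ, r ≠ 0 →
    (∀ x, e x ≠ 0 → e x ^ r = 1) → ∀ kk : ι → ℂ, V.valuation (kk R.i0) = 1 →
    ∀ N' : ℕ, N' ≠ 0 → absD A B * ((2 * f : ℕ) : ℤ) ^ 2 ∣ (N' : ℤ) →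
    (∃ a b c d : ℤ, a * d - b * c = 1 ∧ (N' : ℤ) ∣ c ∧ (N' : ℤ) ∣ d - 1 ∧
      V.valuation (2 : ℂ) ≤ V.valuation (PTq 16 (fun x y => PhiKE R e kk x y / (u * R.om R.i0)) ∞
        (mob a b c d ∞)) ^ 8) ∧
    ∃ a b c d : ℤ, a * d - b * c = 1 ∧ (N' : ℤ) ∣ c ∧ (N' : ℤ) ∣ d - 1 ∧
      V.valuation (2 : ℂ) ^ 5 ≤ V.valuation (PTq 16 (PTq 4
        (fun x y => PhiKE R e kk x y / (u * R.om R.i0))) ∞ (mob a b c d ∞)) ^ 8

/-- (HFIN) the character sums: for infinitely many levels `v < 3/2`. -/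
def T3_HFIN : Prop :=
  ∀ (A B : ℤ) (V : ValuationSubring ℂ) (f : ℕ), SetT3 A B V f → TorXE A B →
    ∀ (ι : Type) [Fintype ι] (R : RepsE A B (2 * f) ι) (u el a1 a3 : ℂ),
    GoodT V (R.L R.i0) u el a1 a3 →
    ∀ e : OO A B → ℂ, IsEIE (idl (A := A) (B := B) (2 * f)) e → ∀ r : ℕ, ¬ 2 ∣ r →
    (∀ x, e x ≠ 0 → e x ^ (2 * r) = 1) → ∀ kk : ι → ℂ, (∀ i, kk i ^ (2 * r) = 1) →
    ∀ n₀ : ℕ, ∃ n, n₀ ≤ n ∧
      V.valuation (2 : ℂ) ^ 3 < V.valuation ((1 / 2 * ∑ j ∈ Finset.range 2, (-1) ^ (1 - j) *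
        (STXE R (lvX 2 f n) (2 ^ (n + 2)) (aX 2 f) e kk (5 ^ j) +
          STXE R (lvX 2 f n) (2 ^ (n + 2)) (aX 2 f) e kk (-(5 ^ j)))) / u) ^ 2

end

end Pool.Agent.ME2
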