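import Pool.Agent.ME2.J_JFIN4
import Pool.Agent.ME2.Defs3
import Pool.Agent.NS.ZVex2

/-!
# ME: the final theorems for `D = -3, -4`, `p = 2, 3`, from the inputs of block J (helper21)

`E34_INPG` : `D = -4`, `p = 3`; `T3_INPG` : `D = -3`, `p = 2`; `T4_INPG` (`Defs4.lean`) : `D = -4`, `p = 2`. (`D = -3`, `p = 3` is in `ME/Z3All.lean`.)
-/

set_option autoImplicit false

open NumberField IsDedekindDomain

namespace Pool.Agent.ME2

open _root_.MU3 Pool.Agent.MU3 Pool.Agent.MU3A Pool.Agent.MU3B Pool.Agent.RI Pool.Agent.RID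
  Pool.Agent.MUX Pool.Agent.MUXK Pool.Agent.MUXE Pool.Agent.MUXJ Pool.Agent.NSZ
open Pool.Agent.ME hiding ActE

/-- (INPG) the inputs of block J for `D = -4`, `p = 3` -/
def E34_INPG : Prop :=
  ∀ (A B : ℤ) (V : ValuationSubring ℂ), CaseE A B → B = 0 →
    OverI V (idl (A := A) (B := B) 3) → TorXE A B →
    ∃ d : ℕ, d ≠ 0 ∧ ¬ 3 ∣ d ∧ 2 ∣ d ∧ InpG_E 3 d A B V

/-- (INPG) the inputs of block J for `D = -3`, `p = 2` -/
def T3_INPG : Prop :=
  ∀ (A B : ℤ) (V : ValuationSubring ℂ), CaseE A B → B = 1 →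
    OverI V (idl (A := A) (B := B) 2) → TorXE A B →
    ∃ d : ℕ, d ≠ 0 ∧ ¬ 2 ∣ d ∧ InpG_E 2 d A B V

/-- `3` is a prime element of `ℤ[i]` -/
theorem three_max4 {A B : ℤ} (hC : CaseE A B) (hB : B = 0) : (idl (A := A) (B := B) 3).IsMaximal := by
  have hA := hC.hA
  subst hB
  apply idl_max 3 Nat.prime_three
  intro a b h
  push_cast at h ⊢
  rw [hA] at h
  have hxy : (3 : ℤ) ∣ a ^ 2 + b ^ 2 := by
    have e : a ^ 2 + 0 * a * b - -1 * b ^ 2 = a ^ 2 + b ^ 2 := by ring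
    rwa [e] at h
  have hx : a % 3 = 0 ∨ a % 3 = 1 ∨ a % 3 = 2 := by omega
  have hy : b % 3 = 0 ∨ b % 3 = 1 ∨ b % 3 = 2 := by omega
  have hm : (a ^ 2 + b ^ 2) % 3 = 0 := Int.emod_eq_zero_of_dvd hxy
  rw [Int.add_emod, pow_two, pow_two, Int.mul_emod a a, Int.mul_emod b b] at hm
  rcases hx with hx | hx | hx <;> rcases hy with hy | hy | hy <;> rw [hx, hy] at hm <;>
    first
      | exact ⟨Int.dvd_of_emod_eq_zero hx, Int.dvd_of_emod_eq_zero hy⟩
      | (exfalso; norm_num at hm)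

/-- `2` is a prime element of `ℤ[ζ_3]` -/
theorem two_max3 {A B : ℤ} (hC : CaseE A B) (hB : B = 1) : (idl (A := A) (B := B) 2).IsMaximal := by
  have hA := hC.hA
  subst hB
  apply idl_max 2 Nat.prime_two
  intro a b h
  push_cast at h ⊢
  rw [hA] at h
  rcases Int.emod_two_eq_zero_or_one a with ha | ha <;>
    rcases Int.emod_two_eq_zero_or_one b with hb | hb
  · omega
  all_goals
    exfalso
    obtain ⟨c, hc⟩ := h
    have h3 : (a ^ 2 + 1 * a * b - -1 * b ^ 2) % 2 = 0 := by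
      rw [hc]
      omega
    rw [Int.sub_emod, Int.add_emod, Int.mul_emod (-1), pow_two, pow_two, Int.mul_emod a a,
      Int.mul_emod (1 * a) b, Int.mul_emod 1 a, Int.mul_emod b b, ha, hb] at h3
    norm_num at h3

/-- THE MAIN THEOREM, `D = -4`, `p = 3` -/
theorem z_main43 (hG : E34_INPG) (A B : ℤ) (hC : CaseE A B) (hB : B = 0)
    (F M K : IntermediateField ℚ ℂ) [FiniteDimensional ℚ M] (hF : kk A B ≤ F) (h : F ≤ M)
    (a : ℕ) (hT : TorU_E A B F) (hGal : IsGalois F (IntermediateField.extendScalars h))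
    (ha : Module.finrank F (IntermediateField.extendScalars h) = 3 ^ a) (hK : K ≤ M) :
    ∃ C : ℕ, ∀ (n : ℕ) (Q : IntermediateField ℚ ℂ), IsLayer 3 n Q →
      padicValNat 3 (classNo (K ⊔ Q)) ≤ C * (n + 1) ^ C := by
  have : Fact (Nat.Prime 3) := ⟨Nat.prime_three⟩
  have hCQ : MUX.CQ A B := hC.toCQ
  have hmax := three_max4 hC hB
  obtain ⟨V, hV⟩ := vex hCQ _ hmax
  have hTor := MEC.c_TORE A B hC
  obtain ⟨d, hd0, h3d, h2d, hI⟩ := hG A B V hC hB hV hTor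
  exact j_FING_E 3 1 d A B (idl 3) V (aboX 3 (Or.inr rfl) hCQ hmax V hV) hd0 h3d
    (fun _ => h2d) (MEZ.unrH_E hC V) hTor (MEZ.nlex_E hC) hI F M K hF h a hT hGal ha hK

/-- THE MAIN THEOREM, `D = -3`, `p = 2` -/
theorem z_main32 (hG : T3_INPG) (A B : ℤ) (hC : CaseE A B) (hB : B = 1)
    (F M K : IntermediateField ℚ ℂ) [FiniteDimensional ℚ M] (hF : kk A B ≤ F) (h : F ≤ M)
    (a : ℕ) (hT : TorU_E A B F) (hGal : IsGalois F (IntermediateField.extendScalars h))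
    (ha : Module.finrank F (IntermediateField.extendScalars h) = 2 ^ a) (hK : K ≤ M) :
    ∃ C : ℕ, ∀ (n : ℕ) (Q : IntermediateField ℚ ℂ), IsLayer 2 n Q →
      padicValNat 2 (classNo (K ⊔ Q)) ≤ C * (n + 1) ^ C := by
  have : Fact (Nat.Prime 2) := ⟨Nat.prime_two⟩
  have hCQ : MUX.CQ A B := hC.toCQ
  have hmax := two_max3 hC hB
  obtain ⟨V, hV⟩ := vex hCQ _ hmax
  have hTor := MEC.c_TORE A B hC
  obtain ⟨d, hd0, h2d, hI⟩ := hG A B V hC hB hV hTor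
  exact j_FING_E 2 1 d A B (idl 2) V (aboX 2 (Or.inl rfl) hCQ hmax V hV) hd0 h2d
    (fun h => by omega) (MEZ.unrH_E hC V) hTor (MEZ.nlex_E hC) hI F M K hF h a hT hGal ha hK

/-- THE MAIN THEOREM, `D = -4`, `p = 2` -/
theorem z_main42 (hKAP : T4_KAP) (hG : T4_INPG) (A B : ℤ) (hC : CaseE A B) (hB : B = 0)
    (F M K : IntermediateField ℚ ℂ) [FiniteDimensional ℚ M] (hF : kk A B ≤ F) (h : F ≤ M)
    (a : ℕ) (hT : TorU_E A B F) (hGal : IsGalois F (IntermediateField.extendScalars h))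
    (ha : Module.finrank F (IntermediateField.extendScalars h) = 2 ^ a) (hK : K ≤ M) :
    ∃ C : ℕ, ∀ (n : ℕ) (Q : IntermediateField ℚ ℂ), IsLayer 2 n Q →
      padicValNat 2 (classNo (K ⊔ Q)) ≤ C * (n + 1) ^ C := by
  have hCQ : MUX.CQ A B := hC.toCQ
  obtain ⟨P, hP, hmax⟩ := exists_isPN 2 Nat.prime_two A B 1 (by
    rw [hC.hA, hB]
    norm_num)
  obtain ⟨V, hV⟩ := vex hCQ _ hmax
  have hTor := MEC.c_TORE A B hC
  obtain ⟨d, hd0, h2d, hd, hκ⟩ := hKAP A B hC hB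
  exact j4_JFIN A B P V d hC hB hP hV hd0 h2d hTor (MEZ.nlex_E hC)
    (hG A B P V d hC hB hP hV hTor hd0 h2d hd hκ) F M K hF h a hT hGal ha hK

end Pool.Agent.ME2
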