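import Pool.Agent.ME2.Defs3
import Pool.Agent.N2.DefsR2
import Pool.Agent.ME.X.StJG

/-!
# ME2: `p = 2` for the exceptional field `ℚ(i)` (`2` is ramified): definitions and final statements of the blocks (helper77)

Twin of `Pool/Agent/N2/DefsR2.lean` (case `A ≡ 3` modulo 4, `dR A = 2`) in the frame of `Pool/Agent/ME/DefsE.lean`, `(A, B) = (-1, 0)`, `w = i`, `P = (1 + i)`. The normalised lattice `L = Om O` has `(g₂, g₃) = (4, 0)`,
the curve `y² = x³ - x`, `x = ℘`, `y = ℘'/2`, `x(i z) = -x(z)`. The points of order two are rational over `k`, all levels are even, `O^* → (O/2)^*` is onto, the pairs of `XXE` have `x ≡ 1` modulo 2. Class number one.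
Good supersingular model at `V | 2` (`GoodQ` of `DefsR2.lean`, it depends only on the lattice): `u² = ℘(w2) - ℘(w1) ∈ RFE (3)`, `v(u)² = v 2` (multiplicatively) since `g₂³ = 64 = u¹² a3³ (a1³ - 27 a3)`. For odd `f` divisible by 3 the field
`RFE (2 f)` is the ray class field modulo `2 f`; its inertia group at `V` has order two, acts as `x ↦ -x` on the `x`-coordinates of the points of order three (`x² = 1 ± 2/√3`) and is faithful on them; the values of `v` on `RFE (2 f)` are in `(1/4) ℤ`.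
`K = K₀` (the degree of `K₀ / k` is odd, `i ∈ k`, `√2 ∉ K₀`), so the degrees are as in `SetX` (no shift): `InpG_E 2 d`.

The characters: `e (ζ x) = ζ e x` for the four units (`IsEIE`), `e = e0 κ`, `e0` of odd order, trivial on the units, `κ` a character of `(O/q₁)^*` with values in `μ_4`, `κ ζ = ζ` (`q₁` a prime of degree one above `q₁ ≡ 5` modulo 8, for instance 5). `r` odd: `e^(4 r) = 1`. `i ≡ 1` modulo `m_V`.
THE FACTOR 1/2: the sum over `x ≡ 1` modulo 2 is `1/2` of the sum over all `x`; so `1/2 * ∑ (ST(25^j) + ST(-(25^j)))` of `DefsR2.lean` becomes `1/4 * ∑ ..` (`ST` for all `x`), and `PhiKE/2` (first coefficient `kk i0`) takes the place of `PhiK`. The numbers are those of `DefsR2.lean` for `dR A = 2`: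
EFIN `5/4`, `7/4` (for sums over `XXE` with the factor `1/2`, `TT2E`); TYF: `PhiKE/(u om)` in `pi KI`; GPT: `v(PhiKE_(1/8, 1/32)/2) < 0`; HFIN: `v(1/4 ∑ ..) < 7/4`.

* `SetT4` : standing hypotheses. `f` odd, divisible by 3.
* `KapF4`, `OddF4` : twins of `KapF`, `OddF`; `OddQ`, `GoodQ` are used as they are, `HalfSE`, `TT2E`, `InCycE` are in `Defs3.lean`.
* `T4_KAP`, `T4_RFIN`, `T4_EFIN`, `T4_TYF`, `T4_GPT`, `T4_HFIN`, `T4_INPG` : twins of `SQ_KAP`, ..; `S2_KEY0` is used as it is.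
-/

set_option autoImplicit false

namespace Pool.Agent.ME2

open _root_.MU3 Pool.Agent.MU3A Pool.Agent.MU3B Pool.Agent.RI Pool.Agent.MUX Pool.Agent.MUXE
  Pool.Agent.MuSym Pool.Agent.MUXH Pool.Agent.NS Pool.Agent.MUXK Pool.Agent.MUXJ OnePoint
open Pool.Agent.ME hiding ActE
open Pool.Agent.N2 (GoodQ et yt WT OddQ dR PTq)

noncomputable section

/-- `D = -4`: a character modulo `f` with values in `μ_4`, the identity on the units -/
structure KapF4 {A B : ℤ} (f : ℕ) (κ : OO A B → ℂ) : Prop where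
  one : κ 1 = 1
  mul : ∀ x y, κ (x * y) = κ x * κ y
  unit : ∀ z : OO A B, IsUnit z → κ z = emb z
  per : ∀ x y, x - y ∈ idl (A := A) (B := B) f → κ x = κ y
  pow : ∀ x, IsCoprime (sp x) (idl (A := A) (B := B) f) → κ x ^ 4 = 1

/-- `D = -4`, `2 = P²`: the standing hypotheses -/
structure SetT4 (A B : ℤ) (P : Ideal (OO A B)) (V : ValuationSubring ℂ) (f : ℕ) : Prop where
  case : CaseE A B
  hB : B = 0
  hP : IsPN 2 P
  hV : OverI V P
  f0 : f ≠ 0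
  fp : ¬ 2 ∣ f
  fD : 3 * absD A B ∣ 8 * (f : ℤ)
  kap : ∃ κ : OO A B → ℂ, KapF4 f κ

/-- the characters: `e (ζ x) = ζ e x`, extended by zero to the elements not prime to `2 f`, of conductor dividing `f` -/
structure OddF4 {A B : ℤ} (f : ℕ) (e : OO A B → ℂ) : Prop extends
    IsEIE (idl (A := A) (B := B) (2 * f)) e where
  cond : ∀ x y, IsCoprime x ((2 * f : ℕ) : OO A B) → IsCoprime y ((2 * f : ℕ) : OO A B) →
    x - y ∈ idl (A := A) (B := B) f → e x = e y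

/-! ## Final statements of the blocks -/

/-- (KAP) the level `d` (`15`). -/
def T4_KAP : Prop :=
  ∀ A B : ℤ, CaseE A B → B = 0 → ∃ d : ℕ, d ≠ 0 ∧ ¬ 2 ∣ d ∧ 3 * absD A B ∣ 8 * (d : ℤ) ∧
    ∃ κ : OO A B → ℂ, KapF4 d κ

/-- (RFIN, helper77) the reduction of the normalised lattices; an automorphism in the inertia group of `RFE (idl (2 f))` (`f` odd, divisible by 3) acts on the
`x`-coordinates of the points of order three as `1` or as `-1`, and if it fixes them it is trivial on `RFE (idl (2 f))`. -/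
def T4_RFIN : Prop :=
  ∀ (A B : ℤ) (P : Ideal (OO A B)) (V : ValuationSubring ℂ), CaseE A B → B = 0 → IsPN 2 P →
    OverI V P → TorXE A B →
    (∀ (b : Ideal (OO A B)) (L : PeriodPair) (om : ℂ), IsNE b L om →
      ∃ u e a1 a3 : ℂ, GoodQ V L u e a1 a3 ∧ u ^ 2 ∈ RFE (idl (A := A) (B := B) 3) ∧
        e ∈ RFE (idl (A := A) (B := B) 3)) ∧
    ∀ f : ℕ, f ≠ 0 → ¬ 2 ∣ f → 3 ∣ f → ∀ σ : ℂ ≃+* ℂ, FixK A B σ →
      (∀ y ∈ RFE (idl (A := A) (B := B) (2 * f)), y ∈ V → σ y - y ∈ V.nonunits) →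
      ((∀ y ∈ RFE (idl (A := A) (B := B) 3), σ y = y) →
        ∀ y ∈ RFE (idl (A := A) (B := B) (2 * f)), σ y = y) ∧
      ((∀ y ∈ RFE (idl (A := A) (B := B) 3), σ y = y) ∨
        ∀ (b : Ideal (OO A B)) (L : PeriodPair) (om : ℂ), IsNE b L om →
          ∀ w ∉ L.lattice, 3 * w ∈ L.lattice → σ (L.weierstrassP w) = -L.weierstrassP w)

/-- (EFIN) the criterion: additively `v(T(τ)/u) ≥ 5/4`, and `v ≥ 7/4` at squares (`dR A = 2`). `C` is a conjugate family,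
products of `Θ_a` over half systems of `XXE`. -/
def T4_EFIN : Prop :=
  ∀ (A B : ℤ) (P : Ideal (OO A B)) (V : ValuationSubring ℂ) (f : ℕ), SetT4 A B P V f →
    TorXE A B → ∀ (ι : Type) [Fintype ι] (R : RepsE A B (2 * f) ι) (u e a1 a3 : ℂ),
    GoodQ V (R.L R.i0) u e a1 a3 → ∀ om : OO A B → ℂ, OddQ f V om →
    ∀ n : ℕ, 5 ≤ n →
    ∀ (H : ι → Finset ℂ), (∀ i, IsHalf (R.L i) (aX 2 f : ℂ) (H i)) →
    ∀ (D : IntermediateField ℚ ℂ) (h : kk A B ≤ D),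
      (∀ y ∈ D, y ∈ RFE (idl (A := A) (B := B) (lvX 2 f n))) → InCycE A B f (2 ^ (n + 2)) D →
    letI := algC h
    ∀ (C : (D ≃ₐ[kk A B] D) → ℂ),
    (∀ τ : D ≃ₐ[kk A B] D, ∃ y : D, (y : ℂ) = C 1 ∧ ((τ y : D) : ℂ) = C τ) →
    (∀ τ : D ≃ₐ[kk A B] D, ∃ S, HalfSE R (lvX 2 f n) h τ S ∧
      C τ = ∏ q ∈ S, ThetaH (R.L q.1) (H q.1) (ptE R (lvX 2 f n) q.1 (Quotient.out q.2))) →
    (∀ τ : D ≃ₐ[kk A B] D,
      V.valuation (TT2E R om (lvX 2 f n) (aX 2 f) h τ / u) ^ 4 ≤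
        V.valuation (2 : ℂ) ^ (2 * dR A + 1)) ∧
    ∀ g : (D ≃ₐ[kk A B] D) → ℤ,
      (∃ y ∈ D, y ^ 2 = ∏ᶠ τ : D ≃ₐ[kk A B] D, C τ ^ g τ) →
      ∀ τ' : D ≃ₐ[kk A B] D,
        V.valuation ((∑ᶠ τ : D ≃ₐ[kk A B] D, (g τ : ℂ) *
          TT2E R om (lvX 2 f n) (aX 2 f) h (τ * τ')) / u) ^ 4 ≤
            V.valuation (2 : ℂ) ^ (2 * dR A + 3)

/-- (TYF) the values: `PhiKE/(u om)` is in `pi KI`, `pi` a unit, the values of `v` on `KI` are in `(1/2) ℤ`; the same `pi`, `KI`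
for all `kk`. -/
def T4_TYF : Prop :=
  ∀ (A B : ℤ) (P : Ideal (OO A B)) (V : ValuationSubring ℂ) (f : ℕ), SetT4 A B P V f →
    TorXE A B → ∀ (ι : Type) [Fintype ι] (R : RepsE A B (2 * f) ι) (u el a1 a3 : ℂ),
    GoodQ V (R.L R.i0) u el a1 a3 →
    ∀ e : OO A B → ℂ, OddF4 f e → ∀ r : ℕ, ¬ 2 ∣ r → (∀ x, e x ≠ 0 → e x ^ (4 * r) = 1) →
    ∃ (pi : ℂ) (KI : Subfield ℂ),
      (∀ kk : ι → ℂ, (∀ i, kk i = 0 ∨ kk i ^ (4 * r) = 1) →
        ∀ x y, ∃ w ∈ KI, PhiKE R e kk x y / (u * R.om R.i0) = pi * w) ∧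
      (∀ w ∈ KI, V.valuation w < 1 → V.valuation w ^ 2 ≤ V.valuation (2 : ℂ)) ∧
      (∃ w ∈ KI, V.valuation w ^ 2 = V.valuation (2 : ℂ)) ∧ V.valuation pi = 1

/-- (GPT) Theorem G+ for the translate `P_(1/8, 1/32)` of `P = PhiKE R e kk / (2 u om_(i0))`: first coefficient `(1 - ζ_8)(1 - ζ_32)`,
`v = 5/16 < 1/3`. -/
def T4_GPT : Prop :=
  ∀ (A B : ℤ) (P : Ideal (OO A B)) (V : ValuationSubring ℂ) (f : ℕ), SetT4 A B P V f →
    TorXE A B → ∀ (ι : Type) [Fintype ι] (R : RepsE A B (2 * f) ι) (u el a1 a3 : ℂ),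
    GoodQ V (R.L R.i0) u el a1 a3 →
    ∀ e : OO A B → ℂ, IsEIE (idl (A := A) (B := B) (2 * f)) e → ∀ r : ℕ, r ≠ 0 →
    (∀ x, e x ≠ 0 → e x ^ r = 1) → ∀ kk : ι → ℂ, V.valuation (kk R.i0) = 1 →
    ∀ N' : ℕ, N' ≠ 0 → absD A B * ((2 * f : ℕ) : ℤ) ^ 2 ∣ (N' : ℤ) →
    ∃ a b c d : ℤ, a * d - b * c = 1 ∧ (N' : ℤ) ∣ c ∧ (N' : ℤ) ∣ d - 1 ∧
      V.valuation (2 : ℂ) < V.valuation (PTq 32 (PTq 8
        (fun x y => PhiKE R e kk x y / (u * R.om R.i0))) ∞ (mob a b c d ∞))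

/-- (HFIN) the character sums: for infinitely many levels `v < 7/4`. -/
def T4_HFIN : Prop :=
  ∀ (A B : ℤ) (P : Ideal (OO A B)) (V : ValuationSubring ℂ) (f : ℕ), SetT4 A B P V f →
    TorXE A B → ∀ (ι : Type) [Fintype ι] (R : RepsE A B (2 * f) ι) (u el a1 a3 : ℂ),
    GoodQ V (R.L R.i0) u el a1 a3 →
    ∀ e : OO A B → ℂ, OddF4 f e → ∀ r : ℕ, ¬ 2 ∣ r → (∀ x, e x ≠ 0 → e x ^ (4 * r) = 1) →
    ∀ kk : ι → ℂ, (∀ i, kk i ^ (4 * r) = 1) →
    ∀ n₀ : ℕ, ∃ n, n₀ ≤ n ∧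
      V.valuation (2 : ℂ) ^ (2 * dR A + 3) <
        V.valuation ((1 / 4 * ∑ j ∈ Finset.range 2, (-1) ^ (1 - j) *
        (STXE R (lvX 2 f n) (2 ^ (n + 2)) (aX 2 f) e kk (25 ^ j) +
          STXE R (lvX 2 f n) (2 ^ (n + 2)) (aX 2 f) e kk (-(25 ^ j)))) / u) ^ 4

/-- (INPG) the inputs of block J. -/
def T4_INPG : Prop :=
  ∀ (A B : ℤ) (P : Ideal (OO A B)) (V : ValuationSubring ℂ) (d : ℕ), CaseE A B → B = 0 →
    IsPN 2 P → OverI V P → TorXE A B → d ≠ 0 → ¬ 2 ∣ d → 3 * absD A B ∣ 8 * (d : ℤ) →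
    (∃ κ : OO A B → ℂ, KapF4 d κ) → InpG_E 2 d A B V

/-- (JFIN) blocks K and J: the main theorem from the inputs. `K = K₀` in `InpG_E`. (`UnrH_E` is trivial: `RFE ⊤ = k`.) -/
def T4_JFIN : Prop :=
  ∀ (A B : ℤ) (P : Ideal (OO A B)) (V : ValuationSubring ℂ) (d : ℕ), CaseE A B → B = 0 →
    IsPN 2 P → OverI V P → d ≠ 0 → ¬ 2 ∣ d → TorXE A B → NLex_E A B → InpG_E 2 d A B V →
    ∀ (F M K : IntermediateField ℚ ℂ) [FiniteDimensional ℚ M] (_ : kk A B ≤ F) (h : F ≤ M)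
    (a : ℕ), TorU_E A B F → IsGalois F (IntermediateField.extendScalars h) →
    Module.finrank F (IntermediateField.extendScalars h) = 2 ^ a → K ≤ M →
    ∃ C : ℕ, ∀ (n : ℕ) (Q : IntermediateField ℚ ℂ), IsLayer 2 n Q →
      padicValNat 2 (classNo (K ⊔ Q)) ≤ C * (n + 1) ^ C

end

end Pool.Agent.ME2
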