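import Pool.Agent.ME2.StE3
import Pool.Agent.ME.X_TRA
import Pool.Agent.ME.X_TRB
import Pool.Agent.ME.X_FAC
import Pool.Agent.ME.X_GTH
import Pool.Agent.ME.X_PT
import Pool.Agent.ME.X_GAL

/-!
# MUX-2N, block E2N, module AUT: automorphisms of `ℂ` which act as a principal ideal. Model:
`Pool/Agent/MUX/E_GAL.lean` (helper44), whose lemmas are used
-/

set_option autoImplicit false

open Polynomial

namespace Pool.Agent.ME2E

open _root_.MU3 Pool.Agent.MU3A Pool.Agent.MU3B Pool.Agent.MUX Pool.Agent.MUXU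
open Pool.Agent.RI Pool.Agent.NS
open Pool.Agent.ME hiding ActE
open Pool.Agent.MEE Pool.Agent.ME2
open Pool.Agent.MUXE (RingE)
open Pool.Agent.N2 (GoodT et yt WT IsTei2 OddT PTq)
open Pool.Agent.N2E (dlg del cc IsoT Sd_LAG Sd_PRD Sd_COE Sd_GRT Sd_TPT Sd_UNT Sd_RAT Sd_THT Sd_DST Sd_NE1 Sd_PRT)
open Pool.Agent.NSE (IntP)
open Pool.Agent.MUX2 (GRG)
open Pool.Agent.MUXV (InK tX)

noncomputable section

/-- (AUT) -/
theorem ty_AUT : Sy_AUT := by
  intro A B hCE hR T hN m hm hm2 c hc0 hc hc1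
  obtain ⟨s, hs, hact⟩ := T.surj m hm (sp c)
    (fun h => hc0 (Ideal.span_singleton_eq_bot.1 h)) hc
  obtain ⟨L₀, b₀, om₀, hL₀⟩ := hN
  obtain ⟨b₁, L₁, om₁, mu₁, hL₁, hA₁⟩ := hact b₀ L₀ om₀ hL₀
  have hmu : ∀ (b : Ideal (OO A B)) (L L' : PeriodPair) (om mu : ℂ), IsNE b L om →
      ME.ActE s m (sp c) L L' mu → NrmE A B L' → mu = emb c ∨ mu = -emb c := by
    intro b L L' om mu hL hA hn
    obtain ⟨c', h1, h2, h3⟩ := T.two m (sp c) s b L L' om mu hm hm2 hs hL hA hn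
    rcases GalX.gens hCE hR h2 hc1 h3 with h | h
    · left
      rw [h1, h]
    · right
      rw [h1, h]
      obtain ⟨φ, hφ⟩ := hR.hom
      rw [← hφ, map_neg, hφ]
  refine ⟨s, hs, ?_, ?_, ?_, ?_⟩
  · rintro L ⟨b, om, hL⟩
    obtain ⟨b', L', om', mu, hL', hA⟩ := hact b L om hL
    rw [← hA.kapE, (GalX.core hR hL hA.isq (hmu b L L' om mu hL hA hL'.nrm)).1]
  · rintro L ⟨b, om, hL⟩ z hz hz'
    obtain ⟨b', L', om', mu, hL', hA⟩ := hact b L om hL
    have h2 := hmu b L L' om mu hL hA hL'.nrm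
    obtain ⟨h1, h3, h4⟩ := GalX.core hR hL hA.isq h2
    rcases hA.act z hz with ⟨h5, -⟩ | ⟨-, h6, h7, -⟩
    · exact absurd h5 hz'
    · rw [← h3] at h6
      have h8 : emb c * z ∉ L.lattice := by
        rcases h2 with h | h
        · rw [← h]
          exact h6
        · intro h9
          apply h6
          rw [h, neg_mul]
          exact neg_mem h9
      refine ⟨h8, ?_⟩
      rw [h7]
      unfold xnE
      rw [h4]
      rcases h2 with h | h
      · rw [h]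
      · rw [h, neg_mul, L.weierstrassP_neg]
  · intro m' hmm hm2' hc1 y hy
    have hm' : m' ≠ ⊥ := by
      intro h0
      exact hm (le_bot_iff.1 (h0 ▸ hmm))
    have hA' : ME.ActE s m' (sp c) L₀ L₁ mu₁ := by
      refine ⟨hA₁.kapE, ?_, hA₁.isq, fun z hz => hA₁.act z fun x hx => hz x (hmm hx)⟩
      rw [Ideal.isCoprime_iff_sup_eq] at hc ⊢
      rw [eq_top_iff, ← hc]
      exact sup_le_sup_left hmm _
    exact (T.triv m' (sp c) s b₀ L₀ L₁ om₀ mu₁ hm' (Or.inl hm2') hs hL₀ hA' hL₁.nrm).2 ⟨c, hc1, rfl⟩ y hy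
  · intro M hM hmM z hz
    exact (T.zeta M m (sp c) s b₀ L₀ L₁ om₀ mu₁ hm hs hM hmM hL₀ hA₁ z hz).2

end

end Pool.Agent.ME2E
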