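import Pool.Agent.ME2.StE3
import Pool.Agent.ME.X_TRA
import Pool.Agent.ME.X_TRB
import Pool.Agent.ME.X_FAC
import Pool.Agent.ME.X_GTH
import Pool.Agent.ME.X_PT
import Pool.Agent.ME.X_GAL

/-!
# MUX-2N, block E2N, module CTX: from the standing hypotheses to `CtxU` (helper12, after `NS/E_CTX.lean`)
-/

set_option autoImplicit false

namespace Pool.Agent.ME2E

open _root_.MU3 Pool.Agent.MU3A Pool.Agent.MU3B Pool.Agent.MUX Pool.Agent.MUXU
open Pool.Agent.RI Pool.Agent.NS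
open Pool.Agent.ME hiding ActE
open Pool.Agent.MEE Pool.Agent.ME2
open Pool.Agent.MUXE (RingE)
open Pool.Agent.N2 (GoodT et yt WT IsTei2 OddT PTq)
open Pool.Agent.N2E (dlg del cc IsoT Sd_LAG Sd_PRD Sd_COE Sd_GRT Sd_TPT Sd_UNT Sd_RAT Sd_THT Sd_DST Sd_NE1 Sd_PRT)

noncomputable section

namespace CtxTaux

variable {A B : ℤ}

lemma mem_idl (m : ℕ) (x : OO A B) :
    x ∈ idl (A := A) (B := B) m ↔ (m : ℤ) ∣ x.re ∧ (m : ℤ) ∣ x.im := by
  rw [Ideal.mem_span_singleton]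
  constructor
  · rintro ⟨t, rfl⟩
    refine ⟨⟨t.re, ?_⟩, ⟨t.im, ?_⟩⟩
    · rw [QuadraticAlgebra.re_mul]; simp
    · rw [QuadraticAlgebra.im_mul]; simp
  · rintro ⟨⟨s, hs⟩, ⟨t, ht⟩⟩
    refine ⟨⟨s, t⟩, ?_⟩
    apply QuadraticAlgebra.ext
    · rw [QuadraticAlgebra.re_mul]; simp [hs]
    · rw [QuadraticAlgebra.im_mul]; simp [ht]

lemma emb_nat (h : CQ A B) (n : ℕ) : emb ((n : ℕ) : OO A B) = (n : ℂ) := by
  rw [← MUXE.RNGaux.eH_apply h, map_natCast]

lemma parity {a b : ℤ} (h : (2 : ℤ) ∣ a ^ 2 + a * b + b ^ 2) : (2 : ℤ) ∣ a ∧ (2 : ℤ) ∣ b := by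
  have h1 : a % 2 = 0 ∨ a % 2 = 1 := by omega
  have h2 : b % 2 = 0 ∨ b % 2 = 1 := by omega
  have h3 : (a ^ 2 + a * b + b ^ 2) % 2 = ((a % 2) ^ 2 + (a % 2) * (b % 2) + (b % 2) ^ 2) % 2 :=
    (((Int.mod_modEq a 2).symm.pow 2).add
      ((Int.mod_modEq a 2).symm.mul (Int.mod_modEq b 2).symm)).add
        ((Int.mod_modEq b 2).symm.pow 2)
  have h4 : (a ^ 2 + a * b + b ^ 2) % 2 = 0 := Int.emod_eq_zero_of_dvd h
  rw [h4] at h3
  rcases h1 with h1 | h1 <;> rcases h2 with h2 | h2 <;> rw [h1, h2] at h3 <;>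
    first
      | exact ⟨Int.dvd_of_emod_eq_zero h1, Int.dvd_of_emod_eq_zero h2⟩
      | (exfalso; revert h3; decide)

lemma odd_AB (h : (8 : ℤ) ∣ B ^ 2 + 4 * A - 5) : (∃ s, B = 2 * s + 1) ∧ ∃ t, A = 2 * t + 1 := by
  obtain ⟨c, hc⟩ := h
  have hB : ∃ s, B = 2 * s + 1 := by
    rcases Int.even_or_odd B with ⟨s, hs⟩ | ⟨s, hs⟩
    · exfalso
      have : B ^ 2 = 4 * s ^ 2 := by rw [hs]; ring
      rw [this] at hc
      omega
    · exact ⟨s, hs⟩
  refine ⟨hB, ?_⟩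
  obtain ⟨s, hs⟩ := hB
  have h1 : B ^ 2 = 4 * (s * (s + 1)) + 1 := by rw [hs]; ring
  obtain ⟨r, hr⟩ := Int.even_mul_succ_self s
  rw [h1, hr] at hc
  exact ⟨c - r, by omega⟩

lemma nrm (h : (8 : ℤ) ∣ B ^ 2 + 4 * A - 5) {x : OO A B}
    (hx : x ∉ idl (A := A) (B := B) 2) : ¬ (2 : ℤ) ∣ nm x := by
  intro h1
  apply hx
  obtain ⟨⟨s, hs⟩, ⟨t, ht⟩⟩ := odd_AB h
  have h3 : (2 : ℤ) ∣ x.re ^ 2 + x.re * x.im + x.im ^ 2 := by
    have h4 : x.re ^ 2 + x.re * x.im + x.im ^ 2 =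
        nm x + 2 * (-(s * (x.re * x.im)) + (t + 1) * x.im ^ 2) := by
      unfold nm
      linear_combination (-(x.re * x.im)) * hs + x.im ^ 2 * ht
    rw [h4]
    exact dvd_add h1 (dvd_mul_right _ _)
  obtain ⟨h4, h5⟩ := parity h3
  rw [mem_idl]
  exact ⟨by exact_mod_cast h4, by exact_mod_cast h5⟩

lemma maxi (h : (8 : ℤ) ∣ B ^ 2 + 4 * A - 5) : (idl (A := A) (B := B) 2).IsMaximal := by
  rw [Ideal.isMaximal_iff]
  refine ⟨?_, ?_⟩
  · intro h1
    rw [mem_idl] at h1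
    have h2 := h1.1
    rw [QuadraticAlgebra.re_one] at h2
    norm_num at h2
  · intro J x hJ hx hxJ
    have h1 : IsCoprime (nm x) (2 : ℤ) :=
      isCoprime_comm.1 ((Int.prime_two.coprime_iff_not_dvd).2 (nrm h hx))
    obtain ⟨u, v, huv⟩ := h1
    have h2 : ((nm x : ℤ) : OO A B) ∈ J := by
      rw [← MUXE.RNGaux.mul_star']
      exact J.mul_mem_right _ hxJ
    have h3 : ((2 : ℕ) : OO A B) ∈ J := hJ (Ideal.mem_span_singleton_self _)
    have h4 := congrArg (Int.cast : ℤ → OO A B) huv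
    push_cast at h4
    rw [← h4]
    refine J.add_mem (J.mul_mem_left _ h2) (J.mul_mem_left _ ?_)
    simpa using h3

lemma val_le (h : CQ A B) (V : ValuationSubring ℂ) (x : OO A B) : V.valuation (emb x) ≤ 1 := by
  rw [ValuationSubring.valuation_le_one_iff]
  have h1 : IsIntegral V (emb x) := (MUXE.RNGaux.emb_int h x).tower_top
  obtain ⟨y, hy⟩ := IsIntegrallyClosed.isIntegral_iff.1 h1
  rw [← hy]
  exact y.2

lemma val_unit (h : CQ A B) {V : ValuationSubring ℂ} (hV : OverI V (idl (A := A) (B := B) 2))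
    {x : OO A B} (hx : x ∉ idl (A := A) (B := B) 2) : V.valuation (emb x) = 1 := by
  refine le_antisymm (val_le h V x) (not_lt.1 fun h1 => hx ((hV x).1 ?_))
  exact (ValuationSubring.mem_nonunits_iff V).2 h1

lemma val_emb (h : CQ A B) {V : ValuationSubring ℂ} (hV : OverI V (idl (A := A) (B := B) 2)) :
    ∀ (n : ℕ) (x : OO A B), x ≠ 0 → (nm x).toNat ≤ n →
      ∃ j : ℕ, V.valuation (emb x) = V.valuation (2 : ℂ) ^ j := by
  intro n
  induction n with
  | zero =>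
    intro x hx hn
    have := MUXE.RNGaux.nm_pos h hx
    omega
  | succ n ih =>
    intro x hx hn
    by_cases h3 : x ∈ idl (A := A) (B := B) 2
    · obtain ⟨y, hy⟩ := Ideal.mem_span_singleton.1 h3
      have hy0 : y ≠ 0 := by
        rintro rfl
        rw [mul_zero] at hy
        exact hx hy
      have hnm : nm x = 4 * nm y := by
        have h4 : ((2 : ℕ) : OO A B).re = 2 := QuadraticAlgebra.re_natCast 2
        have h5 : ((2 : ℕ) : OO A B).im = 0 := QuadraticAlgebra.im_natCast 2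
        rw [hy]
        unfold nm
        rw [QuadraticAlgebra.re_mul, QuadraticAlgebra.im_mul, h4, h5]
        ring
      have hpos := MUXE.RNGaux.nm_pos h hy0
      obtain ⟨j, hj⟩ := ih y hy0 (by omega)
      refine ⟨j + 1, ?_⟩
      rw [hy, ← MUXE.RNGaux.eH_apply h, map_mul, MUXE.RNGaux.eH_apply h, MUXE.RNGaux.eH_apply h, emb_nat h,
        map_mul, hj, pow_succ, mul_comm]
      norm_num
    · exact ⟨0, by rw [pow_zero, val_unit h hV h3]⟩

lemma alg_kk (h : CQ A B) (y : ℂ) (hy : y ∈ kk A B) : IsAlgebraic ℤ y := by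
  have h1 : Algebra.IsAlgebraic ℚ (kk A B) :=
    IntermediateField.isAlgebraic_adjoin_simple (MUXE.RNGaux.w_intQ h)
  have h2 : IsAlgebraic ℚ y := by
    have h3 := h1.isAlgebraic ⟨y, hy⟩
    exact h3.algebraMap
  exact (IsFractionRing.isAlgebraic_iff ℤ ℚ ℂ).2 h2

end CtxTaux

open CtxTaux in
/-- (CTX) from the standing hypotheses to `CtxU` -/
theorem ty_CTX : Sy_CTX := by
  intro A B V hC hB hV hT hF
  obtain ⟨hF1, hF2⟩ := hF A B V hC hB hV hT
  have h := hC.toCQ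
  have h8 : (8 : ℤ) ∣ B ^ 2 + 4 * A - 5 := by
    rw [hC.hA, hB]
    norm_num
  have hv2 : V.valuation (2 : ℂ) < 1 := by
    have h1 := (hV ((2 : ℕ) : OO A B)).2 (Ideal.mem_span_singleton_self _)
    rw [ValuationSubring.mem_nonunits_iff, emb_nat h] at h1
    exact_mod_cast h1
  have hv0 : V.valuation (2 : ℂ) ≠ 0 := by
    rw [Valuation.ne_zero_iff]
    norm_num
  have hR : RingE A B := MUXE.te_RNG A B h
  refine
    { ring := hR
      cq := h
      two := h8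
      case := hC
      hB := hB
      v2 := hv2
      int := val_le h V
      unit := fun x hx => val_unit h hV hx
      nat := ?_
      max := maxi h8
      nrm := fun x hx => nrm h8 hx
      kval := ?_
      good := ?_
      iner := hF2 }
  · intro n hn
    rw [← emb_nat h]
    refine val_unit h hV fun h1 => hn ?_
    rw [mem_idl] at h1
    have h2 := h1.1
    rw [QuadraticAlgebra.re_natCast] at h2
    exact_mod_cast h2
  · intro y hy hy0
    obtain ⟨n, hn, hint⟩ := (alg_kk h y hy).exists_integral_multiple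
    have hnk : n • y ∈ kk A B := zsmul_mem hy n
    obtain ⟨x, hx⟩ := (hR.int _ hnk).1 hint
    have hnC : (n : ℂ) ≠ 0 := by exact_mod_cast hn
    have hxe : (n : ℂ) * y = emb x := by
      rw [← hx, zsmul_eq_mul]
    have hx0 : x ≠ 0 := by
      rintro rfl
      rw [← MUXE.RNGaux.eH_apply h, map_zero] at hxe
      exact mul_ne_zero hnC hy0 hxe
    have hne : emb ((n : ℤ) : OO A B) = (n : ℂ) := by
      rw [← MUXE.RNGaux.eH_apply h, map_intCast]
    have hn0 : ((n : ℤ) : OO A B) ≠ 0 := by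
      intro h0
      rw [h0, ← MUXE.RNGaux.eH_apply h, map_zero] at hne
      exact hnC hne.symm
    obtain ⟨j, hj⟩ := val_emb h hV _ x hx0 le_rfl
    obtain ⟨i, hi⟩ := val_emb h hV _ ((n : ℤ) : OO A B) hn0 le_rfl
    rw [hne] at hi
    have h2 := congrArg V.valuation hxe
    rw [map_mul, hi, hj] at h2
    refine ⟨(j : ℤ) - i, ?_⟩
    rw [zpow_sub₀ hv0, zpow_natCast, zpow_natCast, ← h2]
    field_simp
  · rintro L ⟨b, om, hL⟩
    obtain ⟨u, e, a1, a3, h1, -⟩ := hF1 b L om hL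
    exact ⟨u, e, a1, a3, h1⟩

end

end Pool.Agent.ME2E
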