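import Pool.Agent.ME2.StE3
import Pool.Agent.ME.X_TRA
import Pool.Agent.ME.X_TRB
import Pool.Agent.ME.X_FAC
import Pool.Agent.ME.X_GTH
import Pool.Agent.ME.X_PT
import Pool.Agent.ME.X_GAL

/-!
# MUX-2N, block E2N: module GLC, the automorphisms `1 + k N del` are trivial on `D`
-/

set_option autoImplicit false

open Polynomial

namespace Pool.Agent.ME2E

open _root_.MU3 Pool.Agent.MU3A Pool.Agent.MU3B Pool.Agent.MUX Pool.Agent.MUXU
open Pool.Agent.RI Pool.Agent.NS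
open Pool.Agent.ME hiding ActE
open Pool.Agent.MEE Pool.Agent.ME2
open Pool.Agent.MUXE (RingE)
open Pool.Agent.N2 (GoodT et yt WT IsTei2 OddT PTq)
open Pool.Agent.N2E (dlg del cc IsoT Sd_LAG Sd_PRD Sd_COE Sd_GRT Sd_TPT Sd_UNT Sd_RAT Sd_THT Sd_DST Sd_NE1 Sd_PRT)

noncomputable section

namespace GLC

lemma idl_le {A B : ℤ} {m n : ℕ} (h : n ∣ m) :
    idl (A := A) (B := B) m ≤ idl (A := A) (B := B) n := by
  obtain ⟨c, rfl⟩ := h
  rw [Ideal.span_singleton_le_span_singleton]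
  exact ⟨(c : OO A B), by push_cast; ring⟩

end GLC

/-- GLC. -/
theorem ty_GLC (h1 : Sy_CON) : Sy_GLC := by
  intro A B V n f a m hE D hD k s hs y hy
  obtain ⟨c1, ⟨-, c2⟩, -⟩ := h1 A B V n f a m hE
  obtain ⟨-, -, -, -, c4, -⟩ := c1 ((k : OO A B) * del)
  obtain ⟨j, hj⟩ := c2 k
  have h4 : lvX 2 f 0 = 4 * f := by
    unfold lvX q0
    norm_num
    ring
  have hm := hE.hm
  refine hD s hs.fix ?_ ?_ y hy
  · refine hs.triv (idl (lvX 2 f 0)) (GLC.idl_le ?_) (GLC.idl_le ?_) ?_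
    · rw [h4, hm]
      exact ⟨2 ^ n * a, by ring⟩
    · rw [h4]
      exact ⟨2 * f, by ring⟩
    · rw [h4]
      exact c4
  · intro z hz
    have h5 := hs.zeta (2 ^ (n + 2)) (pow_ne_zero _ two_ne_zero)
      (GLC.idl_le ⟨f * a, by rw [hm]; ring⟩) z hz
    rw [h5, hj, pow_add, pow_one, pow_mul, hz, one_pow, mul_one]

end

end Pool.Agent.ME2E
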