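import Pool.Agent.ME2.StE3
import Pool.Agent.ME.X_TRA
import Pool.Agent.ME.X_TRB
import Pool.Agent.ME.X_FAC
import Pool.Agent.ME.X_GTH
import Pool.Agent.ME.X_PT
import Pool.Agent.ME.X_GAL

/-!
# MUX-2N, block E2N, module GPO (helper89)

The values of `Θ_a` at the points `(i, x)` as rational functions over `V` of `x(P)`.
Model: the lemma `point` of `Pool/Agent/NS/E_ONE.lean` (helper76).
-/

set_option autoImplicit false

open Polynomial

namespace Pool.Agent.ME2E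

open _root_.MU3 Pool.Agent.MU3A Pool.Agent.MU3B Pool.Agent.MUX Pool.Agent.MUXU
open Pool.Agent.RI Pool.Agent.NS
open Pool.Agent.ME hiding ActE
open Pool.Agent.MEE Pool.Agent.ME2
open Pool.Agent.MUXE (RingE)
open Pool.Agent.N2 (GoodT et yt WT IsTei2 OddT PTq)
open Pool.Agent.N2E (dlg del cc IsoT Sd_LAG Sd_PRD Sd_COE Sd_GRT Sd_TPT Sd_UNT Sd_RAT Sd_THT Sd_DST Sd_NE1 Sd_PRT)
open Pool.Agent.NSE (IntP)
open Pool.Agent.MUX2 (GRG)
open Pool.Agent.MUXV (InK tX)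

noncomputable section

namespace GPO

/-- `6 ∣ |H|` if `a` is prime to `6` -/
lemma card6 {L : PeriodPair} {a : ℕ} {H : Finset ℂ} (ha : a ≠ 0) (h2 : ¬ 2 ∣ a) (h3 : ¬ 3 ∣ a)
    (hH : IsHalf L (a : ℂ) H) : 6 ∣ H.card := by
  obtain ⟨-, -, h⟩ := b_HRE L a H (by exact_mod_cast ha) (fun w hw => by
    have := nsmul_mem hw a
    rwa [nsmul_eq_mul] at this) hH
  have h1 : 2 * H.card + 1 = a ^ 2 := by
    rw [Complex.norm_natCast] at h
    exact_mod_cast h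
  have h4 : a ^ 2 % 12 = 1 := by
    rw [Nat.pow_mod]
    have h5 : a % 12 = 1 ∨ a % 12 = 5 ∨ a % 12 = 7 ∨ a % 12 = 11 := by omega
    rcases h5 with h5 | h5 | h5 | h5 <;> rw [h5]
  omega

/-- `v(u²)³` is a power of `v 2` -/
lemma usq (h7 : Sy_UNR) {A B : ℤ} {V : ValuationSubring ℂ} (hC : CtxU A B V)
    (hT : TorXE A B) {L : PeriodPair} {u e a1 a3 : ℂ} (hL : NLE A B L)
    (hg : GoodT V L u e a1 a3) :
    ∃ k : ℤ, V.valuation (u ^ 2) ^ 3 = V.valuation (2 : ℂ) ^ k := by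
  obtain ⟨w₁, w₂, h1, h2, h1', h2', -, -, -, hu⟩ := hg.tor
  have hring := hC.ring
  obtain ⟨φ, hφ⟩ := hring.hom
  have e3 : emb ((3 : ℕ) : OO A B) = 3 := by rw [← hφ, map_natCast]; norm_num
  obtain ⟨-, hx, -⟩ := tm_FAC tm_TRA A B hring
  have hsp := (tm_TRA A B hring L hL).2.2.2.2.1
  have m1 : xnE L w₁ ∈ RFE (idl (A := A) (B := B) 3) :=
    (hx _ L hL).2 w₁ ((hsp _ _).2 (by rw [e3]; exact h1)) h1'
  have m2 : xnE L w₂ ∈ RFE (idl (A := A) (B := B) 3) :=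
    (hx _ L hL).2 w₂ ((hsp _ _).2 (by rw [e3]; exact h2)) h2'
  have e4 : u ^ 2 = xnE L w₂ - xnE L w₁ := by
    rw [hu, xnE, xnE]
  have hle : RFE (idl (A := A) (B := B) 3) ≤ RFE (idl (A := A) (B := B) (2 * 3)) :=
    (tm_FAC tm_TRA A B hring).1 _ _ (by
      rw [Ideal.span_singleton_le_span_singleton]
      exact ⟨((2 : ℕ) : OO A B), by push_cast; ring⟩)
  refine h7 A B V hC hT 3 (by norm_num) (by norm_num) _ (hle ?_) (pow_ne_zero 2 hg.u0)
  rw [e4]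
  exact sub_mem m2 m1

end GPO

open GPO in
/-- (GPO) the values of `Θ_a` at the points `(i, x)`. -/
theorem ty_GPO (h2 : Sd_GRT) (h3 : Sd_THT) (h4 : Sd_NE1) (h5 : Sy_MUL)
    (h6 : Sy_UNR) : Sy_GPO := by
  intro A B V n f a m hS ι R u e a1 a3 hgood i H hH x hx
  have hC := hS.ctx
  have hT := hS.tor
  have hf3 := hS.f3
  have hf := hS.fo
  have hpa := hS.ao
  have ha0 : a ≠ 0 := by have := hS.a3; omega
  have hring := hC.ring
  obtain ⟨φ, hφ⟩ := hring.hom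
  have emul : ∀ x y : OO A B, emb (x * y) = emb x * emb y := fun x y => by
    rw [← hφ, map_mul, hφ, hφ]
  obtain rfl := hS.hm
  obtain ⟨hmu, hisg, hodd⟩ := h5 A B V hC (2 * f) ι R (by omega) (dvd_mul_right _ _) i x hx
  have hm0 : 2 ^ (n + 2) * f ≠ 0 := mul_ne_zero (by positivity) (by omega)
  have hmf : (2 ^ (n + 2) * f).primeFactors ⊆ (2 * f).primeFactors := by
    rw [Nat.primeFactors_mul (by positivity) (by omega), Nat.primeFactors_pow _ (by omega),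
      Nat.primeFactors_mul (by norm_num) (by omega)]
  obtain ⟨-, -, -, hpt⟩ := tm_PT tm_TRA A B hring (2 * f) ι R (by omega) i
  obtain ⟨u', e', a1', a3', hg'⟩ := hC.good (R.L i) ⟨_, _, R.nl i⟩
  have hI : IsoT V (R.L R.i0) (R.L i) u e a1 a3 u' e' a1' a3' (muXE R i * emb x) :=
    ⟨hgood, hg', hC.v2, hmu, hisg, hodd⟩
  obtain ⟨P, Q, hP, hQ, hPQ⟩ := h3 V (R.L R.i0) (R.L i) u e a1 a3 u' e' a1' a3' _ hI a H ha0 hH
  obtain ⟨k, hk⟩ := usq h6 hC hT ⟨_, _, R.nl i⟩ hg'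
  have h3a : ¬ 3 ∣ a := fun h => by
    have h1 := Nat.dvd_gcd h hS.fd
    rw [hS.af] at h1
    omega
  obtain ⟨t, ht⟩ := card6 ha0 hpa h3a hH
  refine ⟨(u' ^ 2) ^ H.card, k * t, P, Q, hP, hQ, ?_, ?_⟩
  · have e6 : V.valuation (u' ^ 2) ^ (6 * t) = (V.valuation (u' ^ 2) ^ 3) ^ (2 * t) := by
      rw [← pow_mul]
      congr 1
      ring
    rw [map_pow, ht, e6, hk, ← zpow_natCast, ← zpow_natCast, ← zpow_mul, ← zpow_mul]
    congr 1
    push_cast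
    ring
  intro c hc
  obtain ⟨hz, hzm, hzo, -⟩ := hpt (2 ^ (n + 2) * f) hm0 hmf (c * x)
  obtain ⟨hzK, -, hza, hzq⟩ := h4 V (R.L i) u' e' a1' a3' hg' hC.v2 (n + 2) f a hf3 hf hpa
    hS.af _ hzm (hzo hc)
  have ez : muXE R i * emb x * (emb c * (R.om R.i0 / (2 ^ (n + 2) * f : ℕ))) =
      ptE R (2 ^ (n + 2) * f) i (c * x) := by
    rw [hz, emul]
    ring
  obtain ⟨k1, k2, k3, k4, k5⟩ := hPQ (emb c * (R.om R.i0 / (2 ^ (n + 2) * f : ℕ)))
    (by rw [ez]; exact hzK) (by rw [ez]; exact hza) (fun q hq => by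
      rw [ez]
      exact hzq q (hH.mem q hq) (fun hqL => hH.ne q hq (by
        have hqq := add_mem hqL hqL
        rwa [← two_mul] at hqq)))
  rw [ez] at k4 k5
  obtain ⟨ξ, G⟩ := h2 V (R.L R.i0) u e a1 a3 hgood hC.v2
  have vx := (Pool.Agent.MUXV.int_X k1).2
  have vy := Pool.Agent.MUX2.gInt_Y G k1
  have v2 : V.valuation (2 : ℂ) ≤ 1 := hC.v2.le
  have e1 : et (R.L R.i0) u (emb c * (R.om R.i0 / (2 ^ (n + 2) * f : ℕ))) =
      2 * yt (R.L R.i0) u e a1 a3 (emb c * (R.om R.i0 / (2 ^ (n + 2) * f : ℕ))) +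
        a1 * xu (R.L R.i0) u e (emb c * (R.om R.i0 / (2 ^ (n + 2) * f : ℕ))) + a3 := by
    rw [yt]
    ring
  have ve : V.valuation (et (R.L R.i0) u (emb c * (R.om R.i0 / (2 ^ (n + 2) * f : ℕ)))) ≤ 1 := by
    rw [e1]
    refine (Valuation.map_add _ _ _).trans (max_le ?_ hgood.v3.le)
    refine (Valuation.map_add _ _ _).trans (max_le ?_ ?_)
    · rw [map_mul]
      exact mul_le_one' v2 vy
    · rw [map_mul]
      exact mul_le_one' (hgood.v1.trans v2) vx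
  exact ⟨vx, ve, k2, k3, k4, k5⟩

end

end Pool.Agent.ME2E
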