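import Pool.Agent.ME2.StE3
import Pool.Agent.ME.X_TRA
import Pool.Agent.ME.X_TRB
import Pool.Agent.ME.X_FAC
import Pool.Agent.ME.X_GTH
import Pool.Agent.ME.X_PT
import Pool.Agent.ME.X_GAL
import Pool.Agent.MUX.XLib

/-!
# MUX-2N, block E2N, module MAIN: both estimates for families of sets stable under `1 + N del`
-/

set_option autoImplicit false

open Polynomial

namespace Pool.Agent.ME2E

open _root_.MU3 Pool.Agent.MU3A Pool.Agent.MU3B Pool.Agent.MUX Pool.Agent.MUXU
open Pool.Agent.RI Pool.Agent.NS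
open Pool.Agent.ME hiding ActE
open Pool.Agent.MEE Pool.Agent.ME2
open Pool.Agent.MUXE (RingE)
open Pool.Agent.N2 (GoodT et yt WT IsTei2 OddT PTq)
open Pool.Agent.N2E (dlg del cc IsoT Sd_LAG Sd_PRD Sd_COE Sd_GRT Sd_TPT Sd_UNT Sd_RAT Sd_THT Sd_DST Sd_NE1 Sd_PRT)
open Pool.Agent.NSE (IntP)
open Pool.Agent.MUX2 (GRG)
open Pool.Agent.MUXV (InK tX)

noncomputable section

namespace MAIN

lemma sq_add (V : ValuationSubring ℂ) (c : V.ValueGroup) (x y : ℂ)
    (hx : V.valuation x ^ 2 ≤ c) (hy : V.valuation y ^ 2 ≤ c) : V.valuation (x + y) ^ 2 ≤ c := by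
  rcases le_total (V.valuation x) (V.valuation y) with h | h
  · exact (pow_le_pow_left' ((V.valuation.map_add x y).trans (max_le h le_rfl)) 2).trans hy
  · exact (pow_le_pow_left' ((V.valuation.map_add x y).trans (max_le le_rfl h)) 2).trans hx

lemma sq_sum (V : ValuationSubring ℂ) (c : V.ValueGroup) {α : Type} (s : Finset α) (F : α → ℂ)
    (h : ∀ i ∈ s, V.valuation (F i) ^ 2 ≤ c) : V.valuation (∑ i ∈ s, F i) ^ 2 ≤ c := by
  classical
  induction s using Finset.induction_on with
  | empty => simp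
  | insert i s hi ih =>
    rw [Finset.sum_insert hi]
    exact sq_add V c _ _ (h i (Finset.mem_insert_self _ _))
      (ih fun j hj => h j (Finset.mem_insert_of_mem hj))

lemma sq_mul (V : ValuationSubring ℂ) (c : V.ValueGroup) (a x : ℂ) (ha : V.valuation a ≤ 1)
    (hx : V.valuation x ^ 2 ≤ c) : V.valuation (a * x) ^ 2 ≤ c := by
  rw [map_mul, mul_pow]
  calc V.valuation a ^ 2 * V.valuation x ^ 2 ≤ 1 * V.valuation x ^ 2 :=
        mul_le_mul_left (pow_le_one' ha 2) _
    _ = V.valuation x ^ 2 := one_mul _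
    _ ≤ c := hx

lemma v_int (V : ValuationSubring ℂ) (g : ℤ) : V.valuation (g : ℂ) ≤ 1 :=
  (V.valuation_le_one_iff _).2 (intCast_mem V g)

/-- the map `φ` -/
def ph {A B : ℤ} {m : ℕ} {ι : Type} (c : OO A B)
    (q : ι × (OO A B ⧸ idl (A := A) (B := B) m)) :
    ι × (OO A B ⧸ idl (A := A) (B := B) m) :=
  (q.1, Ideal.Quotient.mk (idl (A := A) (B := B) m) c * q.2)

lemma ph_iter {A B : ℤ} {m : ℕ} {ι : Type} (c : OO A B) (k : ℕ)
    (q : ι × (OO A B ⧸ idl (A := A) (B := B) m)) :
    (ph c)^[k] q = (q.1, Ideal.Quotient.mk (idl (A := A) (B := B) m) c ^ k * q.2) := by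
  induction k with
  | zero => simp
  | succ k ih =>
    rw [Function.iterate_succ_apply', ih]
    unfold ph
    simp only [pow_succ]
    congr 1
    ring

lemma dvd_mem {A B : ℤ} {M N : ℕ} (h : M ∣ N) (x : OO A B) (hx : x ∈ idl (A := A) (B := B) N) :
    x ∈ idl (A := A) (B := B) M := by
  rw [Ideal.mem_span_singleton] at hx ⊢
  exact (map_dvd (Nat.castRingHom (OO A B)) h).trans hx

end MAIN

open MAIN in
theorem ty_MAIN (hCON : Sy_CON) (hSQR : Sy_SQR) (hORB : Sy_ORB) (hPRT : Sd_PRT) : Sy_MAIN := by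
  classical
  intro A B V n f a m hSet ι R u e a1 a3 hG H hH om hom J _ S hcop hst
  obtain ⟨k1, -, k3, k4, k5, -⟩ := hCON A B V n f a m hSet
  have hC := hSet.ctx
  have hm := hSet.hm
  set N : ℕ := 2 ^ n * f * a with hN
  set ck : ℕ → OO A B := fun k => cc N ((k : OO A B) * del) with hck
  set c : OO A B := cc N del with hc
  -- divisibilities
  have d1 : m ∣ m * a := dvd_mul_right m a
  have d2 : 2 * f ∣ m := by
    rw [hm]
    exact Nat.mul_dvd_mul (dvd_pow_self 2 (by omega)) dvd_rfl
  have d3 : 4 ∣ m := by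
    rw [hm]
    exact Dvd.dvd.mul_right (by rw [pow_add]; exact dvd_mul_left _ _) f
  have d4 : 2 * f ∣ 4 * f := Nat.mul_dvd_mul (by norm_num) dvd_rfl
  have d5 : 4 ∣ 4 * f := dvd_mul_right 4 f
  -- powers of c
  have hc1 : ck 1 = c := by simp [hck, hc]
  have hpow : ∀ k, Ideal.Quotient.mk (idl (A := A) (B := B) m) c ^ k =
      Ideal.Quotient.mk (idl (A := A) (B := B) m) (ck k) := by
    intro k
    induction k with
    | zero => simp [hck, cc]
    | succ k ih =>
      rw [pow_succ, ih, ← hc1, ← map_mul]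
      exact Ideal.Quotient.eq.2 (dvd_mem d1 _ (k3 k 1))
  have hit : ∀ (k : ℕ) (q : ι × (OO A B ⧸ idl (A := A) (B := B) m)), (ph c)^[k] q =
      (q.1, Ideal.Quotient.mk (idl (A := A) (B := B) m) (ck k) * q.2) := by
    intro k q
    rw [ph_iter, hpow]
  have hout : ∀ q : OO A B ⧸ idl (A := A) (B := B) m,
      Ideal.Quotient.mk (idl (A := A) (B := B) m) (Quotient.out q) = q := fun q =>
    Quotient.out_eq q
  -- the partition
  have hpart : ∀ j, ∃ T ⊆ S j, ∀ F : ι × (OO A B ⧸ idl (A := A) (B := B) m) → ℂ,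
      ∑ q ∈ S j, F q = ∑ t ∈ T, ∑ k ∈ Finset.range 4, F ((ph c)^[k] t) := by
    intro j
    refine hPRT _ (S j) (ph c) (hst j) ?_ ?_
    · intro q hq
      rw [hit]
      have h1 : Ideal.Quotient.mk (idl (A := A) (B := B) m) (ck 4) = 1 := by
        rw [← map_one (Ideal.Quotient.mk (idl (A := A) (B := B) m)), Ideal.Quotient.eq]
        exact dvd_mem d1 _ k4
      rw [h1, one_mul]
    · intro q hq h
      rw [hit, Prod.ext_iff] at h
      have h2 := h.2
      simp only at h2
      refine k5 (Quotient.out q.2) (hcop j q hq) ?_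
      rw [← Ideal.Quotient.eq, map_mul, hout]
      exact h2
  choose T hTS hT using hpart
  -- points in the orbits
  have hmemS : ∀ (j : J) (k : ℕ), ∀ t ∈ S j, (ph c)^[k] t ∈ S j := by
    intro j k
    induction k with
    | zero => intro t ht; exact ht
    | succ k ih =>
      intro t ht
      rw [Function.iterate_succ_apply']
      exact hst j _ (ih t ht)
  set y : ι × (OO A B ⧸ idl (A := A) (B := B) m) → ℕ → OO A B :=
    fun t k => Quotient.out ((ph c)^[k] t).2 with hy
  have hy1 : ∀ t k, y t k - ck k * Quotient.out t.2 ∈ idl (A := A) (B := B) m := by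
    intro t k
    refine Ideal.Quotient.eq.1 ?_
    rw [map_mul, hout, hit, hout]
  have hck1 : ∀ k, ck k - 1 ∈ idl (A := A) (B := B) (4 * f) := fun k => (k1 _).2.2.2.2.1
  have hy4 : ∀ t k, y t k - Quotient.out t.2 ∈ idl (A := A) (B := B) 4 := by
    intro t k
    have h1 := dvd_mem d3 _ (hy1 t k)
    have h2 := dvd_mem d5 _ (hck1 k)
    have h3 := Ideal.add_mem _ h1 (Ideal.mul_mem_right (Quotient.out t.2) _ h2)
    have h4 : y t k - ck k * Quotient.out t.2 + (ck k - 1) * Quotient.out t.2 =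
      y t k - Quotient.out t.2 := by ring
    rwa [h4] at h3
  have hy2 : ∀ t k, y t k - Quotient.out t.2 ∈ idl (A := A) (B := B) (2 * f) := by
    intro t k
    have h1 := dvd_mem d2 _ (hy1 t k)
    have h2 := dvd_mem d4 _ (hck1 k)
    have h3 := Ideal.add_mem _ h1 (Ideal.mul_mem_right (Quotient.out t.2) _ h2)
    have h4 : y t k - ck k * Quotient.out t.2 + (ck k - 1) * Quotient.out t.2 =
      y t k - Quotient.out t.2 := by ring
    rwa [h4] at h3
  have hom1 : ∀ t k, om (y t k) = om (Quotient.out t.2) := fun t k => hom.per _ _ (hy2 t k)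
  -- the values
  have hv2 : V.valuation (2 : ℂ) < 1 := hC.v2
  have hcop2 : ∀ x : OO A B, IsCoprime x ((m : ℕ) : OO A B) →
      IsCoprime x ((2 * f : ℕ) : OO A B) := by
    intro x hx
    exact hx.of_isCoprime_of_dvd_right (map_dvd (Nat.castRingHom (OO A B)) d2)
  have hcong : ∀ x : OO A B, IsCoprime x ((m : ℕ) : OO A B) →
      V.valuation (om x - emb x) ≤ V.valuation (2 : ℂ) := fun x hx => hom.cong x (hcop2 x hx)
  have hom2 : ∀ x : OO A B, IsCoprime x ((m : ℕ) : OO A B) → V.valuation (om x) ≤ 1 := by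
    intro x hx
    have h1 : om x = (om x - emb x) + emb x := by ring
    rw [h1]
    exact (V.valuation.map_add _ _).trans (max_le ((hcong x hx).trans hv2.le) (hC.int x))
  set E : ι × (OO A B ⧸ idl (A := A) (B := B) m) → ℂ := fun q =>
    muXE R q.1 * dlX (R.L q.1) a (ptE R m q.1 (Quotient.out q.2)) / u with hE
  have hE1 : ∀ (j : J), ∀ q ∈ S j, V.valuation (E q) ≤ 1 := by
    intro j q hq
    exact (hORB A B V n f a m hSet ι R u e a1 a3 hG q.1 (H q.1) (hH q.1) (Quotient.out q.2)
      (hcop j q hq)).1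
  have hEo : ∀ (j : J), ∀ t ∈ S j,
      V.valuation (∑ k ∈ Finset.range 4, E ((ph c)^[k] t)) ^ 2 ≤ V.valuation (2 : ℂ) := by
    intro j t ht
    have h1 := (hORB A B V n f a m hSet ι R u e a1 a3 hG t.1 (H t.1) (hH t.1) (Quotient.out t.2)
      (hcop j t ht)).2 (y t) (fun k _ => hy1 t k)
    rw [Finset.sum_div] at h1
    have h2 : ∑ k ∈ Finset.range 4, E ((ph c)^[k] t) =
        ∑ k ∈ Finset.range 4, muXE R t.1 * dlX (R.L t.1) a (ptE R m t.1 (y t k)) / u := by
      refine Finset.sum_congr rfl fun k _ => ?_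
      have h3 : ((ph c)^[k] t).1 = t.1 := by rw [hit]
      show muXE R ((ph c)^[k] t).1 * dlX (R.L ((ph c)^[k] t).1) a
        (ptE R m ((ph c)^[k] t).1 (y t k)) / u = _
      rw [h3]
    rw [h2]
    exact h1
  constructor
  · -- the first estimate
    intro j
    have h1 : (∑ q ∈ S j, om (Quotient.out q.2) * muXE R q.1 *
        dlX (R.L q.1) a (ptE R m q.1 (Quotient.out q.2))) / u =
        ∑ q ∈ S j, om (Quotient.out q.2) * E q := by
      rw [Finset.sum_div]
      refine Finset.sum_congr rfl fun q _ => ?_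
      rw [hE]
      ring
    rw [h1, hT j]
    refine sq_sum V _ _ _ fun t ht => ?_
    have h2 : ∑ k ∈ Finset.range 4,
        om (Quotient.out ((ph c)^[k] t).2) * E ((ph c)^[k] t) =
        om (Quotient.out t.2) * ∑ k ∈ Finset.range 4, E ((ph c)^[k] t) := by
      rw [Finset.mul_sum]
      refine Finset.sum_congr rfl fun k _ => ?_
      have h3 := hom1 t k
      simp only [hy] at h3
      rw [h3]
    rw [h2]
    exact sq_mul V _ _ _ (hom2 _ (hcop j t (hTS j ht))) (hEo j t (hTS j ht))
  · -- the second estimate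
    intro g hyy
    obtain ⟨w, hw1, hw2, hw3⟩ := hyy
    set io : ι × (OO A B ⧸ idl (A := A) (B := B) m) → ι × OO A B :=
      fun q => (q.1, Quotient.out q.2) with hio
    have hinj : Function.Injective io := by
      rintro ⟨i, q⟩ ⟨i', q'⟩ h
      simp only [hio, Prod.mk.injEq] at h
      obtain ⟨h1, h2⟩ := h
      have h3 := congrArg (Ideal.Quotient.mk (idl (A := A) (B := B) m)) h2
      rw [hout, hout] at h3
      rw [h1, h3]
    have hsq := hSQR A B V n f a m hSet ι R u e a1 a3 hG H hH J (fun j => (S j).image io) g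
      (by
        intro j q hq
        rw [Finset.mem_image] at hq
        obtain ⟨q', hq', rfl⟩ := hq
        exact hcop j q' hq')
      ⟨w, hw1, hw2, by
        rw [hw3]
        refine Finset.prod_congr rfl fun j _ => ?_
        rw [Finset.prod_image fun x _ z _ h => hinj h]⟩
    have h0 : ∀ j, ∑ q ∈ (S j).image io, emb q.2 * muXE R q.1 *
        dlX (R.L q.1) a (ptE R m q.1 q.2) = ∑ q ∈ S j, emb (Quotient.out q.2) * muXE R q.1 *
        dlX (R.L q.1) a (ptE R m q.1 (Quotient.out q.2)) := by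
      intro j
      rw [Finset.sum_image fun x _ z _ h => hinj h]
    simp only [h0] at hsq
    -- the difference
    have hdiff : (∑ j, (g j : ℂ) * ∑ q ∈ S j, om (Quotient.out q.2) * muXE R q.1 *
          dlX (R.L q.1) a (ptE R m q.1 (Quotient.out q.2))) / u =
        (∑ j, (g j : ℂ) * ∑ q ∈ S j, emb (Quotient.out q.2) * muXE R q.1 *
          dlX (R.L q.1) a (ptE R m q.1 (Quotient.out q.2))) / u +
        ∑ j, (g j : ℂ) * ∑ t ∈ T j, ∑ k ∈ Finset.range 4,
          (om (Quotient.out ((ph c)^[k] t).2) - emb (Quotient.out ((ph c)^[k] t).2)) *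
            E ((ph c)^[k] t) := by
      have h1 : ∀ j, ∑ t ∈ T j, ∑ k ∈ Finset.range 4,
          (om (Quotient.out ((ph c)^[k] t).2) - emb (Quotient.out ((ph c)^[k] t).2)) *
            E ((ph c)^[k] t) = ∑ q ∈ S j, (om (Quotient.out q.2) - emb (Quotient.out q.2)) *
            E q := fun j => (hT j fun q => (om (Quotient.out q.2) - emb (Quotient.out q.2)) *
            E q).symm
      simp only [h1]
      rw [Finset.sum_div, Finset.sum_div, ← Finset.sum_add_distrib]
      refine Finset.sum_congr rfl fun j _ => ?_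
      rw [mul_div_assoc, mul_div_assoc, ← mul_add, Finset.sum_div, Finset.sum_div,
        ← Finset.sum_add_distrib]
      congr 1
      refine Finset.sum_congr rfl fun q _ => ?_
      rw [hE]
      ring
    rw [hdiff]
    refine sq_add V _ _ _ hsq (sq_sum V _ _ _ fun j _ => sq_mul V _ _ _ (v_int V _)
      (sq_sum V _ _ _ fun t ht => ?_))
    have hts := hTS j ht
    have h1 : ∑ k ∈ Finset.range 4,
        (om (Quotient.out ((ph c)^[k] t).2) - emb (Quotient.out ((ph c)^[k] t).2)) *
          E ((ph c)^[k] t) =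
        (om (Quotient.out t.2) - emb (Quotient.out t.2)) *
          ∑ k ∈ Finset.range 4, E ((ph c)^[k] t) +
        ∑ k ∈ Finset.range 4, -emb (y t k - Quotient.out t.2) * E ((ph c)^[k] t) := by
      rw [Finset.mul_sum, ← Finset.sum_add_distrib]
      refine Finset.sum_congr rfl fun k _ => ?_
      have h3 := hom1 t k
      have h4 : emb (y t k - Quotient.out t.2) = emb (y t k) - emb (Quotient.out t.2) :=
        Pool.Agent.MUX.emb_sub hC.cq _ _
      rw [h4]
      show (om (y t k) - emb (y t k)) * _ = _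
      rw [h3]
      ring
    rw [h1]
    refine sq_add V _ _ _ ?_ (sq_sum V _ _ _ fun k _ => ?_)
    · rw [map_mul, mul_pow, pow_succ (V.valuation (2 : ℂ)) 2]
      exact mul_le_mul' (pow_le_pow_left' (hcong _ (hcop j t hts)) 2) (hEo j t hts)
    · have h5 := hy4 t k
      rw [Ideal.mem_span_singleton] at h5
      obtain ⟨z, hz⟩ := h5
      have h6 : V.valuation (emb (y t k - Quotient.out t.2)) ≤ V.valuation (2 : ℂ) ^ 2 := by
        rw [hz, Pool.Agent.MUX.emb_mul hC.cq, map_mul]
        have h7 : (emb ((4 : ℕ) : OO A B) : ℂ) = 2 ^ 2 := by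
          rw [Pool.Agent.MUX.emb_natCast hC.cq]
          norm_num
        rw [h7, map_pow]
        calc V.valuation (2 : ℂ) ^ 2 * V.valuation (emb z) ≤ V.valuation (2 : ℂ) ^ 2 * 1 :=
              mul_le_mul_right (hC.int z) _
          _ = _ := mul_one _
      have h8 : V.valuation (-emb (y t k - Quotient.out t.2) * E ((ph c)^[k] t)) ≤
          V.valuation (2 : ℂ) ^ 2 := by
        rw [map_mul, Valuation.map_neg]
        calc V.valuation (emb (y t k - Quotient.out t.2)) * V.valuation (E ((ph c)^[k] t)) ≤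
            V.valuation (2 : ℂ) ^ 2 * 1 := mul_le_mul' h6 (hE1 j _ (hmemS j k t hts))
          _ = _ := mul_one _
      calc V.valuation (-emb (y t k - Quotient.out t.2) * E ((ph c)^[k] t)) ^ 2 ≤
          (V.valuation (2 : ℂ) ^ 2) ^ 2 := pow_le_pow_left' h8 2
        _ = V.valuation (2 : ℂ) ^ 3 * V.valuation (2 : ℂ) := by
          rw [← pow_mul, ← pow_succ]
        _ ≤ V.valuation (2 : ℂ) ^ 3 * 1 := mul_le_mul_right hv2.le _
        _ = _ := mul_one _

end

end Pool.Agent.ME2E
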