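import Pool.Agent.ME2.StE3
import Pool.Agent.ME.X_TRA
import Pool.Agent.ME.X_TRB
import Pool.Agent.ME.X_FAC
import Pool.Agent.ME.X_GTH
import Pool.Agent.ME.X_PT
import Pool.Agent.ME.X_GAL
import Pool.Agent.MUX.XLib

/-!
# MUX-2N, block E2N: module ORB, the sum over one orbit of `1 + N del`

`c_k = 1 + N k del`, `N = 2^n f a`, `P = om_0/m`, `ξ_j = x(P + j R)`. The product of the values of `Θ_a` over the orbit is the same rational function over `V` at the
four points `ξ_j`, and it takes the same value at them: its logarithmic derivative is small (`LAG`, `DST`).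
-/

set_option autoImplicit false

open Polynomial

namespace Pool.Agent.ME2E

open _root_.MU3 Pool.Agent.MU3A Pool.Agent.MU3B Pool.Agent.MUX Pool.Agent.MUXU
open Pool.Agent.RI Pool.Agent.NS
open Pool.Agent.ME hiding ActE
open Pool.Agent.MEE Pool.Agent.ME2
open Pool.Agent.MUXE (RingE)
open Pool.Agent.N2 (GoodT et yt WT IsTei2 OddT PTq)
open Pool.Agent.N2E (dlg del cc IsoT Sd_LAG Sd_PRD Sd_COE Sd_GRT Sd_TPT Sd_UNT Sd_RAT Sd_THT Sd_DST Sd_NE1 Sd_PRT)
open Pool.Agent.NSE (IntP)
open Pool.Agent.MUX2 (GRG)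
open Pool.Agent.MUXV (InK tX)

noncomputable section

namespace ORB

lemma pf (n f : ℕ) (hf : f ≠ 0) : (2 ^ (n + 2) * f).primeFactors ⊆ (2 * f).primeFactors := by
  intro p hp
  have h := Nat.mem_primeFactors.1 hp
  rw [Nat.mem_primeFactors]
  refine ⟨h.1, ?_, by omega⟩
  rcases (Nat.Prime.dvd_mul h.1).1 h.2.1 with h2 | h2
  · exact (h.1.dvd_of_dvd_pow h2).mul_right _
  · exact h2.mul_left _

variable {V : ValuationSubring ℂ}

/-- the values of a polynomial over `V` -/
lemma ev {P : ℂ[X]} (hP : IntP V P) {x : ℂ} (hx : V.valuation x ≤ 1) :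
    V.valuation (P.eval x) ≤ 1 := by
  rw [eval_eq_sum_range]
  refine Valuation.map_sum_le _ fun i _ => ?_
  rw [map_mul, map_pow]
  exact mul_le_one' (hP i) (pow_le_one' hx _)

lemma der {P : ℂ[X]} (hP : IntP V P) : IntP V (derivative P) := fun i => by
  rw [coeff_derivative, map_mul]
  refine mul_le_one' (hP _) ?_
  have h : ((i : ℂ) + 1) = ((i + 1 : ℕ) : ℂ) := by push_cast; rfl
  rw [h]
  exact (V.valuation_le_one_iff _).2 (natCast_mem V.toSubring _)

/-- the logarithmic derivative and its numerator -/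
lemma v_dlg {P Q : ℂ[X]} {x : ℂ} (hP : V.valuation (P.eval x) = 1)
    (hQ : V.valuation (Q.eval x) = 1) : V.valuation (dlg P Q x) =
    V.valuation ((derivative P).eval x * Q.eval x - P.eval x * (derivative Q).eval x) := by
  unfold dlg
  rw [map_div₀, map_mul (V.valuation) (P.eval x), hP, hQ, one_mul, div_one]

lemma v_dlg_le {P Q : ℂ[X]} {x : ℂ} (hP : IntP V P) (hQ : IntP V Q) (hx : V.valuation x ≤ 1)
    (hP1 : V.valuation (P.eval x) = 1) (hQ1 : V.valuation (Q.eval x) = 1) :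
    V.valuation (dlg P Q x) ≤ 1 := by
  rw [v_dlg hP1 hQ1]
  refine (Valuation.map_sub _ _ _).trans (max_le ?_ ?_)
  · rw [map_mul]
    exact mul_le_one' (ev (der hP) hx) hQ1.le
  · rw [map_mul]
    exact mul_le_one' hP1.le (ev (der hQ) hx)

/-- `dlX` is periodic -/
lemma dlX_per (L : PeriodPair) (a : ℕ) {z w : ℂ} (h : z - w ∈ L.lattice) :
    dlX L a z = dlX L a w := by
  obtain ⟨h1, -⟩ := b_PER L
  unfold dlX
  have e1 : ee L z = ee L w := by
    have := h1 w (z - w) h
    rwa [add_sub_cancel] at this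
  have e2 : ee L (a * z) = ee L (a * w) := by
    have h2 : (a : ℂ) * (z - w) ∈ L.lattice := by
      have := nsmul_mem h a
      rwa [nsmul_eq_mul] at this
    have := h1 (a * w) _ h2
    have e : (a : ℂ) * w + a * (z - w) = a * z := by ring
    rwa [e] at this
  rw [e1, e2]

/-- `Θ` is periodic -/
lemma th_per (L : PeriodPair) (a : ℂ) {H : Finset ℂ} (hH : IsHalf L a H) {z w : ℂ}
    (h : z - w ∈ L.lattice) : ThetaH L H z = ThetaH L H w := by
  have := (b_TIN L a H H hH hH).2.2 w (z - w) h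
  rwa [add_sub_cancel] at this

end ORB

open ORB

/-- (ORB) the sum over one orbit of `1 + N del` -/
theorem ty_ORB (h1 : Sd_LAG) (h2 : Sd_PRD) (h4 : Sd_DST) (h5 : Sy_CON) (h6 : Sd_NE1)
    (h7 : Sy_GPO) : Sy_ORB := by
  intro A B V n f a m hE ι R u e a1 a3 hg i H hH x hx
  have hc : CQ A B := hE.ctx.cq
  have hv2 := hE.ctx.v2
  have hf0 : f ≠ 0 := by have := hE.f3; omega
  have hm0 : m ≠ 0 := by
    rw [hE.hm]
    positivity
  have hmC : (m : ℂ) ≠ 0 := by exact_mod_cast hm0
  have hpf : m.primeFactors ⊆ (2 * f).primeFactors := by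
    rw [hE.hm]
    exact pf n f hf0
  have h2m : 2 ∣ m := by
    rw [hE.hm]
    exact ((dvd_pow_self 2 (by omega)).mul_right _)
  -- facts on the points
  obtain ⟨-, -, -, hPT⟩ := tm_PT tm_TRA A B hE.ctx.ring (2 * f) ι R (by omega) i
  obtain ⟨-, -, -, hPT0⟩ := tm_PT tm_TRA A B hE.ctx.ring (2 * f) ι R (by omega) R.i0
  -- elements prime to `m` are units at `V`
  have hunit : ∀ y : OO A B, IsCoprime y ((m : ℕ) : OO A B) →
      y ∉ idl (A := A) (B := B) 2 := by
    intro y hy hy2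
    obtain ⟨s, t, hst⟩ := hy
    have hmax := hE.ctx.max.ne_top
    apply hmax
    rw [Ideal.eq_top_iff_one, ← hst]
    refine Ideal.add_mem _ (Ideal.mul_mem_left _ _ hy2) (Ideal.mul_mem_left _ _ ?_)
    obtain ⟨m', hm'⟩ := h2m
    rw [Ideal.mem_span_singleton]
    exact ⟨(m' : OO A B), by rw [hm']; push_cast; rfl⟩
  -- points congruent modulo `m`
  have hpt : ∀ y y' : OO A B, y - y' ∈ idl (A := A) (B := B) m →
      ptE R m i y - ptE R m i y' ∈ (R.L i).lattice := by
    intro y y' hy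
    obtain ⟨t, ht⟩ := Ideal.mem_span_singleton.1 hy
    have h8 := (hPT m hm0 hpf t).2.1
    have e1 : ptE R m i y - ptE R m i y' = (m : ℂ) * ptE R m i t := by
      have e2 : emb y - emb y' = (m : ℂ) * emb t := by
        rw [← MUX.emb_sub hc, ht, MUX.emb_mul hc, MUX.emb_natCast hc]
      unfold ptE
      field_simp
      linear_combination (R.om i * nI (R.b i)) * e2
    rw [e1]
    exact h8
  -- (1)
  have part1 : ∀ y : OO A B, IsCoprime y ((m : ℕ) : OO A B) →
      V.valuation (muXE R i * dlX (R.L i) a (ptE R m i y) / u) ≤ 1 := by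
    intro y hy
    obtain ⟨κ, k, P, Q, hP, hQ, -, hc1⟩ := h7 A B V n f a m hE ι R u e a1 a3 hg i H hH y
      (hunit y hy)
    obtain ⟨q1, q2, q3, q4, -, q6⟩ := hc1 1 (by rwa [one_mul])
    rw [one_mul] at q6
    have e1 : V.valuation (emb y) = 1 := hE.ctx.unit y (hunit y hy)
    have e2 : V.valuation (muXE R i * emb y * dlX (R.L i) a (ptE R m i y) / u) ≤ 1 := by
      rw [q6, map_mul]
      exact mul_le_one' (v_dlg_le hP hQ q1 q3 q4) q2
    have e3 : muXE R i * emb y * dlX (R.L i) a (ptE R m i y) / u =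
        emb y * (muXE R i * dlX (R.L i) a (ptE R m i y) / u) := by ring
    rwa [e3, map_mul, e1, one_mul] at e2
  refine ⟨part1 x hx, ?_⟩
  -- (2)
  intro y hy
  obtain ⟨c1, -, c3, c4, -, c6⟩ := h5 A B V n f a m hE
  have hom : IsNE (⊤ : Ideal (OO A B)) (R.L R.i0) (R.om R.i0) := by
    have := R.nl R.i0
    rwa [R.b0] at this
  obtain ⟨d1, d2, d3, d4, -⟩ := c6 (R.L R.i0) (R.om R.i0) hom
  set N : ℕ := 2 ^ n * f * a with hN
  set L0 := R.L R.i0 with hL0
  set om := R.om R.i0 with hom0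
  set c : ℕ → OO A B := fun k => cc N ((k : OO A B) * del) with hcdef
  have hcc : ∀ k, IsCoprime (c k) ((m : ℕ) : OO A B) := fun k => (c1 _).2.1
  have hc0 : c 0 = 1 := by
    simp [hcdef, cc]
  have hmma : idl (A := A) (B := B) (m * a) ≤ idl (A := A) (B := B) m := by
    refine Ideal.span_singleton_le_span_singleton.2 ⟨(a : OO A B), ?_⟩
    push_cast
    rfl
  -- the points `P + k R`
  set Rp : ℂ := emb (del : OO A B) * (a * om / 4) with hRp
  have hck : ∀ k : ℕ, emb (c k) * (om / m) = om / m + k * Rp := by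
    intro k
    rw [hcdef]
    simp only
    rw [d1, d2]
  have hP0 : ∀ c : ℕ, (c : ℂ) * (om / m) ∈ L0.lattice → 2 ^ (n + 2) * f ∣ c := by
    intro c hcL
    have h8 := ((hPT0 m hm0 hpf 1).2.2.2 ((c : ℕ) : OO A B)).1 (by
      rw [MUX.emb_natCast hc]
      exact hcL)
    obtain ⟨z, hz⟩ := h8
    have h9 := congrArg QuadraticAlgebra.re hz
    have h10 : (c : ℤ) = (m : ℤ) * z.re := by simpa using h9
    rw [← hE.hm]
    exact Int.natCast_dvd_natCast.1 ⟨z.re, h10⟩
  have hmP : ((2 ^ (n + 2) * f : ℕ) : ℂ) * (om / m) ∈ L0.lattice := by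
    rw [← hE.hm, mul_div_cancel₀ _ hmC]
    refine (hom.mem _).2 ⟨1, trivial, ?_⟩
    rw [MUX.emb_one hc, mul_one]
  obtain ⟨nk1, nk2, -⟩ := h6 V L0 u e a1 a3 hg hv2 (n + 2) f a hE.f3 hE.fo hE.ao hE.af (om / m)
    hmP hP0
  obtain ⟨S, hS1, hS2, hS3⟩ := (h4 V L0 u e a1 a3 hg hv2 (om / m) nk1 nk2).2 Rp d3 d4
  -- the data for `x_k = c_k x`
  have hxk : ∀ k, IsCoprime (c k * x) ((m : ℕ) : OO A B) := fun k => (hcc k).mul_left hx
  have data := fun k : ℕ => h7 A B V n f a m hE ι R u e a1 a3 hg i H hH (c k * x)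
    (hunit _ (hxk k))
  choose κ kk P Q hP hQ hκ hdat using data
  set ξ : ℕ → ℂ := fun j => xu L0 u e (om / m + j * Rp) with hξ
  have hξ0 : ξ 0 = xu L0 u e (om / m) := by
    rw [hξ]
    simp
  have D : ∀ j k : ℕ, V.valuation (ξ j) ≤ 1 ∧
      V.valuation ((P k).eval (ξ j)) = 1 ∧ V.valuation ((Q k).eval (ξ j)) = 1 ∧
      ThetaH (R.L i) H (ptE R m i (c j * (c k * x))) * (Q k).eval (ξ j) =
        κ k * (P k).eval (ξ j) := by
    intro j k
    obtain ⟨q1, -, q3, q4, q5, -⟩ := hdat k (c j) ((hcc j).mul_left (hxk k))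
    rw [hck] at q1 q3 q4 q5
    exact ⟨q1, q3, q4, q5⟩
  -- the product of the values of `Θ` does not depend on `j`
  set Th : ℕ → ℂ := fun r => ThetaH (R.L i) H (ptE R m i (c r * x)) with hTh
  have hcong : ∀ j k : ℕ, c j * (c k * x) - c (j + k) * x ∈ idl (A := A) (B := B) m := by
    intro j k
    have h8 := Ideal.mul_mem_left _ x (hmma (c3 j k))
    have h9 : x * (c j * c k - c (j + k)) = c j * (c k * x) - c (j + k) * x := by ring
    have h10 : x * (cc N ((j : OO A B) * del) * cc N ((k : OO A B) * del) -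
        cc N (((j + k : ℕ) : OO A B) * del)) = x * (c j * c k - c (j + k)) := rfl
    rw [h10, h9] at h8
    exact h8
  have hTjk : ∀ j k : ℕ, ThetaH (R.L i) H (ptE R m i (c j * (c k * x))) = Th (j + k) :=
    fun j k => th_per _ _ hH (hpt _ _ (hcong j k))
  have hT4 : ∀ r : ℕ, Th (r + 4) = Th r := by
    intro r
    have h8 : c (r + 4) * x - c r * x ∈ idl (A := A) (B := B) m := by
      have h9 := hmma (c3 r 4)
      have h10 := hmma c4
      have h11 : (c (r + 4) - c r) = -(c r * c 4 - c (r + 4)) + c r * (c 4 - 1) := by ring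
      have h12 : c (r + 4) * x - c r * x = x * (c (r + 4) - c r) := by ring
      rw [h12, h11]
      refine Ideal.mul_mem_left _ _ (Ideal.add_mem _ (neg_mem h9) (Ideal.mul_mem_left _ _ h10))
    exact th_per _ _ hH (hpt _ _ h8)
  have hprod : ∀ j, j < 4 → ∏ k ∈ Finset.range 4, Th (j + k) = ∏ k ∈ Finset.range 4, Th k := by
    intro j hj
    have e4 := hT4 0
    have e5 := hT4 1
    have e6 := hT4 2
    simp only [Finset.prod_range_succ, Finset.prod_range_zero, one_mul]
    norm_num at e4 e5 e6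
    interval_cases j
    · simp
    · norm_num
      rw [e4]
      ring
    · norm_num
      rw [e4, e5]
      ring
    · norm_num
      rw [e4, e5, e6]
      ring
  have hκ0 : ∀ k, κ k ≠ 0 := by
    intro k h0
    have h8 := hκ k
    rw [h0, map_zero] at h8
    have h9 : V.valuation (2 : ℂ) ≠ 0 := (Valuation.ne_zero_iff _).2 two_ne_zero
    exact pow_ne_zero 2 (zpow_ne_zero (kk k) h9) h8.symm
  -- the products of the rational functions
  obtain ⟨P', Q', hP', hQ', hPQ⟩ := h2 V ℕ (Finset.range 4) P Q (fun _ => 1)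
    (ξ '' {j | j < 4}) (fun k _ => ⟨hP k, hQ k, by
      rintro _ ⟨j, -, rfl⟩
      exact ⟨(D j k).2.1, (D j k).2.2.1⟩⟩)
  have hne : ∀ {w : ℂ}, V.valuation w = 1 → w ≠ 0 := fun {w} hw h0 => by
    rw [h0, map_zero] at hw
    exact zero_ne_one hw
  have hval : ∀ j, j < 4 → P'.eval (ξ j) * ∏ k ∈ Finset.range 4, κ k =
      Q'.eval (ξ j) * ∏ k ∈ Finset.range 4, Th k := by
    intro j hj
    obtain ⟨-, -, q3, -⟩ := hPQ (ξ j) ⟨j, hj, rfl⟩
    simp only [zpow_one] at q3
    have e1 : (∏ k ∈ Finset.range 4, Th k) * ∏ k ∈ Finset.range 4, (Q k).eval (ξ j) =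
        (∏ k ∈ Finset.range 4, κ k) * ∏ k ∈ Finset.range 4, (P k).eval (ξ j) := by
      rw [← hprod j hj, ← Finset.prod_mul_distrib, ← Finset.prod_mul_distrib]
      refine Finset.prod_congr rfl fun k _ => ?_
      rw [← hTjk]
      exact (D j k).2.2.2
    have e2 : (∏ k ∈ Finset.range 4, (Q k).eval (ξ j)) ≠ 0 :=
      Finset.prod_ne_zero_iff.2 fun k _ => hne (D j k).2.2.1
    apply mul_right_cancel₀ e2
    linear_combination (∏ k ∈ Finset.range 4, κ k) * q3 - Q'.eval (ξ j) * e1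
  have hKK : (∏ k ∈ Finset.range 4, κ k) ≠ 0 := Finset.prod_ne_zero_iff.2 fun k _ => hκ0 k
  have hcross : ∀ j, j < 4 → P'.eval (ξ j) * Q'.eval (ξ 0) = P'.eval (ξ 0) * Q'.eval (ξ j) := by
    intro j hj
    apply mul_right_cancel₀ hKK
    linear_combination Q'.eval (ξ 0) * hval j hj - Q'.eval (ξ j) * hval 0 (by norm_num)
  -- `LAG`
  obtain ⟨p1, p2, -, p4⟩ := hPQ (ξ 0) ⟨0, by norm_num, rfl⟩
  have hS1' : ξ 0 ∉ S := by
    rw [hξ0]
    exact hS1
  have hlag := (h1 V S (ξ 0) hS1' (D 0 0).1 (fun s hs => (hS2 s hs).1)).2.2.1 P' Q' hP' hQ' (by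
    intro s hs
    obtain ⟨-, k, hk, rfl⟩ := hS2 s hs
    exact hcross k hk)
  have hdl : V.valuation (dlg P' Q' (ξ 0)) ^ 2 ≤ V.valuation (2 : ℂ) := by
    rw [v_dlg p1 p2]
    refine (pow_le_pow_left₀ zero_le hlag 2).trans ?_
    rw [hξ0]
    exact hS3
  -- the sum with the weights `emb x_k`
  have hsum : ∑ k ∈ Finset.range 4, muXE R i * emb (c k * x) *
      dlX (R.L i) a (ptE R m i (c k * x)) / u = dlg P' Q' (ξ 0) * et L0 u (om / m) := by
    rw [p4, Finset.sum_mul]
    refine Finset.sum_congr rfl fun k _ => ?_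
    obtain ⟨-, -, -, -, -, q6⟩ := hdat k 1 (by rw [one_mul]; exact hxk k)
    rw [one_mul, MUX.emb_one hc, one_mul] at q6
    rw [q6, hξ0]
    push_cast
    ring
  have het : V.valuation (et L0 u (om / m)) ≤ 1 := by
    obtain ⟨-, q2, -⟩ := hdat 0 1 (by rw [one_mul]; exact hxk 0)
    rwa [MUX.emb_one hc, one_mul] at q2
  have hsum2 : V.valuation (∑ k ∈ Finset.range 4, muXE R i * emb (c k * x) *
      dlX (R.L i) a (ptE R m i (c k * x)) / u) ^ 2 ≤ V.valuation (2 : ℂ) := by
    rw [hsum, map_mul, mul_pow]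
    exact (mul_le_of_le_one_right' (pow_le_one' het 2)).trans hdl
  -- replace the weights by `emb x`
  have v4 : V.valuation (4 : ℂ) = V.valuation (2 : ℂ) ^ 2 := by
    rw [← map_pow]
    norm_num
  have hdiff : V.valuation (∑ k ∈ Finset.range 4, (emb (c k * x) - emb x) *
      (muXE R i * dlX (R.L i) a (ptE R m i (c k * x)) / u)) ≤ V.valuation (4 : ℂ) := by
    refine Valuation.map_sum_le _ fun k _ => ?_
    rw [map_mul]
    have e1 : V.valuation (emb (c k * x) - emb x) ≤ V.valuation (4 : ℂ) := by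
      have e2 : c k * x - x = ((4 : ℕ) : OO A B) * (((2 ^ (n - 2) * f * a : ℕ) : OO A B) *
          ((k : OO A B) * del) * x) := by
        have e3 : N = 4 * (2 ^ (n - 2) * f * a) := by
          rw [hN]
          have e4 : 2 ^ n = 4 * 2 ^ (n - 2) := by
            have := hE.n2
            obtain ⟨n', rfl⟩ := Nat.exists_eq_add_of_le this
            rw [Nat.add_sub_cancel_left, pow_add]
            norm_num
          rw [e4]
          ring
        have e5 : c k = 1 + ((N : ℕ) : OO A B) * ((k : OO A B) * del) := rfl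
        rw [e5, e3]
        push_cast
        ring
      rw [← MUX.emb_sub hc, e2, MUX.emb_mul hc, MUX.emb_natCast hc, map_mul]
      push_cast
      exact mul_le_of_le_one_right' (hE.ctx.int _)
    exact (mul_le_mul' e1 (part1 _ (hxk k))).trans (by rw [mul_one])
  have key : emb x * ((∑ k ∈ Finset.range 4, muXE R i * dlX (R.L i) a (ptE R m i (y k))) / u) =
      (∑ k ∈ Finset.range 4, muXE R i * emb (c k * x) *
        dlX (R.L i) a (ptE R m i (c k * x)) / u) -
      ∑ k ∈ Finset.range 4, (emb (c k * x) - emb x) *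
        (muXE R i * dlX (R.L i) a (ptE R m i (c k * x)) / u) := by
    rw [← Finset.sum_sub_distrib, Finset.sum_div, Finset.mul_sum]
    refine Finset.sum_congr rfl fun k hk => ?_
    rw [dlX_per (R.L i) a (hpt _ _ (hy k (Finset.mem_range.1 hk)))]
    show emb x * (muXE R i * dlX (R.L i) a (ptE R m i (c k * x)) / u) = _
    ring
  have vx : V.valuation (emb x) = 1 := hE.ctx.unit x (hunit x hx)
  have e7 : V.valuation ((∑ k ∈ Finset.range 4, muXE R i *
      dlX (R.L i) a (ptE R m i (y k))) / u) = V.valuation (emb x *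
      ((∑ k ∈ Finset.range 4, muXE R i * dlX (R.L i) a (ptE R m i (y k))) / u)) := by
    rw [map_mul, vx, one_mul]
  rw [e7, key]
  have e8 := Valuation.map_sub V.valuation (∑ k ∈ Finset.range 4, muXE R i * emb (c k * x) *
        dlX (R.L i) a (ptE R m i (c k * x)) / u)
      (∑ k ∈ Finset.range 4, (emb (c k * x) - emb x) *
        (muXE R i * dlX (R.L i) a (ptE R m i (c k * x)) / u))
  refine (pow_le_pow_left₀ zero_le e8 2).trans ?_
  rcases le_total (V.valuation (∑ k ∈ Finset.range 4, muXE R i * emb (c k * x) *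
        dlX (R.L i) a (ptE R m i (c k * x)) / u))
      (V.valuation (∑ k ∈ Finset.range 4, (emb (c k * x) - emb x) *
        (muXE R i * dlX (R.L i) a (ptE R m i (c k * x)) / u))) with h | h
  · rw [max_eq_right h]
    refine (pow_le_pow_left₀ zero_le hdiff 2).trans ?_
    rw [v4, ← pow_mul]
    exact pow_le_of_le_one zero_le hv2.le (by norm_num)
  · rw [max_eq_left h]
    exact hsum2

end

end Pool.Agent.ME2E
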