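import Pool.Agent.ME2.StE3
import Pool.Agent.ME.X_TRA
import Pool.Agent.ME.X_TRB
import Pool.Agent.ME.X_FAC
import Pool.Agent.ME.X_GTH
import Pool.Agent.ME.X_PT
import Pool.Agent.ME.X_GAL
import Pool.Agent.NS.E_SIG
import Pool.Agent.NS.E_BAS

/-!
# MUX-2N, block E2N, module SIG: integral elements of the ray class field are polynomials in `x(P)` (model `NS/E_SIG.lean`)
-/

set_option autoImplicit false

open Polynomial

namespace Pool.Agent.ME2E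

open _root_.MU3 Pool.Agent.MU3A Pool.Agent.MU3B Pool.Agent.MUX Pool.Agent.MUXU
open Pool.Agent.RI Pool.Agent.NS
open Pool.Agent.ME hiding ActE
open Pool.Agent.MEE Pool.Agent.ME2
open Pool.Agent.MUXE (RingE)
open Pool.Agent.N2 (GoodT et yt WT IsTei2 OddT PTq)
open Pool.Agent.N2E (dlg del cc IsoT Sd_LAG Sd_PRD Sd_COE Sd_GRT Sd_TPT Sd_UNT Sd_RAT Sd_THT Sd_DST Sd_NE1 Sd_PRT)
open Pool.Agent.NSE (IntP)
open Pool.Agent.NSE.SIG (rat_mem intP_sum)
open Pool.Agent.MUX2 (GRG)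
open Pool.Agent.MUXV (InK tX)

noncomputable section

namespace SIG

/-- rational multiples of `om` in the lattice `om O` -/
theorem rat_memE {A B : ℤ} (hR : RingE A B) {L : PeriodPair} {om : ℂ} (hL : IsNE (⊤ : Ideal (OO A B)) L om)
    (a : ℤ) {b : ℕ} (hb : b ≠ 0) : (a : ℂ) / b * om ∈ L.lattice ↔ (b : ℤ) ∣ a := by
  obtain ⟨φ, hφ⟩ := hR.hom
  have hb0 : (b : ℂ) ≠ 0 := by exact_mod_cast hb
  rw [hL.mem]
  constructor
  · rintro ⟨x, -, hx⟩
    have h1 : (a : ℂ) = b * emb x := by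
      have h2 : (a : ℂ) / b = emb x := by
        apply mul_right_cancel₀ hL.om_ne
        rw [hx, mul_comm]
      rw [← h2]
      field_simp
    have h3 : emb ((b : OO A B) * x - (a : OO A B)) = 0 := by
      rw [← hφ, map_sub, map_mul, map_natCast, map_intCast, hφ, h1, sub_self]
    have h4 := hR.inj0 _ h3
    have h5 := congrArg QuadraticAlgebra.re h4
    have re_nat : ∀ n : ℕ, ((n : ℕ) : OO A B).re = n := fun n => rfl
    have im_nat : ∀ n : ℕ, ((n : ℕ) : OO A B).im = 0 := fun n => rfl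
    have re_int : ∀ n : ℤ, ((n : ℤ) : OO A B).re = n := fun n => rfl
    rw [QuadraticAlgebra.re_sub, QuadraticAlgebra.re_mul, re_nat, im_nat, re_int] at h5
    refine ⟨x.re, ?_⟩
    have h6 : (b : ℤ) * x.re + A * 0 * x.im - a = 0 := h5
    linarith
  · rintro ⟨c, rfl⟩
    refine ⟨(c : OO A B), Submodule.mem_top, ?_⟩
    rw [← hφ, map_intCast]
    push_cast
    field_simp

lemma cube {Γ : Type} [LinearOrderedCommGroupWithZero Γ] {x y : Γ} (h : x ^ 3 = y ^ 3) : x = y :=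
  (pow_left_inj₀ zero_le zero_le (by norm_num)).1 h

/-- `2/u²` is a uniformiser -/
lemma unif {A B : ℤ} (hCE : CaseE A B) (hB : B = 1) {V : ValuationSubring ℂ} {L : PeriodPair}
    (hL : NLE A B L) {u e a1 a3 : ℂ} (hg : GoodT V L u e a1 a3) (hv2 : V.valuation (2 : ℂ) < 1)
    (h1 : 12 * e = a1 ^ 2 * u ^ 2 ∧ 12 * e ^ 2 - L.g₂ = 2 * a1 * a3 * u ^ 4 ∧
      4 * e ^ 3 - L.g₂ * e - L.g₃ = a3 ^ 2 * u ^ 6 ∧ V.valuation (3 : ℂ) = 1) {ϖ : ℂ}
    (hϖ : ϖ = 2 / u ^ 2) :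
    ϖ ≠ 0 ∧ V.valuation ϖ < 1 ∧ V.valuation ϖ ^ 3 = V.valuation (2 : ℂ) := by
  obtain ⟨b, om, hN⟩ := hL
  have hg2 : L.g₂ = 0 := by rw [hN.nrm.g2, g2E, if_neg (by rw [hB]; norm_num)]
  have hg3 : L.g₃ = -4 := by rw [hN.nrm.g3, g3E, if_neg (by rw [hB]; norm_num)]
  obtain ⟨c1, -, c3, v3⟩ := h1
  rw [hg2, hg3] at c3
  have hu0 := hg.u0
  have v20 : V.valuation (2 : ℂ) ≠ 0 := (Valuation.ne_zero_iff _).2 two_ne_zero
  have hU0 : V.valuation u ≠ 0 := (Valuation.ne_zero_iff _).2 hu0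
  have v4 : V.valuation (4 : ℂ) = V.valuation (2 : ℂ) ^ 2 := by
    rw [← map_pow]
    norm_num
  have v12 : V.valuation (12 : ℂ) = V.valuation (2 : ℂ) ^ 2 := by
    have : (12 : ℂ) = 4 * 3 := by norm_num
    rw [this, map_mul, v4, v3, mul_one]
  -- `v e ≤ v u²`
  have he : V.valuation e ≤ V.valuation u ^ 2 := by
    have h2 := congrArg V.valuation c1
    rw [map_mul, map_mul, map_pow, map_pow, v12] at h2
    have h3 : V.valuation (2 : ℂ) ^ 2 * V.valuation e ≤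
        V.valuation (2 : ℂ) ^ 2 * V.valuation u ^ 2 := by
      rw [h2]
      exact mul_le_mul_left (pow_le_pow_left₀ zero_le hg.v1 2) _
    exact le_of_mul_le_mul_left h3 (zero_lt_iff.2 (pow_ne_zero 2 v20))
  have c4 : 4 * (e ^ 3 + 1) = a3 ^ 2 * u ^ 6 := by linear_combination c3
  have h4 := congrArg V.valuation c4
  rw [map_mul, map_mul, map_pow, hg.v3, one_pow, one_mul, v4, map_pow] at h4
  -- `v u < 1`
  have hu1 : V.valuation u < 1 := by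
    by_contra hge
    rw [not_lt] at hge
    have h5 : V.valuation (e ^ 3 + 1) ≤ V.valuation u ^ 6 := by
      refine (Valuation.map_add _ _ _).trans (max_le ?_ ?_)
      · rw [map_pow]
        refine (pow_le_pow_left₀ zero_le he 3).trans ?_
        rw [← pow_mul]
      · rw [map_one]
        exact one_le_pow₀ hge
    have h6 : V.valuation (2 : ℂ) ^ 2 * V.valuation (e ^ 3 + 1) < V.valuation u ^ 6 := by
      refine lt_of_le_of_lt (mul_le_mul_right h5 _) ?_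
      refine mul_lt_of_lt_one_left (zero_lt_iff.2 (pow_ne_zero 6 hU0)) ?_
      exact pow_lt_one₀ zero_le hv2 two_ne_zero
    rw [h4] at h6
    exact lt_irrefl _ h6
  have he1 : V.valuation e < 1 := lt_of_le_of_lt he (pow_lt_one₀ zero_le hu1 two_ne_zero)
  have h7 : V.valuation (e ^ 3 + 1) = 1 := by
    rw [Valuation.map_add_eq_of_lt_right V.valuation (x := e ^ 3) (y := 1)
      (by rw [map_pow, map_one]; exact pow_lt_one₀ zero_le he1 three_ne_zero), map_one]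
  rw [h7, mul_one] at h4
  have h8 : V.valuation ϖ ^ 3 = V.valuation (2 : ℂ) := by
    have h9 : V.valuation u ^ (2 * 3) = V.valuation (2 : ℂ) ^ 2 := h4.symm
    rw [hϖ, map_div₀, map_pow, div_pow, ← pow_mul, h9, div_eq_iff (pow_ne_zero 2 v20), ← pow_succ']
  refine ⟨?_, ?_, h8⟩
  · rw [hϖ]
    exact div_ne_zero two_ne_zero (pow_ne_zero 2 hu0)
  · by_contra hge
    rw [not_lt] at hge
    have h9 := one_le_pow₀ hge (n := 3)
    rw [h8] at h9
    exact absurd hv2 (not_lt.2 h9)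

end SIG

theorem ty_SIG (h1 : Sd_COE) (h2 : Sd_GRT) (h3 : Sd_TPT) (h4 : Sy_UNR) (h5 : Sy_DEG) :
    Sy_SIG := by
  intro A B V n f a m S L om u e a1 a3 hL hgood w hw hvw
  obtain ⟨hC, hT, hn, hf, h3f, h2f, -, h2a, -, rfl⟩ := S
  have hR := hC.ring
  have hG : GalEE A B := tm_GAL A B hC.case hR hT
  obtain ⟨φ, hφ⟩ := hR.hom
  have hmul : ∀ x y : OO A B, emb (x * y) = emb x * emb y := fun x y => by
    rw [← hφ, map_mul, hφ, hφ]
  have hnat : ∀ k : ℕ, emb ((k : ℕ) : OO A B) = k := fun k => by rw [← hφ, map_natCast]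
  have hLn : NLE A B L := ⟨⊤, om, hL⟩
  have hom0 := hL.om_ne
  have hv2 := hC.v2
  have hf0 : f ≠ 0 := by omega
  have ha : a ≠ 0 := by rintro rfl; exact h2a (dvd_zero 2)
  have hfa0 : f * a ≠ 0 := Nat.mul_ne_zero hf0 ha
  have h2fa : ¬ 2 ∣ f * a := fun h => by
    rcases (Nat.Prime.dvd_mul (by norm_num)).1 h with h | h
    · exact h2f h
    · exact h2a h
  have hm0' : 2 ^ (n + 2) * f * a ≠ 0 := by positivity
  have hne : ∀ k : ℕ, k ≠ 0 → idl (A := A) (B := B) k ≠ ⊥ := by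
    intro k hk h
    rw [Ideal.span_singleton_eq_bot] at h
    apply hk
    have h' := hnat k
    rw [h, ← hφ, map_zero] at h'
    exact_mod_cast h'.symm
  -- the fields
  have hmm : idl (A := A) (B := B) (2 ^ (n + 2) * f * a) ≤ idl (2 * (f * a)) := by
    rw [Ideal.span_singleton_le_span_singleton]
    refine ⟨((2 ^ (n + 1) : ℕ) : OO A B), ?_⟩
    push_cast; ring
  have hm2 : idl (A := A) (B := B) (2 * (f * a)) ≤ idl 2 := by
    rw [Ideal.span_singleton_le_span_singleton]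
    refine ⟨((f * a : ℕ) : OO A B), ?_⟩
    push_cast; ring
  obtain ⟨c1, c2, c3, c4, c5⟩ := tm_FAC tm_TRA A B hR
  have hle := c1 _ _ hmm
  obtain ⟨ξ, G⟩ := h2 V L u e a1 a3 hgood hv2
  obtain ⟨t1, t2⟩ := h3 V L u e a1 a3 hgood hv2
  obtain ⟨w₁, w₂, hw₁, hw₂, hw₁L, hw₂L, -, -, he, hu2⟩ := hgood.tor
  -- torsion points
  have hTor : ∀ (k : ℕ) (z : ℂ), (k : ℂ) * z ∈ L.lattice → Tor (idl (A := A) (B := B) k) L z := by
    intro k z hz x hx
    obtain ⟨y, rfl⟩ := Ideal.mem_span_singleton'.1 hx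
    rw [hmul, hnat, mul_assoc]
    obtain ⟨c, -, hc⟩ := (hL.mem _).1 hz
    exact (hL.mem _).2 ⟨y * c, Submodule.mem_top, by rw [hc, hmul]; ring⟩
  have hint : ∀ (k : ℤ) (z : ℂ), z ∈ L.lattice → (k : ℂ) * z ∈ L.lattice := by
    intro k z hz
    simpa [zsmul_eq_mul] using L.lattice.smul_mem k hz
  obtain ⟨f', hf'⟩ := h3f
  have hthree : ∀ z : ℂ, 3 * z ∈ L.lattice →
      Tor (idl (A := A) (B := B) (2 * (f * a))) L z := by
    intro z hz
    apply hTor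
    have h11 := hint ((2 * (f' * a) : ℕ) : ℤ) _ hz
    have h12 : ((2 * (f * a) : ℕ) : ℂ) * z = (((2 * (f' * a) : ℕ) : ℤ) : ℂ) * (3 * z) := by
      rw [hf']; push_cast; ring
    rw [h12]; exact h11
  have hx1 : xnE L w₁ ∈ RFE (idl (A := A) (B := B) (2 * (f * a))) :=
    (c2 _ L hLn).2 _ (hthree _ hw₁) hw₁L
  have hx2 : xnE L w₂ ∈ RFE (idl (A := A) (B := B) (2 * (f * a))) :=
    (c2 _ L hLn).2 _ (hthree _ hw₂) hw₂L
  have heM : e ∈ RFE (idl (A := A) (B := B) (2 * (f * a))) := by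
    rw [he]
    exact hx1
  have huM : u ^ 2 ∈ RFE (idl (A := A) (B := B) (2 * (f * a))) := by
    have h11 : u ^ 2 = xnE L w₂ - xnE L w₁ := by rw [hu2]; unfold xnE; rfl
    rw [h11]
    exact sub_mem hx2 hx1
  -- the points
  have hcop : IsCoprime ((2 ^ (n + 2) : ℕ) : ℤ) (f : ℤ) := by
    rw [Nat.isCoprime_iff_coprime]
    exact Nat.Coprime.pow_left _ ((Nat.Prime.coprime_iff_not_dvd (by norm_num)).2 h2f)
  obtain ⟨α, β, hαβ⟩ := hcop
  push_cast at hαβ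
  obtain ⟨P₀, hP₀⟩ : ∃ z, z = (α : ℂ) / (f : ℕ) * om := ⟨_, rfl⟩
  obtain ⟨P₁, hP₁⟩ : ∃ z, z = (β : ℂ) / ((2 ^ (n + 2) : ℕ) : ℂ) * om := ⟨_, rfl⟩
  obtain ⟨Pt, hPt⟩ : ∃ z, z = om / ((2 ^ (n + 2) * f : ℕ) : ℂ) := ⟨_, rfl⟩
  rw [← hPt]
  have hfc : (f : ℂ) ≠ 0 := by exact_mod_cast hf0
  have h2c : (2 : ℂ) ^ (n + 2) ≠ 0 := pow_ne_zero _ (by norm_num)
  have hsum : P₀ + P₁ = Pt := by
    have h11 : (α : ℂ) * 2 ^ (n + 2) + β * f = 1 := by exact_mod_cast hαβ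
    rw [hP₀, hP₁, hPt]
    push_cast
    field_simp
    linear_combination h11
  have hfP₀ : (f : ℂ) * P₀ ∈ L.lattice := by
    have h11 : (f : ℂ) * P₀ = (((f : ℤ) * α : ℤ) : ℂ) / ((f : ℕ) : ℂ) * om := by
      rw [hP₀]; push_cast; ring
    rw [h11, SIG.rat_memE hR hL _ hf0]
    exact dvd_mul_right _ _
  have h2P₀ : 2 * P₀ ∉ L.lattice := by
    have h11 : 2 * P₀ = ((2 * α : ℤ) : ℂ) / ((f : ℕ) : ℂ) * om := by
      rw [hP₀]; push_cast; ring
    rw [h11, SIG.rat_memE hR hL _ hf0]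
    intro h12
    have h13 : IsCoprime (f : ℤ) α := ⟨β, 2 ^ (n + 2), by linear_combination hαβ⟩
    have h14 := h13.dvd_of_dvd_mul_right h12
    have h15 := Int.le_of_dvd (by norm_num) h14
    omega
  have hP₀L : P₀ ∉ L.lattice := fun h => h2P₀ (by rw [two_mul]; exact add_mem h h)
  have hP₀E : ¬ InK V L (xu L u e) P₀ := fun h => hP₀L ((t1 f h2f).2 P₀ hfP₀ h)
  have h2P₀E : ¬ InK V L (xu L u e) (2 * P₀) := fun h => h2P₀ ((t1 f h2f).2 _ (by
    have h11 : (f : ℂ) * (2 * P₀) = f * P₀ + f * P₀ := by ring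
    rw [h11]; exact add_mem hfP₀ hfP₀) h)
  have h2P₁ : (2 : ℂ) ^ (n + 1 + 1) * P₁ ∈ L.lattice := by
    have h11 : (2 : ℂ) ^ (n + 1 + 1) * P₁ =
        ((((2 ^ (n + 2) : ℕ) : ℤ) * β : ℤ) : ℂ) / ((2 ^ (n + 2) : ℕ) : ℂ) * om := by
      rw [hP₁]; push_cast; ring
    rw [h11, SIG.rat_memE hR hL _ (by positivity)]
    exact dvd_mul_right _ _
  have h2P₁' : (2 : ℂ) ^ (n + 1) * P₁ ∉ L.lattice := by
    have h11 : (2 : ℂ) ^ (n + 1) * P₁ = (β : ℂ) / ((2 : ℕ) : ℂ) * om := by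
      rw [hP₁]; push_cast; field_simp; ring
    rw [h11, SIG.rat_memE hR hL _ (by norm_num)]
    intro h12
    have h13 : (2 : ℤ) ∣ 1 := by
      rw [← hαβ]
      refine dvd_add (Dvd.dvd.mul_left (dvd_pow_self 2 (Nat.succ_ne_zero (n + 1))) _)
        (Dvd.dvd.mul_right ?_ _)
      exact_mod_cast h12
    omega
  obtain ⟨hP₁E, hP₁L, hP₁v⟩ := t2 (n + 1) P₁ h2P₁ h2P₁'
  obtain ⟨hPE, hnr, -, -⟩ := Pool.Agent.MUX2.gnear G hP₀E hP₁E hP₁L
  have hDX := Pool.Agent.MUX2.gv_DX G hP₀E h2P₀E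
  rw [hsum] at hPE hnr
  have hPL : Pt ∉ L.lattice := fun h => hPE (Or.inl h)
  -- the uniformiser
  obtain ⟨π, hπ⟩ : ∃ z, z = xu L u e Pt - xu L u e P₀ := ⟨_, rfl⟩
  have hvπ : V.valuation π ^ (3 * 4 ^ (n + 1)) = V.valuation (2 : ℂ) := by
    obtain ⟨h12, h12', -⟩ := Pool.Agent.MUX2.gv_tX_lt G hP₁E hP₁L
    have h13 : V.valuation (tX (xu L u e) (yt L u e a1 a3) P₁) ^ 2 <
        V.valuation (tX (xu L u e) (yt L u e a1 a3) P₁) := by
      rw [pow_two]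
      exact mul_lt_of_lt_one_right (zero_lt_iff.2 h12') h12
    rw [← hπ] at hnr
    have h14 : V.valuation ((2 * yt L u e a1 a3 P₀ + (WT a1 a3).a₁ * xu L u e P₀ +
        (WT a1 a3).a₃) * tX (xu L u e) (yt L u e a1 a3) P₁) =
        V.valuation (tX (xu L u e) (yt L u e a1 a3) P₁) := by
      rw [map_mul, hDX, one_mul]
    have h15 : V.valuation π = V.valuation (tX (xu L u e) (yt L u e a1 a3) P₁) := by
      have h16 := Valuation.map_add_eq_of_lt_left V.valuation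
        (x := (2 * yt L u e a1 a3 P₀ + (WT a1 a3).a₁ * xu L u e P₀ +
          (WT a1 a3).a₃) * tX (xu L u e) (yt L u e a1 a3) P₁)
        (y := π - (2 * yt L u e a1 a3 P₀ + (WT a1 a3).a₁ * xu L u e P₀ +
          (WT a1 a3).a₃) * tX (xu L u e) (yt L u e a1 a3) P₁)
        (by rw [h14]; exact lt_of_le_of_lt hnr h13)
      rw [add_sub_cancel, h14] at h16
      exact h16
    rw [h15]
    exact hP₁v
  have hTorPt : Tor (idl (A := A) (B := B) (2 ^ (n + 2) * f * a)) L Pt := by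
    refine hTor _ _ ?_
    have h11 : ((2 ^ (n + 2) * f * a : ℕ) : ℂ) * Pt = ((a : ℤ) : ℂ) / ((1 : ℕ) : ℂ) * om := by
      rw [hPt]; push_cast; field_simp
    rw [h11, SIG.rat_memE hR hL _ one_ne_zero]
    exact ⟨a, by simp⟩
  have hPM : xnE L Pt ∈ RFE (idl (A := A) (B := B) (2 ^ (n + 2) * f * a)) :=
    (c2 _ L hLn).2 _ hTorPt hPL
  have hP₀M : xnE L P₀ ∈ RFE (idl (A := A) (B := B) (2 * (f * a))) := by
    refine (c2 _ L hLn).2 _ (hTor _ _ ?_) hP₀L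
    have h11 : ((2 * (f * a) : ℕ) : ℂ) * P₀ = ((2 * a : ℤ) : ℂ) * (f * P₀) := by
      push_cast; ring
    rw [h11]
    exact hint _ _ hfP₀
  have hxx : ∀ z : ℂ, xu L u e z = (xnE L z - e) / u ^ 2 := by
    intro z; unfold xu xnE; rfl
  have hx0M : xu L u e P₀ ∈ RFE (idl (A := A) (B := B) (2 * (f * a))) := by
    rw [hxx]
    exact div_mem (sub_mem hP₀M heM) huM
  have hxPM : xu L u e Pt ∈ RFE (idl (A := A) (B := B) (2 ^ (n + 2) * f * a)) := by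
    rw [hxx]
    exact div_mem (sub_mem hPM (hle heM)) (hle huM)
  have hπM : π ∈ RFE (idl (A := A) (B := B) (2 ^ (n + 2) * f * a)) := by
    rw [hπ]; exact sub_mem hxPM (hle hx0M)
  have := hG.fin _ (hne _ (Nat.mul_ne_zero two_ne_zero hfa0))
  have := hG.fin _ (hne _ hm0')
  have hdeg := h5 A B V hC hG (n + 1) (f * a) hfa0 h2fa
  rw [← mul_assoc (2 ^ (n + 1 + 1)) f a] at hdeg
  -- the uniformiser of `M₀`
  obtain ⟨ϖ, hϖ⟩ : ∃ z : ℂ, z = 2 / u ^ 2 := ⟨_, rfl⟩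
  obtain ⟨hϖ0, hϖ1, hϖ3⟩ := SIG.unif hC.case hC.hB hLn hgood hv2
    (by
      obtain ⟨q1, q2, q3, q4, -⟩ := h1 V L u e a1 a3 hgood hv2
      exact ⟨q1, q2, q3, q4⟩) hϖ
  have hvM : ∀ y ∈ RFE (idl (A := A) (B := B) (2 * (f * a))), y ≠ 0 →
      ∃ k : ℤ, V.valuation y = V.valuation ϖ ^ k := by
    intro y hy hy0
    obtain ⟨k, hk⟩ := h4 A B V hC hT (f * a) hfa0 h2fa y hy hy0
    refine ⟨k, SIG.cube ?_⟩
    rw [hk, ← hϖ3, ← zpow_natCast, ← zpow_natCast, ← zpow_mul, ← zpow_mul]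
    congr 1
    ring
  have hvπ' : V.valuation π ^ (4 ^ (n + 1)) = V.valuation ϖ := by
    refine SIG.cube ?_
    rw [hϖ3, ← pow_mul, mul_comm (4 ^ (n + 1)) 3]
    exact hvπ
  obtain ⟨c, hc1, hc2⟩ := Pool.Agent.NSE.te_BAS (kk A B) ℂ V.ValueGroup V.valuation
    (RFE (idl (A := A) (B := B) (2 * (f * a)))) (RFE (idl (A := A) (B := B) (2 ^ (n + 2) * f * a)))
    (4 ^ (n + 1)) ϖ π hle (by positivity) hdeg hϖ0 hϖ1
    hvM hπM hvπ' w hw hvw
  -- the function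
  have hvx0 : V.valuation (xu L u e P₀) ≤ 1 := (Pool.Agent.MUXV.int_X hP₀E).2
  obtain ⟨Pol, hPol⟩ : ∃ Q : ℂ[X], Q = ∑ i : Fin (4 ^ (n + 1)),
    C ((c i : ℂ)) * (X - C (xu L u e P₀)) ^ (i : ℕ) := ⟨_, rfl⟩
  have hPolI : IntP V Pol := by
    rw [hPol]; exact intP_sum _ _ hc1 hvx0
  have hPolE : ∀ t : ℂ, Pol.eval t =
      ∑ i : Fin (4 ^ (n + 1)), (c i : ℂ) * (t - xu L u e P₀) ^ (i : ℕ) := by
    intro t
    rw [hPol, eval_finsetSum]
    refine Finset.sum_congr rfl fun i _ => ?_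
    simp
  have hPolw : w = Pol.eval (xu L u e Pt) := by rw [hPolE, ← hπ, ← hc2]
  refine ⟨Pol, hPolI, hPolw, ?_⟩
  intro x s hs hx
  have hsM : ∀ y ∈ RFE (idl (A := A) (B := B) (2 * (f * a))), s y = y := hs.triv _ hmm hm2 hx
  have hsx : s (xu L u e Pt) = xu L u e (emb x * Pt) := by
    rw [hxx, map_div₀, map_sub, (hs.xnE L hLn Pt hTorPt hPL).2, hsM _ heM, hsM _ huM, ← hxx]
  rw [hPolw, hPolE, hPolE, map_sum]
  refine Finset.sum_congr rfl fun i _ => ?_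
  rw [map_mul, map_pow, map_sub, hsM _ (c i).2, hsx, hsM _ hx0M]

end

end Pool.Agent.ME2E
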