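import Pool.Agent.NS.T_UNF
import Pool.Agent.MUX.E_RAM

/-!
# ME2: the values on a finite Galois extension `F / k` and its inertia group (helper34)

The proof is the one of `Pool/Agent/N2/T3_UNF.lean` (helper4), after `Pool/Agent/NS/T_UNF.lean` (helper37) and `Pool/Agent/NS/RN_RAM.lean` (helper44).
-/

set_option autoImplicit false

open NumberField IsDedekindDomain

namespace Pool.Agent.ME2E

open _root_.MU3 Pool.Agent.MU3A Pool.Agent.MU3B Pool.Agent.RI Pool.Agent.MUX Pool.Agent.MUXU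
open OnePoint Pool.Agent.NS Pool.Agent.NST

noncomputable section

open UNF Pool.Agent.MUXE.RamE Pool.Agent.MU3E.RAM Ideal in
theorem ramI {A B : ℤ} {V : ValuationSubring ℂ} {P : Ideal (OO A B)} (hcq : CQ A B)
    (hV : OverI V P) {ϖ : OO A B} (hϖ : ϖ ∈ P) (hϖ2 : ϖ ∉ P ^ 2)
    (F : IntermediateField (kk A B) ℂ) [FiniteDimensional (kk A B) F] [IsGalois (kk A B) F] :
    ∃ I : Subgroup (F ≃ₐ[kk A B] F),
      (∀ σ ∈ I, ∀ x : F, V.valuation (x : ℂ) ≤ 1 → V.valuation ((σ x : ℂ) - x) < 1) ∧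
      ∀ y ∈ F, y ≠ 0 → ∃ j : ℤ, V.valuation y ^ Nat.card I = V.valuation (emb ϖ) ^ j := by
  obtain ⟨⟨φ, hφ⟩, hinj, hded, hpos, hint⟩ := Pool.Agent.MUXE.te_RNG A B hcq
  have hlt : ∀ x : OO A B, V.valuation (emb x) < 1 ↔ x ∈ P := fun x =>
    (ValuationSubring.mem_nonunits_iff (A := V)).symm.trans (hV x)
  have hϖ0 : ϖ ≠ 0 := by
    rintro rfl
    exact hϖ2 (Ideal.zero_mem _)
  have hw0 : IsIntegral ℤ (wC A B) := by
    rw [hint _ (wC_mem A B)]
    exact ⟨⟨0, 1⟩, by simp [emb]⟩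
  have hfd : FiniteDimensional ℚ (kk A B) :=
    IntermediateField.adjoin.finiteDimensional hw0.tower_top
  have hk : NumberField (kk A B) := ⟨⟩
  have hFQ : FiniteDimensional ℚ F := FiniteDimensional.trans ℚ (kk A B) F
  have hF : NumberField F := ⟨⟩
  have hIn : ∀ x : OO A B, IsIntegral ℤ (ek x) := by
    intro x
    have h2 : IsIntegral ℤ (emb x) := (hint (emb x) (emb_mem x)).mpr ⟨x, rfl⟩
    have h3 : algebraMap (kk A B) ℂ (ek x) = emb x := rfl
    rw [← h3] at h2
    exact (isIntegral_algebraMap_iff (FaithfulSMul.algebraMap_injective (kk A B) ℂ)).mp h2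
  -- the ring isomorphism
  let e : OO A B →+* 𝓞 (kk A B) :=
    { toFun := fun x => ⟨ek x, hIn x⟩
      map_one' := by
        apply RingOfIntegers.ext
        apply Subtype.ext
        change emb 1 = 1
        rw [← hφ, map_one]
      map_mul' := by
        intro a b
        apply RingOfIntegers.ext
        apply Subtype.ext
        change emb (a * b) = emb a * emb b
        rw [← hφ, ← hφ, ← hφ, map_mul]
      map_zero' := by
        apply RingOfIntegers.ext
        apply Subtype.ext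
        change emb 0 = 0
        rw [← hφ, map_zero]
      map_add' := by
        intro a b
        apply RingOfIntegers.ext
        apply Subtype.ext
        change emb (a + b) = emb a + emb b
        rw [← hφ, ← hφ, ← hφ, map_add] }
  have he : ∀ x, (((e x : 𝓞 (kk A B)) : kk A B) : ℂ) = emb x := fun x => rfl
  have hesurj : Function.Surjective e := by
    intro x
    have h2 : IsIntegral ℤ ((x : kk A B) : ℂ) :=
      (RingOfIntegers.isIntegral_coe x).map (Algebra.ofId (kk A B) ℂ |>.restrictScalars ℤ)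
    obtain ⟨z, hz⟩ := (hint _ (x : kk A B).2).mp h2
    refine ⟨z, ?_⟩
    apply RingOfIntegers.ext
    apply Subtype.ext
    rw [he, hz]
  have heinj : Function.Injective e := by
    rw [injective_iff_map_eq_zero]
    intro x hx
    apply hinj
    rw [← he, hx]
    rfl
  have hϖne : emb ϖ ≠ 0 := fun h => hϖ0 (hinj ϖ h)
  have hcoe : algebraMap F ℂ ((algebraMap (𝓞 (kk A B)) (𝓞 F) (e ϖ) : 𝓞 F) : F) = emb ϖ := rfl
  obtain ⟨w, hw⟩ := exists_prime (V := V) (algebraMap F ℂ)
    (z := algebraMap (𝓞 (kk A B)) (𝓞 F) (e ϖ)) (by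
      intro h
      apply hϖne
      rw [← hcoe, h]
      exact map_zero _) (by
      rw [hcoe]
      exact (hlt ϖ).2 hϖ)
  have hcomap : (w.asIdeal.under (𝓞 (kk A B))).comap e = P := by
    ext z
    have hxw : z ∈ (w.asIdeal.under (𝓞 (kk A B))).comap e ↔ V.valuation (emb z) < 1 := by
      exact hw (algebraMap (𝓞 (kk A B)) (𝓞 F) (e z))
    rw [hxw]
    exact hlt z
  have hmap : P.map e = w.asIdeal.under (𝓞 (kk A B)) := by
    rw [← hcomap]
    exact Ideal.map_comap_of_surjective e hesurj _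
  have hq1 : e ϖ ∈ w.asIdeal.under (𝓞 (kk A B)) := by
    rw [← hmap]
    exact Ideal.mem_map_of_mem e hϖ
  have hq2 : e ϖ ∉ (w.asIdeal.under (𝓞 (kk A B))) ^ 2 := by
    rw [← hmap, ← Ideal.map_pow, Ideal.mem_map_iff_of_surjective e hesurj]
    rintro ⟨z, hz, hz2⟩
    rw [heinj hz2] at hz
    exact hϖ2 hz
  obtain ⟨v, hvp, hvv⟩ := val_card (k := kk A B) w
  set n := Nat.card (w.asIdeal.inertia (F ≃ₐ[kk A B] F)) with hn
  set q : F := algebraMap (kk A B) F ((e ϖ : 𝓞 (kk A B)) : kk A B) with hq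
  have hqC : algebraMap F ℂ q = emb ϖ := rfl
  have hq0 : q ≠ 0 := by
    intro h
    apply hϖne
    rw [← hqC, h, map_zero]
  have hval3 : w.valuation F q = WithZero.exp (-1 : ℤ) ^ n := by
    rw [hq, hvv]
    congr 1
    have h2 : ((e ϖ : 𝓞 (kk A B)) : kk A B) = algebraMap (𝓞 (kk A B)) (kk A B) (e ϖ) := rfl
    rw [h2, HeightOneSpectrum.valuation_of_algebraMap]
    exact intVal_one v (by rw [hvp]; exact hq1) (by rw [hvp]; exact hq2)
  refine ⟨w.asIdeal.inertia (F ≃ₐ[kk A B] F), fun σ hσ x hx => ?_, fun y hy hy0 => ?_⟩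
  · exact inertia_lt (algebraMap F ℂ) hw hσ (x := x) hx
  have hyF0 : (⟨y, hy⟩ : F) ≠ 0 := fun h => hy0 (congrArg Subtype.val h)
  have hwy : w.valuation F (⟨y, hy⟩ : F) ≠ 0 := (Valuation.ne_zero_iff _).2 hyF0
  obtain ⟨j, hj⟩ : ∃ j : ℤ, w.valuation F (⟨y, hy⟩ : F) = WithZero.exp (-j) :=
    ⟨-(WithZero.log (w.valuation F (⟨y, hy⟩ : F))), by rw [neg_neg, WithZero.exp_log hwy]⟩
  refine ⟨j, ?_⟩
  have hone : w.valuation F ((⟨y, hy⟩ : F) ^ n / q ^ j) = 1 := by
    rw [map_div₀, map_pow, map_zpow₀, hj, hval3, ← WithZero.exp_nsmul, ← WithZero.exp_nsmul,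
      ← WithZero.exp_zsmul, ← WithZero.exp_sub]
    have : n • (-j) - j • (n • (-1 : ℤ)) = 0 := by
      simp only [smul_eq_mul, nsmul_eq_mul]
      ring
    rw [this, WithZero.exp_zero]
  have h1 := ord_one (algebraMap F ℂ) hw hone
  rw [map_div₀, map_pow, map_zpow₀, hqC, map_div₀, map_pow, map_zpow₀] at h1
  have h2 : V.valuation (emb ϖ) ≠ 0 := (Valuation.ne_zero_iff _).2 hϖne
  exact (div_eq_one_iff_eq (zpow_ne_zero j h2)).1 h1

end

end Pool.Agent.ME2E
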