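import Pool.Agent.ME2.StE3
import Pool.Agent.ME2.L_RamI
import Pool.Agent.ME2.T_TYF3
import Pool.Agent.ME.X_TRA
import Pool.Agent.ME.X_FAC
import Pool.Agent.MUX.E_MAIN0

/-!
# ME2, block E, module UNR: the ramification index of `RFE (2 f)` at `V | 2` divides `3` (helper34)

The inertia group acts faithfully on the third roots of unity `σ t / t`, `t = ℘(w)` for a point `w` of order three.
-/

set_option autoImplicit false

open Polynomial

namespace Pool.Agent.ME2E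

open _root_.MU3 Pool.Agent.MU3A Pool.Agent.MU3B Pool.Agent.MUX Pool.Agent.MUXU
open Pool.Agent.RI Pool.Agent.NS
open Pool.Agent.ME hiding ActE
open Pool.Agent.MEE Pool.Agent.ME2
open Pool.Agent.MUXE (RingE)
open Pool.Agent.N2 (GoodT)
open Pool.Agent.MUXY (ActN)

noncomputable section

namespace UNR

/-- extension of an automorphism of `RFE m` to `ℂ` -/
lemma extn {A B : ℤ} (hT : TorXE A B) {m : Ideal (OO A B)} (hm : m ≠ ⊥)
    (σ : (RFE m : IntermediateField (kk A B) ℂ) ≃ₐ[kk A B] RFE m) :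
    ∃ s : ℂ ≃+* ℂ, FixK A B s ∧ ∀ y : (RFE m : IntermediateField (kk A B) ℂ),
      s y = ((σ y : (RFE m : IntermediateField (kk A B) ℂ)) : ℂ) := by
  let D : IntermediateField ℚ ℂ :=
    (RFE m : IntermediateField (kk A B) ℂ).restrictScalars ℚ
  have hkD : kk A B ≤ D := fun x hx =>
    (RFE m : IntermediateField (kk A B) ℂ).algebraMap_mem ⟨x, hx⟩
  letI := algC hkD
  let f : D ≃+* D :=
    { toFun := fun y => σ y
      invFun := fun y => σ.symm y
      left_inv := fun y => σ.symm_apply_apply y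
      right_inv := fun y => σ.apply_symm_apply y
      map_mul' := fun x y => map_mul σ x y
      map_add' := fun x y => map_add σ x y }
  let τ : D ≃ₐ[kk A B] D := AlgEquiv.ofRingEquiv (f := f) (fun r => σ.commutes r)
  obtain ⟨s, hs, h1⟩ := hT.ext m hm D hkD (fun y hy => hy) τ
  exact ⟨s, hs, fun y => h1 ⟨y, y.2⟩⟩

lemma idl_ne {A B : ℤ} {f : ℕ} (hf : f ≠ 0) : idl (A := A) (B := B) f ≠ ⊥ := by
  intro h
  rw [Ideal.span_singleton_eq_bot] at h
  have h1 := congrArg QuadraticAlgebra.re h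
  rw [QuadraticAlgebra.re_natCast, QuadraticAlgebra.re_zero] at h1
  exact hf (by exact_mod_cast h1)

/-- `(2)` is the prime ideal below `V` -/
lemma overV {A B : ℤ} {V : ValuationSubring ℂ} (hC : CtxU A B V) :
    OverI V (idl (A := A) (B := B) 2) ∧
      ((2 : ℕ) : OO A B) ∉ (idl (A := A) (B := B) 2) ^ 2 ∧
      emb (((2 : ℕ) : OO A B)) = (2 : ℂ) := by
  obtain ⟨⟨φ, hφ⟩, hinj, -, -, -⟩ := hC.ring
  have h2e : emb (((2 : ℕ) : OO A B)) = (2 : ℂ) := by
    rw [← hφ, map_natCast]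
    norm_num
  have hmul : ∀ z : OO A B, emb (((2 : ℕ) : OO A B) * z) = 2 * emb z := by
    intro z
    rw [← hφ, map_mul, hφ, hφ, h2e]
  have hlt : ∀ z : OO A B, V.valuation (emb (((2 : ℕ) : OO A B) * z)) < 1 := by
    intro z
    rw [hmul, map_mul]
    exact mul_lt_one_of_lt_of_le hC.v2 (hC.int z)
  refine ⟨?_, ?_, h2e⟩
  · intro x
    rw [ValuationSubring.mem_nonunits_iff]
    constructor
    · intro h
      by_contra hx
      rw [hC.unit x hx] at h
      exact lt_irrefl _ h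
    · intro h
      obtain ⟨z, rfl⟩ := Ideal.mem_span_singleton'.mp h
      rw [mul_comm]
      exact hlt z
  · intro h
    rw [Ideal.span_singleton_pow] at h
    obtain ⟨z, hz⟩ := Ideal.mem_span_singleton'.mp h
    have h1 := congrArg emb hz
    have h2 : emb (z * ((2 : ℕ) : OO A B) ^ 2) = emb z * 4 := by
      rw [← hφ, map_mul, map_pow, hφ, hφ, h2e]
      norm_num
    rw [h2, h2e] at h1
    have h4 : (1 : ℂ) = 2 * emb z := by linear_combination (-1 / 2 : ℂ) * h1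
    have h5 := congrArg V.valuation h4
    rw [map_one, map_mul] at h5
    have h6 := mul_lt_one_of_lt_of_le hC.v2 (hC.int z)
    rw [← h5] at h6
    exact lt_irrefl _ h6

/-- the action on the points of order three -/
lemma act3 {A B : ℤ} (hE : CaseE A B) (hB : B = 1) (hT : TorXE A B) {s : ℂ ≃+* ℂ}
    (hs : FixK A B s) : ∃ ζ : kk A B, (ζ : ℂ) ^ 3 = 1 ∧
      ∀ (b : Ideal (OO A B)) (L : PeriodPair) (om : ℂ), IsNE b L om → ∀ w : ℂ,
        3 * w ∈ L.lattice → w ∉ L.lattice → s (L.weierstrassP w) = ζ * L.weierstrassP w := by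
  have hC := hE.toCQ
  obtain ⟨c, -, hcop, hact, -⟩ := actE hE hT (m := 6) (by norm_num) (by norm_num) hs
  have hcop3 : IsCoprime (sp c) (idl (A := A) (B := B) 3) := by
    rw [Ideal.isCoprime_iff_sup_eq] at hcop ⊢
    rw [eq_top_iff, ← hcop]
    exact sup_le_sup_left (idl_mono (by norm_num)) _
  obtain ⟨η, η', hη, hη3, hc⟩ := unit3 hC hE.hA hB hcop3
  have hη6 : emb η ^ 6 = 1 := by
    have h1 : η ^ 6 = 1 := by
      rcases hη3 with h | h
      · rw [show (6 : ℕ) = 3 * 2 by norm_num, pow_mul, h, one_pow]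
      · rw [show (6 : ℕ) = 3 * 2 by norm_num, pow_mul, h]
        ring
    rw [← MUX.emb_pow hC, h1, MUX.emb_one hC]
  have hη0 : emb η ≠ 0 := by
    intro h
    rw [h] at hη6
    norm_num at hη6
  refine ⟨⟨(emb η ^ 2)⁻¹, inv_mem (pow_mem (MUX.emb_mem η) 2)⟩, ?_, ?_⟩
  · show ((emb η ^ 2)⁻¹ : ℂ) ^ 3 = 1
    rw [inv_pow, ← pow_mul, hη6, inv_one]
  · intro b L om hL w h3w hw
    obtain ⟨-, -, hP, -⟩ := unit_hom hC hL.toIsLI hη
    obtain ⟨-, h1, -⟩ := (hact b L om hL).act w (by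
      have h2 := add_mem h3w h3w
      have e1 : ((6 : ℕ) : ℂ) * w = 3 * w + 3 * w := by push_cast; ring
      rw [e1]
      exact h2) hw
    obtain ⟨h4, -⟩ := wp_cong hC hL.toIsLI hc (w := w) (by exact_mod_cast h3w)
    rw [← h1, h4, hP]
    show L.weierstrassP w / emb η ^ 2 = (emb η ^ 2)⁻¹ * L.weierstrassP w
    rw [div_eq_inv_mul]

/-- an automorphism which fixes one `x`-coordinate `t ≠ 0` of a point of order three is trivial on `RFE 3` -/
lemma triv3 {A B : ℤ} (hE : CaseE A B) {s : ℂ ≃+* ℂ} (hs : FixK A B s)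
    (h : ∀ (b : Ideal (OO A B)) (L : PeriodPair) (om : ℂ), IsNE b L om → ∀ w : ℂ,
        3 * w ∈ L.lattice → w ∉ L.lattice → s (L.weierstrassP w) = L.weierstrassP w) :
    ∀ y ∈ RFE (idl (A := A) (B := B) 3), s y = y := by
  have hC := hE.toCQ
  intro y hy
  unfold RFE at hy
  induction hy using IntermediateField.adjoin_induction with
  | mem x hx =>
    obtain ⟨b, L, om, hL, hx | ⟨z, hz, hzL, hx⟩⟩ := hx
    · rw [hx, kapE, hL.nrm.g2, hL.nrm.g3]
      unfold g2E g3E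
      split_ifs
      · rw [add_zero]
        exact map_ofNat s 4
      · rw [zero_add, map_neg]
        exact congrArg Neg.neg (map_ofNat s 4)
    · rw [hx, xnE]
      refine h b L om hL z ?_ hzL
      have h1 := hz ((3 : ℕ) : OO A B) (Ideal.mem_span_singleton_self _)
      rw [MUX.emb_natCast hC] at h1
      exact_mod_cast h1
  | algebraMap x => exact Pool.Agent.MUXE.m0_fix hs _ x.2
  | add x y _ _ hx hy => rw [map_add, hx, hy]
  | inv x _ hx => rw [map_inv₀, hx]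
  | mul x y _ _ hx hy => rw [map_mul, hx, hy]

lemma unr3 {A B : ℤ} {V : ValuationSubring ℂ} (hC : CtxU A B V) (hT : TorXE A B) (f : ℕ)
    (hf : f ≠ 0) (hf2 : ¬ 2 ∣ f) (hf3 : 3 ∣ f) (y : ℂ)
    (hy : y ∈ RFE (idl (A := A) (B := B) (2 * f))) (hy0 : y ≠ 0) :
    ∃ k : ℤ, V.valuation y ^ 3 = V.valuation (2 : ℂ) ^ k := by
  classical
  have hE := hC.case
  have hQ := hE.toCQ
  have hm : idl (A := A) (B := B) (2 * f) ≠ ⊥ := idl_ne (mul_ne_zero two_ne_zero hf)
  haveI := hT.fin _ hm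
  haveI := hT.gal _ hm
  obtain ⟨hov, hsq, h2e⟩ := overV hC
  -- the point
  obtain ⟨L, om, hL⟩ := Pool.Agent.MEC.exists_isNE hE ⊤ (by
    intro h
    have h1 : (1 : OO A B) ∈ (⊥ : Ideal (OO A B)) := h ▸ trivial
    rw [Ideal.mem_bot] at h1
    have h2 := congrArg QuadraticAlgebra.re h1
    rw [QuadraticAlgebra.re_one, QuadraticAlgebra.re_zero] at h2
    exact one_ne_zero h2)
  obtain ⟨u, e, a1, a3, hg⟩ := hC.good L ⟨⊤, om, hL⟩
  obtain ⟨w0, h3w, hw, ht0⟩ : ∃ w0 : ℂ, 3 * w0 ∈ L.lattice ∧ w0 ∉ L.lattice ∧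
      L.weierstrassP w0 ≠ 0 := by
    obtain ⟨w1, w2, h31, h32, hw1, hw2, -, -, -, hu2⟩ := hg.tor
    by_cases h : L.weierstrassP w2 = 0
    · refine ⟨w1, h31, hw1, fun h' => ?_⟩
      rw [h, h', sub_zero] at hu2
      exact pow_ne_zero 2 hg.u0 hu2
    · exact ⟨w2, h32, hw2, h⟩
  have htF : L.weierstrassP w0 ∈ RFE (idl (A := A) (B := B) (2 * f)) := by
    refine wp_mem hQ hL hw ?_
    obtain ⟨k, rfl⟩ := hf3
    have h1 := nsmul_mem h3w (2 * k)
    rw [nsmul_eq_mul] at h1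
    have e1 : ((2 * (3 * k) : ℕ) : ℂ) * w0 = ((2 * k : ℕ) : ℂ) * (3 * w0) := by push_cast; ring
    rw [e1]
    exact h1
  set F := RFE (idl (A := A) (B := B) (2 * f)) with hF
  obtain ⟨I, hI, hval⟩ := ramI hC.cq hov (Ideal.mem_span_singleton_self ((2 : ℕ) : OO A B)) hsq F
  let t : F := ⟨L.weierstrassP w0, htF⟩
  have htt : ((t : F) : ℂ) = L.weierstrassP w0 := rfl
  -- the character
  have hchar : ∀ σ : F ≃ₐ[kk A B] F, ∃ ζ : kk A B, (ζ : ℂ) ^ 3 = 1 ∧
      ((σ t : F) : ℂ) = ζ * t := by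
    intro σ
    obtain ⟨s, hs, hsv⟩ := extn hT hm σ
    obtain ⟨ζ, hζ, h1⟩ := act3 hE hC.hB hT hs
    exact ⟨ζ, hζ, by rw [← hsv t]; exact h1 ⊤ L om hL w0 h3w hw⟩
  have htc : ((t : F) : ℂ) ≠ 0 := ht0
  let χ : I →* ℂ :=
    { toFun := fun σ => (((σ : F ≃ₐ[kk A B] F) t : F) : ℂ) / t
      map_one' := by
        show (((1 : F ≃ₐ[kk A B] F) t : F) : ℂ) / t = 1
        rw [AlgEquiv.one_apply, div_self htc]
      map_mul' := by
        intro σ τ
        obtain ⟨ζ, -, h1⟩ := hchar (τ : F ≃ₐ[kk A B] F)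
        obtain ⟨ζ', -, h2⟩ := hchar (σ : F ≃ₐ[kk A B] F)
        have h3 : ((τ : F ≃ₐ[kk A B] F) t : F) = algebraMap (kk A B) F ζ * t := Subtype.ext h1
        show ((((σ : F ≃ₐ[kk A B] F) * (τ : F ≃ₐ[kk A B] F)) t : F) : ℂ) / t =
          (((σ : F ≃ₐ[kk A B] F) t : F) : ℂ) / t * ((((τ : F ≃ₐ[kk A B] F) t : F) : ℂ) / t)
        rw [AlgEquiv.mul_apply, h3, map_mul, AlgEquiv.commutes]
        have h4 : ((algebraMap (kk A B) F ζ * (σ : F ≃ₐ[kk A B] F) t : F) : ℂ) =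
            ζ * (((σ : F ≃ₐ[kk A B] F) t : F) : ℂ) := rfl
        have h5 : ((algebraMap (kk A B) F ζ * t : F) : ℂ) = ζ * (t : ℂ) := rfl
        rw [h4, h5]
        field_simp }
  have hχ : ∀ σ : I, χ σ ^ 3 = 1 := by
    intro σ
    obtain ⟨ζ, h1, h2⟩ := hchar (σ : F ≃ₐ[kk A B] F)
    show ((((σ : F ≃ₐ[kk A B] F) t : F) : ℂ) / t) ^ 3 = 1
    rw [h2, mul_div_assoc, div_self htc, mul_one]
    exact h1
  let ψ : I →* rootsOfUnity 3 ℂ := (MonoidHom.toHomUnits χ).codRestrict (rootsOfUnity 3 ℂ) (by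
    intro σ
    rw [mem_rootsOfUnity]
    apply Units.ext
    push_cast
    exact hχ σ)
  have hinj : Function.Injective ψ := by
    rw [injective_iff_map_eq_one]
    intro σ hσ
    have h1 : χ σ = 1 := by
      have h2 := congrArg (fun z : rootsOfUnity 3 ℂ => ((z : ℂˣ) : ℂ)) hσ
      exact h2
    have h2 : (((σ : F ≃ₐ[kk A B] F) t : F) : ℂ) = t := (div_eq_one_iff_eq htc).1 h1
    obtain ⟨s, hs, hsv⟩ := extn hT hm (σ : F ≃ₐ[kk A B] F)
    obtain ⟨ζ, hζ, h3⟩ := act3 hE hC.hB hT hs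
    have h4 : (ζ : ℂ) = 1 := by
      have h5 := h3 ⊤ L om hL w0 h3w hw
      have h6 : s (L.weierstrassP w0) = L.weierstrassP w0 := by
        rw [← htt, hsv t, h2]
      rw [h6] at h5
      exact (mul_right_cancel₀ ht0 (by rw [one_mul]; exact h5)).symm
    have h7 := triv3 hE hs (fun b L om hL w h3w hw => by rw [h3 b L om hL w h3w hw, h4, one_mul])
    have h8 := hC.iner f hf hf2 hf3 s hs (fun y hy hyV => by
      have h9 := hI σ σ.2 ⟨y, hy⟩ ((V.valuation_le_one_iff y).2 hyV)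
      rw [ValuationSubring.mem_nonunits_iff, hsv ⟨y, hy⟩]
      exact h9) h7
    apply Subtype.ext
    apply AlgEquiv.ext
    intro y
    apply Subtype.ext
    rw [← hsv]
    exact h8 y y.2
  have hdvd : Nat.card I ∣ 3 := by
    have h1 := Subgroup.card_dvd_of_injective ψ hinj
    rwa [Complex.card_rootsOfUnity] at h1
  obtain ⟨j, hj⟩ := hval y hy hy0
  rw [h2e] at hj
  obtain ⟨q, hq⟩ := hdvd
  refine ⟨j * q, ?_⟩
  rw [hq, pow_mul, hj, zpow_mul, zpow_natCast]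

end UNR

/-- UNR. -/
theorem ty_UNR : Sy_UNR := by
  intro A B V hC hT f hf hf2 y hy hy0
  have hle : RFE (idl (A := A) (B := B) (2 * f)) ≤ RFE (idl (A := A) (B := B) (2 * (3 * f))) :=
    (tm_FAC tm_TRA A B hC.ring).1 _ _ (idl_mono ⟨3, by ring⟩)
  exact UNR.unr3 hC hT (3 * f) (mul_ne_zero three_ne_zero hf) (by omega) (dvd_mul_right 3 f) y
    (hle hy) hy0

end

end Pool.Agent.ME2E
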