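import Pool.Agent.N2.EAll
import Pool.Agent.ME2.EU_CTX
import Pool.Agent.ME2.EU_UNR
import Pool.Agent.ME2.EU_DEG
import Pool.Agent.ME2.EU_AUT
import Pool.Agent.ME2.EU_GTA
import Pool.Agent.ME2.EU_CON
import Pool.Agent.ME2.EU_SIG
import Pool.Agent.ME2.EU_MUL
import Pool.Agent.ME2.EU_GPO
import Pool.Agent.ME2.EU_SQR
import Pool.Agent.ME2.EU_ORB
import Pool.Agent.ME2.EU_GLC
import Pool.Agent.ME2.EU_XXS
import Pool.Agent.ME2.EU_HEQ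
import Pool.Agent.ME2.EU_HAL
import Pool.Agent.ME2.EU_MAIN
import Pool.Agent.ME2.EU_FIN

/-! # ME2: block E for `p = 2`, `D = -3`, assembled (helper34)

`v_EFIN` gives `T3_EFIN` from `T3_RFIN`. -/

namespace Pool.Agent.ME2E

open Pool.Agent.ME2 Pool.Agent.N2E

theorem v_CTX : Sy_CTX := ty_CTX
theorem v_UNR : Sy_UNR := ty_UNR
theorem v_DEG : Sy_DEG := ty_DEG
theorem v_AUT : Sy_AUT := ty_AUT
theorem v_GTA : Sy_GTA := ty_GTA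
theorem v_CON : Sy_CON := ty_CON
theorem v_SIG : Sy_SIG := ty_SIG d_COE d_GRT d_TPT v_UNR v_DEG
theorem v_MUL : Sy_MUL := ty_MUL
theorem v_GPO : Sy_GPO := ty_GPO d_GRT d_THT d_NE1 v_MUL v_UNR
theorem v_SQR : Sy_SQR := ty_SQR d_LAG d_PRD d_COE d_DST v_AUT v_GTA v_CON v_SIG d_NE1 v_GPO
theorem v_ORB : Sy_ORB := ty_ORB d_LAG d_PRD d_DST v_CON d_NE1 v_GPO
theorem v_GLC : Sy_GLC := ty_GLC v_CON
theorem v_XXS : Sy_XXS := ty_XXS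
theorem v_HEQ : Sy_HEQ := ty_HEQ v_XXS
theorem v_HAL : Sy_HAL := ty_HAL v_CON v_XXS
theorem v_MAIN : Sy_MAIN := ty_MAIN v_CON v_SQR v_ORB d_PRT
theorem v_FIN : Sy_FIN := ty_FIN v_CTX v_AUT v_CON v_GLC v_XXS v_HEQ v_HAL v_MAIN

/-- block E for `p = 2`, `D = -3` -/
theorem v_EFIN (h : T3_RFIN) : T3_EFIN := v_FIN h

end Pool.Agent.ME2E

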