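import Pool.Agent.ME2.StE4
import Pool.Agent.ME.X_TRA
import Pool.Agent.ME.X_TRB
import Pool.Agent.ME.X_FAC
import Pool.Agent.ME.X_GTH
import Pool.Agent.ME.X_PT
import Pool.Agent.ME.X_GAL
import Pool.Agent.N2.R_ALC
import Pool.Agent.MUX.E_RNG

/-!
# MUX-2R, block ER2, module CTX: from the standing hypotheses to `CtxF` (after `E_CTX.lean`, `R_ALC.lean`, `NS/F_CTX.lean`)

`ϖ = ⟨t, 1⟩`, `t = 0` for `A` even, `t = 1` for `A` odd; `x = ix t x + x.im ϖ`.
-/

set_option autoImplicit false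

namespace Pool.Agent.ME2F

open _root_.MU3 Pool.Agent.MU3A Pool.Agent.MU3B Pool.Agent.MUX Pool.Agent.MUXU
open Pool.Agent.RI Pool.Agent.NS
open Pool.Agent.ME hiding ActE
open Pool.Agent.MEE Pool.Agent.ME2
open Pool.Agent.MUXE (RingE)
open Pool.Agent.N2 (GoodQ OddQ dR et yt WT PTq)
open Pool.Agent.N2E (dlg cc Sd_LAG Sd_PRD)
open Pool.Agent.N2V (IsoU NN w0 bb Sv_COE Sv_GRT Sv_UNT Sv_RAT Sv_THT Sv_NE1 Sv_PVI Sv_TWO Sv_DS2)
open Pool.Agent.ME2E (AutCE Sy_AUT Sy_GTA)
open Pool.Agent.N2R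

noncomputable section

namespace CtxUaux

variable {A B : ℤ} {V : ValuationSubring ℂ}

/-- the integer part of `x = i + s ϖ`, `ϖ = ⟨t, 1⟩` -/
def ix (t : ℤ) (x : OO A 0) : ℤ := x.re - t * x.im

/-- `ϖ = ⟨t, 1⟩` -/
def pi (A t : ℤ) : OO A 0 := ⟨t, 1⟩

/-- the case distinction: `t = 0`, `A = 4 c + 2`, or `t = 1`, `A = 4 c - 1` -/
def Cs (A t : ℤ) : Prop := (t = 0 ∧ ∃ c, A = 4 * c + 2) ∨ (t = 1 ∧ ∃ c, A = 4 * c - 1)

lemma ex_Cs (h : A % 4 = 2 ∨ A % 4 = 3) : ∃ t, Cs A t := by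
  rcases h with h | h
  · exact ⟨0, Or.inl ⟨rfl, (A - 2) / 4, by omega⟩⟩
  · exact ⟨1, Or.inr ⟨rfl, (A + 1) / 4, by omega⟩⟩

lemma emb_eq (t : ℤ) (x : OO A 0) :
    emb x = ((ix t x : ℤ) : ℂ) + (x.im : ℂ) * emb (pi A t) := by
  unfold emb ix pi
  push_cast
  ring

lemma wsq (h : CQ A 0) : wC A 0 * wC A 0 = (A : ℂ) := by
  rw [MUX.wC_sq h]
  push_cast
  ring

lemma v_pi (h : CQ A 0) (h2 : V.valuation (2 : ℂ) < 1) {t : ℤ} (ht : Cs A t) :
    V.valuation (emb (pi A t)) ^ 2 = V.valuation (2 : ℂ) := by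
  have hw := wsq h
  rcases ht with ⟨rfl, c, hc⟩ | ⟨rfl, c, hc⟩
  · have h1 : emb (pi A 0) * emb (pi A 0) = 2 * (((2 * c + 1 : ℤ)) : ℂ) := by
      have h3 : (A : ℂ) = 4 * (c : ℂ) + 2 := by exact_mod_cast hc
      unfold emb pi
      push_cast
      linear_combination hw + h3
    rw [sq, ← map_mul, h1, map_mul, ALC.v_odd h2 (by omega), mul_one]
  · have hu : V.valuation (emb (⟨2 * c, 1⟩ : OO A 0)) = 1 := by
      refine ALC.v_unit h h2 ?_
      have h8 : nm (⟨2 * c, 1⟩ : OO A 0) = 4 * c ^ 2 - A := by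
        unfold nm
        simp only
        ring
      rw [h8]
      omega
    have h1 : emb (pi A 1) * emb (pi A 1) = 2 * emb (⟨2 * c, 1⟩ : OO A 0) := by
      have h3 : (A : ℂ) = 4 * (c : ℂ) - 1 := by exact_mod_cast hc
      unfold emb pi
      push_cast
      linear_combination hw + h3
    rw [sq, ← map_mul, h1, map_mul, hu, mul_one]

lemma v_two0 : V.valuation (2 : ℂ) ≠ 0 := by
  rw [Valuation.ne_zero_iff]
  norm_num

lemma v_pi_lt (h : CQ A 0) (h2 : V.valuation (2 : ℂ) < 1) {t : ℤ} (ht : Cs A t) :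
    V.valuation (emb (pi A t)) < 1 := by
  have h1 := v_pi h h2 ht
  refine not_le.1 fun h3 => ?_
  have h4 : 1 ≤ V.valuation (emb (pi A t)) ^ 2 := one_le_pow₀ h3
  rw [h1] at h4
  exact not_lt.2 h4 h2

lemma lt_v_pi (h : CQ A 0) (h2 : V.valuation (2 : ℂ) < 1) {t : ℤ} (ht : Cs A t) :
    V.valuation (2 : ℂ) < V.valuation (emb (pi A t)) := by
  have h1 := v_pi h h2 ht
  refine not_le.1 fun h3 => ?_
  have h4 : V.valuation (emb (pi A t)) ^ 2 ≤ V.valuation (2 : ℂ) ^ 2 := pow_le_pow_left₀ zero_le h3 2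
  rw [h1, sq] at h4
  have h5 : V.valuation (2 : ℂ) * V.valuation (2 : ℂ) < V.valuation (2 : ℂ) * 1 :=
    (mul_lt_mul_iff_right₀ (zero_lt_iff.2 v_two0)).2 h2
  rw [mul_one] at h5
  exact not_lt.2 h4 h5

lemma v_even {n : ℤ} (hn : (2 : ℤ) ∣ n) :
    V.valuation (n : ℂ) ≤ V.valuation (2 : ℂ) := by
  obtain ⟨k, rfl⟩ := hn
  push_cast
  rw [map_mul]
  exact mul_le_of_le_one_right' (ALC.v_int V k)

lemma v_spi_le (t : ℤ) (s : ℤ) :
    V.valuation ((s : ℂ) * emb (pi A t)) ≤ V.valuation (emb (pi A t)) := by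
  rw [map_mul]
  exact mul_le_of_le_one_left' (ALC.v_int V s)

/-- `i` odd: a unit -/
lemma v_one (h : CQ A 0) (h2 : V.valuation (2 : ℂ) < 1) {t : ℤ} (ht : Cs A t) {x : OO A 0}
    (hx : ¬ (2 : ℤ) ∣ ix t x) : V.valuation (emb x) = 1 := by
  rw [emb_eq t x, Valuation.map_add_eq_of_lt_left]
  · exact ALC.v_odd h2 hx
  · rw [ALC.v_odd h2 hx]
    exact lt_of_le_of_lt (v_spi_le t _) (v_pi_lt h h2 ht)

/-- `i` even -/
lemma v_le (h : CQ A 0) (h2 : V.valuation (2 : ℂ) < 1) {t : ℤ} (ht : Cs A t) {x : OO A 0}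
    (hx : (2 : ℤ) ∣ ix t x) : V.valuation (emb x) ≤ V.valuation (emb (pi A t)) := by
  rw [emb_eq t x]
  refine Valuation.map_add_le _ ?_ (v_spi_le t _)
  exact (v_even hx).trans (lt_v_pi h h2 ht).le

/-- `i` even, `s` odd -/
lemma v_eq (h : CQ A 0) (h2 : V.valuation (2 : ℂ) < 1) {t : ℤ} (ht : Cs A t) {x : OO A 0}
    (hx : (2 : ℤ) ∣ ix t x) (hs : ¬ (2 : ℤ) ∣ x.im) :
    V.valuation (emb x) = V.valuation (emb (pi A t)) := by
  have h3 : V.valuation ((x.im : ℂ) * emb (pi A t)) = V.valuation (emb (pi A t)) := by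
    rw [map_mul, ALC.v_odd h2 hs, one_mul]
  rw [emb_eq t x, Valuation.map_add_eq_of_lt_right, h3]
  rw [h3]
  exact lt_of_le_of_lt (v_even hx) (lt_v_pi h h2 ht)

/-- `v x ≤ v 2`: divisible by 2 -/
lemma ex_half (h : CQ A 0) (h2 : V.valuation (2 : ℂ) < 1) {t : ℤ} (ht : Cs A t) {x : OO A 0}
    (hx : V.valuation (emb x) ≤ V.valuation (2 : ℂ)) : ∃ y : OO A 0, x = 2 * y := by
  have h3 : (2 : ℤ) ∣ ix t x := by
    by_contra hc
    rw [v_one h h2 ht hc] at hx
    exact not_lt.2 hx h2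
  have h4 : (2 : ℤ) ∣ x.im := by
    by_contra hc
    rw [v_eq h h2 ht h3 hc] at hx
    exact not_lt.2 hx (lt_v_pi h h2 ht)
  obtain ⟨a, ha⟩ := h3
  obtain ⟨b, hb⟩ := h4
  refine ⟨⟨a + t * b, b⟩, ?_⟩
  unfold ix at ha
  apply QuadraticAlgebra.ext
  · simp only [QuadraticAlgebra.re_mul, QuadraticAlgebra.re_ofNat, QuadraticAlgebra.im_ofNat]
    linear_combination ha + t * hb
  · simp only [QuadraticAlgebra.im_mul, QuadraticAlgebra.re_ofNat, QuadraticAlgebra.im_ofNat]
    linear_combination hb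

lemma v_two_mul (h : CQ A 0) (y : OO A 0) :
    V.valuation (emb (2 * y)) = V.valuation (2 : ℂ) * V.valuation (emb y) := by
  rw [MUX.emb_mul h, map_mul]
  have h1 := MUX.emb_natCast h 2
  rw [Nat.cast_ofNat] at h1
  rw [h1]
  norm_num

lemma dvd_iff (h : CQ A 0) (h2 : V.valuation (2 : ℂ) < 1) {t : ℤ} (ht : Cs A t) :
    ∀ (k : ℕ) (x : OO A 0), x ∈ idl (A := A) (B := 0) (2 ^ k) ↔
      V.valuation (emb x) ≤ V.valuation (2 : ℂ) ^ k := by
  intro k
  induction k with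
  | zero =>
    intro x
    refine ⟨fun _ => by rw [pow_zero]; exact ALC.v_emb h V x, fun _ => ?_⟩
    rw [Ideal.mem_span_singleton, pow_zero, Nat.cast_one]
    exact one_dvd x
  | succ k ih =>
    intro x
    constructor
    · intro hx
      obtain ⟨y, rfl⟩ := Ideal.mem_span_singleton.1 hx
      rw [MUX.emb_mul h, MUX.emb_natCast h, map_mul]
      push_cast
      rw [map_pow]
      exact mul_le_of_le_one_right' (ALC.v_emb h V y)
    · intro hx
      have h3 : V.valuation (emb x) ≤ V.valuation (2 : ℂ) := by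
        refine hx.trans ?_
        rw [pow_succ]
        exact mul_le_of_le_one_left' (pow_le_one₀ zero_le h2.le)
      obtain ⟨y, rfl⟩ := ex_half h h2 ht h3
      rw [v_two_mul h, pow_succ, mul_comm] at hx
      have h4 : V.valuation (emb y) ≤ V.valuation (2 : ℂ) ^ k :=
        (mul_le_mul_iff_left₀ (zero_lt_iff.2 v_two0)).1 hx
      obtain ⟨z, rfl⟩ := Ideal.mem_span_singleton.1 ((ih y).2 h4)
      rw [Ideal.mem_span_singleton]
      refine ⟨z, ?_⟩
      push_cast
      ring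

lemma two_sq {P : Ideal (OO A 0)} {t : ℤ} (ht : Cs A t) (h2 : (2 : OO A 0) ∈ P)
    (hp : pi A t ∈ P) : (2 : OO A 0) ∈ P ^ 2 := by
  have h22 : (2 : OO A 0) * 2 ∈ P ^ 2 := by rw [sq]; exact Ideal.mul_mem_mul h2 h2
  have h2p : (2 : OO A 0) * pi A t ∈ P ^ 2 := by rw [sq]; exact Ideal.mul_mem_mul h2 hp
  have hpp : pi A t * pi A t ∈ P ^ 2 := by rw [sq]; exact Ideal.mul_mem_mul hp hp
  rcases ht with ⟨rfl, c, hc⟩ | ⟨rfl, c, hc⟩
  · have h1 : (2 : OO A 0) = pi A 0 * pi A 0 - (c : OO A 0) * (2 * 2) := by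
      apply QuadraticAlgebra.ext
      · simp only [pi, QuadraticAlgebra.re_mul, QuadraticAlgebra.re_sub, QuadraticAlgebra.re_ofNat,
          QuadraticAlgebra.im_ofNat, QuadraticAlgebra.re_intCast, QuadraticAlgebra.im_intCast,
          QuadraticAlgebra.im_mul, Int.cast_id]
        linear_combination -hc
      · simp only [pi, QuadraticAlgebra.re_mul, QuadraticAlgebra.im_sub, QuadraticAlgebra.re_ofNat,
          QuadraticAlgebra.im_ofNat, QuadraticAlgebra.re_intCast, QuadraticAlgebra.im_intCast,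
          QuadraticAlgebra.im_mul, Int.cast_id]
        ring
    rw [h1]
    exact Ideal.sub_mem _ hpp (Ideal.mul_mem_left _ _ h22)
  · have h1 : (2 : OO A 0) = (c : OO A 0) * (2 * 2) + 2 * pi A 1 - pi A 1 * pi A 1 := by
      apply QuadraticAlgebra.ext
      · simp only [pi, QuadraticAlgebra.re_mul, QuadraticAlgebra.re_sub, QuadraticAlgebra.re_ofNat,
          QuadraticAlgebra.im_ofNat, QuadraticAlgebra.re_intCast, QuadraticAlgebra.im_intCast,
          QuadraticAlgebra.im_mul, QuadraticAlgebra.re_add, Int.cast_id]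
        linear_combination hc
      · simp only [pi, QuadraticAlgebra.re_mul, QuadraticAlgebra.im_sub, QuadraticAlgebra.re_ofNat,
          QuadraticAlgebra.im_ofNat, QuadraticAlgebra.re_intCast, QuadraticAlgebra.im_intCast,
          QuadraticAlgebra.im_mul, QuadraticAlgebra.im_add, Int.cast_id]
        ring
    rw [h1]
    exact Ideal.sub_mem _ (Ideal.add_mem _ (Ideal.mul_mem_left _ _ h22) h2p) hpp

lemma nm_odd {t : ℤ} (ht : Cs A t) {x : OO A 0} (hx : ¬ (2 : ℤ) ∣ ix t x) :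
    ¬ (2 : ℤ) ∣ nm x := by
  intro h1
  apply hx
  have h3 : (2 : ℤ) ∣ ix t x ^ 2 := by
    rcases ht with ⟨rfl, c, hc⟩ | ⟨rfl, c, hc⟩
    · have h4 : ix 0 x ^ 2 = nm x + 2 * ((2 * c + 1) * x.im ^ 2) := by
        unfold nm ix
        linear_combination (x.im ^ 2) * hc
      rw [h4]
      exact dvd_add h1 (dvd_mul_right _ _)
    · have h4 : ix 1 x ^ 2 = nm x + 2 * (2 * c * x.im ^ 2 - x.re * x.im) := by
        unfold nm ix
        linear_combination (x.im ^ 2) * hc
      rw [h4]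
      exact dvd_add h1 (dvd_mul_right _ _)
  exact Int.prime_two.dvd_of_dvd_pow h3

end CtxUaux

open CtxUaux in
/-- (CTX) from the standing hypotheses to `CtxF` -/
theorem t4_CTX : S4_CTX := by
  intro A B P V hC hB hP hV hT hRF
  obtain ⟨hF1, hF2⟩ := hRF A B P V hC hB hP hV hT
  have h := hC.toCQ
  have hmod : A % 4 = 2 ∨ A % 4 = 3 := by
    right
    rw [hC.hA]
    norm_num
  subst hB
  obtain ⟨t, ht⟩ := ex_Cs hmod
  have h2P : (2 : OO A 0) ∈ P := by
    have := hP.mem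
    rwa [Nat.cast_ofNat] at this
  have h1P : (1 : OO A 0) ∉ P := fun h1 => hP.prime.ne_top ((Ideal.eq_top_iff_one P).2 h1)
  have hv2 : V.valuation (2 : ℂ) < 1 := by
    have h1 := (hV ((2 : ℕ) : OO A 0)).2 hP.mem
    rw [ValuationSubring.mem_nonunits_iff, MUX.emb_natCast h] at h1
    simpa using h1
  have hunit : ∀ x : OO A 0, x ∉ P → V.valuation (emb x) = 1 := fun x hx =>
    le_antisymm (ALC.v_emb h V x) (not_lt.1 fun h1 =>
      hx ((hV x).1 ((ValuationSubring.mem_nonunits_iff V).2 h1)))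
  have hlt : ∀ x : OO A 0, V.valuation (emb x) < 1 → x ∈ P := fun x hx =>
    (hV x).1 ((ValuationSubring.mem_nonunits_iff V).2 hx)
  have hmem : ∀ x : OO A 0, x ∈ P ↔ (2 : ℤ) ∣ ix t x := by
    intro x
    constructor
    · intro hx
      by_contra hc
      have h3 := (ValuationSubring.mem_nonunits_iff V).1 ((hV x).2 hx)
      rw [v_one h hv2 ht hc] at h3
      exact lt_irrefl _ h3
    · intro hx
      exact hlt x (lt_of_le_of_lt (v_le h hv2 ht hx) (v_pi_lt h hv2 ht))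
  have hone : ∀ x : OO A 0, x ∉ P → x - 1 ∈ P := by
    intro x hx
    rw [hmem] at hx ⊢
    have e1 : ix t (x - 1) = ix t x - 1 := by
      unfold ix
      rw [QuadraticAlgebra.re_sub, QuadraticAlgebra.im_sub, QuadraticAlgebra.re_one,
        QuadraticAlgebra.im_one]
      ring
    rw [e1]
    omega
  have hpiP : pi A t ∈ P := hlt _ (v_pi_lt h hv2 ht)
  have h2sq := two_sq ht h2P hpiP
  have hdv := dvd_iff (V := V) h hv2 ht
  have hpw1 : ∀ (k : ℕ) (x : OO A 0), x ∈ P ^ k →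
      V.valuation (emb x) ^ 2 ≤ V.valuation (2 : ℂ) ^ k := by
    intro k
    induction k with
    | zero =>
      intro x _
      rw [pow_zero]
      exact pow_le_one₀ zero_le (ALC.v_emb h V x)
    | succ k ih =>
      intro x hx
      rw [pow_succ] at hx
      refine Submodule.mul_induction_on hx ?_ ?_
      · intro a ha b hb
        rw [MUX.emb_mul h, map_mul, mul_pow, pow_succ]
        refine mul_le_mul' (ih a ha) ?_
        rw [← v_pi h hv2 ht]
        exact pow_le_pow_left₀ zero_le (v_le h hv2 ht ((hmem b).1 hb)) 2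
      · intro a b ha hb
        rw [MUX.emb_add h]
        rcases le_max_iff.1 (Valuation.map_add V.valuation (emb a) (emb b)) with h3 | h3
        · exact (pow_le_pow_left₀ zero_le h3 2).trans ha
        · exact (pow_le_pow_left₀ zero_le h3 2).trans hb
  have hpw2 : ∀ (k : ℕ) (x : OO A 0), V.valuation (emb x) ^ 2 ≤ V.valuation (2 : ℂ) ^ k →
      x ∈ P ^ k := by
    intro k
    induction k using Nat.twoStepInduction with
    | zero =>
      intro x _
      rw [pow_zero, Ideal.one_eq_top]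
      exact Submodule.mem_top
    | one =>
      intro x hx
      rw [pow_one] at hx ⊢
      refine hlt x (not_le.1 fun h3 => ?_)
      exact not_lt.2 ((one_le_pow₀ h3).trans hx) hv2
    | more k ih _ =>
      intro x hx
      have h3 : V.valuation (emb x) ≤ V.valuation (2 : ℂ) := by
        refine not_lt.1 fun h4 => ?_
        have h5 : V.valuation (2 : ℂ) ^ 2 < V.valuation (emb x) ^ 2 :=
          pow_lt_pow_left₀ h4 zero_le two_ne_zero
        refine not_lt.2 (hx.trans ?_) h5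
        rw [pow_add]
        exact mul_le_of_le_one_left' (pow_le_one₀ zero_le hv2.le)
      obtain ⟨y, rfl⟩ := ex_half h hv2 ht h3
      rw [v_two_mul h, mul_pow, pow_add, mul_comm] at hx
      have h4 : V.valuation (emb y) ^ 2 ≤ V.valuation (2 : ℂ) ^ k :=
        (mul_le_mul_iff_left₀ (zero_lt_iff.2 (pow_ne_zero 2 v_two0))).1 hx
      have h5 := Ideal.mul_mem_mul (ih y h4) h2sq
      rw [← pow_add] at h5
      rwa [mul_comm]
  refine
    { ring := Pool.Agent.MUXE.te_RNG A 0 h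
      cq := h
      case := hC
      B0 := rfl
      mod := hmod
      v2 := hv2
      int := ALC.v_emb h V
      unit := hunit
      nat := ?_
      max := ?_
      one := hone
      nrm := fun x hx => nm_odd ht fun hc => hx ((hmem x).2 hc)
      pi := ⟨pi A t, v_pi h hv2 ht⟩
      w0 := ?_
      pw := fun k x => ⟨hpw1 k x, hpw2 k x⟩
      dv := hdv
      good := ?_
      iner := hF2
      exq := ?_ }
  · intro n hn
    have := ALC.v_odd (V := V) hv2 (n := (n : ℤ)) (by omega)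
    simpa using this
  · rw [Ideal.isMaximal_iff]
    refine ⟨h1P, ?_⟩
    intro J x hJ hx hxJ
    have h4 : (1 : OO A 0) = x - (x - 1) := by ring
    rw [h4]
    exact J.sub_mem hxJ (hJ (hone x hx))
  · rw [MUX.emb_w, sq, ← map_mul, wsq h]
    rcases hmod with h3 | h3
    · have hd : dR A = 3 := by
        unfold dR
        rw [if_neg (by omega)]
      obtain ⟨c, hc⟩ : ∃ c : ℤ, A = 2 * (2 * c + 1) := ⟨(A - 2) / 4, by omega⟩
      have hc' : (A : ℂ) = 2 * ((2 * c + 1 : ℤ) : ℂ) := by exact_mod_cast hc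
      rw [hd, hc', map_mul, ALC.v_odd hv2 (by omega), mul_one, pow_one]
    · have hd : dR A = 2 := by
        unfold dR
        rw [if_pos h3]
      rw [hd, ALC.v_odd hv2 (by omega), pow_zero]
  · rintro L ⟨b, om, hL⟩
    obtain ⟨u, e, a1, a3, h1, -⟩ := hF1 b L om hL
    exact ⟨u, e, a1, a3, h1⟩
  · rintro L ⟨b, om, hL⟩
    have h20 : (2 : OO A 0) ≠ 0 := by
      intro h0
      have h1 := congrArg QuadraticAlgebra.re h0
      simp only [QuadraticAlgebra.re_ofNat, QuadraticAlgebra.re_zero] at h1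
      norm_num at h1
    have hPb : P ≠ ⊥ := by
      rintro rfl
      exact h20 (Ideal.mem_bot.1 h2P)
    obtain ⟨σ, -, hσ⟩ := hT.surj ⊤ (by
      intro h0
      have h4 : (2 : OO A 0) ∈ (⊤ : Ideal (OO A 0)) := Submodule.mem_top
      rw [h0] at h4
      exact h20 (Ideal.mem_bot.1 h4)) P hPb (Ideal.isCoprime_iff_sup_eq.2 (sup_top_eq _))
    obtain ⟨b', L', om', mu, hL', hact⟩ := hσ b L om hL
    exact ⟨L', mu, ⟨b', om', hL'⟩, hact.isq⟩

end

end Pool.Agent.ME2F
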