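import Pool.Agent.ME2.StE4
import Pool.Agent.ME.X_TRA
import Pool.Agent.ME.X_TRB
import Pool.Agent.ME.X_FAC
import Pool.Agent.ME.X_GTH
import Pool.Agent.ME.X_PT
import Pool.Agent.ME.X_GAL

/-!
# MUX-2N, block E2N, module DEG: the degree of `RFE (2^(j+1) f)` over `RFE (f)` (helper92)

The proof of `Pool/Agent/NS/E_DEG.lean` with `2` instead of `3`.
-/

set_option autoImplicit false

open Polynomial

namespace Pool.Agent.ME2F

open _root_.MU3 Pool.Agent.MU3A Pool.Agent.MU3B Pool.Agent.MUX Pool.Agent.MUXU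
open Pool.Agent.RI Pool.Agent.NS
open Pool.Agent.ME hiding ActE
open Pool.Agent.MEE Pool.Agent.ME2
open Pool.Agent.MUXE (RingE)
open Pool.Agent.N2 (GoodQ OddQ dR et yt WT PTq)
open Pool.Agent.N2E (dlg cc Sd_LAG Sd_PRD)
open Pool.Agent.N2V (IsoU NN w0 bb Sv_COE Sv_GRT Sv_UNT Sv_RAT Sv_THT Sv_NE1 Sv_PVI Sv_TWO Sv_DS2)
open Pool.Agent.ME2E (AutCE Sy_AUT Sy_GTA)

noncomputable section

namespace DEG

lemma mem_idl_of {A B : ℤ} (n : ℕ) (x : OO A B) (h1 : (n : ℤ) ∣ x.re) (h2 : (n : ℤ) ∣ x.im) :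
    x ∈ idl (A := A) (B := B) n := by
  obtain ⟨a, ha⟩ := h1
  obtain ⟨b, hb⟩ := h2
  rw [Ideal.mem_span_singleton]
  refine ⟨⟨a, b⟩, ?_⟩
  ext <;> simp [ha, hb]

/-- the pairs modulo `2^(j+1)` which are `(1, 0)` modulo `2` -/
def box (j : ℕ) : Finset (ℕ × ℕ) :=
  (Finset.range (2 ^ j) ×ˢ Finset.range (2 ^ j)).image fun q => (2 * q.1 + 1, 2 * q.2)

lemma card_box (j : ℕ) : (box j).card = 4 ^ j := by
  unfold box
  rw [Finset.card_image_of_injective]
  · simp only [Finset.card_product, Finset.card_range]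
    rw [← mul_pow]
    norm_num
  · rintro ⟨a, b⟩ ⟨c, d⟩ h
    simp only [Prod.mk.injEq] at h ⊢
    omega

/-- the class of an element -/
def cls {A B : ℤ} (j : ℕ) (x : OO A B) : ℕ × ℕ :=
  ((x.re % (2 ^ (j + 1) : ℕ)).toNat, (x.im % (2 ^ (j + 1) : ℕ)).toNat)

lemma cls_mem {A B : ℤ} (j : ℕ) (x : OO A B) (hx : x - 1 ∈ idl (A := A) (B := B) 2) :
    cls j x ∈ box j := by
  have hN : (0 : ℤ) < ((2 ^ (j + 1) : ℕ) : ℤ) := by positivity
  have h1 := Int.emod_nonneg x.re hN.ne'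
  have h2 := Int.emod_lt_of_pos x.re hN
  have h3 := Int.emod_nonneg x.im hN.ne'
  have h4 := Int.emod_lt_of_pos x.im hN
  obtain ⟨t, ht⟩ := Ideal.mem_span_singleton'.1 hx
  have h2re : ((2 : ℕ) : OO A B).re = 2 := QuadraticAlgebra.re_natCast 2
  have h2im : ((2 : ℕ) : OO A B).im = 0 := QuadraticAlgebra.im_natCast 2
  have hre := congrArg QuadraticAlgebra.re ht
  have him := congrArg QuadraticAlgebra.im ht
  rw [QuadraticAlgebra.re_mul, QuadraticAlgebra.re_sub, h2re, h2im,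
    QuadraticAlgebra.re_one] at hre
  rw [QuadraticAlgebra.im_mul, QuadraticAlgebra.im_sub, h2re, h2im,
    QuadraticAlgebra.im_one] at him
  have hp : ((2 ^ (j + 1) : ℕ) : ℤ) = 2 * ((2 ^ j : ℕ) : ℤ) := by
    push_cast
    ring
  have h6 := Int.emod_add_mul_ediv x.re ((2 ^ (j + 1) : ℕ) : ℤ)
  have h7 := Int.emod_add_mul_ediv x.im ((2 ^ (j + 1) : ℕ) : ℤ)
  have hp0 : (0 : ℤ) < ((2 ^ j : ℕ) : ℤ) := by positivity
  unfold box cls
  simp only [Finset.mem_image, Finset.mem_product, Finset.mem_range, Prod.mk.injEq]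
  rw [hp] at h1 h2 h3 h4 h6 h7 ⊢
  generalize x.re / (2 * ((2 ^ j : ℕ) : ℤ)) = qa at h6
  generalize x.im / (2 * ((2 ^ j : ℕ) : ℤ)) = qb at h7
  have h8 : ∃ r : ℤ, x.re % (2 * ((2 ^ j : ℕ) : ℤ)) = 2 * r + 1 := by
    refine ⟨t.re - ((2 ^ j : ℕ) : ℤ) * qa, ?_⟩
    linear_combination h6 - hre
  have h9 : ∃ r : ℤ, x.im % (2 * ((2 ^ j : ℕ) : ℤ)) = 2 * r := by
    refine ⟨t.im - ((2 ^ j : ℕ) : ℤ) * qb, ?_⟩
    linear_combination h7 - him
  obtain ⟨r, hr⟩ := h8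
  obtain ⟨r', hr'⟩ := h9
  refine ⟨(r.toNat, r'.toNat), ⟨?_, ?_⟩, ?_, ?_⟩ <;> simp only <;> omega

lemma cls_inj {A B : ℤ} (j : ℕ) (x y : OO A B) (h : cls j x = cls j y) :
    x - y ∈ idl (A := A) (B := B) (2 ^ (j + 1)) := by
  have hN : (0 : ℤ) < ((2 ^ (j + 1) : ℕ) : ℤ) := by positivity
  have h1 := Int.emod_nonneg x.re hN.ne'
  have h2 := Int.emod_nonneg y.re hN.ne'
  have h3 := Int.emod_nonneg x.im hN.ne'
  have h4 := Int.emod_nonneg y.im hN.ne'
  unfold cls at h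
  rw [Prod.mk.injEq] at h
  obtain ⟨e1, e2⟩ := h
  have e3 : x.re % ((2 ^ (j + 1) : ℕ) : ℤ) = y.re % ((2 ^ (j + 1) : ℕ) : ℤ) := by omega
  have e4 : x.im % ((2 ^ (j + 1) : ℕ) : ℤ) = y.im % ((2 ^ (j + 1) : ℕ) : ℤ) := by omega
  apply mem_idl_of
  · show ((2 ^ (j + 1) : ℕ) : ℤ) ∣ x.re - y.re
    exact Int.ModEq.dvd (Int.ModEq.symm e3)
  · show ((2 ^ (j + 1) : ℕ) : ℤ) ∣ x.im - y.im
    exact Int.ModEq.dvd (Int.ModEq.symm e4)

end DEG

open DEG in
theorem t4_DEG : S4_DEG := by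
  classical
  intro A B P V hC hG j f hf h3f
  have hR := hC.ring
  obtain ⟨f1, -, f3, -, f5⟩ := tm_FAC tm_TRA A B hR
  -- ideals
  set m : Ideal (OO A B) := idl (A := A) (B := B) (2 ^ (j + 1) * f) with hm
  set m' : Ideal (OO A B) := idl (A := A) (B := B) (2 * f) with hm'
  have hmm' : m ≤ m' := Ideal.span_singleton_le_span_singleton.2
    ⟨((2 ^ j : ℕ) : OO A B), by push_cast; ring⟩
  have hm2' : m' ≤ idl (A := A) (B := B) 2 := Ideal.span_singleton_le_span_singleton.2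
    ⟨((f : ℕ) : OO A B), by push_cast; ring⟩
  have hm0 : m ≠ ⊥ := by
    intro h0
    have h4 : (((2 ^ (j + 1) * f : ℕ)) : OO A B) ∈ m := Ideal.mem_span_singleton_self _
    rw [h0, Ideal.mem_bot] at h4
    obtain ⟨φ, hφ⟩ := hR.hom
    have h5 : φ (((2 ^ (j + 1) * f : ℕ)) : OO A B) = ((2 ^ (j + 1) * f : ℕ) : ℂ) := map_natCast φ _
    rw [h4, map_zero] at h5
    have h6 : (2 ^ (j + 1) * f : ℕ) = 0 := by exact_mod_cast h5.symm
    exact (mul_ne_zero (pow_ne_zero _ (by norm_num)) hf) h6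
  have hcop : IsCoprime (((2 ^ (j + 1) : ℕ)) : OO A B) ((f : ℕ) : OO A B) := by
    have h4 : Nat.Coprime (2 ^ (j + 1)) f :=
      Nat.Coprime.pow_left _ ((Nat.Prime.coprime_iff_not_dvd Nat.prime_two).2 h3f)
    have h5 := (Nat.isCoprime_iff_coprime.2 h4).intCast (R := OO A B)
    simpa using h5
  have hinf : ∀ x : OO A B, x ∈ idl (A := A) (B := B) (2 ^ (j + 1)) → x ∈ m' → x ∈ m := by
    intro x h4 h5
    rw [Ideal.mem_span_singleton] at h4 h5
    rw [hm, Ideal.mem_span_singleton, Nat.cast_mul]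
    refine hcop.mul_dvd h4 (dvd_trans ⟨((2 : ℕ) : OO A B), ?_⟩ h5)
    push_cast
    ring
  -- fields
  have hF : RFE m' ≤ RFE m := f1 m m' hmm'
  haveI := hG.fin m hm0
  haveI := hG.gal m hm0
  set E : IntermediateField (kk A B) (RFE m) := IntermediateField.restrict hF with hE
  have e1 : Module.finrank (kk A B) (RFE m') = Module.finrank (kk A B) E :=
    (IntermediateField.restrictAlgEquiv hF).toLinearEquiv.finrank_eq
  have e2 : Module.finrank (kk A B) E * Module.finrank E (RFE m) =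
      Module.finrank (kk A B) (RFE m) := Module.finrank_mul_finrank _ _ _
  have e3 : Nat.card E.fixingSubgroup = Module.finrank E (RFE m) :=
    IsGalois.card_fixingSubgroup_eq_finrank E
  rw [← e2, ← e3, e1, mul_comm]
  refine Nat.mul_le_mul_right _ ?_
  -- the kernel
  have hker : ∀ σ : E.fixingSubgroup, ∃ α : OO A B, α - 1 ∈ m' ∧
      ActEE (em (σ : RFE m ≃ₐ[kk A B] RFE m)) m α := by
    intro σ
    refine hG.ker m m' hm0 hmm' hm2' (em (σ : RFE m ≃ₐ[kk A B] RFE m)) ?_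
    intro y hy hy'
    have h4 : (⟨y, hy⟩ : RFE m) ∈ E := (IntermediateField.mem_restrict hF _).2 hy'
    have h5 := (IntermediateField.mem_fixingSubgroup_iff E _).1 σ.2 ⟨y, hy⟩ h4
    exact congrArg Subtype.val h5
  choose α hα1 hα2 using hker
  have hinj : ∀ σ τ, α σ - α τ ∈ idl (A := A) (B := B) (2 ^ (j + 1)) → σ = τ := by
    intro σ τ h
    have h4 : α σ - α τ ∈ m' := by
      have := sub_mem (hα1 σ) (hα1 τ)
      rwa [sub_sub_sub_cancel_right] at this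
    have h5 : α σ - α τ ∈ m := hinf _ h h4
    have h6 := f5 m (RFE m) (em (σ : RFE m ≃ₐ[kk A B] RFE m)) (α σ) (α τ) (Or.inl h5) (hα2 σ)
    have h7 := f3 m _ _ _ h6 (hα2 τ)
    apply Subtype.ext
    apply AlgEquiv.ext
    intro x
    apply Subtype.ext
    exact DFunLike.congr_fun h7 x
  have hcard : Nat.card E.fixingSubgroup ≤ Nat.card (box j) := by
    refine Nat.card_le_card_of_injective (fun σ => ⟨cls j (α σ), cls_mem j _ (hm2' (hα1 σ))⟩) ?_
    intro σ τ h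
    exact hinj _ _ (cls_inj j _ _ (congrArg Subtype.val h))
  refine hcard.trans (le_of_eq ?_)
  rw [Nat.card_eq_fintype_card, Fintype.card_coe, card_box]

end

end Pool.Agent.ME2F
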