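import Pool.Agent.ME2.StE4
import Pool.Agent.ME.X_TRA
import Pool.Agent.ME.X_TRB
import Pool.Agent.ME.X_FAC
import Pool.Agent.ME.X_GTH
import Pool.Agent.ME.X_PT
import Pool.Agent.ME.X_GAL
import Pool.Agent.MUX.XLib
import Pool.Agent.MUX.UAll
import Pool.Agent.MU3.BAll

/-!
# MUX-2R, block ER2: module DST, the distances
-/

set_option autoImplicit false

open Polynomial

namespace Pool.Agent.ME2F

open _root_.MU3 Pool.Agent.MU3A Pool.Agent.MU3B Pool.Agent.MUX Pool.Agent.MUXU
open Pool.Agent.RI Pool.Agent.NS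
open Pool.Agent.ME hiding ActE
open Pool.Agent.MEE Pool.Agent.ME2
open Pool.Agent.MUXE (RingE)
open Pool.Agent.N2 (GoodQ OddQ dR et yt WT PTq)
open Pool.Agent.N2E (dlg cc Sd_LAG Sd_PRD)
open Pool.Agent.N2V (IsoU NN w0 bb Sv_COE Sv_GRT Sv_UNT Sv_RAT Sv_THT Sv_NE1 Sv_PVI Sv_TWO Sv_DS2)
open Pool.Agent.ME2E (AutCE Sy_AUT Sy_GTA)
open Pool.Agent.NSE (IntP)
open Pool.Agent.MUX2 (GRG)
open Pool.Agent.MUXV (InK tX)

noncomputable section

namespace DST

section
variable {V : ValuationSubring ℂ} {W : WeierstrassCurve.Affine ℂ} {L : PeriodPair}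
  {X Y : ℂ → ℂ} {ξ : ℂ →+ W.Point}

lemma dist (G : GRG V W L X Y ξ) {Q w : ℂ} (hQ : ¬ InK V L X Q) (h2 : ¬ InK V L X (2 * Q))
    (hw : InK V L X w) (hwL : w ∉ L.lattice) :
    ¬ InK V L X (Q + w) ∧ V.valuation (X Q - X (Q + w)) = V.valuation (tX X Y w) := by
  obtain ⟨n1, n2, -, -⟩ := Pool.Agent.MUX2.gnear G hQ hw hwL
  obtain ⟨t1, t2, -⟩ := Pool.Agent.MUX2.gv_tX_lt G hw hwL
  have hD := Pool.Agent.MUX2.gv_DX G hQ h2
  refine ⟨n1, ?_⟩
  set s : ℂ := (2 * Y Q + W.a₁ * X Q + W.a₃) * tX X Y w with hs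
  have hvs : V.valuation s = V.valuation (tX X Y w) := by rw [hs, map_mul, hD, one_mul]
  have hlt : V.valuation (X (Q + w) - X Q - s) < V.valuation s := by
    rw [hvs]
    refine lt_of_le_of_lt n2 ?_
    rw [sq]
    exact mul_lt_of_lt_one_left (zero_lt_iff.2 t2) t1
  have e : X (Q + w) - X Q = s + (X (Q + w) - X Q - s) := by ring
  rw [← hvs, Valuation.map_sub_swap, e]
  exact Valuation.map_add_eq_of_lt_left _ hlt

end

lemma inj {V : ValuationSubring ℂ} {W : WeierstrassCurve.Affine ℂ} {L : PeriodPair}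
    {Y : ℂ → ℂ} {ξ : ℂ →+ W.Point} {u e : ℂ} (hu : u ≠ 0)
    (G : GRG V W L (xu L u e) Y ξ) {Q w w' : ℂ} (hQ : ¬ InK V L (xu L u e) Q)
    (h2 : ¬ InK V L (xu L u e) (2 * Q)) (hw : InK V L (xu L u e) w)
    (hw' : InK V L (xu L u e) w') (h : xu L u e (Q + w) = xu L u e (Q + w')) :
    w - w' ∈ L.lattice := by
  have k1 : ∀ v, InK V L (xu L u e) v → Q + v ∉ L.lattice := by
    intro v hv hL
    apply hQ
    have h3 : InK V L (xu L u e) (Q + v) := Or.inl hL
    have h4 := Pool.Agent.MUX2.gInK_sub G h3 hv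
    rwa [add_sub_cancel_right] at h4
  have h5 : L.weierstrassP (Q + w) = L.weierstrassP (Q + w') := by
    unfold xu at h
    have hu2 : u ^ 2 ≠ 0 := pow_ne_zero _ hu
    have h6 := (div_left_inj' hu2).1 h
    linear_combination h6
  rcases b_NEQ L (Q + w') (Q + w) (k1 w' hw') (k1 w hw) h5 with h6 | h6
  · have e1 : Q + w - (Q + w') = w - w' := by ring
    rwa [e1] at h6
  · exfalso
    apply h2
    have h7 : InK V L (xu L u e) (Q + w + (Q + w')) := Or.inl h6
    have h8 := Pool.Agent.MUX2.gInK_sub G h7 (Pool.Agent.MUX2.gInK_add G hw hw')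
    have e1 : Q + w + (Q + w') - (w + w') = 2 * Q := by ring
    rwa [e1] at h8

section ord

variable {A B : ℤ} {P : Ideal (OO A B)} {V : ValuationSubring ℂ}

lemma emb_two (h : CQ A B) (x : OO A B) : emb (2 * x) = 2 * emb x := by
  rw [emb_mul h]
  have := emb_natCast (A := A) (B := B) h 2
  push_cast at this
  rw [this]

/-- `x ∈ P^k` implies `2 x ∈ P^(k+2)` -/
lemma two_mem (hC : CtxF A B P V) {k : ℕ} {x : OO A B} (hx : x ∈ P ^ k) :
    2 * x ∈ P ^ (k + 2) := by
  have h1 := (hC.pw k x).1 hx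
  rw [hC.pw, emb_two hC.cq, map_mul, mul_pow, mul_comm, pow_add]
  exact mul_le_mul_left h1 _

/-- `x ∈ P^(k+2)` is `2 y`, `y ∈ P^k` -/
lemma half_mem (hC : CtxF A B P V) {k : ℕ} {x : OO A B} (hx : x ∈ P ^ (k + 2)) :
    ∃ y ∈ P ^ k, x = 2 * y := by
  have h1 := (hC.pw (k + 2) x).1 hx
  have hv0 : V.valuation (2 : ℂ) ≠ 0 := (Valuation.ne_zero_iff _).2 two_ne_zero
  have h2 : V.valuation (2 : ℂ) ^ (k + 2) ≤ V.valuation (2 : ℂ) ^ 2 :=
    pow_le_pow_of_le_one zero_le hC.v2.le (Nat.le_add_left _ _)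
  have h3 : V.valuation (emb x) ≤ V.valuation (2 : ℂ) ^ 1 := by
    rw [pow_one]
    exact (pow_le_pow_iff_left₀ zero_le zero_le two_ne_zero).1 (h1.trans h2)
  have h4 := (hC.dv 1 x).2 h3
  obtain ⟨y, hy⟩ := Ideal.mem_span_singleton.1 h4
  have h5 : x = 2 * y := by
    rw [hy]
    push_cast
    ring
  refine ⟨y, ?_, h5⟩
  rw [hC.pw]
  rw [h5, emb_two hC.cq, map_mul, mul_pow, mul_comm, pow_add] at h1
  exact le_of_mul_le_mul_right h1 (zero_lt_iff.2 (pow_ne_zero _ hv0))

end ord

end DST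

open DST in
/-- DST. -/
theorem t4_DST (h1 : Sv_GRT) (h2 : Sv_TWO) (h3 : S4_TPU) : S4_DST := by
  classical
  intro A B P V hC L u e a1 a3 hNL hG Q hQ h2Q
  have hv2 := hC.v2
  have hu := hG.u0
  obtain ⟨ξ, G⟩ := (h1 V L u e a1 a3 hG hv2).1
  obtain ⟨-, w2, -, w4⟩ := h2 V L u e a1 a3 hG hv2
  have hzero : InK V L (xu L u e) 0 := Or.inl (zero_mem _)
  constructor
  · -- all points of order 4
    have hI : Isg L L 4 := by
      intro w hw
      have := L.lattice.smul_mem (4 : ℤ) hw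
      rwa [zsmul_eq_mul, Int.cast_ofNat] at this
    obtain ⟨R, hR⟩ := (u_BAC.2 L L 4 (by norm_num) hI).1
    have hK : ∀ q ∈ R, InK V L (xu L u e) q := by
      intro q hq
      apply w2 2
      have := hR.mem q hq
      norm_num
      exact this
    have hinj : Set.InjOn (fun q => xu L u e (Q + q)) (R : Set ℂ) := by
      intro q hq q' hq' h
      exact hR.inj q hq q' hq' (inj hu G hQ h2Q (hK q hq) (hK q' hq') h)
    refine ⟨R.image fun q => xu L u e (Q + q), ?_, ?_, ?_⟩
    · intro h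
      obtain ⟨q, hq, h4⟩ := Finset.mem_image.1 h
      have h5 : xu L u e (Q + q) = xu L u e (Q + 0) := by rw [add_zero]; exact h4
      have h6 := inj hu G hQ h2Q (hK q hq) hzero h5
      rw [sub_zero] at h6
      exact hR.ne q hq h6
    · intro x hx
      obtain ⟨q, hq, rfl⟩ := Finset.mem_image.1 hx
      exact ⟨(Pool.Agent.MUXV.int_X (dist G hQ h2Q (hK q hq) (hR.ne q hq)).1).2, q,
        hR.mem q hq, rfl⟩
    · rw [Finset.prod_image hinj]
      have e1 : ∏ q ∈ R, V.valuation (xu L u e Q - xu L u e (Q + q)) =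
          ∏ q ∈ R, V.valuation (tX (xu L u e) (yt L u e a1 a3) q) :=
        Finset.prod_congr rfl fun q hq => (dist G hQ h2Q (hK q hq) (hR.ne q hq)).2
      rw [e1]
      have e2 : (∏ q ∈ R, V.valuation (xu L u e q)) *
          (∏ q ∈ R, V.valuation (tX (xu L u e) (yt L u e a1 a3) q)) ^ 2 = 1 := by
        rw [← Finset.prod_pow, ← Finset.prod_mul_distrib]
        exact Finset.prod_eq_one fun q hq =>
          (Pool.Agent.MUX2.gv_tX_lt G (hK q hq) (hR.ne q hq)).2.2
      have e3 := w4 R hR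
      have hne : ∏ q ∈ R, V.valuation (xu L u e q) ≠ 0 := by
        intro h0
        rw [h0, zero_mul] at e2
        exact zero_ne_one e2
      have e4 : (∏ q ∈ R, V.valuation (tX (xu L u e) (yt L u e a1 a3) q)) ^ 2 =
          (V.valuation (2 : ℂ) ^ 2) ^ 2 := by
        apply mul_left_cancel₀ hne
        rw [e2, ← pow_mul, mul_comm, e3]
      exact ((pow_left_inj₀ zero_le zero_le two_ne_zero).1 e4).le
  · -- the orbit
    intro Y hY hY'
    have hd : dR A = 2 ∨ dR A = 3 := by
      unfold dR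
      by_cases h : A % 4 = 3
      · exact Or.inl (if_pos h)
      · exact Or.inr (if_neg h)
    have hd2 : 2 ≤ dR A := by omega
    have hd3 : dR A ≤ 3 := by omega
    have em : ∀ (x : OO A B) (z : ℂ), emb (2 * x) * z = emb x * (2 * z) := by
      intro x z
      rw [emb_two hC.cq]
      ring
    -- the point `Y`
    have j1 : 6 - dR A = (5 - dR A) + 1 := by omega
    have t1 : Tor (P ^ (5 - dR A + 1)) L Y := by rw [← j1]; exact hY
    obtain ⟨k1, l1, o1⟩ := h3 A B P V hC (5 - dR A) L u e a1 a3 hNL hG Y t1 hY'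
    -- the point `3 Y`
    have t3 : Tor (P ^ (5 - dR A + 1)) L (3 * Y) := by
      intro x hx
      have h4 := L.lattice.smul_mem (3 : ℤ) (t1 x hx)
      rw [zsmul_eq_mul, Int.cast_ofNat] at h4
      have e5 : emb x * (3 * Y) = 3 * (emb x * Y) := by ring
      rwa [e5]
    have t3' : ¬ Tor (P ^ (5 - dR A)) L (3 * Y) := by
      intro h4
      apply hY'
      intro x hx
      have h5 := h4 x hx
      have h6 : 2 * x ∈ P ^ (5 - dR A + 1) :=
        Ideal.pow_le_pow_right (by omega) (two_mem hC hx)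
      have h7 := t1 _ h6
      have h8 := sub_mem h5 h7
      have e5 : emb x * (3 * Y) - emb (2 * x) * Y = emb x * Y := by
        rw [emb_two hC.cq]
        ring
      rwa [e5] at h8
    obtain ⟨k3, l3, o3⟩ := h3 A B P V hC (5 - dR A) L u e a1 a3 hNL hG (3 * Y) t3 t3'
    -- the point `2 Y`
    have t2 : Tor (P ^ (3 - dR A + 1)) L (2 * Y) := by
      intro x hx
      rw [← em]
      apply t1
      have h6 := two_mem hC hx
      have e5 : 3 - dR A + 1 + 2 = 5 - dR A + 1 := by omega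
      rwa [e5] at h6
    have t2' : ¬ Tor (P ^ (3 - dR A)) L (2 * Y) := by
      intro h4
      apply hY'
      intro x hx
      have e5 : 5 - dR A = 3 - dR A + 2 := by omega
      rw [e5] at hx
      obtain ⟨y, hy, rfl⟩ := half_mem hC hx
      rw [em]
      exact h4 y hy
    obtain ⟨k2, l2, o2⟩ := h3 A B P V hC (3 - dR A) L u e a1 a3 hNL hG (2 * Y) t2 t2'
    have hkK : ∀ k : ℕ, InK V L (xu L u e) (k * Y) := fun k => Pool.Agent.MUX2.gInK_nat G k1 k
    have hinj : Set.InjOn (fun k : ℕ => xu L u e (Q + k * Y))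
        (({1, 2, 3} : Finset ℕ) : Set ℕ) := by
      have key : ∀ k k' : ℕ, k < k' → (k' = 2 ∨ k' = 3) → (k = 1 ∨ k = 2) →
          xu L u e (Q + k * Y) ≠ xu L u e (Q + k' * Y) := by
        intro k k' hlt hk' hk h
        have h4 := inj hu G hQ h2Q (hkK k) (hkK k') h
        have h5 := neg_mem h4
        rcases hk' with rfl | rfl <;> rcases hk with rfl | rfl
        · apply l1
          have e5 : -(((1 : ℕ) : ℂ) * Y - ((2 : ℕ) : ℂ) * Y) = Y := by push_cast; ring
          rwa [e5] at h5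
        · omega
        · apply l2
          have e5 : -(((1 : ℕ) : ℂ) * Y - ((3 : ℕ) : ℂ) * Y) = 2 * Y := by push_cast; ring
          rwa [e5] at h5
        · apply l1
          have e5 : -(((2 : ℕ) : ℂ) * Y - ((3 : ℕ) : ℂ) * Y) = Y := by push_cast; ring
          rwa [e5] at h5
      intro k hk k' hk' h
      simp only [Finset.coe_insert, Finset.coe_singleton, Set.mem_insert_iff,
        Set.mem_singleton_iff] at hk hk'
      rcases lt_trichotomy k k' with h4 | h4 | h4
      · exact absurd h (key k k' h4 (by omega) (by omega))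
      · exact h4
      · exact absurd h.symm (key k' k h4 (by omega) (by omega))
    have hnL : ∀ k ∈ ({1, 2, 3} : Finset ℕ), (k : ℂ) * Y ∉ L.lattice := by
      intro k hk
      simp only [Finset.mem_insert, Finset.mem_singleton] at hk
      rcases hk with rfl | rfl | rfl
      · push_cast
        rw [one_mul]
        exact l1
      · push_cast
        exact l2
      · push_cast
        exact l3
    refine ⟨({1, 2, 3} : Finset ℕ).image fun k : ℕ => xu L u e (Q + k * Y), ?_, ?_, ?_⟩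
    · intro h
      obtain ⟨k, hk, h4⟩ := Finset.mem_image.1 h
      have h5 : xu L u e (Q + k * Y) = xu L u e (Q + 0) := by rw [add_zero]; exact h4
      have h6 := inj hu G hQ h2Q (hkK k) hzero h5
      rw [sub_zero] at h6
      exact hnL k hk h6
    · intro x hx
      obtain ⟨k, hk, rfl⟩ := Finset.mem_image.1 hx
      refine ⟨(Pool.Agent.MUXV.int_X (dist G hQ h2Q (hkK k) (hnL k hk)).1).2, k, ?_, rfl⟩
      simp only [Finset.mem_insert, Finset.mem_singleton] at hk
      omega
    · rw [Finset.prod_image hinj]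
      have e1 : ∏ k ∈ ({1, 2, 3} : Finset ℕ), V.valuation (xu L u e Q - xu L u e (Q + k * Y)) =
          ∏ k ∈ ({1, 2, 3} : Finset ℕ), V.valuation (tX (xu L u e) (yt L u e a1 a3) (k * Y)) :=
        Finset.prod_congr rfl fun k hk => (dist G hQ h2Q (hkK k) (hnL k hk)).2
      rw [e1, Finset.prod_insert (by decide), Finset.prod_insert (by decide),
        Finset.prod_singleton]
      push_cast
      rw [one_mul]
      set α := V.valuation (tX (xu L u e) (yt L u e a1 a3) Y)
      set β := V.valuation (tX (xu L u e) (yt L u e a1 a3) (2 * Y))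
      set γ := V.valuation (tX (xu L u e) (yt L u e a1 a3) (3 * Y))
      set v := V.valuation (2 : ℂ)
      rcases hd with hd | hd
      · rw [hd] at o1 o2 o3 ⊢
        norm_num at o1 o2 o3 ⊢
        -- `α^16 = v`, `γ^16 = v`, `β^4 = v`
        have e6 : (α * γ) ^ 8 = v := by
          apply (pow_left_inj₀ zero_le zero_le two_ne_zero).1
          rw [← pow_mul, mul_pow]
          norm_num
          rw [o1, o3, sq]
        have e7 : (α * (β * γ)) ^ 8 = (α * γ) ^ 8 * (β ^ 4) ^ 2 := by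
          rw [← pow_mul]
          norm_num
          rw [← mul_pow]
          congr 1
          rw [mul_assoc, mul_comm γ β]
        rw [e7, e6, o2, ← pow_succ']
      · rw [hd] at o1 o2 o3 ⊢
        norm_num at o1 o2 o3 ⊢
        -- `α^8 = v`, `γ^8 = v`, `β^2 = v`
        have e7 : (α * (β * γ)) ^ 8 = α ^ 8 * ((β ^ 2) ^ 4 * γ ^ 8) := by
          rw [mul_pow, mul_pow, ← pow_mul]
        rw [e7, o1, o2, o3, ← pow_succ, ← pow_succ']

end

end Pool.Agent.ME2F
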