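import Pool.Agent.ME2.StE4
import Pool.Agent.ME.X_TRA
import Pool.Agent.ME.X_TRB
import Pool.Agent.ME.X_FAC
import Pool.Agent.ME.X_GTH
import Pool.Agent.ME.X_PT
import Pool.Agent.ME.X_GAL
import Pool.Agent.ME.X_COM
import Pool.Agent.N2.E_ORB
import Pool.Agent.ME2.EU_XXS
import Pool.Agent.MUX.E_MAIN0
import Pool.Agent.MUX.XLib

/-!
# MUX-2R, block ER2, module FIN: the final form (helper25)
-/

set_option autoImplicit false

open Polynomial

namespace Pool.Agent.ME2F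

open _root_.MU3 Pool.Agent.MU3A Pool.Agent.MU3B Pool.Agent.MUX Pool.Agent.MUXU
open Pool.Agent.RI Pool.Agent.NS
open Pool.Agent.ME hiding ActE
open Pool.Agent.MEE Pool.Agent.ME2
open Pool.Agent.MUXE (RingE)
open Pool.Agent.N2 (GoodQ OddQ dR et yt WT PTq)
open Pool.Agent.N2E (dlg cc Sd_LAG Sd_PRD)
open Pool.Agent.N2V (IsoU NN w0 bb Sv_COE Sv_GRT Sv_UNT Sv_RAT Sv_THT Sv_NE1 Sv_PVI Sv_TWO Sv_DS2)
open Pool.Agent.ME2E (AutCE Sy_AUT Sy_GTA)

noncomputable section

namespace FIN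

lemma out_neg {A B : ℤ} {m : ℕ} (q : OO A B ⧸ idl (A := A) (B := B) m) :
    (Quotient.out (-q) : OO A B) - -(Quotient.out q : OO A B) ∈ idl (A := A) (B := B) m := by
  rw [← Ideal.Quotient.eq_zero_iff_mem, map_sub, map_neg, Ideal.Quotient.mk_out,
    Ideal.Quotient.mk_out]
  exact sub_self _

lemma dlX_neg (L : PeriodPair) (a : ℕ) (z : ℂ) : dlX L a (-z) = -dlX L a z := by
  obtain ⟨-, h1⟩ := b_PER L
  unfold dlX
  rw [h1, show (a : ℂ) * -z = -(a * z) by ring, h1]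
  ring

lemma finite_quot (A B : ℤ) (hr : RingE A B) {m : ℕ} (hm : m ≠ 0) :
    Finite (OO A B ⧸ idl (A := A) (B := B) m) := by
  haveI := hr.ded
  exact Ideal.finiteQuotientOfFreeOfNeBot _ (Pool.Agent.MUXE.m0_ne A B hr hm)

/-- from the eighth to the fourth power -/
lemma half_pow {G : Type} [LinearOrderedCommGroupWithZero G] {x c : G} (hc : c ≤ 1) {i j : ℕ}
    (hij : 2 * j ≤ i) (h : x ^ 8 ≤ c ^ i) : x ^ 4 ≤ c ^ j := by
  have h1 : (x ^ 4) ^ 2 ≤ (c ^ j) ^ 2 := by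
    rw [← pow_mul, ← pow_mul]
    refine h.trans ?_
    rw [Nat.mul_comm j 2]
    exact pow_le_pow_right_of_le_one' hc hij
  exact (pow_le_pow_iff_left₀ zero_le' zero_le' two_ne_zero).1 h1

end FIN

open FIN in
/-- (FIN) the final form -/
theorem t4_FIN (hCTX : S4_CTX) (hAUT : Sy_AUT) (hCON : S4_CON) (hGLC : S4_GLC)
    (hXXS : S4_XXS) (hHEQ : S4_HEQ) (hHAL : S4_HAL) (hMAIN : S4_MAIN) : S4_FIN := by
  classical
  intro hRF A B P V f hS hT ι _ R u e a1 a3 hG om hom n hn H hH D h hD hcyc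
  letI := algC h
  intro C hC1 hC2
  have hcq : CQ A B := hS.case.toCQ
  have hr : RingE A B := Pool.Agent.MUXE.te_RNG A B hcq
  -- the levels
  obtain ⟨ha3, hao, haf⟩ := Pool.Agent.MUXE.m0_aX (p := 2) (f := f) (Or.inl rfl) hS.f0
  have hlv : lvX 2 f n = 2 ^ (n + 2) * f := by
    simp [lvX, q0]; ring
  have h3f : 3 ∣ f := by
    have h1 : (3 : ℤ) ∣ 8 * (f : ℤ) := (dvd_mul_right _ _).trans hS.fD
    omega
  have hf3 : 3 ≤ f := Nat.le_of_dvd (Nat.pos_of_ne_zero hS.f0) h3f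
  have hctx : CtxF A B P V := hCTX A B P V hS.case hS.hB hS.hP hS.hV hT hRF
  set m : ℕ := lvX 2 f n with hm
  set a : ℕ := aX 2 f with ha
  set m' : ℕ := 2 ^ (n + 1) * f with hm'
  have hSet : SetF A B P V n f a m m' :=
    { ctx := hctx, tor := hT, n5 := hn, f3 := hf3, fd := h3f, fo := hS.fp, a3 := ha3, ao := hao,
      af := haf, hm := hlv, hm' := rfl }
  have hm0 : m ≠ 0 := by
    rw [hlv]; exact mul_ne_zero (pow_ne_zero _ two_ne_zero) hS.f0
  have ha0 : a ≠ 0 := by omega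
  have hmm : m = 2 * m' := by rw [hlv, hm', pow_succ 2 (n + 1)]; ring
  have h2m : 2 * f ∣ m := by
    rw [hlv]
    exact Nat.mul_dvd_mul (dvd_pow_self 2 (by omega)) dvd_rfl
  have hmb := Pool.Agent.MUXE.m0_ne A B hr hm0
  have hmab := Pool.Agent.MUXE.m0_ne A B hr (mul_ne_zero hm0 ha0)
  have hnl : ∃ L, NLE A B L := ⟨R.L R.i0, R.b R.i0, R.om R.i0, R.nl R.i0⟩
  obtain ⟨g1, g2, g3⟩ := hGLC A B P V n f a m m' hSet D hcyc
  have hD' := g3 hD hnl
  obtain ⟨k1, -, -, -, -, -⟩ := hCON A B P V n f a m m' hSet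
  -- the automorphisms
  have haut : ∀ b : OO A B, ∃ s : ℂ ≃+* ℂ, AutCE (idl (m * a)) (cc (NN n f a) b) s := fun b =>
    hAUT A B hS.case hr hT hnl _ hmab (by
      rw [Ideal.span_singleton_le_span_singleton, hlv]
      exact ⟨((2 ^ (n + 1) * f * a : ℕ) : OO A B), by push_cast; ring⟩) _ (k1 b).2.2.1 (k1 b).1 (by
      have h20 := (k1 b).2.2.2.1
      obtain ⟨t, ht⟩ := Ideal.mem_span_singleton'.1 h20
      refine Ideal.mem_span_singleton'.2 ⟨t * ((f * a : ℕ) : OO A B), ?_⟩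
      rw [← ht]
      push_cast
      ring)
  have hstc : ∀ τ : D ≃ₐ[kk A B] D, ∀ q ∈ XXE R m h τ,
      (q.1, Ideal.Quotient.mk (idl (A := A) (B := B) m) (cc (NN n f a) w0) * q.2) ∈
        XXE R m h τ := by
    intro τ q hq
    obtain ⟨s, hs⟩ := haut w0
    have e1 : ((1 : ℕ) : OO A B) * w0 = w0 := by rw [Nat.cast_one, one_mul]
    refine (hXXS A B P V n f a m m' hSet ι R D h τ q hq).2 _ s (k1 w0).2.1 hs ?_
    exact g1 1 s (by rw [e1]; exact hs)
  have hstt : ∀ τ : D ≃ₐ[kk A B] D, ∀ q ∈ XXE R m h τ, ∀ b : OO A B, (q.1, q.2 +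
      Ideal.Quotient.mk (idl (A := A) (B := B) m) ((m' : OO A B) * b)) ∈ XXE R m h τ := by
    intro τ q hq b
    have hx : IsCoprime (Quotient.out q.2 : OO A B) ((m : ℕ) : OO A B) := hq.1
    have hx2 : IsCoprime (Quotient.out q.2 : OO A B) ((2 : ℕ) : OO A B) :=
      hx.of_isCoprime_of_dvd_right (map_dvd (Nat.castRingHom (OO A B))
        (⟨m', hmm⟩ : 2 ∣ m))
    obtain ⟨v, w, hvw⟩ := hx2
    obtain ⟨k, hk⟩ : ∃ k, a = 2 * k + 1 := ⟨(a - 1) / 2, by omega⟩
    set x : OO A B := Quotient.out q.2 with hxd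
    set b' : OO A B := (a : OO A B) * v * b with hb'
    have e2 : cc m' b' = cc (NN n f a) (4 * (v * b)) := by
      unfold cc NN
      have h1 : (m' : OO A B) * (a : OO A B) =
          ((2 ^ (n - 1) * f * a : ℕ) : OO A B) * 4 := by
        have h2 : m' * a = 2 ^ (n - 1) * f * a * 4 := by
          rw [hm']
          obtain ⟨n', rfl⟩ : ∃ n', n = n' + 1 := ⟨n - 1, by omega⟩
          rw [Nat.add_sub_cancel]
          ring
        exact_mod_cast congrArg (Nat.cast : ℕ → OO A B) h2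
      rw [hb']
      linear_combination (v * b) * h1
    obtain ⟨s, hs⟩ := haut (4 * (v * b))
    rw [← e2] at hs
    have h4 := (hXXS A B P V n f a m m' hSet ι R D h τ q hq).2 (cc m' b') s
      (by rw [e2]; exact (k1 _).2.1) hs (g2 b' s hs)
    have e3 : Ideal.Quotient.mk (idl (A := A) (B := B) m) (cc m' b') * q.2 =
        q.2 + Ideal.Quotient.mk (idl (A := A) (B := B) m) ((m' : OO A B) * b) := by
      have h5 : q.2 = Ideal.Quotient.mk (idl (A := A) (B := B) m) x :=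
        (Ideal.Quotient.mk_out q.2).symm
      rw [h5, ← map_mul, ← map_add, Ideal.Quotient.eq, Ideal.mem_span_singleton]
      refine ⟨(k : OO A B) * b - (a : OO A B) * b * w, ?_⟩
      have h6 : (a : OO A B) = 2 * (k : OO A B) + 1 := by
        exact_mod_cast congrArg (Nat.cast : ℕ → OO A B) hk
      have h7 : (m : OO A B) = 2 * (m' : OO A B) := by
        exact_mod_cast congrArg (Nat.cast : ℕ → OO A B) hmm
      have h8 : v * x + w * 2 = 1 := by
        have := hvw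
        push_cast at this
        exact this
      unfold cc
      rw [hb', h7]
      linear_combination (m' * a * b) * h8 + (m' * b) * h6
    rw [e3] at h4
    exact h4
  -- the half systems
  have hhal := fun τ : D ≃ₐ[kk A B] D =>
    hHAL A B P V n f a m m' hSet ι R D h τ (hstc τ) (hstt τ)
  choose S hS1 hS2 hS3 using hhal
  -- the two functions
  have hpt : ∀ (i : ι) (y y' : OO A B), y - y' ∈ idl (A := A) (B := B) m →
      ptE R m i y - ptE R m i y' ∈ (R.L i).lattice := fun i y y' hy =>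
    Pool.Agent.ME2E.XXS.pt_cong hr R (by have := hS.f0; omega) i hm0 hy
  have hptn : ∀ (i : ι) (y : OO A B), ptE R m i (-y) = -ptE R m i y := by
    intro i y
    have h1 : emb (-y) = -emb y := by
      obtain ⟨φ, hφ⟩ := hr.hom
      rw [← hφ, ← hφ, map_neg]
    unfold ptE
    rw [h1]
    ring
  set F : ι × (OO A B ⧸ idl (A := A) (B := B) m) → ℂ := fun q =>
    ThetaH (R.L q.1) (H q.1) (ptE R m q.1 (Quotient.out q.2)) with hF
  set G : ι × (OO A B ⧸ idl (A := A) (B := B) m) → ℂ := fun q =>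
    om (Quotient.out q.2) * muXE R q.1 *
      dlX (R.L q.1) a (ptE R m q.1 (Quotient.out q.2)) with hGd
  have hFn : ∀ q, F (q.1, -q.2) = F q := by
    intro q
    have h1 := hpt q.1 _ _ (out_neg q.2)
    rw [hptn] at h1
    show ThetaH (R.L q.1) (H q.1) (ptE R m q.1 (Quotient.out (-q.2))) = _
    rw [Pool.Agent.N2E.ORB.th_per (R.L q.1) (a : ℂ) (hH q.1) h1]
    exact (b_TIN (R.L q.1) a (H q.1) (H q.1) (hH q.1) (hH q.1)).2.1 _
  have hGn : ∀ q, G (q.1, -q.2) = G q := by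
    intro q
    have h1 := hpt q.1 _ _ (out_neg q.2)
    rw [hptn] at h1
    show om (Quotient.out (-q.2)) * muXE R q.1 *
      dlX (R.L q.1) a (ptE R m q.1 (Quotient.out (-q.2))) = _
    have h2 : om (Quotient.out (-q.2)) = -om (Quotient.out q.2) := by
      rw [← hom.neg]
      apply hom.per
      have h3 := out_neg q.2
      rw [Ideal.mem_span_singleton] at h3 ⊢
      exact (map_dvd (Nat.castRingHom (OO A B)) h2m).trans h3
    rw [Pool.Agent.N2E.ORB.dlX_per (R.L q.1) a h1, dlX_neg, h2]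
    show _ = om (Quotient.out q.2) * muXE R q.1 *
      dlX (R.L q.1) a (ptE R m q.1 (Quotient.out q.2))
    ring
  have hCS : ∀ τ : D ≃ₐ[kk A B] D, C τ = ∏ q ∈ S τ, F q := by
    intro τ
    obtain ⟨S0, hS0, hC0⟩ := hC2 τ
    rw [hC0]
    exact ((hHEQ A B P V n f a m m' hSet ι R D h τ S0 hS0 F (fun q _ => hFn q)).1 (S τ)
      (hS1 τ))
  have hTT : ∀ τ : D ≃ₐ[kk A B] D, TT2E R om m a h τ = ∑ q ∈ S τ, G q := by
    intro τ
    have h1 := (hHEQ A B P V n f a m m' hSet ι R D h τ (S τ) (hS1 τ) G (fun q _ => hGn q)).2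
    unfold TT2E
    rw [show (∑ᶠ q ∈ XXE R m h τ, om (Quotient.out q.2) * muXE R q.1 *
      dlX (R.L q.1) a (ptE R m q.1 (Quotient.out q.2))) = ∑ᶠ q ∈ XXE R m h τ, G q from rfl, h1]
    ring
  -- the Galois group is finite and commutative
  haveI := hT.fin _ hmb
  let φ : D →ₗ[kk A B] RFE (idl (A := A) (B := B) m) :=
    { toFun := fun y => ⟨y, hD y y.2⟩
      map_add' := fun x y => rfl
      map_smul' := fun c x => by
        apply Subtype.ext
        show ((c • x : D) : ℂ) =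
          ((c • (⟨x, hD x x.2⟩ : RFE (idl (A := A) (B := B) m)) :
            RFE (idl (A := A) (B := B) m)) : ℂ)
        rw [Algebra.smul_def, Algebra.smul_def]
        rfl }
  have hφ : Function.Injective φ := by
    intro x y hxy
    apply Subtype.ext
    exact congrArg (fun z : RFE (idl (A := A) (B := B) m) => (z : ℂ)) hxy
  haveI : FiniteDimensional (kk A B) D := FiniteDimensional.of_injective φ hφ
  haveI : Finite (D ≃ₐ[kk A B] D) := inferInstance
  letI : Fintype (D ≃ₐ[kk A B] D) := Fintype.ofFinite _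
  have hcom := mx_comm hT _ hmb D h hD
  have hcop : ∀ (τ : D ≃ₐ[kk A B] D), ∀ q ∈ S τ,
      IsCoprime (Quotient.out q.2 : OO A B) ((m : ℕ) : OO A B) := fun τ q hq =>
    ((hS1 τ).sub q hq).1
  have hv2 : V.valuation (2 : ℂ) ≤ 1 := hctx.v2.le
  have hd3 : dR A ≤ 3 := by unfold dR; split <;> omega
  refine ⟨fun τ => ?_, ?_⟩
  · have key := (hMAIN A B P V n f a m m' hSet ι R u e a1 a3 hG H hH om hom
      (D ≃ₐ[kk A B] D) S hcop hS2 hS3).1 τ
    rw [hTT]
    exact half_pow hv2 (by omega) key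
  · intro g hsq τ'
    have key := (hMAIN A B P V n f a m m' hSet ι R u e a1 a3 hG H hH om hom
      (D ≃ₐ[kk A B] D) (fun τ => S (τ * τ')) (fun τ => hcop _) (fun τ => hS2 _)
      (fun τ => hS3 _)).2 g
    rw [finsum_eq_sum_of_fintype]
    have e1 : (∑ τ : D ≃ₐ[kk A B] D, (g τ : ℂ) * TT2E R om m a h (τ * τ')) =
        ∑ τ : D ≃ₐ[kk A B] D, (g τ : ℂ) * ∑ q ∈ S (τ * τ'), G q :=
      Finset.sum_congr rfl fun τ _ => by rw [hTT]
    rw [e1]
    refine half_pow hv2 (i := 3 * dR A + 9) (by omega) (key ?_)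
    obtain ⟨w, hw, hwp⟩ := hsq
    rw [finprod_eq_prod_of_fintype] at hwp
    obtain ⟨y, hy1, -⟩ := hC1 1
    have hyτ : ∀ τ : D ≃ₐ[kk A B] D, ((τ y : D) : ℂ) = C τ := by
      intro τ
      obtain ⟨y', hy', hy''⟩ := hC1 τ
      have : y' = y := Subtype.ext (hy'.trans hy1.symm)
      rw [← hy'', this]
    have hw4 : (⟨w, hw⟩ : D) ^ 2 = ∏ τ : D ≃ₐ[kk A B] D, (τ y) ^ g τ := by
      apply Subtype.ext
      rw [IntermediateField.coe_prod]
      rw [show (((⟨w, hw⟩ : D) ^ 2 : D) : ℂ) = w ^ 2 from rfl, hwp]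
      refine Finset.prod_congr rfl (fun τ _ => ?_)
      rw [← hyτ τ, ← Pool.Agent.MUXE.m0_zpc (D := D)]
    refine ⟨(τ' ⟨w, hw⟩ : D), hD' _ (τ' ⟨w, hw⟩).2, fun k s hs => g1 k s hs _ (τ' ⟨w, hw⟩).2,
      ?_⟩
    have hw5 := congrArg τ' hw4
    rw [map_pow, map_prod] at hw5
    have hw6 := congrArg (fun y : D => (y : ℂ)) hw5
    push_cast at hw6
    rw [hw6]
    refine Finset.prod_congr rfl (fun τ _ => ?_)
    rw [show (∏ q ∈ S (τ * τ'), ThetaH (R.L q.1) (H q.1)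
      (ptE R m q.1 (Quotient.out q.2))) = C (τ * τ') from (hCS _).symm,
      hcom τ τ', map_zpow₀, ← hyτ (τ' * τ), Pool.Agent.MUXE.m0_zpc]
    rfl

end

end Pool.Agent.ME2F
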