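import Pool.Agent.ME2.StE4
import Pool.Agent.ME.X_TRA
import Pool.Agent.ME.X_TRB
import Pool.Agent.ME.X_FAC
import Pool.Agent.ME.X_GTH
import Pool.Agent.ME.X_PT
import Pool.Agent.ME.X_GAL

/-!
# MUX-2R, block ER2, module GPO (helper96)

The fibres as rational functions over `V` of `x(Q)`, `Q = om_0/m'`.
Model: `Pool/Agent/N2/E_GPO.lean` (helper89).
-/

set_option autoImplicit false

open Polynomial

namespace Pool.Agent.ME2F

open _root_.MU3 Pool.Agent.MU3A Pool.Agent.MU3B Pool.Agent.MUX Pool.Agent.MUXU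
open Pool.Agent.RI Pool.Agent.NS
open Pool.Agent.ME hiding ActE
open Pool.Agent.MEE Pool.Agent.ME2
open Pool.Agent.MUXE (RingE)
open Pool.Agent.N2 (GoodQ OddQ dR et yt WT PTq)
open Pool.Agent.N2E (dlg cc Sd_LAG Sd_PRD)
open Pool.Agent.N2V (IsoU NN w0 bb Sv_COE Sv_GRT Sv_UNT Sv_RAT Sv_THT Sv_NE1 Sv_PVI Sv_TWO Sv_DS2)
open Pool.Agent.ME2E (AutCE Sy_AUT Sy_GTA)
open Pool.Agent.NSE (IntP)
open Pool.Agent.MUX2 (GRG)
open Pool.Agent.MUXV (InK tX)

noncomputable section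

namespace GPO

/-- `v(u²)²` is a power of `v 2` -/
lemma usq (hU : S4_UNR) {A B : ℤ} {P : Ideal (OO A B)} {V : ValuationSubring ℂ} (hC : CtxF A B P V)
    (hT : TorXE A B) {L : PeriodPair} {u e a1 a3 : ℂ} (hL : NLE A B L)
    (hg : GoodQ V L u e a1 a3) :
    ∃ k : ℤ, V.valuation (u ^ 2) ^ 4 = V.valuation (2 : ℂ) ^ k := by
  obtain ⟨w₁, w₂, h1, h2, h1', h2', -, -, -, hu⟩ := hg.tor
  have hring := hC.ring
  obtain ⟨φ, hφ⟩ := hring.hom
  have e3 : emb ((3 : ℕ) : OO A B) = 3 := by rw [← hφ, map_natCast]; norm_num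
  obtain ⟨-, hx, -⟩ := tm_FAC tm_TRA A B hring
  have hsp := (tm_TRA A B hring L hL).2.2.2.2.1
  have m1 : xnE L w₁ ∈ RFE (idl (A := A) (B := B) 3) :=
    (hx _ L hL).2 w₁ ((hsp _ _).2 (by rw [e3]; exact h1)) h1'
  have m2 : xnE L w₂ ∈ RFE (idl (A := A) (B := B) 3) :=
    (hx _ L hL).2 w₂ ((hsp _ _).2 (by rw [e3]; exact h2)) h2'
  have e4 : u ^ 2 = xnE L w₂ - xnE L w₁ := by
    rw [hu, xnE, xnE]
  refine hU A B P V hC hT 3 (by norm_num) (by norm_num) _ ?_ (pow_ne_zero 2 hg.u0)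
  rw [e4]
  have hle : RFE (idl (A := A) (B := B) 3) ≤ RFE (idl (A := A) (B := B) (2 * 3)) := by
    apply (tm_FAC tm_TRA A B hring).1
    rw [idl, idl, Ideal.span_singleton_le_span_singleton]
    exact ⟨((2 : ℕ) : OO A B), by push_cast; ring⟩
  exact hle (sub_mem m2 m1)

lemma card2 {L : PeriodPair} {a : ℕ} {H : Finset ℂ} (ha : a ≠ 0) (h2 : ¬ 2 ∣ a)
    (hH : IsHalf L (a : ℂ) H) : 2 ∣ H.card := by
  obtain ⟨-, -, h⟩ := b_HRE L a H (by exact_mod_cast ha) (fun w hw => by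
    have := nsmul_mem hw a
    rwa [nsmul_eq_mul] at this) hH
  have h1 : 2 * H.card + 1 = a ^ 2 := by
    rw [Complex.norm_natCast] at h
    exact_mod_cast h
  have h3 : a ^ 2 % 4 = 1 := by
    rw [Nat.pow_mod]
    have h4 : a % 4 = 1 ∨ a % 4 = 3 := by omega
    rcases h4 with h4 | h4 <;> rw [h4]
  omega

end GPO

open GPO in
/-- (GPO) the fibres as rational functions over `V` of `x(Q)`, `Q = om_0/m'`. -/
theorem t4_GPO (h2 : Sv_GRT) (h3 : Sv_THT) (h4 : Sv_NE1) (h5 : S4_MUL) (h6 : S4_FIB)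
    (hU : S4_UNR) : S4_GPO := by
  intro A B P V n f a m m' hS ι R u e a1 a3 hgood H i hH x hx
  have hC := hS.ctx
  have hf3 := hS.f3
  have hf := hS.fo
  have hpa := hS.ao
  have ha0 : a ≠ 0 := by have := hS.a3; omega
  have hring := hC.ring
  obtain ⟨φ, hφ⟩ := hring.hom
  have emul : ∀ x y : OO A B, emb (x * y) = emb x * emb y := fun x y => by
    rw [← hφ, map_mul, hφ, hφ]
  obtain ⟨κ₀, hκ0, hκv, hκ⟩ := h6 A B P V n f a m m' hS ι R H i hH
  have hmm : m = 2 * m' := by rw [hS.hm, hS.hm']; ring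
  have hdvd : ((m' : ℕ) : OO A B) ∣ ((m : ℕ) : OO A B) := by
    rw [hmm]
    push_cast
    exact dvd_mul_left _ _
  have hm' := hS.hm'
  obtain ⟨hmu, hisg, hodd⟩ := h5 A B P V hC (2 * f) ι R (by omega) (dvd_mul_right _ _) i x hx
  have hm0 : m' ≠ 0 := by rw [hm']; exact mul_ne_zero (by positivity) (by omega)
  have hmf : m'.primeFactors ⊆ (2 * f).primeFactors := by
    rw [hm', Nat.primeFactors_mul (by positivity) (by omega), Nat.primeFactors_pow _ (by omega),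
      Nat.primeFactors_mul (by norm_num) (by omega)]
  obtain ⟨-, -, -, hpt⟩ := tm_PT tm_TRA A B hring (2 * f) ι R (by omega) i
  obtain ⟨u', e', a1', a3', hg'⟩ := hC.good (R.L i) ⟨_, _, R.nl i⟩
  have hI : IsoU V (R.L R.i0) (R.L i) u e a1 a3 u' e' a1' a3' (muXE R i * emb x) :=
    ⟨hgood, hg', hC.v2, hmu, hisg, hodd⟩
  obtain ⟨Pq, Qr, hP, hQ, hPQ⟩ :=
    h3 V (R.L R.i0) (R.L i) u e a1 a3 u' e' a1' a3' _ hI a (H i) ha0 hH
  obtain ⟨k, hk⟩ := usq hU hC hS.tor ⟨_, _, R.nl i⟩ hg'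
  obtain ⟨t, ht⟩ := card2 ha0 hpa hH
  refine ⟨κ₀ * (u' ^ 2) ^ (H i).card, k * t, Pq, Qr, hP, hQ, ?_, ?_⟩
  · rw [map_mul, map_pow, hκv _ _ _ _ hg', ← pow_add, zpow_mul, ← hk, zpow_natCast,
      ← pow_mul, ← pow_mul, ht]
    congr 1
    ring
  intro c hc
  obtain ⟨hG, hF, -⟩ := hκ (c * x) hc
  have hc' : IsCoprime (c * x) ((m' : ℕ) : OO A B) := hc.of_isCoprime_of_dvd_right hdvd
  obtain ⟨hz, hzm, hzo, -⟩ := hpt m' hm0 hmf (c * x)
  obtain ⟨hzK, -, hza, hzq⟩ := h4 V (R.L i) u' e' a1' a3' hg' hC.v2 (n + 1) f a hf3 hf hpa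
    hS.af _ (by rw [← hm']; exact hzm) (fun c' hc0 => by
      have := hzo hc' c' hc0
      rw [hm'] at this
      exact (dvd_mul_left _ _).trans this)
  have ez : muXE R i * emb x * (emb c * (R.om R.i0 / m')) =
      ptE R m' i (c * x) := by
    rw [hz, emul]
    ring
  obtain ⟨k1, k2, k3, k4, k5⟩ := hPQ (emb c * (R.om R.i0 / m'))
    (by rw [ez]; exact hzK) (by rw [ez]; exact hza) (fun q hq => by
      rw [ez]
      exact hzq q (hH.mem q hq) (fun hqL => hH.ne q hq (by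
        have hqq := add_mem hqL hqL
        rwa [← two_mul] at hqq)))
  rw [ez] at k4 k5
  obtain ⟨⟨ξ, G⟩, -⟩ := h2 V (R.L R.i0) u e a1 a3 hgood hC.v2
  have vx := (Pool.Agent.MUXV.int_X k1).2
  have vy := Pool.Agent.MUX2.gInt_Y G k1
  have v2 : V.valuation (2 : ℂ) ≤ 1 := hC.v2.le
  have va1 : V.valuation a1 ≤ 1 := by
    by_contra h
    push Not at h
    have h1 : 1 < V.valuation a1 ^ 2 := one_lt_pow₀ h (by norm_num)
    exact absurd (hgood.v1.trans v2) (not_le.2 h1)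
  have e1 : et (R.L R.i0) u (emb c * (R.om R.i0 / m')) =
      2 * yt (R.L R.i0) u e a1 a3 (emb c * (R.om R.i0 / m')) +
        a1 * xu (R.L R.i0) u e (emb c * (R.om R.i0 / m')) + a3 := by
    rw [yt]
    ring
  have ve : V.valuation (et (R.L R.i0) u (emb c * (R.om R.i0 / m'))) ≤ 1 := by
    rw [e1]
    refine (Valuation.map_add _ _ _).trans (max_le ?_ hgood.v3.le)
    refine (Valuation.map_add _ _ _).trans (max_le ?_ ?_)
    · rw [map_mul]
      exact mul_le_one' v2 vy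
    · rw [map_mul]
      exact mul_le_one' va1 vx
  refine ⟨vx, ve, k2, k3, ?_, ?_⟩
  · rw [hG, mul_assoc, k4]
    ring
  · rw [hF]
    have e5 : muXE R i * emb x * (2 * dlX (R.L i) a (ptE R m' i (c * x))) / u =
        2 * (muXE R i * emb x * dlX (R.L i) a (ptE R m' i (c * x)) / u) := by ring
    rw [e5, k5]
    ring

end

end Pool.Agent.ME2F
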