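import Pool.Agent.ME2.StE4
import Pool.Agent.ME.X_TRA
import Pool.Agent.ME.X_TRB
import Pool.Agent.ME.X_FAC
import Pool.Agent.ME.X_GTH
import Pool.Agent.ME.X_PT
import Pool.Agent.ME.X_GAL

/-!
# MUX-2R, block ER2: one step `L → N = ν P⁻¹ L` (PST), `2 = P²` ramified in `k` (helper78)

The kernel of one step has one nonzero class, which gives a lower bound for the multiplier; the
composition of two steps has the kernel of multiplication by `2`, so both bounds are equalities.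
-/

set_option autoImplicit false

open Polynomial

namespace Pool.Agent.ME2F

open _root_.MU3 Pool.Agent.MU3A Pool.Agent.MU3B Pool.Agent.MUX Pool.Agent.MUXU
open Pool.Agent.RI Pool.Agent.NS
open Pool.Agent.ME hiding ActE
open Pool.Agent.MEE Pool.Agent.ME2
open Pool.Agent.MUXE (RingE)
open Pool.Agent.N2 (GoodQ OddQ dR et yt WT PTq)
open Pool.Agent.N2E (dlg cc Sd_LAG Sd_PRD)
open Pool.Agent.N2V (IsoU NN w0 bb Sv_COE Sv_GRT Sv_UNT Sv_RAT Sv_THT Sv_NE1 Sv_PVI Sv_TWO Sv_DS2)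
open Pool.Agent.ME2E (AutCE Sy_AUT Sy_GTA)
open Pool.Agent.NSE (IntP)
open Pool.Agent.MUX2 (GRG)
open Pool.Agent.MUXV (InK tX)

noncomputable section

namespace PST

variable {A B : ℤ} {P : Ideal (OO A B)} {V : ValuationSubring ℂ}

/-- `2 ∈ P` -/
theorem two_mem (h : CtxF A B P V) : ((2 : ℕ) : OO A B) ∈ P := by
  obtain ⟨φ, hφ⟩ := h.ring.hom
  have embn : ∀ n : ℕ, emb ((n : ℕ) : OO A B) = n := fun n => by rw [← hφ, map_natCast]
  have h1 := (h.pw 1 ((2 : ℕ) : OO A B)).2 (by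
    rw [embn, pow_one]
    push_cast
    have h2 : V.valuation (2 : ℂ) ≤ 1 := h.v2.le
    calc V.valuation (2 : ℂ) ^ 2 = V.valuation (2 : ℂ) * V.valuation (2 : ℂ) := pow_two _
      _ ≤ V.valuation (2 : ℂ) * 1 := mul_le_mul_right h2 _
      _ = V.valuation (2 : ℂ) := mul_one _)
  rwa [pow_one] at h1

/-- the first part of one step -/
theorem step (hTWO : Sv_TWO) (hPVI : Sv_PVI) (hBAC : Su_BAC) (h : CtxF A B P V)
    {L N : PeriodPair} {nu u e a1 a3 u' e' a1' a3' : ℂ} (hL : NLE A B L) (hQ : IsQ P L N nu)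
    (hg : GoodQ V L u e a1 a3) (hg' : GoodQ V N u' e' a1' a3') :
    ∃ q, Tor P L q ∧ q ∉ L.lattice ∧ IsRpM L N nu {q} ∧
      V.valuation (nu * u' / u) ^ 2 * V.valuation (xu L u e q) = 1 ∧
      V.valuation (2 : ℂ) ≤ V.valuation (nu * u' / u) ^ 2 := by
  obtain ⟨φ, hφ⟩ := h.ring.hom
  have embn : ∀ n : ℕ, emb ((n : ℕ) : OO A B) = n := fun n => by rw [← hφ, map_natCast]
  have mem2 := two_mem h
  have hPbot : P ≠ ⊥ := by
    intro h0
    rw [h0, Ideal.mem_bot] at mem2
    have h9 := embn 2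
    rw [mem2, ← hφ, map_zero] at h9
    norm_num at h9
  obtain ⟨tra1, -⟩ := tm_TRA A B h.ring L hL
  have hν : nu ≠ 0 := hQ.1
  have hTor : ∀ z, nu * z ∈ N.lattice ↔ Tor P L z := hQ.2
  have hIsg : Isg L N nu := fun w hw => (hTor w).2 (fun x _ => tra1 x w hw)
  obtain ⟨⟨R, hR⟩, -⟩ := hBAC.2 L N nu hν hIsg
  have torR : ∀ q ∈ R, Tor P L q := fun q hq => (hTor q).1 (hR.mem q hq)
  obtain ⟨two1, two2, -, -⟩ := hTWO V L u e a1 a3 hg h.v2
  have tor2 : ∀ q, Tor P L q → 2 * q ∈ L.lattice := by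
    intro q hq
    have := hq _ mem2
    rw [embn] at this
    exact_mod_cast this
  have cong : ∀ q q', Tor P L q → Tor P L q' → q ∉ L.lattice → q' ∉ L.lattice →
      q' - q ∈ L.lattice := by
    intro q q' hq hq' hqL hqL'
    obtain ⟨x, hx⟩ := (tm_TRB A B h.ring L hL).2 P hPbot h.max q q' hq hq' hqL
    by_cases hxP : x ∈ P
    · exfalso
      apply hqL'
      have := add_mem hx (hq x hxP)
      rwa [sub_add_cancel] at this
    · have h9 := add_mem hx (hq _ (h.one x hxP))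
      rw [← hφ (x - 1), map_sub, map_one, hφ] at h9
      convert h9 using 1
      ring
  obtain ⟨q0', hq0', hq0L'⟩ : ∃ q, Tor P L q ∧ q ∉ L.lattice := by
    obtain ⟨q, k1, k2⟩ := (tm_TRB A B h.ring L hL).1 ⊤ P hPbot h.max.ne_top.lt_top
    exact ⟨q, k1, fun h8 => k2 fun x _ => tra1 x q h8⟩
  obtain ⟨q0, hq0R, -⟩ := hR.surj q0' ((hTor q0').2 hq0') hq0L'
  have hq0L := hR.ne q0 hq0R
  have hq0T := torR q0 hq0R
  have hR1 : R = {q0} := by
    ext q
    rw [Finset.mem_singleton]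
    constructor
    · intro hq
      exact hR.inj q hq q0 hq0R (cong q0 q hq0T (torR q hq) hq0L (hR.ne q hq))
    · rintro rfl
      exact hq0R
  rw [hR1] at hR
  obtain ⟨t1, t2⟩ := two1 q0 (tor2 q0 hq0T) hq0L
  have p1 := hPVI V L N u e a1 a3 u' e' a1' a3' nu hg hg' h.v2 hν hIsg {q0} hR (by
    intro q hq
    rw [Finset.mem_singleton] at hq
    rw [hq]
    refine two2 1 q0 ?_
    rw [pow_one]
    exact tor2 q0 hq0T)
  rw [Finset.prod_singleton] at p1
  refine ⟨q0, hq0T, hq0L, hR, p1, ?_⟩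
  have hX : 0 < V.valuation (xu L u e q0) := lt_trans zero_lt_one t1
  rw [← p1] at t2
  exact le_of_mul_le_mul_right t2 hX

end PST

open PST in
theorem t4_PST (hTWO : Sv_TWO) (hPVI : Sv_PVI) (hBAC : Su_BAC) : S4_PST := by
  intro A B P V h L N nu u e a1 a3 u' e' a1' a3' hL hN hQ hg hg'
  obtain ⟨φ, hφ⟩ := h.ring.hom
  have embn : ∀ n : ℕ, emb ((n : ℕ) : OO A B) = n := fun n => by rw [← hφ, map_natCast]
  have hv0 : V.valuation (2 : ℂ) ≠ 0 := (Valuation.ne_zero_iff _).2 (by norm_num)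
  obtain ⟨q, s1, s2, s3, s4, s5⟩ := step hTWO hPVI hBAC h hL hQ hg hg'
  obtain ⟨N', nu', hN', hQ'⟩ := h.exq N hN
  obtain ⟨u'', e'', a1'', a3'', hg''⟩ := h.good N' hN'
  obtain ⟨-, -, -, -, -, r5⟩ := step hTWO hPVI hBAC h hN hQ' hg' hg''
  obtain ⟨tra1, tra2, tra3, tra4, tra5, tra6, tra7, -⟩ := tm_TRA A B h.ring L hL
  have hu' := hg'.u0
  -- the kernel of the composition
  have ker : ∀ z, nu * nu' * z ∈ N'.lattice ↔ 2 * z ∈ L.lattice := by
    intro z
    rw [show nu * nu' * z = nu' * (nu * z) by ring, hQ'.2 (nu * z)]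
    constructor
    · intro hz
      have h1 : Tor (P * P) L z := by
        apply tra7
        intro x hx
        have h2 := hz x hx
        rw [show emb x * (nu * z) = nu * (emb x * z) by ring] at h2
        exact (hQ.2 _).1 h2
      have h3 : ((2 : ℕ) : OO A B) ∈ P * P := by
        rw [← pow_two]
        refine (h.pw 2 _).2 ?_
        rw [embn]
        push_cast
        exact le_rfl
      have h4 := h1 _ h3
      rw [embn] at h4
      exact_mod_cast h4
    · intro hz x hx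
      rw [show emb x * (nu * z) = nu * (emb x * z) by ring]
      refine (hQ.2 _).2 fun p hp => ?_
      have h1 : p * x ∈ P ^ 2 := by
        rw [pow_two]
        exact Ideal.mul_mem_mul hp hx
      have h2 : p * x ∈ idl (A := A) (B := B) (2 ^ 1) := by
        refine (h.dv 1 _).2 ?_
        rw [pow_one]
        exact (pow_le_pow_iff_left₀ zero_le zero_le two_ne_zero).1 ((h.pw 2 _).1 h1)
      unfold idl at h2
      rw [Ideal.mem_span_singleton] at h2
      obtain ⟨y, hy⟩ := h2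
      have h3 : emb p * (emb x * z) = emb y * (2 * z) := by
        have h4 : emb (p * x) = emb p * emb x := by rw [← hφ, map_mul, hφ, hφ]
        rw [← mul_assoc, ← h4, hy, ← hφ, map_mul, hφ y]
        push_cast
        rw [map_ofNat]
        ring
      rw [h3]
      exact tra1 y _ hz
  have hIsg2 : Isg L L 2 := by
    intro w hw
    rw [two_mul]
    exact add_mem hw hw
  have hIsg' : Isg L N' (nu * nu') := fun w hw => (ker w).2 (hIsg2 w hw)
  obtain ⟨⟨R, hR⟩, -⟩ := hBAC.2 L L 2 (by norm_num) hIsg2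
  have hR' : IsRpM L N' (nu * nu') R :=
    ⟨fun q hq => (ker q).2 (hR.mem q hq), hR.ne, hR.inj, fun z hz => hR.surj z ((ker z).1 hz)⟩
  obtain ⟨-, two2, two3, -⟩ := hTWO V L u e a1 a3 hg h.v2
  have p1 := hPVI V L N' u e a1 a3 u'' e'' a1'' a3'' (nu * nu') hg hg'' h.v2
    (mul_ne_zero hQ.1 hQ'.1) hIsg' R hR' (fun q hq => two2 1 q (by
      rw [pow_one]
      exact hR.mem q hq))
  have p2 := two3 R hR
  have hprod : ∏ q ∈ R, V.valuation (xu L u e q) ≠ 0 := by
    intro h0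
    rw [h0, mul_zero] at p2
    exact zero_ne_one p2
  have p3 : V.valuation (nu * nu' * u'' / u) ^ 2 = V.valuation (2 : ℂ) ^ 2 :=
    mul_right_cancel₀ hprod (p1.trans p2.symm)
  have e1 : nu * nu' * u'' / u = (nu * u' / u) * (nu' * u'' / u') := by
    field_simp
  rw [e1, map_mul, mul_pow] at p3
  have key : V.valuation (nu * u' / u) ^ 2 = V.valuation (2 : ℂ) := by
    refine le_antisymm ?_ s5
    have h1 : V.valuation (nu * u' / u) ^ 2 * V.valuation (2 : ℂ) ≤
        V.valuation (2 : ℂ) * V.valuation (2 : ℂ) := by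
      calc V.valuation (nu * u' / u) ^ 2 * V.valuation (2 : ℂ)
          ≤ V.valuation (nu * u' / u) ^ 2 * V.valuation (nu' * u'' / u') ^ 2 :=
            mul_le_mul_right r5 _
        _ = V.valuation (2 : ℂ) ^ 2 := p3
        _ = V.valuation (2 : ℂ) * V.valuation (2 : ℂ) := pow_two _
    exact le_of_mul_le_mul_right h1 (zero_lt_iff.2 hv0)
  refine ⟨key, q, s1, s2, s3, ?_⟩
  rw [← key]
  exact s4

end

end Pool.Agent.ME2F
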