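import Pool.Agent.ME2.StE4
import Pool.Agent.ME.X_TRA
import Pool.Agent.ME.X_TRB
import Pool.Agent.ME.X_FAC
import Pool.Agent.ME.X_GTH
import Pool.Agent.ME.X_PT
import Pool.Agent.ME.X_GAL
import Pool.Agent.NS.E_SIG
import Pool.Agent.NS.E_BAS
import Pool.Agent.ME2.EU_SIG

/-!
# MUX-2R, block ER2, module SIG: integral elements of the ray class field are polynomials in `x(Q)` (port of `N2/E_SIG.lean`)
-/

set_option autoImplicit false

open Polynomial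

namespace Pool.Agent.ME2F

open _root_.MU3 Pool.Agent.MU3A Pool.Agent.MU3B Pool.Agent.MUX Pool.Agent.MUXU
open Pool.Agent.RI Pool.Agent.NS
open Pool.Agent.ME hiding ActE
open Pool.Agent.MEE Pool.Agent.ME2
open Pool.Agent.MUXE (RingE)
open Pool.Agent.N2 (GoodQ OddQ dR et yt WT PTq)
open Pool.Agent.N2E (dlg cc Sd_LAG Sd_PRD)
open Pool.Agent.N2V (IsoU NN w0 bb Sv_COE Sv_GRT Sv_UNT Sv_RAT Sv_THT Sv_NE1 Sv_PVI Sv_TWO Sv_DS2)
open Pool.Agent.ME2E (AutCE Sy_AUT Sy_GTA)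
open Pool.Agent.NSE (IntP)
open Pool.Agent.NSE.SIG (intP_sum)
open Pool.Agent.ME2E.SIG (rat_memE)
open Pool.Agent.MUX2 (GRG)
open Pool.Agent.MUXV (InK tX)

noncomputable section

theorem t4_SIG (h2 : Sv_GRT) (h3 : S4_TPU) (hU : S4_UNR) (h5 : S4_DEG) : S4_SIG := by
  intro A B P V n f a m m' S L om u e a1 a3 hL hgood w hw hvw
  obtain ⟨hC, hT, hn, hf, h3f, h2f, -, h2a, -, rfl, rfl⟩ := S
  have hR := hC.ring
  have hG : GalEE A B := tm_GAL A B hC.case hR hT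
  obtain ⟨φ, hφ⟩ := hR.hom
  have hmul : ∀ x y : OO A B, emb (x * y) = emb x * emb y := fun x y => by
    rw [← hφ, map_mul, hφ, hφ]
  have hnat : ∀ k : ℕ, emb ((k : ℕ) : OO A B) = k := fun k => by rw [← hφ, map_natCast]
  have hLn : NLE A B L := ⟨⊤, om, hL⟩
  have hom0 := hL.om_ne
  have hv2 := hC.v2
  have hf0 : f ≠ 0 := by omega
  have ha : a ≠ 0 := by rintro rfl; exact h2a (dvd_zero 2)
  have hfa0 : f * a ≠ 0 := Nat.mul_ne_zero hf0 ha
  have h2fa : ¬ 2 ∣ f * a := fun h => by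
    rcases (Nat.Prime.dvd_mul (by norm_num)).1 h with h | h
    · exact h2f h
    · exact h2a h
  have hm0' : 2 ^ (n + 1) * f * a ≠ 0 := by positivity
  have hne : ∀ k : ℕ, k ≠ 0 → idl (A := A) (B := B) k ≠ ⊥ := by
    intro k hk h
    rw [Ideal.span_singleton_eq_bot] at h
    apply hk
    have h' := hnat k
    rw [h, ← hφ, map_zero] at h'
    exact_mod_cast h'.symm
  -- the fields
  have hmm : idl (A := A) (B := B) (2 ^ (n + 1) * f * a) ≤ idl (2 * (f * a)) := by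
    rw [Ideal.span_singleton_le_span_singleton]
    refine ⟨((2 ^ n : ℕ) : OO A B), ?_⟩
    push_cast; ring
  have hmm2 : idl (A := A) (B := B) (2 ^ (n + 2) * f * a) ≤ idl (2 * (f * a)) := by
    rw [Ideal.span_singleton_le_span_singleton]
    refine ⟨((2 ^ (n + 1) : ℕ) : OO A B), ?_⟩
    push_cast; ring
  have hmm3 : idl (A := A) (B := B) (2 * (f * a)) ≤ idl 2 := by
    rw [Ideal.span_singleton_le_span_singleton]
    refine ⟨((f * a : ℕ) : OO A B), ?_⟩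
    push_cast; ring
  obtain ⟨c1, c2, c3, c4, c5⟩ := Pool.Agent.MEE.tm_FAC Pool.Agent.MEE.tm_TRA A B hR
  have hle := c1 _ _ hmm
  obtain ⟨⟨ξ, G⟩, t1⟩ := h2 V L u e a1 a3 hgood hv2
  obtain ⟨w₁, w₂, hw₁, hw₂, hw₁L, hw₂L, -, -, he, hu2⟩ := hgood.tor
  -- torsion points
  have hTor : ∀ (k : ℕ) (z : ℂ), (k : ℂ) * z ∈ L.lattice → Tor (idl (A := A) (B := B) k) L z := by
    intro k z hz x hx
    obtain ⟨y, rfl⟩ := Ideal.mem_span_singleton'.1 hx
    rw [hmul, hnat, mul_assoc]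
    obtain ⟨c, -, hc⟩ := (hL.mem _).1 hz
    exact (hL.mem _).2 ⟨y * c, Submodule.mem_top, by rw [hc, hmul]; ring⟩
  have hint : ∀ (k : ℤ) (z : ℂ), z ∈ L.lattice → (k : ℂ) * z ∈ L.lattice := by
    intro k z hz
    simpa [zsmul_eq_mul] using L.lattice.smul_mem k hz
  obtain ⟨f', hf'⟩ := h3f
  have hthree : ∀ z : ℂ, 3 * z ∈ L.lattice → Tor (idl (A := A) (B := B) (2 * (f * a))) L z := by
    intro z hz
    apply hTor
    have h11 := hint ((2 * (f' * a) : ℕ) : ℤ) _ hz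
    have h12 : ((2 * (f * a) : ℕ) : ℂ) * z = (((2 * (f' * a) : ℕ) : ℤ) : ℂ) * (3 * z) := by
      rw [hf']; push_cast; ring
    rw [h12]; exact h11
  have hx1 : xnE L w₁ ∈ RFE (idl (A := A) (B := B) (2 * (f * a))) :=
    (c2 _ L hLn).2 _ (hthree _ hw₁) hw₁L
  have hx2 : xnE L w₂ ∈ RFE (idl (A := A) (B := B) (2 * (f * a))) :=
    (c2 _ L hLn).2 _ (hthree _ hw₂) hw₂L
  have heM : e ∈ RFE (idl (A := A) (B := B) (2 * (f * a))) := by
    have h11 : e = xnE L w₁ := by rw [he]; unfold xnE; rfl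
    rw [h11]
    exact hx1
  have huM : u ^ 2 ∈ RFE (idl (A := A) (B := B) (2 * (f * a))) := by
    have h11 : u ^ 2 = xnE L w₂ - xnE L w₁ := by rw [hu2]; unfold xnE; rfl
    rw [h11]
    exact sub_mem hx2 hx1
  -- the points
  have hcop : IsCoprime ((2 ^ (n + 1) : ℕ) : ℤ) (f : ℤ) := by
    rw [Nat.isCoprime_iff_coprime]
    exact Nat.Coprime.pow_left _ ((Nat.Prime.coprime_iff_not_dvd (by norm_num)).2 h2f)
  obtain ⟨α, β, hαβ⟩ := hcop
  push_cast at hαβ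
  obtain ⟨P₀, hP₀⟩ : ∃ z, z = (α : ℂ) / (f : ℕ) * om := ⟨_, rfl⟩
  obtain ⟨P₁, hP₁⟩ : ∃ z, z = (β : ℂ) / ((2 ^ (n + 1) : ℕ) : ℂ) * om := ⟨_, rfl⟩
  obtain ⟨Pt, hPt⟩ : ∃ z, z = om / ((2 ^ (n + 1) * f : ℕ) : ℂ) := ⟨_, rfl⟩
  rw [← hPt]
  have hfc : (f : ℂ) ≠ 0 := by exact_mod_cast hf0
  have h2c : (2 : ℂ) ^ (n + 1) ≠ 0 := pow_ne_zero _ (by norm_num)
  have hsum : P₀ + P₁ = Pt := by
    have h11 : (α : ℂ) * 2 ^ (n + 1) + β * f = 1 := by exact_mod_cast hαβ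
    rw [hP₀, hP₁, hPt]
    push_cast
    field_simp
    linear_combination h11
  have hfP₀ : (f : ℂ) * P₀ ∈ L.lattice := by
    have h11 : (f : ℂ) * P₀ = (((f : ℤ) * α : ℤ) : ℂ) / ((f : ℕ) : ℂ) * om := by
      rw [hP₀]; push_cast; ring
    rw [h11, rat_memE hR hL _ hf0]
    exact dvd_mul_right _ _
  have h2P₀ : 2 * P₀ ∉ L.lattice := by
    have h11 : 2 * P₀ = ((2 * α : ℤ) : ℂ) / ((f : ℕ) : ℂ) * om := by
      rw [hP₀]; push_cast; ring
    rw [h11, rat_memE hR hL _ hf0]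
    intro h12
    have h13 : IsCoprime (f : ℤ) α := ⟨β, 2 ^ (n + 1), by linear_combination hαβ⟩
    have h14 := h13.dvd_of_dvd_mul_right h12
    have h15 := Int.le_of_dvd (by norm_num) h14
    omega
  have hP₀L : P₀ ∉ L.lattice := fun h => h2P₀ (by rw [two_mul]; exact add_mem h h)
  have hP₀E : ¬ InK V L (xu L u e) P₀ := fun h => hP₀L ((t1 f h2f).2 P₀ hfP₀ h)
  have h2P₀E : ¬ InK V L (xu L u e) (2 * P₀) := fun h => h2P₀ ((t1 f h2f).2 _ (by
    have h11 : (f : ℂ) * (2 * P₀) = f * P₀ + f * P₀ := by ring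
    rw [h11]; exact add_mem hfP₀ hfP₀) h)
  have h2P₁ : Tor (P ^ (2 * n + 1 + 1)) L P₁ := by
    have h11 : ((2 ^ (n + 1) : ℕ) : ℂ) * P₁ ∈ L.lattice := by
      have h12 : ((2 ^ (n + 1) : ℕ) : ℂ) * P₁ =
          ((((2 ^ (n + 1) : ℕ) : ℤ) * β : ℤ) : ℂ) / ((2 ^ (n + 1) : ℕ) : ℂ) * om := by
        rw [hP₁]; push_cast; ring
      rw [h12, rat_memE hR hL _ (by positivity)]
      exact dvd_mul_right _ _
    intro x hx
    refine hTor _ _ h11 x ?_
    rw [hC.pw] at hx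
    rw [hC.dv]
    rw [show 2 * n + 1 + 1 = (n + 1) * 2 by ring, pow_mul] at hx
    exact le_of_not_gt fun h => absurd hx (not_le.2 (pow_lt_pow_left₀ h zero_le two_ne_zero))
  obtain ⟨ϖ, hϖ⟩ := hC.pi
  have hv20 : V.valuation (2 : ℂ) ≠ 0 := (Valuation.ne_zero_iff _).2 two_ne_zero
  have hvϖ0 : V.valuation (emb ϖ) ≠ 0 := by
    intro h
    rw [h, zero_pow two_ne_zero] at hϖ
    exact hv20 hϖ.symm
  have hϖ0 : emb ϖ ≠ 0 := (Valuation.ne_zero_iff _).1 hvϖ0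
  have hvϖ1 : V.valuation (emb ϖ) < 1 := by
    by_contra h
    have h11 := one_le_pow₀ (not_lt.1 h) (n := 2)
    rw [hϖ] at h11
    exact absurd hv2 (not_lt.2 h11)
  have hβ : V.valuation (β : ℂ) = 1 := by
    have h11 : ¬ 2 ∣ β.natAbs := by
      intro h12
      have h13 : (2 : ℤ) ∣ β := Int.natCast_dvd.2 h12
      have h14 : (2 : ℤ) ∣ 1 := by
        rw [← hαβ]
        exact dvd_add (Dvd.dvd.mul_left (dvd_pow_self 2 (Nat.succ_ne_zero n)) _)
          (Dvd.dvd.mul_right h13 _)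
      omega
    have h12 := hC.nat _ h11
    rcases Int.natAbs_eq β with h13 | h13
    · have h14 : (β : ℂ) = ((β.natAbs : ℕ) : ℂ) := by
        rw [← Int.cast_natCast (R := ℂ), ← h13]
      rw [h14]; exact h12
    · have h14 : (β : ℂ) = -((β.natAbs : ℕ) : ℂ) := by
        rw [← Int.cast_natCast (R := ℂ), ← Int.cast_neg, ← h13]
      rw [h14, Valuation.map_neg]; exact h12
  have h2P₁' : ¬ Tor (P ^ (2 * n + 1)) L P₁ := by
    intro h11
    have h12 : ((2 ^ n : ℕ) : OO A B) * ϖ ∈ P ^ (2 * n + 1) := by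
      rw [hC.pw, hmul, hnat, map_mul, mul_pow, hϖ]
      push_cast
      rw [map_pow, ← pow_mul, ← pow_succ, mul_comm n 2]
    obtain ⟨c, -, hc⟩ := (hL.mem _).1 (h11 _ h12)
    have h13 : (2 : ℂ) ^ n * emb ϖ * β = 2 ^ (n + 1) * emb c := by
      rw [hmul, hnat, hP₁] at hc
      have h14 : (2 : ℂ) ^ n * emb ϖ * ((β : ℂ) / 2 ^ (n + 1)) = emb c := by
        apply mul_right_cancel₀ hom0
        push_cast at hc
        linear_combination hc
      rw [← h14]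
      field_simp
    have h14 := congrArg V.valuation h13
    simp only [map_mul, map_pow, hβ, mul_one] at h14
    rw [pow_succ, mul_assoc] at h14
    have h15 : V.valuation (emb ϖ) = V.valuation (2 : ℂ) * V.valuation (emb c) :=
      mul_left_cancel₀ (pow_ne_zero n hv20) h14
    have h16 : V.valuation (emb ϖ) ≤ V.valuation (2 : ℂ) := by
      rw [h15]; exact mul_le_of_le_one_right' (hC.int c)
    have h17 : V.valuation (2 : ℂ) ≤ V.valuation (emb ϖ) * V.valuation (2 : ℂ) := by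
      calc V.valuation (2 : ℂ) = V.valuation (emb ϖ) * V.valuation (emb ϖ) := by
            rw [← hϖ, pow_two]
        _ ≤ _ := mul_le_mul_right h16 _
    have h18 : V.valuation (emb ϖ) * V.valuation (2 : ℂ) < V.valuation (2 : ℂ) :=
      mul_lt_of_lt_one_left (zero_lt_iff.2 hv20) hvϖ1
    exact absurd h17 (not_le.2 h18)
  obtain ⟨hP₁E, hP₁L, hP₁v⟩ := h3 A B P V hC (2 * n + 1) L u e a1 a3 hLn hgood P₁ h2P₁ h2P₁'
  obtain ⟨hPE, hnr, -, -⟩ := Pool.Agent.MUX2.gnear G hP₀E hP₁E hP₁L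
  have hDX := Pool.Agent.MUX2.gv_DX G hP₀E h2P₀E
  rw [hsum] at hPE hnr
  have hPL : Pt ∉ L.lattice := fun h => hPE (Or.inl h)
  -- the uniformiser
  obtain ⟨π, hπ⟩ : ∃ z, z = xu L u e Pt - xu L u e P₀ := ⟨_, rfl⟩
  have hsq : ∀ x y : V.ValueGroup, x ^ 2 = y ^ 2 → x = y := fun x y h =>
    (pow_left_inj₀ zero_le zero_le two_ne_zero).1 h
  have h4 : ∀ x y : V.ValueGroup, x ^ 4 = y ^ 4 → x = y := fun x y h =>
    (pow_left_inj₀ zero_le zero_le (by norm_num)).1 h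
  obtain ⟨p, hp⟩ : ∃ p : ℂ, p ^ 4 = 2 := IsAlgClosed.exists_pow_nat_eq 2 (by norm_num)
  have hvp : V.valuation p ^ 4 = V.valuation (2 : ℂ) := by rw [← map_pow, hp]
  have hp0 : p ≠ 0 := by
    rintro rfl
    rw [zero_pow (by norm_num)] at hp
    exact two_ne_zero hp.symm
  have hvp1 : V.valuation p < 1 := by
    by_contra h
    have h11 := one_le_pow₀ (not_lt.1 h) (n := 4)
    rw [hvp] at h11
    exact absurd hv2 (not_lt.2 h11)
  have hvπ : V.valuation π ^ (4 ^ n) = V.valuation p := by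
    obtain ⟨h12, h12', -⟩ := Pool.Agent.MUX2.gv_tX_lt G hP₁E hP₁L
    have h13 : V.valuation (tX (xu L u e) (yt L u e a1 a3) P₁) ^ 2 <
        V.valuation (tX (xu L u e) (yt L u e a1 a3) P₁) := by
      rw [pow_two]
      exact mul_lt_of_lt_one_right (zero_lt_iff.2 h12') h12
    rw [← hπ] at hnr
    have h14 : V.valuation ((2 * yt L u e a1 a3 P₀ + (WT a1 a3).a₁ * xu L u e P₀ +
        (WT a1 a3).a₃) * tX (xu L u e) (yt L u e a1 a3) P₁) =
        V.valuation (tX (xu L u e) (yt L u e a1 a3) P₁) := by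
      rw [map_mul, hDX, one_mul]
    have h15 : V.valuation π = V.valuation (tX (xu L u e) (yt L u e a1 a3) P₁) := by
      have h16 := Valuation.map_add_eq_of_lt_left V.valuation
        (x := (2 * yt L u e a1 a3 P₀ + (WT a1 a3).a₁ * xu L u e P₀ +
          (WT a1 a3).a₃) * tX (xu L u e) (yt L u e a1 a3) P₁)
        (y := π - (2 * yt L u e a1 a3 P₀ + (WT a1 a3).a₁ * xu L u e P₀ +
          (WT a1 a3).a₃) * tX (xu L u e) (yt L u e a1 a3) P₁)
        (by rw [h14]; exact lt_of_le_of_lt hnr h13)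
      rw [add_sub_cancel, h14] at h16
      exact h16
    rw [h15]
    apply h4
    rw [hvp, ← hP₁v, ← pow_mul]
    congr 1
    rw [show (4 : ℕ) = 2 ^ 2 by norm_num, ← pow_mul]
    ring
  have hTorPt : Tor (idl (A := A) (B := B) (2 ^ (n + 1) * f * a)) L Pt := by
    refine hTor _ _ ?_
    have h11 : ((2 ^ (n + 1) * f * a : ℕ) : ℂ) * Pt = ((a : ℤ) : ℂ) / ((1 : ℕ) : ℂ) * om := by
      rw [hPt]; push_cast; field_simp
    rw [h11, rat_memE hR hL _ one_ne_zero]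
    exact ⟨a, by simp⟩
  have hTorPt2 : Tor (idl (A := A) (B := B) (2 ^ (n + 2) * f * a)) L Pt := by
    refine hTor _ _ ?_
    have h11 : ((2 ^ (n + 2) * f * a : ℕ) : ℂ) * Pt =
        ((2 * a : ℤ) : ℂ) / ((1 : ℕ) : ℂ) * om := by
      rw [hPt]; push_cast; field_simp; ring
    rw [h11, rat_memE hR hL _ one_ne_zero]
    exact ⟨2 * a, by simp⟩
  have hPM : xnE L Pt ∈ RFE (idl (A := A) (B := B) (2 ^ (n + 1) * f * a)) :=
    (c2 _ L hLn).2 _ hTorPt hPL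
  have hP₀M : xnE L P₀ ∈ RFE (idl (A := A) (B := B) (2 * (f * a))) := by
    refine (c2 _ L hLn).2 _ (hTor _ _ ?_) hP₀L
    have h11 : ((2 * (f * a) : ℕ) : ℂ) * P₀ = ((2 * a : ℤ) : ℂ) * (f * P₀) := by push_cast; ring
    rw [h11]
    exact hint _ _ hfP₀
  have hxx : ∀ z : ℂ, xu L u e z = (xnE L z - e) / u ^ 2 := by
    intro z; unfold xu xnE; rfl
  have hx0M : xu L u e P₀ ∈ RFE (idl (A := A) (B := B) (2 * (f * a))) := by
    rw [hxx]
    exact div_mem (sub_mem hP₀M heM) huM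
  have hxPM : xu L u e Pt ∈ RFE (idl (A := A) (B := B) (2 ^ (n + 1) * f * a)) := by
    rw [hxx]
    exact div_mem (sub_mem hPM (hle heM)) (hle huM)
  have hπM : π ∈ RFE (idl (A := A) (B := B) (2 ^ (n + 1) * f * a)) := by
    rw [hπ]; exact sub_mem hxPM (hle hx0M)
  have := hG.fin _ (hne _ (Nat.mul_ne_zero two_ne_zero hfa0))
  have := hG.fin _ (hne _ hm0')
  have hdeg := h5 A B P V hC hG n (f * a) hfa0 h2fa
  rw [← mul_assoc (2 ^ (n + 1)) f a] at hdeg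
  have hval : ∀ y ∈ RFE (idl (A := A) (B := B) (2 * (f * a))), y ≠ 0 →
      ∃ k : ℤ, V.valuation y = V.valuation p ^ k := by
    intro y hy hy0
    obtain ⟨k, hk⟩ := hU A B P V hC hT (f * a) hfa0 h2fa y hy hy0
    refine ⟨k, h4 _ _ ?_⟩
    rw [hk, ← hvp, ← zpow_natCast, ← zpow_natCast, ← zpow_mul, ← zpow_mul, mul_comm]
  obtain ⟨c, hc1, hc2⟩ := Pool.Agent.NSE.te_BAS (kk A B) ℂ V.ValueGroup V.valuation
    (RFE (idl (A := A) (B := B) (2 * (f * a)))) (RFE (idl (A := A) (B := B) (2 ^ (n + 1) * f * a)))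
    (4 ^ n) p π hle (by positivity) hdeg hp0 hvp1 hval hπM hvπ w hw hvw
  -- the function
  have hvx0 : V.valuation (xu L u e P₀) ≤ 1 := (Pool.Agent.MUXV.int_X hP₀E).2
  obtain ⟨Pol, hPol⟩ : ∃ Q : ℂ[X], Q = ∑ i : Fin (4 ^ n),
    C ((c i : ℂ)) * (X - C (xu L u e P₀)) ^ (i : ℕ) := ⟨_, rfl⟩
  have hPolI : IntP V Pol := by
    rw [hPol]; exact intP_sum _ _ hc1 hvx0
  have hPolE : ∀ t : ℂ, Pol.eval t =
      ∑ i : Fin (4 ^ n), (c i : ℂ) * (t - xu L u e P₀) ^ (i : ℕ) := by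
    intro t
    rw [hPol, eval_finsetSum]
    refine Finset.sum_congr rfl fun i _ => ?_
    simp
  have hPolw : w = Pol.eval (xu L u e Pt) := by rw [hPolE, ← hπ, ← hc2]
  refine ⟨Pol, hPolI, hPolw, ?_⟩
  intro x s hs hx
  have hsM : ∀ y ∈ RFE (idl (A := A) (B := B) (2 * (f * a))), s y = y := hs.triv _ hmm2 hmm3 hx
  have hsx : s (xu L u e Pt) = xu L u e (emb x * Pt) := by
    rw [hxx, map_div₀, map_sub, (hs.xnE L hLn Pt hTorPt2 hPL).2, hsM _ heM,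
      hsM _ huM, ← hxx]
  rw [hPolw, hPolE, hPolE, map_sum]
  refine Finset.sum_congr rfl fun i _ => ?_
  rw [map_mul, map_pow, map_sub, hsM _ (c i).2, hsx, hsM _ hx0M]

end

end Pool.Agent.ME2F
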