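import Pool.Agent.ME2.StE4
import Pool.Agent.ME.X_TRA
import Pool.Agent.ME.X_TRB
import Pool.Agent.ME.X_FAC
import Pool.Agent.ME.X_GTH
import Pool.Agent.ME.X_PT
import Pool.Agent.ME.X_GAL

/-!
# MUX-2R, block ER2, module SQR: the improved criterion for squares (helper1, after helper42)
-/

set_option autoImplicit false

open Polynomial

namespace Pool.Agent.ME2F

open _root_.MU3 Pool.Agent.MU3A Pool.Agent.MU3B Pool.Agent.MUX Pool.Agent.MUXU
open Pool.Agent.RI Pool.Agent.NS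
open Pool.Agent.ME hiding ActE
open Pool.Agent.MEE Pool.Agent.ME2
open Pool.Agent.MUXE (RingE)
open Pool.Agent.N2 (GoodQ OddQ dR et yt WT PTq)
open Pool.Agent.N2E (dlg cc Sd_LAG Sd_PRD)
open Pool.Agent.N2V (IsoU NN w0 bb Sv_COE Sv_GRT Sv_UNT Sv_RAT Sv_THT Sv_NE1 Sv_PVI Sv_TWO Sv_DS2)
open Pool.Agent.ME2E (AutCE Sy_AUT Sy_GTA)
open Pool.Agent.NSE (IntP)
open Pool.Agent.MUX2 (GRG)
open Pool.Agent.MUXV (InK tX)

noncomputable section

namespace SQR

lemma v2_ne (V : ValuationSubring ℂ) : V.valuation (2 : ℂ) ≠ 0 :=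
  (Valuation.ne_zero_iff _).2 (by norm_num)

/-- squares of powers of `v(2)` -/
def Sb (V : ValuationSubring ℂ) (x : ℂ) : Prop :=
  ∃ k : ℤ, V.valuation x = (V.valuation (2 : ℂ) ^ k) ^ 2

lemma Sb.one (V : ValuationSubring ℂ) : Sb V 1 := ⟨0, by simp⟩

lemma Sb.mul {V : ValuationSubring ℂ} {x y : ℂ} (hx : Sb V x) (hy : Sb V y) : Sb V (x * y) := by
  obtain ⟨k, hk⟩ := hx
  obtain ⟨l, hl⟩ := hy
  exact ⟨k + l, by rw [map_mul, hk, hl, zpow_add₀ (v2_ne V), mul_pow]⟩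

lemma Sb.zpow {V : ValuationSubring ℂ} {x : ℂ} (hx : Sb V x) (g : ℤ) : Sb V (x ^ g) := by
  obtain ⟨k, hk⟩ := hx
  exact ⟨k * g, by rw [map_zpow₀, hk, pow_two, mul_zpow, ← pow_two, zpow_mul]⟩

lemma prodZ {J κ : Type} [Fintype J] (X : J → Finset κ) (g : J → ℤ) (F : κ → ℂ) :
    ∏ j, (∏ q ∈ X j, F q) ^ g j = ∏ p ∈ Finset.univ.sigma X, F p.2 ^ g p.1 := by
  rw [Finset.prod_sigma]
  exact Finset.prod_congr rfl fun j _ => (Finset.prod_zpow _ _ _).symm

lemma two_mem {A B : ℤ} {P : Ideal (OO A B)} {V : ValuationSubring ℂ} (hC : CtxF A B P V) :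
    (2 : OO A B) ∈ P := by
  obtain ⟨φ, hφ⟩ := hC.ring.hom
  have h := (hC.pw 1 (2 : OO A B)).2 (by
    rw [← hφ, map_ofNat, pow_one, pow_two]
    exact mul_le_of_le_one_left' hC.v2.le)
  rwa [pow_one] at h

lemma not_mem {A B : ℤ} {P : Ideal (OO A B)} {V : ValuationSubring ℂ} (hC : CtxF A B P V)
    {n f : ℕ} {x : OO A B}
    (hx : IsCoprime x ((2 ^ (n + 2) * f : ℕ) : OO A B)) : x ∉ P := by
  intro h
  apply hC.max.ne_top
  rw [Ideal.eq_top_iff_one]
  obtain ⟨b1, b2, hb⟩ := hx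
  rw [← hb]
  refine add_mem (Ideal.mul_mem_left _ _ h) (Ideal.mul_mem_left _ _ ?_)
  have h1 : ((2 ^ (n + 2) * f : ℕ) : OO A B) = ((2 ^ (n + 1) * f : ℕ) : OO A B) * 2 := by
    push_cast
    ring
  rw [h1]
  exact Ideal.mul_mem_left _ _ (two_mem hC)

/-- `x + m' w` is prime to `m = 2 m'`, `m'` even -/
lemma cop_add {A B : ℤ} {m m' k : ℕ} (h1 : m = 2 * m') (h2 : m' = 2 * k) {x : OO A B}
    (hx : IsCoprime x ((m : ℕ) : OO A B)) (w : OO A B) :
    IsCoprime (x + (m' : OO A B) * w) ((m : ℕ) : OO A B) := by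
  have h3 : IsCoprime x ((m' : ℕ) : OO A B) := by
    refine hx.of_isCoprime_of_dvd_right ⟨2, ?_⟩
    rw [h1]
    push_cast
    ring
  have h4 : IsCoprime (x + (m' : OO A B) * w) ((m' : ℕ) : OO A B) := by
    obtain ⟨b1, b2, hb⟩ := h3
    exact ⟨b1, b2 - b1 * w, by linear_combination hb⟩
  refine (h4.pow_right (n := 2)).of_isCoprime_of_dvd_right ⟨(k : OO A B), ?_⟩
  rw [h1, h2]
  push_cast
  ring

/-- `Θ` is periodic -/
lemma th_per (L : PeriodPair) (a : ℂ) {H : Finset ℂ} (hH : IsHalf L a H) {z w : ℂ}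
    (h : z - w ∈ L.lattice) : ThetaH L H z = ThetaH L H w := by
  have := (b_TIN L a H H hH hH).2.2 w (z - w) h
  rwa [add_sub_cancel] at this

/-- the base point has exact order `m` -/
lemma base {A B : ℤ} (hring : RingE A B) {L : PeriodPair} {om : ℂ}
    (hL : IsNE (⊤ : Ideal (OO A B)) L om) {m : ℕ} (hm : m ≠ 0) :
    (m : ℂ) * (om / m) ∈ L.lattice ∧ ∀ c : ℕ, (c : ℂ) * (om / m) ∈ L.lattice → m ∣ c := by
  obtain ⟨φ, hφ⟩ := hring.hom
  have hm' : (m : ℂ) ≠ 0 := by exact_mod_cast hm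
  refine ⟨?_, fun c hc => ?_⟩
  · rw [mul_div_cancel₀ _ hm']
    exact (hL.mem _).2 ⟨1, trivial, by rw [← hφ, map_one, mul_one]⟩
  · obtain ⟨x, -, hx⟩ := (hL.mem _).1 hc
    have hom := hL.om_ne
    have h1 : emb ((c : ℕ) : OO A B) = emb (((m : ℕ) : OO A B) * x) := by
      rw [← hφ, ← hφ, map_mul, map_natCast, map_natCast, hφ]
      apply mul_left_cancel₀ hom
      rw [mul_div_assoc', div_eq_iff hm'] at hx
      linear_combination hx
    have h2 : ((c : ℕ) : OO A B) = ((m : ℕ) : OO A B) * x := by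
      rw [← sub_eq_zero]
      apply hring.inj0
      rw [← hφ, map_sub, hφ, hφ, h1, sub_self]
    have h3 := congrArg QuadraticAlgebra.re h2
    simp at h3
    exact Int.natCast_dvd_natCast.1 ⟨_, h3⟩

end SQR

open SQR in
theorem t4_SQR (h1 : Sd_LAG) (h2 : Sd_PRD) (h3 : Sv_COE) (h4 : S4_DST) (h5 : Sy_AUT) (h6 : Sy_GTA)
    (h7 : S4_CON) (h8 : S4_SIG) (h9 : Sv_NE1) (h10 : S4_GPO) : S4_SQR := by
  intro A B P' V n f a m m' hS ι R u e a1 a3 hgood H hH J _ X g hX ⟨y, hy, hinv, hy2⟩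
  have hC := hS.ctx
  have hring := hC.ring
  obtain ⟨φ, hφ⟩ := hring.hom
  have emul : ∀ x y : OO A B, emb (x * y) = emb x * emb y := fun x y => by
    rw [← hφ, map_mul, hφ, hφ]
  have eone : emb (1 : OO A B) = 1 := by rw [← hφ, map_one]
  have enat : ∀ n : ℕ, emb ((n : ℕ) : OO A B) = n := fun n => by rw [← hφ, map_natCast]
  have hf3 := hS.f3
  have ha3 := hS.a3
  have hm0 : m ≠ 0 := by
    rw [hS.hm]
    exact mul_ne_zero (by positivity) (by omega)
  have hm2' : m = 2 * m' := by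
    rw [hS.hm, hS.hm']
    ring
  have hm4 : m' = 2 * (2 ^ n * f) := by
    rw [hS.hm']
    ring
  have hm0' : m' ≠ 0 := by omega
  have hNL0 : IsNE (⊤ : Ideal (OO A B)) (R.L R.i0) (R.om R.i0) := by
    have := R.nl R.i0
    rwa [R.b0] at this
  obtain ⟨c1, -, -, -, -, c7⟩ := h7 A B P' V n f a m m' hS
  obtain ⟨c71, c72, c73, c74, c75⟩ := c7 (R.L R.i0) (R.om R.i0) hNL0
  obtain ⟨ξ, hξ⟩ : ∃ ξ : OO A B → ℂ, ∀ b, ξ b = xu (R.L R.i0) u e
      (emb (cc (NN n f a) b) * (R.om R.i0 / m')) := ⟨_, fun _ => rfl⟩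
  have hc0 : cc (NN n f a) (0 : OO A B) = 1 := by rw [cc, mul_zero, add_zero]
  have hξ0 : ξ 0 = xu (R.L R.i0) u e (R.om R.i0 / m') := by rw [hξ, hc0, eone, one_mul]
  -- the rational functions
  have hG : ∀ q : ι × OO A B, ∃ (κ : ℂ) (k : ℤ) (P Q : ℂ[X]), q.2 ∉ P' →
      IntP V P ∧ IntP V Q ∧ V.valuation κ = (V.valuation (2 : ℂ) ^ k) ^ 2 ∧
      ∀ c : OO A B, IsCoprime (c * q.2) ((m : ℕ) : OO A B) →
        V.valuation (xu (R.L R.i0) u e (emb c * (R.om R.i0 / m'))) ≤ 1 ∧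
        V.valuation (et (R.L R.i0) u (emb c * (R.om R.i0 / m'))) ≤ 1 ∧
        V.valuation (P.eval (xu (R.L R.i0) u e (emb c * (R.om R.i0 / m')))) = 1 ∧
        V.valuation (Q.eval (xu (R.L R.i0) u e (emb c * (R.om R.i0 / m')))) = 1 ∧
        GFibE R H m m' q.1 (c * q.2) *
            Q.eval (xu (R.L R.i0) u e (emb c * (R.om R.i0 / m'))) =
          κ * P.eval (xu (R.L R.i0) u e (emb c * (R.om R.i0 / m'))) ∧
        muXE R q.1 * emb q.2 * FFibE R a m m' q.1 (c * q.2) / u =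
          2 * dlg P Q (xu (R.L R.i0) u e (emb c * (R.om R.i0 / m'))) *
            et (R.L R.i0) u (emb c * (R.om R.i0 / m')) := by
    intro q
    by_cases hq : q.2 ∈ P'
    · exact ⟨0, 0, 0, 0, fun h => absurd hq h⟩
    · obtain ⟨κ, k, P, Q, h⟩ := h10 A B P' V n f a m m' hS ι R u e a1 a3 hgood H q.1 (hH q.1)
        q.2 hq
      exact ⟨κ, k, P, Q, fun _ => h⟩
  choose κ k P Q hG using hG
  have hq2 : ∀ j, ∀ q ∈ X j, q.2 ∉ P' := fun j q hq =>
    not_mem hC (n := n) (f := f) (by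
      have := hX j q hq
      rwa [hS.hm] at this)
  have hGb := fun j q (hq : q ∈ X j) (b : OO A B) =>
    (hG q (hq2 j q hq)).2.2.2 (cc (NN n f a) b) (((c1 b).2.1).mul_left (hX j q hq))
  obtain ⟨κ1, k1, P1, Q1, -, -, -, hG1⟩ := h10 A B P' V n f a m m' hS ι R u e a1 a3 hgood H R.i0
    (hH R.i0) 1 (not_mem hC (n := n) (f := f) isCoprime_one_left)
  have vξ : ∀ b, V.valuation (ξ b) ≤ 1 := fun b => by
    rw [hξ]
    exact (hG1 _ (by rw [mul_one]; exact (c1 b).2.1)).1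
  have vet : V.valuation (et (R.L R.i0) u (R.om R.i0 / m')) ≤ 1 := by
    have := (hG1 1 (by rw [mul_one]; exact isCoprime_one_left)).2.1
    rwa [eone, one_mul] at this
  -- the product
  obtain ⟨P1', Q1', hP', hQ', hPQ⟩ := h2 V (Σ _ : J, ι × OO A B) (Finset.univ.sigma X)
    (fun p => P p.2) (fun p => Q p.2) (fun p => g p.1) (Set.range ξ) (by
      intro p hp
      have hp' := (Finset.mem_sigma.1 hp).2
      refine ⟨(hG _ (hq2 _ _ hp')).1, (hG _ (hq2 _ _ hp')).2.1, ?_⟩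
      rintro _ ⟨b, rfl⟩
      have := hGb _ _ hp' b
      rw [hξ]
      exact ⟨this.2.2.1, this.2.2.2.1⟩)
  have hPb := fun b => hPQ (ξ b) ⟨b, rfl⟩
  obtain ⟨κ0, hκ0⟩ : ∃ κ0 : ℂ, κ0 = ∏ p ∈ Finset.univ.sigma X, κ p.2 ^ g p.1 := ⟨_, rfl⟩
  have hW : ∀ b : OO A B, (∏ j, (∏ q ∈ X j, GFibE R H m m' q.1
      (cc (NN n f a) b * q.2)) ^ g j) * Q1'.eval (ξ b) =
      κ0 * P1'.eval (ξ b) := by
    intro b
    obtain ⟨p1, p2, p3, -⟩ := hPb b
    have hne : ∏ p ∈ Finset.univ.sigma X, (Q p.2).eval (ξ b) ^ g p.1 ≠ 0 := by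
      refine Finset.prod_ne_zero_iff.2 fun p hp => zpow_ne_zero _ fun h0 => ?_
      have := (hGb _ _ (Finset.mem_sigma.1 hp).2 b).2.2.2.1
      rw [← hξ, h0, map_zero] at this
      exact zero_ne_one this
    have h11 : (∏ p ∈ Finset.univ.sigma X, GFibE R H m m' p.2.1
        (cc (NN n f a) b * p.2.2) ^ g p.1) *
        ∏ p ∈ Finset.univ.sigma X, (Q p.2).eval (ξ b) ^ g p.1 =
        κ0 * ∏ p ∈ Finset.univ.sigma X, (P p.2).eval (ξ b) ^ g p.1 := by
      rw [hκ0, ← Finset.prod_mul_distrib, ← Finset.prod_mul_distrib]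
      refine Finset.prod_congr rfl fun p hp => ?_
      have := (hGb _ _ (Finset.mem_sigma.1 hp).2 b).2.2.2.2.1
      rw [← hξ] at this
      rw [← mul_zpow, ← mul_zpow, this]
    rw [prodZ X g (fun q => GFibE R H m m' q.1 (cc (NN n f a) b * q.2))]
    apply mul_right_cancel₀ hne
    linear_combination (Q1'.eval (ξ b)) * h11 - κ0 * p3
  have hκS : Sb V κ0 := by
    rw [hκ0]
    exact Finset.prod_induction _ (Sb V) (fun _ _ => Sb.mul) (Sb.one V) fun p hp =>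
      Sb.zpow ⟨_, (hG _ (hq2 _ _ (Finset.mem_sigma.1 hp).2)).2.2.1⟩ _
  obtain ⟨K, hK⟩ := hκS
  have hW0 := hW 0
  simp only [hc0, one_mul] at hW0
  rw [← hy2] at hW0
  have vy : V.valuation y = V.valuation (2 : ℂ) ^ K := by
    have h12 := congrArg V.valuation hW0
    rw [map_mul, map_mul, (hPb 0).1, (hPb 0).2.1, mul_one, mul_one, map_pow, hK] at h12
    exact (pow_left_inj₀ zero_le zero_le (by norm_num)).1 h12
  have h2K : (2 : ℂ) ^ K ≠ 0 := zpow_ne_zero _ (by norm_num)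
  obtain ⟨w, hw⟩ : ∃ w : ℂ, w = y / 2 ^ K := ⟨_, rfl⟩
  have hyw : y = w * 2 ^ K := by rw [hw, div_mul_cancel₀ _ h2K]
  have vw : V.valuation w = 1 := by
    rw [hw, map_div₀, map_zpow₀, vy, div_self (zpow_ne_zero _ (v2_ne V))]
  have hwM : w ∈ RFE (idl (A := A) (B := B) (m' * a)) := by
    rw [hw]
    refine div_mem ((tm_FAC tm_TRA A B hring).1 _ _ ?_ hy) (zpow_mem (ofNat_mem _ 2) K)
    rw [Ideal.span_singleton_le_span_singleton]
    exact ⟨(a : OO A B), by push_cast; ring⟩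
  obtain ⟨h, hh, hwh, hsh⟩ := h8 A B P' V n f a m m' hS (R.L R.i0) (R.om R.i0) u e a1 a3 hNL0 hgood w
    hwM vw.le
  -- the automorphisms
  have hbot : idl (A := A) (B := B) (m * a) ≠ ⊥ := by
    intro h0
    rw [Ideal.span_singleton_eq_bot] at h0
    have h11 := congrArg emb h0
    rw [enat, ← hφ 0, map_zero] at h11
    have h12 : m * a ≠ 0 := mul_ne_zero hm0 (by omega)
    exact h12 (by exact_mod_cast h11)
  have hs : ∀ b : OO A B, ∃ s : ℂ ≃+* ℂ, AutCE (idl (m * a)) (cc (NN n f a) b) s := fun b =>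
    h5 A B hC.case hring hS.tor ⟨_, ⟨_, _, hNL0⟩⟩ _ hbot (by
      rw [Ideal.span_singleton_le_span_singleton, hS.hm]
      exact ⟨((2 ^ (n + 1) * f * a : ℕ) : OO A B), by push_cast; ring⟩) _ (c1 b).2.2.1 (c1 b).1 (by
      have h20 := (c1 b).2.2.2.1
      obtain ⟨t, ht⟩ := Ideal.mem_span_singleton'.1 h20
      refine Ideal.mem_span_singleton'.2 ⟨t * ((f * a : ℕ) : OO A B), ?_⟩
      rw [← ht]
      push_cast
      ring)
  have hmf : m.primeFactors ⊆ (2 * f).primeFactors := by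
    rw [hS.hm, Nat.primeFactors_mul (by positivity) (by omega), Nat.primeFactors_pow _ (by omega),
      Nat.primeFactors_mul (by norm_num) (by omega)]
  have hm2 : 2 ≤ m := by
    rw [hS.hm]
    have : 0 < 2 ^ n := by positivity
    rw [pow_add]
    nlinarith
  have hsG : ∀ (b : OO A B) (s : ℂ ≃+* ℂ), AutCE (idl (m * a)) (cc (NN n f a) b) s →
      ∀ (i : ι) (x : OO A B), IsCoprime x ((m : ℕ) : OO A B) →
      s (GFibE R H m m' i x) = GFibE R H m m' i (cc (NN n f a) b * x) := by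
    intro b s hs i x hx
    rw [GFibE, GFibE, map_prod]
    refine Finset.prod_congr rfl fun l _ => ?_
    have hz := cop_add hm2' hm4 hx (bb l)
    obtain ⟨z, hzd⟩ : ∃ z, z = x + (m' : OO A B) * bb l := ⟨_, rfl⟩
    rw [← hzd] at hz ⊢
    obtain ⟨-, -, -, hpt⟩ := tm_PT tm_TRA A B hring (2 * f) ι R (by omega) i
    obtain ⟨-, hzm, hzo, -⟩ := hpt m hm0 hmf z
    have hNLi : NLE A B (R.L i) := ⟨_, _, R.nl i⟩
    have hzL : ptE R m i z ∉ (R.L i).lattice := by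
      intro h0
      have := hzo hz 1 (by rwa [Nat.cast_one, one_mul])
      have := Nat.le_of_dvd one_pos this
      omega
    have hzT : Tor (idl (A := A) (B := B) (m * a)) (R.L i) (ptE R m i z) := by
      refine ((tm_TRA A B hring _ hNLi).2.2.2.2.1 _ _).2 ?_
      rw [enat]
      have h1 := nsmul_mem hzm a
      rw [nsmul_eq_mul] at h1
      have h2 : ((m * a : ℕ) : ℂ) * ptE R m i z = (a : ℂ) * ((m : ℂ) * ptE R m i z) := by
        push_cast
        ring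
      rw [h2]
      exact h1
    rw [h6 A B hring _ hNLi a (H i) (hH i) (idl (A := A) (B := B) (m * a)) (by
      rw [Ideal.span_singleton_le_span_singleton]
      exact ⟨((m : ℕ) : OO A B), by push_cast; ring⟩) _ s hs (c1 b).2.2.2.2.2 _ hzT hzL]
    apply th_per (R.L i) (a : ℂ) (hH i)
    obtain ⟨t, ht⟩ := Ideal.mem_span_singleton.1 (c1 b).2.2.2.2.1
    have hdi : cc (NN n f a) b * z = (cc (NN n f a) b * x + (m' : OO A B) * bb l) +
        (m : OO A B) * (2 * (f : OO A B) * t * bb l) := by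
      rw [hzd, hm2']
      push_cast
      have ht' : cc (NN n f a) b = 1 + 4 * (f : OO A B) * t := by
        rw [← sub_add_cancel (cc (NN n f a) b) 1, ht]
        push_cast
        ring
      rw [ht']
      ring
    have hmC : (m : ℂ) ≠ 0 := by exact_mod_cast hm0
    have hzt := (hpt m hm0 hmf (2 * (f : OO A B) * t * bb l)).2.1
    have eadd : ∀ x y : OO A B, emb (x + y) = emb x + emb y := fun x y => by
      rw [← hφ, map_add, hφ, hφ]
    have e1 : emb (cc (NN n f a) b) * ptE R m i z -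
        ptE R m i (cc (NN n f a) b * x + (m' : OO A B) * bb l) =
        (m : ℂ) * ptE R m i (2 * (f : OO A B) * t * bb l) := by
      have e2 := congrArg emb hdi
      rw [emul, eadd, emul (m : OO A B), enat] at e2
      unfold ptE
      field_simp
      linear_combination (R.om i * nI (R.b i)) * e2
    rw [e1]
    exact hzt
  have hsy : ∀ (b : OO A B) (s : ℂ ≃+* ℂ), AutCE (idl (m * a)) (cc (NN n f a) b) s →
      s w = h.eval (ξ b) ∧ (s y) ^ 2 = ∏ j, (∏ q ∈ X j, GFibE R H m m' q.1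
        (cc (NN n f a) b * q.2)) ^ g j ∧ s y = s w * 2 ^ K := by
    intro b s hs
    refine ⟨?_, ?_, ?_⟩
    · rw [hξ]
      exact hsh _ _ hs (c1 b).2.2.2.1
    · rw [← map_pow, hy2, map_prod]
      refine Finset.prod_congr rfl fun j _ => ?_
      rw [map_zpow₀, map_prod]
      congr 1
      refine Finset.prod_congr rfl fun q hq => ?_
      exact hsG b s hs q.1 q.2 (hX j q hq)
    · rw [hyw, map_mul, map_zpow₀, map_ofNat]
  have hκne : κ0 ≠ 0 := by
    intro h0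
    rw [h0, map_zero] at hK
    exact (pow_ne_zero 2 (zpow_ne_zero K (v2_ne V))) hK.symm
  have key : ∀ b, P1'.eval (ξ b) = ((2 ^ K) ^ 2 / κ0) * h.eval (ξ b) ^ 2 * Q1'.eval (ξ b) := by
    intro b
    obtain ⟨s, hs⟩ := hs b
    obtain ⟨s1, s2, s3⟩ := hsy b s hs
    have h11 := hW b
    rw [← s2, s3, s1] at h11
    field_simp
    linear_combination -h11
  have vκ : V.valuation ((2 ^ K) ^ 2 / κ0) = 1 := by
    rw [map_div₀, map_pow, map_zpow₀, hK, div_self (pow_ne_zero 2 (zpow_ne_zero K (v2_ne V)))]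
  -- the distances
  obtain ⟨hz1, hz2⟩ := base hring hNL0 hm0'
  obtain ⟨i1, i2, -⟩ := h9 V (R.L R.i0) u e a1 a3 hgood hC.v2 (n + 1) f a hS.f3 hS.fo hS.ao hS.af
    (R.om R.i0 / m') (by rw [← hS.hm']; exact hz1)
    (fun c hc => dvd_trans ⟨2 ^ (n + 1), by rw [hS.hm']; ring⟩ (hz2 c hc))
  obtain ⟨⟨S, hS0, hS1, hS2⟩, hS'⟩ := h4 A B P' V hC (R.L R.i0) u e a1 a3
    ⟨_, _, hNL0⟩ hgood _ i1 i2
  obtain ⟨S', hS0', hS1', hS2'⟩ := hS' _ c73 c74
  obtain ⟨-, -, -, -, -, -, -, -, -, hper⟩ := h3 V (R.L R.i0) u e a1 a3 hgood hC.v2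
  have hSb : ∀ x ∈ S, ∃ b, x = ξ b := by
    intro x hx
    obtain ⟨Y, hY, rfl⟩ := (hS1 x hx).2
    obtain ⟨b, hb⟩ := c75 Y hY
    refine ⟨b, ?_⟩
    rw [hξ, c71 b, ← ((hper (R.om R.i0 / m' + emb b * (a * R.om R.i0 / 4))).1 _ hb).1]
    congr 1
    ring
  have hSh : ∀ x ∈ S', h.eval x = h.eval (xu (R.L R.i0) u e (R.om R.i0 / m')) := by
    intro x hx
    obtain ⟨k', -, rfl⟩ := (hS1' x hx).2
    obtain ⟨s, hs⟩ := hs ((k' : OO A B) * w0)
    have hk : xu (R.L R.i0) u e (R.om R.i0 / m' + k' * (emb (w0 : OO A B) *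
        (a * R.om R.i0 / 4))) = ξ ((k' : OO A B) * w0) := by
      rw [hξ, c71, c72]
    obtain ⟨s1, -, s3⟩ := hsy _ s hs
    have s4 := hinv k' s hs
    rw [hk, ← s1, ← hwh]
    apply mul_right_cancel₀ h2K
    rw [← s3, s4]
    exact hyw
  have hLag := (h1 V S _ hS0 (by rw [← hξ0]; exact vξ 0) (fun x hx => (hS1 x hx).1)).2.2.2 P1' Q1' h
    ((2 ^ K) ^ 2 / κ0) S' hP' hQ' hh vκ.le hS0' (fun x hx => (hS1' x hx).1)
    (by rw [← hξ0]; exact key 0)
    (fun x hx => by obtain ⟨b, rfl⟩ := hSb x hx; exact key b) hSh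
  have hd : dR A = 2 ∨ dR A = 3 := by
    unfold dR
    split <;> simp
  have hdl : V.valuation (dlg P1' Q1' (ξ 0)) ^ 8 ≤ V.valuation (2 : ℂ) ^ (3 * dR A + 5) := by
    rw [dlg, map_div₀, map_mul, (hPb 0).1, (hPb 0).2.1, mul_one, div_one, hξ0]
    refine (pow_le_pow_left' hLag 8).trans ?_
    rcases le_total (V.valuation (2 : ℂ) * ∏ x ∈ S', V.valuation
      (xu (R.L R.i0) u e (R.om R.i0 / m') - x)) (∏ x ∈ S, V.valuation
      (xu (R.L R.i0) u e (R.om R.i0 / m') - x)) with h11 | h11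
    · rw [max_eq_right h11]
      refine (pow_le_pow_left' hS2 8).trans ?_
      rw [← pow_mul]
      exact pow_le_pow_right_of_le_one' hC.v2.le (by omega)
    · rw [max_eq_left h11, mul_pow]
      have e1 : 3 * dR A + 5 = 8 + 3 * (dR A - 1) := by omega
      rw [e1, pow_add]
      exact mul_le_mul' le_rfl hS2'
  have hsum : (∑ j, (g j : ℂ) * ∑ q ∈ X j, emb q.2 * muXE R q.1 *
      FFibE R a m m' q.1 q.2) / u =
      2 * dlg P1' Q1' (ξ 0) * et (R.L R.i0) u (R.om R.i0 / m') := by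
    rw [(hPb 0).2.2.2, Finset.sum_sigma, Finset.mul_sum, Finset.sum_mul, Finset.sum_div]
    refine Finset.sum_congr rfl fun j _ => ?_
    rw [Finset.mul_sum, Finset.sum_div, Finset.mul_sum, Finset.sum_mul]
    refine Finset.sum_congr rfl fun q hq => ?_
    have h12 := (hGb j q hq 0).2.2.2.2.2
    rw [← hξ, hc0, eone, one_mul, one_mul] at h12
    rw [mul_div_assoc (g j : ℂ)]
    linear_combination (g j : ℂ) * h12
  rw [hsum, map_mul, map_mul, mul_pow, mul_pow]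
  refine (mul_le_of_le_one_right' (pow_le_one' vet 8)).trans ?_
  have e2 : 3 * dR A + 13 = 8 + (3 * dR A + 5) := by omega
  rw [e2, pow_add]
  exact mul_le_mul' le_rfl hdl

end

end Pool.Agent.ME2F
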