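import Pool.Agent.ME2.StE4
import Pool.Agent.ME2.EU_UNR

/-!
# ME2, block E for `D = -4`, `p = 2`, module UNR: the ramification index of `RFE (2 f)` at `V | 2` over `k` divides `2` (helper59)

After `EU_UNR.lean` (helper34): the inertia group acts faithfully by signs on `t = ℘(w)` for a point `w` of order three.
-/

set_option autoImplicit false

open Polynomial

namespace Pool.Agent.ME2F

open _root_.MU3 Pool.Agent.MU3A Pool.Agent.MU3B Pool.Agent.MUX Pool.Agent.MUXU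
open Pool.Agent.RI Pool.Agent.NS
open Pool.Agent.ME hiding ActE
open Pool.Agent.MEE Pool.Agent.ME2
open Pool.Agent.MUXE (RingE)
open Pool.Agent.N2 (GoodQ OddQ dR et yt WT PTq)

noncomputable section

namespace UNR

/-- `P` is the prime ideal below `V`, with a prime element -/
lemma overV {A B : ℤ} {P : Ideal (OO A B)} {V : ValuationSubring ℂ} (hC : CtxF A B P V) :
    OverI V P ∧ ∃ ϖ : OO A B, ϖ ∈ P ∧ ϖ ∉ P ^ 2 ∧
      V.valuation (emb ϖ) ^ 2 = V.valuation (2 : ℂ) := by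
  have hlt : ∀ x ∈ P, V.valuation (emb x) < 1 := by
    intro x hx
    refine not_le.1 fun h1 => ?_
    have h2 := (hC.pw 1 x).1 (by rwa [pow_one])
    rw [pow_one] at h2
    exact not_lt.2 ((one_le_pow₀ h1).trans h2) hC.v2
  refine ⟨?_, ?_⟩
  · intro x
    rw [ValuationSubring.mem_nonunits_iff]
    constructor
    · intro h
      by_contra hx
      rw [hC.unit x hx] at h
      exact lt_irrefl _ h
    · exact hlt x
  · obtain ⟨ϖ, h1⟩ := hC.pi
    refine ⟨ϖ, ?_, ?_, h1⟩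
    · have h2 := (hC.pw 1 ϖ).2 (by rw [h1, pow_one])
      rwa [pow_one] at h2
    · intro h2
      have h3 := (hC.pw 2 ϖ).1 h2
      rw [h1, sq] at h3
      have h20 : V.valuation (2 : ℂ) ≠ 0 := by
        rw [Valuation.ne_zero_iff]
        norm_num
      have h4 : V.valuation (2 : ℂ) * V.valuation (2 : ℂ) < V.valuation (2 : ℂ) * 1 :=
        (mul_lt_mul_iff_right₀ (zero_lt_iff.2 h20)).2 hC.v2
      rw [mul_one] at h4
      exact not_lt.2 h3 h4

lemma unr4 {A B : ℤ} {P : Ideal (OO A B)} {V : ValuationSubring ℂ} (hC : CtxF A B P V)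
    (hT : TorXE A B) (f : ℕ)
    (hf : f ≠ 0) (hf2 : ¬ 2 ∣ f) (hf3 : 3 ∣ f) (y : ℂ)
    (hy : y ∈ RFE (idl (A := A) (B := B) (2 * f))) (hy0 : y ≠ 0) :
    ∃ k : ℤ, V.valuation y ^ 4 = V.valuation (2 : ℂ) ^ k := by
  classical
  have hE := hC.case
  have hQ := hE.toCQ
  have hm : idl (A := A) (B := B) (2 * f) ≠ ⊥ :=
    Pool.Agent.ME2E.UNR.idl_ne (mul_ne_zero two_ne_zero hf)
  haveI := hT.fin _ hm
  haveI := hT.gal _ hm
  obtain ⟨hov, ϖ, hϖ1, hϖ2, hϖv⟩ := overV hC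
  -- the point
  obtain ⟨L, om, hL⟩ := Pool.Agent.MEC.exists_isNE hE ⊤ (by
    intro h
    have h1 : (1 : OO A B) ∈ (⊥ : Ideal (OO A B)) := h ▸ trivial
    rw [Ideal.mem_bot] at h1
    have h2 := congrArg QuadraticAlgebra.re h1
    rw [QuadraticAlgebra.re_one, QuadraticAlgebra.re_zero] at h2
    exact one_ne_zero h2)
  obtain ⟨u, e, a1, a3, hg⟩ := hC.good L ⟨⊤, om, hL⟩
  obtain ⟨w0, h3w, hw, ht0⟩ : ∃ w0 : ℂ, 3 * w0 ∈ L.lattice ∧ w0 ∉ L.lattice ∧
      L.weierstrassP w0 ≠ 0 := by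
    obtain ⟨w1, w2, h31, h32, hw1, hw2, -, -, -, hu2⟩ := hg.tor
    by_cases h : L.weierstrassP w2 = 0
    · refine ⟨w1, h31, hw1, fun h' => ?_⟩
      rw [h, h', sub_zero] at hu2
      exact pow_ne_zero 2 hg.u0 hu2
    · exact ⟨w2, h32, hw2, h⟩
  have ht3 : L.weierstrassP w0 ∈ RFE (idl (A := A) (B := B) 3) :=
    Pool.Agent.ME2.wp_mem hQ hL hw (by exact_mod_cast h3w)
  have htw : ∀ (b : Ideal (OO A B)) (L : PeriodPair) (om : ℂ), IsNE b L om → ∀ w : ℂ,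
        3 * w ∈ L.lattice → w ∉ L.lattice →
        L.weierstrassP w ∈ RFE (idl (A := A) (B := B) (2 * f)) := by
    intro b L om hL w h3w hw
    refine Pool.Agent.ME2.wp_mem hQ hL hw ?_
    obtain ⟨k, rfl⟩ := hf3
    have h1 := nsmul_mem h3w (2 * k)
    rw [nsmul_eq_mul] at h1
    have e1 : ((2 * (3 * k) : ℕ) : ℂ) * w = ((2 * k : ℕ) : ℂ) * (3 * w) := by push_cast; ring
    rw [e1]
    exact h1
  have htF : L.weierstrassP w0 ∈ RFE (idl (A := A) (B := B) (2 * f)) :=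
    htw _ L om hL w0 h3w hw
  set F := RFE (idl (A := A) (B := B) (2 * f)) with hF
  obtain ⟨I, hI, hval⟩ := Pool.Agent.ME2E.ramI hC.cq hov hϖ1 hϖ2 F
  let t : F := ⟨L.weierstrassP w0, htF⟩
  have htt : ((t : F) : ℂ) = L.weierstrassP w0 := rfl
  have htc : ((t : F) : ℂ) ≠ 0 := ht0
  have hin : ∀ (σ : F ≃ₐ[kk A B] F), σ ∈ I → ∀ s : ℂ ≃+* ℂ,
      (∀ y : F, s y = ((σ y : F) : ℂ)) →
      (∀ y ∈ RFE (idl (A := A) (B := B) (2 * f)), y ∈ V → s y - y ∈ V.nonunits) := by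
    intro σ hσ s hsv y hy hyV
    have h9 := hI σ hσ ⟨y, hy⟩ ((V.valuation_le_one_iff y).2 hyV)
    rw [ValuationSubring.mem_nonunits_iff, hsv ⟨y, hy⟩]
    exact h9
  -- the sign
  have hchar : ∀ σ : F ≃ₐ[kk A B] F, σ ∈ I → ∃ ζ : kk A B, (ζ : ℂ) ^ 2 = 1 ∧
      ((σ t : F) : ℂ) = ζ * t := by
    intro σ hσ
    obtain ⟨s, hs, hsv⟩ := Pool.Agent.ME2E.UNR.extn hT hm σ
    rcases (hC.iner f hf hf2 hf3 s hs (hin σ hσ s hsv)).2 with h1 | h1
    · refine ⟨1, by simp, ?_⟩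
      rw [← hsv t, htt, h1 _ ht3]
      simp
    · refine ⟨-1, by simp, ?_⟩
      rw [← hsv t, htt, h1 ⊤ L om hL w0 hw h3w]
      simp
  let χ : I →* ℂ :=
    { toFun := fun σ => (((σ : F ≃ₐ[kk A B] F) t : F) : ℂ) / t
      map_one' := by
        show (((1 : F ≃ₐ[kk A B] F) t : F) : ℂ) / t = 1
        rw [AlgEquiv.one_apply, div_self htc]
      map_mul' := by
        intro σ τ
        obtain ⟨ζ, -, h1⟩ := hchar (τ : F ≃ₐ[kk A B] F) τ.2
        have h3 : ((τ : F ≃ₐ[kk A B] F) t : F) = algebraMap (kk A B) F ζ * t := Subtype.ext h1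
        show ((((σ : F ≃ₐ[kk A B] F) * (τ : F ≃ₐ[kk A B] F)) t : F) : ℂ) / t =
          (((σ : F ≃ₐ[kk A B] F) t : F) : ℂ) / t * ((((τ : F ≃ₐ[kk A B] F) t : F) : ℂ) / t)
        rw [AlgEquiv.mul_apply, h3, map_mul, AlgEquiv.commutes]
        have h4 : ((algebraMap (kk A B) F ζ * (σ : F ≃ₐ[kk A B] F) t : F) : ℂ) =
            ζ * (((σ : F ≃ₐ[kk A B] F) t : F) : ℂ) := rfl
        have h5 : ((algebraMap (kk A B) F ζ * t : F) : ℂ) = ζ * (t : ℂ) := rfl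
        rw [h4, h5]
        field_simp }
  have hχ : ∀ σ : I, χ σ ^ 2 = 1 := by
    intro σ
    obtain ⟨ζ, h1, h2⟩ := hchar (σ : F ≃ₐ[kk A B] F) σ.2
    show ((((σ : F ≃ₐ[kk A B] F) t : F) : ℂ) / t) ^ 2 = 1
    rw [h2, mul_div_assoc, div_self htc, mul_one]
    exact h1
  let ψ : I →* rootsOfUnity 2 ℂ := (MonoidHom.toHomUnits χ).codRestrict (rootsOfUnity 2 ℂ) (by
    intro σ
    rw [mem_rootsOfUnity]
    apply Units.ext
    push_cast
    exact hχ σ)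
  have hinj : Function.Injective ψ := by
    rw [injective_iff_map_eq_one]
    intro σ hσ
    have h1 : χ σ = 1 := by
      have h2 := congrArg (fun z : rootsOfUnity 2 ℂ => ((z : ℂˣ) : ℂ)) hσ
      exact h2
    have h2 : (((σ : F ≃ₐ[kk A B] F) t : F) : ℂ) = t := (div_eq_one_iff_eq htc).1 h1
    obtain ⟨s, hs, hsv⟩ := Pool.Agent.ME2E.UNR.extn hT hm (σ : F ≃ₐ[kk A B] F)
    obtain ⟨h8, h9⟩ := hC.iner f hf hf2 hf3 s hs (hin σ σ.2 s hsv)
    have h6 : s (L.weierstrassP w0) = L.weierstrassP w0 := by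
      rw [← htt, hsv t, h2]
    have h7 : ∀ y ∈ RFE (idl (A := A) (B := B) 3), s y = y := by
      rcases h9 with h9 | h9
      · exact h9
      · exfalso
        have h5 := h9 ⊤ L om hL w0 hw h3w
        rw [h6] at h5
        exact ht0 (self_eq_neg.1 h5)
    apply Subtype.ext
    apply AlgEquiv.ext
    intro y
    apply Subtype.ext
    rw [← hsv]
    exact h8 h7 y y.2
  have hdvd : Nat.card I ∣ 2 := by
    have h1 := Subgroup.card_dvd_of_injective ψ hinj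
    rwa [Complex.card_rootsOfUnity] at h1
  obtain ⟨j, hj⟩ := hval y hy hy0
  obtain ⟨q, hq⟩ := hdvd
  refine ⟨j * q, ?_⟩
  have h5 : V.valuation y ^ 2 = (V.valuation (emb ϖ) ^ j) ^ q := by
    calc V.valuation y ^ 2 = V.valuation y ^ (Nat.card I * q) := by rw [← hq]
      _ = (V.valuation (emb ϖ) ^ j) ^ q := by rw [pow_mul, hj]
  have h6 : (V.valuation (emb ϖ) ^ j) ^ 2 = V.valuation (2 : ℂ) ^ j := by
    rw [← hϖv, ← zpow_natCast (V.valuation (emb ϖ) ^ j) 2, ← zpow_mul, mul_comm, zpow_mul,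
      zpow_natCast]
  calc V.valuation y ^ 4 = (V.valuation y ^ 2) ^ 2 := by rw [← pow_mul]
    _ = ((V.valuation (emb ϖ) ^ j) ^ 2) ^ q := by rw [h5, ← pow_mul, mul_comm, pow_mul]
    _ = V.valuation (2 : ℂ) ^ (j * q) := by rw [h6, zpow_mul, zpow_natCast]

end UNR

/-- (UNR) -/
theorem t4_UNR : S4_UNR := by
  intro A B P V hC hT f hf hf2 y hy hy0
  have hle : RFE (idl (A := A) (B := B) (2 * f)) ≤ RFE (idl (A := A) (B := B) (2 * (3 * f))) :=
    (tm_FAC tm_TRA A B hC.ring).1 _ _ (idl_mono ⟨3, by ring⟩)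
  exact UNR.unr4 hC hT (3 * f) (mul_ne_zero three_ne_zero hf) (by omega) (dvd_mul_right 3 f) y
    (hle hy) hy0

end

end Pool.Agent.ME2F
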