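import Pool.Agent.N2.VAll
import Pool.Agent.ME2.EU_AUT
import Pool.Agent.ME2.EU_GTA
import Pool.Agent.ME2.F4_PST
import Pool.Agent.ME2.F4_TPU
import Pool.Agent.ME2.F4_DST
import Pool.Agent.ME2.F4_CTX
import Pool.Agent.ME2.F4_UNR
import Pool.Agent.ME2.F4_DEG
import Pool.Agent.ME2.F4_CON
import Pool.Agent.ME2.F4_SIG
import Pool.Agent.ME2.F4_MUL
import Pool.Agent.ME2.F4_FIB
import Pool.Agent.ME2.F4_GPO
import Pool.Agent.ME2.F4_SQR
import Pool.Agent.ME2.F4_ORB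
import Pool.Agent.ME2.F4_GLC
import Pool.Agent.ME2.F4_XXS
import Pool.Agent.ME2.F4_HEQ
import Pool.Agent.ME2.F4_HAL
import Pool.Agent.ME2.F4_COS
import Pool.Agent.ME2.F4_MAIN
import Pool.Agent.ME2.F4_FIN

/-! # ME2: block E for `p = 2`, `D = -4`, assembled (helper59)

`f_EFIN` gives `T4_EFIN` from `T4_RFIN`. -/

set_option autoImplicit false

namespace Pool.Agent.ME2F

open Pool.Agent.ME2 Pool.Agent.N2E Pool.Agent.N2V

theorem f_PST : S4_PST := t4_PST v_TWO v_PVI Pool.Agent.MUXU.u_BAC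
theorem f_TPU : S4_TPU := t4_TPU v_GRT f_PST
theorem f_DST : S4_DST := t4_DST v_GRT v_TWO f_TPU
theorem f_CTX : S4_CTX := t4_CTX
theorem f_UNR : S4_UNR := t4_UNR
theorem f_DEG : S4_DEG := t4_DEG
theorem f_CON : S4_CON := t4_CON
theorem f_SIG : S4_SIG := t4_SIG v_GRT f_TPU f_UNR f_DEG
theorem f_MUL : S4_MUL := t4_MUL
theorem f_FIB : S4_FIB := t4_FIB v_GRT v_TWO v_DS2
theorem f_GPO : S4_GPO := t4_GPO v_GRT v_THT v_NE1 f_MUL f_FIB f_UNR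
theorem f_SQR : S4_SQR :=
  t4_SQR td_LAG td_PRD v_COE f_DST Pool.Agent.ME2E.ty_AUT Pool.Agent.ME2E.ty_GTA f_CON f_SIG v_NE1
    f_GPO
theorem f_ORB : S4_ORB := t4_ORB td_LAG td_PRD f_DST f_CON v_NE1 f_FIB f_GPO
theorem f_GLC : S4_GLC := t4_GLC f_CON
theorem f_XXS : S4_XXS := t4_XXS
theorem f_HEQ : S4_HEQ := t4_HEQ f_XXS
theorem f_HAL : S4_HAL := t4_HAL f_CON f_XXS
theorem f_COS : S4_COS := t4_COS f_CON
theorem f_MAIN : S4_MAIN := t4_MAIN f_CON f_SQR f_ORB f_COS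
theorem f_FIN : S4_FIN := t4_FIN f_CTX Pool.Agent.ME2E.ty_AUT f_CON f_GLC f_XXS f_HEQ f_HAL f_MAIN

/-- block E for `p = 2`, `D = -4` -/
theorem f_EFIN (h : T4_RFIN) : T4_EFIN := f_FIN h

end Pool.Agent.ME2F
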