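import Pool.Agent.ME2.StE4
import Pool.Agent.ME.X_TRA
import Pool.Agent.ME.X_TRB
import Pool.Agent.ME.X_FAC
import Pool.Agent.ME.X_GTH
import Pool.Agent.ME.X_PT
import Pool.Agent.ME.X_GAL
import Pool.Agent.MUX.XLib

/-!
# MUX-2R, block ER2: module ORB, the sum over one orbit of `1 + N w0`

`c_k = 1 + N k w0`, `N = 2^(n-1) f a`, `Q = om_0/m'`, `ξ_j = x(Q + j Y)`. The product of the fibres over the orbit is the same rational function over `V` at the
four points `ξ_j`, and it takes the same value at them: its logarithmic derivative is small (`LAG`, `DST`).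
-/

set_option autoImplicit false

open Polynomial

namespace Pool.Agent.ME2F

open _root_.MU3 Pool.Agent.MU3A Pool.Agent.MU3B Pool.Agent.MUX Pool.Agent.MUXU
open Pool.Agent.RI Pool.Agent.NS
open Pool.Agent.ME hiding ActE
open Pool.Agent.MEE Pool.Agent.ME2
open Pool.Agent.MUXE (RingE)
open Pool.Agent.N2 (GoodQ OddQ dR et yt WT PTq)
open Pool.Agent.N2E (dlg cc Sd_LAG Sd_PRD)
open Pool.Agent.N2V (IsoU NN w0 bb Sv_COE Sv_GRT Sv_UNT Sv_RAT Sv_THT Sv_NE1 Sv_PVI Sv_TWO Sv_DS2)
open Pool.Agent.ME2E (AutCE Sy_AUT Sy_GTA)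
open Pool.Agent.NSE (IntP)
open Pool.Agent.MUX2 (GRG)
open Pool.Agent.MUXV (InK tX)

noncomputable section

namespace ORB

lemma pf (j f : ℕ) (hf : f ≠ 0) : (2 ^ j * f).primeFactors ⊆ (2 * f).primeFactors := by
  intro p hp
  have h := Nat.mem_primeFactors.1 hp
  rw [Nat.mem_primeFactors]
  refine ⟨h.1, ?_, by omega⟩
  rcases (Nat.Prime.dvd_mul h.1).1 h.2.1 with h2 | h2
  · exact (h.1.dvd_of_dvd_pow h2).mul_right _
  · exact h2.mul_left _

variable {V : ValuationSubring ℂ}

/-- the values of a polynomial over `V` -/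
lemma ev {P : ℂ[X]} (hP : IntP V P) {x : ℂ} (hx : V.valuation x ≤ 1) :
    V.valuation (P.eval x) ≤ 1 := by
  rw [eval_eq_sum_range]
  refine Valuation.map_sum_le _ fun i _ => ?_
  rw [map_mul, map_pow]
  exact mul_le_one' (hP i) (pow_le_one' hx _)

lemma der {P : ℂ[X]} (hP : IntP V P) : IntP V (derivative P) := fun i => by
  rw [coeff_derivative, map_mul]
  refine mul_le_one' (hP _) ?_
  have h : ((i : ℂ) + 1) = ((i + 1 : ℕ) : ℂ) := by push_cast; rfl
  rw [h]
  exact (V.valuation_le_one_iff _).2 (natCast_mem V.toSubring _)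

/-- the logarithmic derivative and its numerator -/
lemma v_dlg {P Q : ℂ[X]} {x : ℂ} (hP : V.valuation (P.eval x) = 1)
    (hQ : V.valuation (Q.eval x) = 1) : V.valuation (dlg P Q x) =
    V.valuation ((derivative P).eval x * Q.eval x - P.eval x * (derivative Q).eval x) := by
  unfold dlg
  rw [map_div₀, map_mul (V.valuation) (P.eval x), hP, hQ, one_mul, div_one]

lemma v_dlg_le {P Q : ℂ[X]} {x : ℂ} (hP : IntP V P) (hQ : IntP V Q) (hx : V.valuation x ≤ 1)
    (hP1 : V.valuation (P.eval x) = 1) (hQ1 : V.valuation (Q.eval x) = 1) :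
    V.valuation (dlg P Q x) ≤ 1 := by
  rw [v_dlg hP1 hQ1]
  refine (Valuation.map_sub _ _ _).trans (max_le ?_ ?_)
  · rw [map_mul]
    exact mul_le_one' (ev (der hP) hx) hQ1.le
  · rw [map_mul]
    exact mul_le_one' hP1.le (ev (der hQ) hx)

end ORB

open ORB

/-- (ORB) the sum over one orbit of `1 + N w0` -/
theorem t4_ORB (h1 : Sd_LAG) (h2 : Sd_PRD) (h4 : S4_DST) (h5 : S4_CON) (h6 : Sv_NE1)
    (h8 : S4_FIB) (h7 : S4_GPO) : S4_ORB := by
  intro A B P V n f a m m' hE ι R u e a1 a3 hg H i hH x hx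
  have hc : CQ A B := hE.ctx.cq
  have hv2 := hE.ctx.v2
  have hf0 : f ≠ 0 := by have := hE.f3; omega
  have hm0 : m ≠ 0 := by
    rw [hE.hm]
    positivity
  have hm0' : m' ≠ 0 := by
    rw [hE.hm']
    positivity
  have hmC' : (m' : ℂ) ≠ 0 := by exact_mod_cast hm0'
  have hpf' : m'.primeFactors ⊆ (2 * f).primeFactors := by
    rw [hE.hm']
    exact pf (n + 1) f hf0
  have hmm' : m = 2 * m' := by
    rw [hE.hm, hE.hm']
    ring
  -- facts on the points
  obtain ⟨-, -, -, hPT0⟩ := tm_PT tm_TRA A B hE.ctx.ring (2 * f) ι R (by omega) R.i0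
  -- elements prime to `m` are units at `V`
  have h2P : ((2 : ℕ) : OO A B) ∈ P := by
    have h9 := (hE.ctx.pw 1 ((2 : ℕ) : OO A B)).2 (by
      rw [MUX.emb_natCast hc, pow_one]
      push_cast
      exact pow_le_of_le_one zero_le hv2.le (by norm_num))
    rwa [pow_one] at h9
  have hunit : ∀ y : OO A B, IsCoprime y ((m : ℕ) : OO A B) → y ∉ P := by
    intro y hy hy2
    obtain ⟨s, t, hst⟩ := hy
    have hmax := hE.ctx.max.ne_top
    apply hmax
    rw [Ideal.eq_top_iff_one, ← hst]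
    refine Ideal.add_mem _ (Ideal.mul_mem_left _ _ hy2) (Ideal.mul_mem_left _ _ ?_)
    rw [hmm']
    push_cast
    have h9 := Ideal.mul_mem_right ((m' : ℕ) : OO A B) P h2P
    push_cast at h9
    exact h9
  -- (1)
  have part1 : ∀ y : OO A B, IsCoprime y ((m : ℕ) : OO A B) →
      V.valuation (muXE R i * FFibE R a m m' i y / u) ≤ V.valuation (2 : ℂ) := by
    intro y hy
    obtain ⟨κ, k, P1, Q1, hP, hQ, -, hc1⟩ := h7 A B P V n f a m m' hE ι R u e a1 a3 hg H i hH y
      (hunit y hy)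
    obtain ⟨q1, q2, q3, q4, -, q6⟩ := hc1 1 (by rwa [one_mul])
    rw [one_mul] at q6
    have e1 : V.valuation (emb y) = 1 := hE.ctx.unit y (hunit y hy)
    have e2 : V.valuation (muXE R i * emb y * FFibE R a m m' i y / u) ≤ V.valuation (2 : ℂ) := by
      rw [q6, map_mul, map_mul, mul_assoc]
      exact mul_le_of_le_one_right' (mul_le_one' (v_dlg_le hP hQ q1 q3 q4) q2)
    have e3 : muXE R i * emb y * FFibE R a m m' i y / u =
        emb y * (muXE R i * FFibE R a m m' i y / u) := by ring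
    rwa [e3, map_mul, e1, one_mul] at e2
  refine ⟨part1 x hx, ?_⟩
  -- (2)
  intro y hy
  obtain ⟨c1, -, c3, c4, -, c6⟩ := h5 A B P V n f a m m' hE
  have hom : IsNE (⊤ : Ideal (OO A B)) (R.L R.i0) (R.om R.i0) := by
    have := R.nl R.i0
    rwa [R.b0] at this
  obtain ⟨d1, d2, d3, d4, -⟩ := c6 (R.L R.i0) (R.om R.i0) hom
  set N : ℕ := NN n f a with hN
  set L0 := R.L R.i0 with hL0
  set om := R.om R.i0 with hom0
  have hNL : NLE A B L0 := ⟨_, _, hom⟩
  set c : ℕ → OO A B := fun k => cc N ((k : OO A B) * w0) with hcdef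
  have hcc : ∀ k, IsCoprime (c k) ((m : ℕ) : OO A B) := fun k => (c1 _).2.1
  have hc0 : c 0 = 1 := by
    simp [hcdef, cc]
  have hmma : idl (A := A) (B := B) (m * a) ≤ idl (A := A) (B := B) m' := by
    refine Ideal.span_singleton_le_span_singleton.2 ⟨((2 * a : ℕ) : OO A B), ?_⟩
    rw [hmm']
    push_cast
    ring
  have hm'a : ((m' * a : ℕ) : OO A B) * w0 ∈ idl (A := A) (B := B) m' := by
    rw [Ideal.mem_span_singleton]
    refine ⟨(a : OO A B) * w0, ?_⟩
    push_cast
    ring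
  -- the points `Q + k Y`
  set Rp : ℂ := emb (w0 : OO A B) * (a * om / 4) with hRp
  have hck : ∀ k : ℕ, emb (c k) * (om / m') = om / m' + k * Rp := by
    intro k
    rw [hcdef]
    simp only
    rw [d1, d2]
  have hP0 : ∀ c : ℕ, (c : ℂ) * (om / m') ∈ L0.lattice → f ∣ c := by
    intro c hcL
    have h9 := ((hPT0 m' hm0' hpf' 1).2.2.2 ((c : ℕ) : OO A B)).1 (by
      rw [MUX.emb_natCast hc]
      exact hcL)
    obtain ⟨z, hz⟩ := h9
    have h10 := congrArg QuadraticAlgebra.re hz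
    have h11 : (c : ℤ) = (m' : ℤ) * z.re := by simpa using h10
    have h12 : m' ∣ c := Int.natCast_dvd_natCast.1 ⟨z.re, h11⟩
    refine dvd_trans ?_ h12
    rw [hE.hm']
    exact dvd_mul_left _ _
  have hmP : ((2 ^ (n + 1) * f : ℕ) : ℂ) * (om / m') ∈ L0.lattice := by
    rw [← hE.hm', mul_div_cancel₀ _ hmC']
    refine (hom.mem _).2 ⟨1, trivial, ?_⟩
    rw [MUX.emb_one hc, mul_one]
  obtain ⟨nk1, nk2, -⟩ := h6 V L0 u e a1 a3 hg hv2 (n + 1) f a hE.f3 hE.fo hE.ao hE.af (om / m')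
    hmP hP0
  obtain ⟨S, hS1, hS2, hS3⟩ := (h4 A B P V hE.ctx L0 u e a1 a3 hNL hg (om / m') nk1 nk2).2
    Rp d3 d4
  -- the fibres
  obtain ⟨κf, -, -, hfib⟩ := h8 A B P V n f a m m' hE ι R H i hH
  -- the data for `x_k = c_k x`
  have hxk : ∀ k, IsCoprime (c k * x) ((m : ℕ) : OO A B) := fun k => (hcc k).mul_left hx
  have data := fun k : ℕ => h7 A B P V n f a m m' hE ι R u e a1 a3 hg H i hH (c k * x)
    (hunit _ (hxk k))
  choose κ kk P1 Q1 hP hQ hκ hdat using data
  set ξ : ℕ → ℂ := fun j => xu L0 u e (om / m' + j * Rp) with hξ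
  have hξ0 : ξ 0 = xu L0 u e (om / m') := by
    rw [hξ]
    simp
  have D : ∀ j k : ℕ, V.valuation (ξ j) ≤ 1 ∧
      V.valuation ((P1 k).eval (ξ j)) = 1 ∧ V.valuation ((Q1 k).eval (ξ j)) = 1 ∧
      GFibE R H m m' i (c j * (c k * x)) * (Q1 k).eval (ξ j) =
        κ k * (P1 k).eval (ξ j) := by
    intro j k
    obtain ⟨q1, -, q3, q4, q5, -⟩ := hdat k (c j) ((hcc j).mul_left (hxk k))
    rw [hck] at q1 q3 q4 q5
    exact ⟨q1, q3, q4, q5⟩
  -- the product of the fibres does not depend on `j`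
  set Th : ℕ → ℂ := fun r => GFibE R H m m' i (c r * x) with hTh
  have hcong : ∀ j k : ℕ, c j * (c k * x) - c (j + k) * x ∈ idl (A := A) (B := B) m' := by
    intro j k
    have h9 := Ideal.mul_mem_left _ x (hmma (c3 j k))
    have h10 : x * (c j * c k - c (j + k)) = c j * (c k * x) - c (j + k) * x := by ring
    have h11 : x * (cc N ((j : OO A B) * w0) * cc N ((k : OO A B) * w0) -
        cc N (((j + k : ℕ) : OO A B) * w0)) = x * (c j * c k - c (j + k)) := rfl
    rw [h11, h10] at h9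
    exact h9
  have hTjk : ∀ j k : ℕ, GFibE R H m m' i (c j * (c k * x)) = Th (j + k) :=
    fun j k => ((hfib (c (j + k) * x) (hxk _)).2.2 _ (hcong j k)).1
  have hT4 : ∀ r : ℕ, Th (r + 4) = Th r := by
    intro r
    have h9 : c (r + 4) * x - c r * x ∈ idl (A := A) (B := B) m' := by
      have h10 := hmma (c3 r 4)
      have h11 : c 4 - 1 ∈ idl (A := A) (B := B) m' := by
        have h12 : c 4 - 1 = ((m' * a : ℕ) : OO A B) * w0 := c4
        rw [h12]
        exact hm'a
      have h13 : (c (r + 4) - c r) = -(c r * c 4 - c (r + 4)) + c r * (c 4 - 1) := by ring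
      have h14 : c (r + 4) * x - c r * x = x * (c (r + 4) - c r) := by ring
      rw [h14, h13]
      refine Ideal.mul_mem_left _ _ (Ideal.add_mem _ (neg_mem h10) (Ideal.mul_mem_left _ _ h11))
    exact ((hfib (c r * x) (hxk _)).2.2 _ h9).1
  have hprod : ∀ j, j < 4 → ∏ k ∈ Finset.range 4, Th (j + k) = ∏ k ∈ Finset.range 4, Th k := by
    intro j hj
    have e4 := hT4 0
    have e5 := hT4 1
    have e6 := hT4 2
    simp only [Finset.prod_range_succ, Finset.prod_range_zero, one_mul]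
    norm_num at e4 e5 e6
    interval_cases j
    · simp
    · norm_num
      rw [e4]
      ring
    · norm_num
      rw [e4, e5]
      ring
    · norm_num
      rw [e4, e5, e6]
      ring
  have hκ0 : ∀ k, κ k ≠ 0 := by
    intro k h0
    have h9 := hκ k
    rw [h0, map_zero] at h9
    have h10 : V.valuation (2 : ℂ) ≠ 0 := (Valuation.ne_zero_iff _).2 two_ne_zero
    exact pow_ne_zero 2 (zpow_ne_zero (kk k) h10) h9.symm
  -- the products of the rational functions
  obtain ⟨P', Q', hP', hQ', hPQ⟩ := h2 V ℕ (Finset.range 4) P1 Q1 (fun _ => 1)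
    (ξ '' {j | j < 4}) (fun k _ => ⟨hP k, hQ k, by
      rintro _ ⟨j, -, rfl⟩
      exact ⟨(D j k).2.1, (D j k).2.2.1⟩⟩)
  have hne : ∀ {w : ℂ}, V.valuation w = 1 → w ≠ 0 := fun {w} hw h0 => by
    rw [h0, map_zero] at hw
    exact zero_ne_one hw
  have hval : ∀ j, j < 4 → P'.eval (ξ j) * ∏ k ∈ Finset.range 4, κ k =
      Q'.eval (ξ j) * ∏ k ∈ Finset.range 4, Th k := by
    intro j hj
    obtain ⟨-, -, q3, -⟩ := hPQ (ξ j) ⟨j, hj, rfl⟩
    simp only [zpow_one] at q3
    have e1 : (∏ k ∈ Finset.range 4, Th k) * ∏ k ∈ Finset.range 4, (Q1 k).eval (ξ j) =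
        (∏ k ∈ Finset.range 4, κ k) * ∏ k ∈ Finset.range 4, (P1 k).eval (ξ j) := by
      rw [← hprod j hj, ← Finset.prod_mul_distrib, ← Finset.prod_mul_distrib]
      refine Finset.prod_congr rfl fun k _ => ?_
      rw [← hTjk]
      exact (D j k).2.2.2
    have e2 : (∏ k ∈ Finset.range 4, (Q1 k).eval (ξ j)) ≠ 0 :=
      Finset.prod_ne_zero_iff.2 fun k _ => hne (D j k).2.2.1
    apply mul_right_cancel₀ e2
    linear_combination (∏ k ∈ Finset.range 4, κ k) * q3 - Q'.eval (ξ j) * e1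
  have hKK : (∏ k ∈ Finset.range 4, κ k) ≠ 0 := Finset.prod_ne_zero_iff.2 fun k _ => hκ0 k
  have hcross : ∀ j, j < 4 → P'.eval (ξ j) * Q'.eval (ξ 0) = P'.eval (ξ 0) * Q'.eval (ξ j) := by
    intro j hj
    apply mul_right_cancel₀ hKK
    linear_combination Q'.eval (ξ 0) * hval j hj - Q'.eval (ξ j) * hval 0 (by norm_num)
  -- `LAG`
  obtain ⟨p1, p2, -, p4⟩ := hPQ (ξ 0) ⟨0, by norm_num, rfl⟩
  have hS1' : ξ 0 ∉ S := by
    rw [hξ0]
    exact hS1
  have hlag := (h1 V S (ξ 0) hS1' (D 0 0).1 (fun s hs => (hS2 s hs).1)).2.2.1 P' Q' hP' hQ' (by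
    intro s hs
    obtain ⟨-, k, hk, rfl⟩ := hS2 s hs
    exact hcross k hk)
  have hdR : dR A = 2 ∨ dR A = 3 := by
    unfold dR
    split_ifs
    · exact Or.inl rfl
    · exact Or.inr rfl
  have hdl : V.valuation (dlg P' Q' (ξ 0)) ^ 8 ≤ V.valuation (2 : ℂ) ^ (3 * (dR A - 1)) := by
    rw [v_dlg p1 p2]
    refine (pow_le_pow_left₀ zero_le hlag 8).trans ?_
    rw [hξ0]
    exact hS3
  -- the sum with the weights `emb x_k`
  have hsum : ∑ k ∈ Finset.range 4, muXE R i * emb (c k * x) *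
      FFibE R a m m' i (c k * x) / u = 2 * dlg P' Q' (ξ 0) * et L0 u (om / m') := by
    rw [p4, Finset.mul_sum, Finset.sum_mul]
    refine Finset.sum_congr rfl fun k _ => ?_
    obtain ⟨-, -, -, -, -, q6⟩ := hdat k 1 (by rw [one_mul]; exact hxk k)
    rw [one_mul, MUX.emb_one hc, one_mul] at q6
    rw [q6, hξ0]
    push_cast
    ring
  have het : V.valuation (et L0 u (om / m')) ≤ 1 := by
    obtain ⟨-, q2, -⟩ := hdat 0 1 (by rw [one_mul]; exact hxk 0)
    rwa [MUX.emb_one hc, one_mul] at q2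
  have hsum2 : V.valuation (∑ k ∈ Finset.range 4, muXE R i * emb (c k * x) *
      FFibE R a m m' i (c k * x) / u) ^ 8 ≤ V.valuation (2 : ℂ) ^ (3 * dR A + 5) := by
    rw [hsum, map_mul, map_mul, mul_pow, mul_pow]
    refine (mul_le_of_le_one_right' (pow_le_one' het 8)).trans ?_
    refine (mul_le_mul' le_rfl hdl).trans ?_
    rw [← pow_add]
    refine le_of_eq ?_
    congr 1
    omega
  -- replace the weights by `emb x`
  have v4 : V.valuation (4 : ℂ) = V.valuation (2 : ℂ) ^ 2 := by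
    rw [← map_pow]
    norm_num
  have hdiff : V.valuation (∑ k ∈ Finset.range 4, (emb (c k * x) - emb x) *
      (muXE R i * FFibE R a m m' i (c k * x) / u)) ≤ V.valuation (2 : ℂ) ^ 3 := by
    refine Valuation.map_sum_le _ fun k _ => ?_
    rw [map_mul]
    have e1 : V.valuation (emb (c k * x) - emb x) ≤ V.valuation (4 : ℂ) := by
      have e2 : c k * x - x = ((4 : ℕ) : OO A B) * (((2 ^ (n - 3) * f * a : ℕ) : OO A B) *
          ((k : OO A B) * w0) * x) := by
        have e3 : N = 4 * (2 ^ (n - 3) * f * a) := by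
          have e4 : 2 ^ (n - 1) = 4 * 2 ^ (n - 3) := by
            have := hE.n5
            have e6 : n - 1 = 2 + (n - 3) := by omega
            rw [e6, pow_add]
            norm_num
          rw [hN, NN, e4]
          ring
        have e5 : c k = 1 + ((N : ℕ) : OO A B) * ((k : OO A B) * w0) := rfl
        rw [e5, e3]
        push_cast
        ring
      rw [← MUX.emb_sub hc, e2, MUX.emb_mul hc, MUX.emb_natCast hc, map_mul]
      push_cast
      exact mul_le_of_le_one_right' (hE.ctx.int _)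
    refine (mul_le_mul' e1 (part1 _ (hxk k))).trans (le_of_eq ?_)
    rw [v4]
    exact (pow_succ _ 2).symm
  have key : emb x * ((∑ k ∈ Finset.range 4, muXE R i * FFibE R a m m' i (y k)) / u) =
      (∑ k ∈ Finset.range 4, muXE R i * emb (c k * x) *
        FFibE R a m m' i (c k * x) / u) -
      ∑ k ∈ Finset.range 4, (emb (c k * x) - emb x) *
        (muXE R i * FFibE R a m m' i (c k * x) / u) := by
    rw [← Finset.sum_sub_distrib, Finset.sum_div, Finset.mul_sum]
    refine Finset.sum_congr rfl fun k hk => ?_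
    rw [((hfib (c k * x) (hxk k)).2.2 _ (hy k (Finset.mem_range.1 hk))).2]
    show emb x * (muXE R i * FFibE R a m m' i (c k * x) / u) = _
    ring
  have vx : V.valuation (emb x) = 1 := hE.ctx.unit x (hunit x hx)
  have e7 : V.valuation ((∑ k ∈ Finset.range 4, muXE R i *
      FFibE R a m m' i (y k)) / u) = V.valuation (emb x *
      ((∑ k ∈ Finset.range 4, muXE R i * FFibE R a m m' i (y k)) / u)) := by
    rw [map_mul, vx, one_mul]
  rw [e7, key]
  have e8 := Valuation.map_sub V.valuation (∑ k ∈ Finset.range 4, muXE R i * emb (c k * x) *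
        FFibE R a m m' i (c k * x) / u)
      (∑ k ∈ Finset.range 4, (emb (c k * x) - emb x) *
        (muXE R i * FFibE R a m m' i (c k * x) / u))
  refine (pow_le_pow_left₀ zero_le e8 8).trans ?_
  rcases le_total (V.valuation (∑ k ∈ Finset.range 4, muXE R i * emb (c k * x) *
        FFibE R a m m' i (c k * x) / u))
      (V.valuation (∑ k ∈ Finset.range 4, (emb (c k * x) - emb x) *
        (muXE R i * FFibE R a m m' i (c k * x) / u))) with h | h
  · rw [max_eq_right h]
    refine (pow_le_pow_left₀ zero_le hdiff 8).trans ?_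
    rw [← pow_mul]
    refine pow_le_pow_of_le_one zero_le hv2.le ?_
    omega
  · rw [max_eq_left h]
    exact hsum2

end

end Pool.Agent.ME2F
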