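import Pool.Agent.ME2.ZFinE

/-!
# ME: the final theorems for `D = -3, -4`, from the main theorem for ray class fields to fields contained in a ray class field (helper21)
-/

set_option autoImplicit false

open NumberField IsDedekindDomain

namespace Pool.Agent.ME2

open _root_.MU3 Pool.Agent.MU3 Pool.Agent.MU3A Pool.Agent.MU3B Pool.Agent.RI Pool.Agent.RID
  Pool.Agent.MUX Pool.Agent.MUXK Pool.Agent.MUXE Pool.Agent.MUXJ Pool.Agent.NSZ
open Pool.Agent.ME hiding ActE

/-- `F` over itself -/
theorem ext_self (F : IntermediateField ℚ ℂ) :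
    IsGalois F (IntermediateField.extendScalars (le_refl F)) ∧
    Module.finrank F (IntermediateField.extendScalars (le_refl F)) = 1 := by
  have e : IntermediateField.extendScalars (le_refl F) = ⊥ := by
    rw [eq_bot_iff]
    intro x hx
    rw [IntermediateField.mem_bot]
    exact ⟨⟨x, hx⟩, rfl⟩
  rw [e]
  exact ⟨inferInstance, IntermediateField.finrank_bot⟩

/-- the bound for a field which is contained in a ray class field, from the main theorem -/
theorem fin_of {p : ℕ} {A B : ℤ}
    (hmain : ∀ (F M K : IntermediateField ℚ ℂ) [FiniteDimensional ℚ M] (_ : kk A B ≤ F)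
      (h : F ≤ M) (a : ℕ), TorU_E A B F → IsGalois F (IntermediateField.extendScalars h) →
      Module.finrank F (IntermediateField.extendScalars h) = p ^ a → K ≤ M →
      ∃ C : ℕ, ∀ (n : ℕ) (Q : IntermediateField ℚ ℂ), IsLayer p n Q →
        padicValNat p (classNo (K ⊔ Q)) ≤ C * (n + 1) ^ C)
    (K : IntermediateField ℚ ℂ) [FiniteDimensional ℚ K] (hk : kk A B ≤ K) (hTU : TorU_E A B K) :
    ∃ C : ℕ, ∀ (n : ℕ) (Q : IntermediateField ℚ ℂ), IsLayer p n Q →
      padicValNat p (classNo (K ⊔ Q)) ≤ C * (n + 1) ^ C := by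
  obtain ⟨h1, h2⟩ := ext_self K
  exact hmain K K K hk le_rfl 0 hTU h1 (by rw [h2, pow_zero]) le_rfl

end Pool.Agent.ME2
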