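import Pool.Agent.ME.G_Lib
import Pool.Agent.ME2.Defs3
import Pool.Agent.N2.GS_Gpt
import Pool.Agent.N2.GAll

/-!
# ME2, block G (helper6): Theorem G for combinations of translates in the frame of the exceptional fields; `T3_GPT`
-/

set_option autoImplicit false

namespace Pool.Agent.MEG

open _root_.MU3 Pool.Agent.MU3A Pool.Agent.MU3B Pool.Agent.MU3Q Pool.Agent.MUX Pool.Agent.MuSym
  Pool.Agent.MUXN Pool.Agent.NS Pool.Agent.NSG Pool.Agent.N2 OnePoint UpperHalfPlane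
open Pool.Agent.ME hiding ActE
open Pool.Agent.MUXU

noncomputable section

variable {A B : ℤ} {n : ℕ} {ι : Type}

theorem rE_ne (A B : ℤ) : (rE A B : ℂ) ≠ 0 := by
  unfold rE
  split_ifs <;> norm_num

/-- the sum over the one element -/
theorem phiKE_eq (hE : CaseE A B) [Fintype ι] (R : RepsE A B n ι) (e : OO A B → ℂ) (kk : ι → ℂ)
    (x y : OnePoint ℚ) : PhiKE R e kk x y = kk R.i0 * PhiI (R.b R.i0) e x y := by
  unfold PhiKE
  rw [Finset.sum_eq_single R.i0]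
  · intro i _ hi
    exact absurd (ME2.one_elt hE R i) hi
  · intro h
    exact absurd (Finset.mem_univ _) h

/-- Theorem G for the combination `Σ_t cc t P(x + t/q, y + t/q)` of translates of `P = PhiKE R e kk / (u om)` -/
theorem gptQE (hE : CaseE A B) (hT : TorXE A B) {V : ValuationSubring ℂ} (hLoc : LocN A B V)
    (hn : 2 ≤ n) [Fintype ι] (R : RepsE A B n ι) {u : ℂ} (hu : u ≠ 0) (hua : IsAlgebraic ℚ u)
    {L' : PeriodPair} {S₀ : Finset ℂ} (hB : BinP V L' S₀) (hL : LatO A B L' (u * R.om R.i0))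
    {e : OO A B → ℂ} (he : IsEIE (idl (A := A) (B := B) n) e) {r : ℕ} (hr : r ≠ 0)
    (her : ∀ x, e x ≠ 0 → e x ^ r = 1) {kk : ι → ℂ} (hkk : V.valuation (kk R.i0) = 1)
    {N' : ℕ} (hN' : N' ≠ 0) (hNd : absD A B * ((n : ℕ) : ℤ) ^ 2 ∣ (N' : ℤ)) {q : ℕ} (hq : 0 < q)
    (cc : Fin q → ℂ) (hs : ∑ t, cc t * zq q ^ (t : ℕ) ≠ 0) :
    ∃ a b c d : ℤ, a * d - b * c = 1 ∧ (N' : ℤ) ∣ c ∧ (N' : ℤ) ∣ d - 1 ∧
      V.valuation (rE A B : ℂ) * V.valuation (∑ t, cc t * zq q ^ (t : ℕ)) ≤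
        V.valuation (∑ t : Fin q, cc t *
        (PhiKE R e kk (mob q (t : ℕ) 0 q ∞) (mob q (t : ℕ) 0 q (mob a b c d ∞)) /
          (u * R.om R.i0))) := by
  classical
  have hD := gdatQE hE hT hq hn R e he r hr her u hu hua N' hN' hNd
  have hfE : Finite (ECK e) := eck_fin hr her
  have hFt : Fintype (ECK e) := Fintype.ofFinite _
  have heE : e ∈ ECK e := ⟨RingEquiv.refl ℂ, rfl, rfl⟩
  obtain ⟨s, hs'⟩ : ∃ s, s = (rE A B : ℂ) * ∑ t, cc t * zq q ^ (t : ℕ) := ⟨_, rfl⟩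
  have hs0 : s ≠ 0 := by
    rw [hs']
    exact mul_ne_zero (rE_ne A B) hs
  rw [← map_mul, ← hs']
  set w : ECK e × Fin q → ℂ := fun j => if j.1 = ⟨e, heE⟩ then kk R.i0 * cc j.2 / s else 0
    with hw
  have hsum : ∀ F : ECK e × Fin q → ℂ, ∑ j, w j * F j =
      ∑ t, kk R.i0 * cc t / s * F (⟨e, heE⟩, t) := by
    intro F
    rw [Fintype.sum_prod_type, Finset.sum_eq_single (⟨e, heE⟩ : ECK e)]
    · refine Finset.sum_congr rfl fun t _ => ?_
      rw [hw]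
      beta_reduce
      rw [if_pos rfl]
    · intro e' _ he'
      refine Finset.sum_eq_zero fun t _ => ?_
      rw [hw]
      beta_reduce
      rw [if_neg he', zero_mul]
    · intro h
      exact absurd (Finset.mem_univ _) h
  have hα : ∑ j, w j * a1E A B q e j = kk R.i0 := by
    rw [hsum]
    have e1 : ∀ t : Fin q, kk R.i0 * cc t / s * a1E A B q e (⟨e, heE⟩, t) =
        kk R.i0 / s * ((rE A B : ℂ) * (cc t * zq q ^ (t : ℕ))) := by
      intro t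
      unfold a1E
      ring
    rw [Finset.sum_congr rfl fun t _ => e1 t, ← Finset.mul_sum, ← Finset.mul_sum, ← hs',
      div_mul_cancel₀ _ hs0]
  obtain ⟨a, b, c, d, m1, m2, m3, m4⟩ := gen_GTH tg_RET tg_NFE (tg_DSC tg_DSI) tg_ZL
    (tg_FK u_AUF) tg_FGG hE.toCQ hD hLoc hB hL w (by
      rw [hα, ValuationSubring.mem_nonunits_iff, hkk]
      exact lt_irrefl _)
  have hcast : ((q ^ 2 * N' : ℕ) : ℤ) = (q : ℤ) ^ 2 * (N' : ℤ) := by push_cast; ring
  rw [hcast] at m2 m3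
  refine ⟨a, b, c, d, m1, dvd_trans (Dvd.intro_left _ rfl) m2, dvd_trans (Dvd.intro_left _ rfl) m3,
    ?_⟩
  rw [ValuationSubring.mem_nonunits_iff, not_lt, hsum] at m4
  have e2 : (∑ t, kk R.i0 * cc t / s * PsE q R e (⟨e, heE⟩, t) ∞ (mob a b c d ∞)) /
      (u * R.om R.i0) = (∑ t : Fin q, cc t *
        (PhiKE R e kk (mob q (t : ℕ) 0 q ∞) (mob q (t : ℕ) 0 q (mob a b c d ∞)) /
          (u * R.om R.i0))) / s := by
    rw [Finset.sum_div, Finset.sum_div]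
    refine Finset.sum_congr rfl fun t _ => ?_
    rw [phiKE_eq hE]
    unfold PsE
    dsimp only
    ring
  rw [e2, map_div₀] at m4
  have hs3 : (0 : V.ValueGroup) < V.valuation s := zero_lt_iff.2 ((Valuation.ne_zero_iff _).2 hs0)
  have := (le_div_iff₀ hs3).1 m4
  rw [one_mul] at this
  exact this

/-- Theorem G+ at `p = 2` for the combination `Σ_t cc t P(x + t/q, y + t/q)` -/
theorem gptEE (hE : CaseE A B) (hT : TorXE A B) {V : ValuationSubring ℂ} (hLoc : LocN A B V)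
    (hn : 2 ≤ n) (hn2 : 2 ∣ n) [Fintype ι] (R : RepsE A B n ι) {u : ℂ} (hu : u ≠ 0)
    (hua : IsAlgebraic ℚ u) {L' : PeriodPair} {S₀ : Finset ℂ} (hB : BinE V L' S₀)
    (hL : LatO A B L' (u * R.om R.i0)) {e : OO A B → ℂ}
    (he : IsEIE (idl (A := A) (B := B) n) e) {r : ℕ} (hr : r ≠ 0)
    (her : ∀ x, e x ≠ 0 → e x ^ r = 1) {kk : ι → ℂ} (hkk : V.valuation (kk R.i0) = 1)
    {N' : ℕ} (hN' : N' ≠ 0) (hNd : absD A B * ((n : ℕ) : ℤ) ^ 2 ∣ (N' : ℤ)) {q : ℕ} (hq : 0 < q)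
    (cc : Fin q → ℂ) (hs : V.valuation (2 : ℂ) < V.valuation (∑ t, cc t * zq q ^ (t : ℕ)) ^ 3) :
    ∃ a b c d : ℤ, a * d - b * c = 1 ∧ (N' : ℤ) ∣ c ∧ (N' : ℤ) ∣ d - 1 ∧
      V.valuation (rE A B : ℂ) < V.valuation (∑ t : Fin q, cc t *
        (PhiKE R e kk (mob q (t : ℕ) 0 q ∞) (mob q (t : ℕ) 0 q (mob a b c d ∞)) /
          (u * R.om R.i0))) := by
  classical
  have hD := gdatEE hE hT hq hn hn2 R e he r hr her u hu hua N' hN' hNd
  have hfE : Finite (ECK e) := eck_fin hr her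
  have hFt : Fintype (ECK e) := Fintype.ofFinite _
  have heE : e ∈ ECK e := ⟨RingEquiv.refl ℂ, rfl, rfl⟩
  obtain ⟨s, hs'⟩ : ∃ s, s = ∑ t, cc t * zq q ^ (t : ℕ) := ⟨_, rfl⟩
  rw [← hs'] at hs
  have hr0 := rE_ne A B
  set w : ECK e × Fin q → ℂ := fun j => if j.1 = ⟨e, heE⟩ then kk R.i0 * cc j.2 / rE A B else 0
    with hw
  have hsum : ∀ F : ECK e × Fin q → ℂ, ∑ j, w j * F j =
      ∑ t, kk R.i0 * cc t / rE A B * F (⟨e, heE⟩, t) := by
    intro F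
    rw [Fintype.sum_prod_type, Finset.sum_eq_single (⟨e, heE⟩ : ECK e)]
    · refine Finset.sum_congr rfl fun t _ => ?_
      rw [hw]
      beta_reduce
      rw [if_pos rfl]
    · intro e' _ he'
      refine Finset.sum_eq_zero fun t _ => ?_
      rw [hw]
      beta_reduce
      rw [if_neg he', zero_mul]
    · intro h
      exact absurd (Finset.mem_univ _) h
  have hα : ∑ j, w j * a1E A B q e j = kk R.i0 * s := by
    rw [hsum]
    have e1 : ∀ t : Fin q, kk R.i0 * cc t / rE A B * a1E A B q e (⟨e, heE⟩, t) =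
        kk R.i0 * (cc t * zq q ^ (t : ℕ)) := by
      intro t
      unfold a1E
      field_simp
    rw [Finset.sum_congr rfl fun t _ => e1 t, ← Finset.mul_sum, ← hs']
  obtain ⟨a, b, c, d, m1, m2, m3, m4⟩ := gen_GTH_E tg_RET tg_NFE (tg_DSC tg_DSI) tg_ZL
    (tg_FK u_AUF) tg_FGG hE.toCQ hD hLoc hB hL w (by
      unfold TV
      rw [hα, map_mul, hkk, one_mul]
      exact not_le.2 hs)
  have hcast : ((q ^ 2 * N' : ℕ) : ℤ) = (q : ℤ) ^ 2 * (N' : ℤ) := by push_cast; ring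
  rw [hcast] at m2 m3
  refine ⟨a, b, c, d, m1, dvd_trans (Dvd.intro_left _ rfl) m2, dvd_trans (Dvd.intro_left _ rfl) m3,
    ?_⟩
  rw [← V.valuation_le_one_iff, not_le, hsum] at m4
  have e2 : (∑ t, kk R.i0 * cc t / rE A B * PsE q R e (⟨e, heE⟩, t) ∞ (mob a b c d ∞)) /
      (u * R.om R.i0) = (∑ t : Fin q, cc t *
        (PhiKE R e kk (mob q (t : ℕ) 0 q ∞) (mob q (t : ℕ) 0 q (mob a b c d ∞)) /
          (u * R.om R.i0))) / rE A B := by
    rw [Finset.sum_div, Finset.sum_div]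
    refine Finset.sum_congr rfl fun t _ => ?_
    rw [phiKE_eq hE]
    unfold PsE
    dsimp only
    ring
  rw [e2, map_div₀] at m4
  have hs3 : (0 : V.ValueGroup) < V.valuation (rE A B : ℂ) :=
    zero_lt_iff.2 ((Valuation.ne_zero_iff _).2 hr0)
  have := (lt_div_iff₀ hs3).1 m4
  rw [one_mul] at this
  exact this

/-! ### The lattice -/

/-- the values of `℘` at torsion points of normalised lattices are algebraic -/
theorem tor_algE (hE : CaseE A B) (hT : TorXE A B) {b : Ideal (OO A B)} {L : PeriodPair} {om : ℂ}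
    (hL : IsNE b L om) {n : ℕ} (hn : n ≠ 0) {z : ℂ} (hz : (n : ℂ) * z ∈ L.lattice)
    (hz' : z ∉ L.lattice) : IsAlgebraic ℚ (L.weierstrassP z) := by
  have hc := hE.toCQ
  have hm : idl (A := A) (B := B) n ≠ ⊥ := by
    intro h0
    rw [Ideal.span_singleton_eq_bot] at h0
    have h1 := congrArg QuadraticAlgebra.re h0
    rw [QuadraticAlgebra.re_natCast, QuadraticAlgebra.re_zero] at h1
    exact hn (by exact_mod_cast h1)
  have hf := hT.fin _ hm
  have hmem : xnE L z ∈ RFE (idl (A := A) (B := B) n) :=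
    IntermediateField.subset_adjoin _ _ ⟨b, L, om, hL, Or.inr
      ⟨z, Pool.Agent.NSR.UNR.tor_of_mul hc hL.toIsLI hz, hz', rfl⟩⟩
  have h1 : IsAlgebraic (kk A B) (⟨xnE L z, hmem⟩ : RFE (idl (A := A) (B := B) n)) :=
    Algebra.IsAlgebraic.isAlgebraic _
  exact alg_of hc (h1.algebraMap (A := ℂ))

theorem g_algE {L : PeriodPair} (hL : NrmE A B L) : IsAlgebraic ℚ L.g₂ ∧ IsAlgebraic ℚ L.g₃ := by
  have hq : ∀ q : ℚ, IsAlgebraic ℚ (q : ℂ) := fun q => isAlgebraic_algebraMap (A := ℂ) q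
  rw [hL.g2, hL.g3]
  unfold g2E g3E
  constructor
  · split_ifs
    · exact_mod_cast hq 4
    · exact_mod_cast hq 0
  · split_ifs
    · exact_mod_cast hq 0
    · exact_mod_cast hq (-4)

/-- algebraicity of the coefficients of a model with two points of order three -/
theorem leg3_algE (hE : CaseE A B) (hT : TorXE A B) {b : Ideal (OO A B)} {L : PeriodPair} {om : ℂ}
    (hL : IsNE b L om) {u e a1 a3 : ℂ} (hu0 : u ≠ 0)
    (htor : ∃ w1 w2 : ℂ, 3 * w1 ∈ L.lattice ∧ 3 * w2 ∈ L.lattice ∧ w1 ∉ L.lattice ∧ w2 ∉ L.lattice ∧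
      w2 - w1 ∉ L.lattice ∧ w2 + w1 ∉ L.lattice ∧ e = L.weierstrassP w1 ∧
      u ^ 2 = L.weierstrassP w2 - L.weierstrassP w1)
    (heq : ∀ z ∉ L.lattice, (L.derivWeierstrassP z / u ^ 3) ^ 2 =
      4 * ((L.weierstrassP z - e) / u ^ 2) ^ 3 + (a1 * ((L.weierstrassP z - e) / u ^ 2) + a3) ^ 2) :
    IsAlgebraic ℚ u ∧ IsAlgebraic ℚ e ∧ IsAlgebraic ℚ a1 ∧ IsAlgebraic ℚ a3 := by
  obtain ⟨k2, k3⟩ := g_algE hL.nrm
  have hq : ∀ q : ℚ, IsAlgebraic ℚ (q : ℂ) := fun q => isAlgebraic_algebraMap (A := ℂ) q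
  obtain ⟨w1, w2, t1, t2, n1, n2, -, -, he, hu⟩ := htor
  have p1 : IsAlgebraic ℚ (L.weierstrassP w1) :=
    tor_algE hE hT hL (n := 3) (by norm_num) (by exact_mod_cast t1) n1
  have p2 : IsAlgebraic ℚ (L.weierstrassP w2) :=
    tor_algE hE hT hL (n := 3) (by norm_num) (by exact_mod_cast t2) n2
  have hu2 : IsAlgebraic ℚ (u ^ 2) := by rw [hu]; exact p2.sub p1
  have hua : IsAlgebraic ℚ u := IsAlgebraic.of_pow (by norm_num) hu2
  have dsq : ∀ w : ℂ, w ∉ L.lattice → IsAlgebraic ℚ (L.weierstrassP w) →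
      IsAlgebraic ℚ ((L.derivWeierstrassP w / u ^ 3) ^ 2) := by
    intro w hw ha
    have e1 : (L.derivWeierstrassP w / u ^ 3) ^ 2 = (((4 : ℚ) : ℂ) * L.weierstrassP w ^ 3 -
        L.g₂ * L.weierstrassP w - L.g₃) * ((u ^ 2) ^ 3)⁻¹ := by
      rw [div_pow, L.derivWeierstrassP_sq w hw]
      push_cast
      rw [div_eq_mul_inv]
      congr 2
      ring
    rw [e1]
    exact ((((hq 4).mul (ha.pow 3)).sub (k2.mul ha)).sub k3).mul (hu2.pow 3).inv
  have ha3 : IsAlgebraic ℚ a3 := by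
    have h1 := heq w1 n1
    rw [he, sub_self, zero_div, mul_zero, zero_add] at h1
    have h2 : a3 ^ 2 = (L.derivWeierstrassP w1 / u ^ 3) ^ 2 := by
      rw [h1]
      ring
    refine IsAlgebraic.of_pow (n := 2) (by norm_num) ?_
    rw [h2]
    exact dsq w1 n1 p1
  refine ⟨hua, by rw [he]; exact p1, ?_, ha3⟩
  have h1 := heq w2 n2
  have e1 : (L.weierstrassP w2 - e) / u ^ 2 = 1 := by
    rw [he, ← hu]
    exact div_self (pow_ne_zero _ hu0)
  rw [e1] at h1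
  have h2 : (a1 + a3) ^ 2 = (L.derivWeierstrassP w2 / u ^ 3) ^ 2 - ((4 : ℚ) : ℂ) := by
    rw [h1]
    push_cast
    ring
  have h3 : IsAlgebraic ℚ (a1 + a3) := by
    refine IsAlgebraic.of_pow (n := 2) (by norm_num) ?_
    rw [h2]
    exact (dsq w2 n2 p2).sub (hq 4)
  have h4 : a1 = (a1 + a3) - a3 := by ring
  rw [h4]
  exact h3.sub ha3

/-- the lattice `u L` is `u om O` -/
theorem latE {n : ℕ} (R : RepsE A B n ι) {u : ℂ} (hu : u ≠ 0) {L' : PeriodPair}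
    (hL' : ∀ z, z ∈ (R.L R.i0).lattice ↔ u * z ∈ L'.lattice) :
    LatO A B L' (u * R.om R.i0) := by
  have ho : R.om R.i0 ≠ 0 := (R.nl R.i0).om_ne
  refine ⟨mul_ne_zero hu ho, fun z => ?_⟩
  have e1 : z = u * (u⁻¹ * z) := by rw [mul_inv_cancel_left₀ hu]
  rw [e1, ← hL' (u⁻¹ * z), (R.nl R.i0).mem]
  constructor
  · rintro ⟨x, -, hx⟩
    exact ⟨x, by rw [hx]; ring⟩
  · rintro ⟨x, hx⟩
    refine ⟨x, by rw [R.b0]; trivial, ?_⟩
    apply mul_left_cancel₀ hu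
    rw [hx]
    ring

/-- the lattice `u L`, its integrality property at `V` -/
theorem legTE (hE : CaseE A B) (hT : TorXE A B) {n : ℕ}
    (R : RepsE A B n ι) {V : ValuationSubring ℂ} (h2V : V.valuation (2 : ℂ) < 1) {u e a1 a3 : ℂ}
    (h : GoodT V (R.L R.i0) u e a1 a3) :
    ∃ (L' : PeriodPair) (S : Finset ℂ), BinP V L' S ∧ LatO A B L' (u * R.om R.i0) := by
  obtain ⟨L', hL'⟩ := u_SCX (R.L R.i0) u h.u0
  obtain ⟨s1, s2, -, -⟩ := ta_SCP (R.L R.i0) L' u h.u0 hL'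
  obtain ⟨-, -, k1, k3⟩ := leg3_algE hE hT (R.nl R.i0) h.u0 h.tor h.eq
  refine ⟨L', {a1, a3}, ?_, latE R h.u0 hL'⟩
  refine bin_T Pool.Agent.MU3Q.wq (tg_GP tg_GV tg_GD) tg_DV V h2V L' (e / u ^ 2) a1 a3 ?_ k1 k3
    h.v1 h.v3
  intro z hz
  have e1 : z = u * (u⁻¹ * z) := by rw [mul_inv_cancel_left₀ h.u0]
  have hz' : u⁻¹ * z ∉ (R.L R.i0).lattice := by
    intro h4
    apply hz
    rw [e1]
    exact (hL' _).1 h4
  have h5 := h.eq _ hz'
  rw [e1, s1, s2, h5]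
  have hu := h.u0
  ring

/-- (GPT) `p = 2`, `D = -3` -/
theorem g_GPT3 : Pool.Agent.ME2.T3_GPT := by
  classical
  intro A B V f hST hT ι _ R u el a1 a3 hg e he r hr her kk hkk N' hN' hNd
  have hE : CaseE A B := hST.case
  have hc : CQ A B := hE.toCQ
  have hv2 : V.valuation (2 : ℂ) < 1 := by
    have := vp (p := 2) hST.hV
    exact_mod_cast this
  have hLoc := loc_p Nat.prime_two hc hST.hV
  obtain ⟨L', S₀, hB, hL⟩ := legTE hE hT R hv2 hg
  have hn : 2 ≤ 2 * f := by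
    have := Nat.pos_of_ne_zero hST.f0
    omega
  have hua := (leg3_algE hE hT (R.nl R.i0) hg.u0 hg.tor hg.eq).1
  have hrE : V.valuation (rE A B : ℂ) = 1 := by
    have h3 : rE A B = 3 := by
      unfold rE
      rw [hST.hB]
      rfl
    rw [h3]
    exact vNp V 2 Nat.prime_two (by exact_mod_cast hv2) 3 (by norm_num)
  have key : ∀ (cc : Fin 16 → ℂ) (hs : ∑ t, cc t * zq 16 ^ (t : ℕ) ≠ 0), _ :=
    fun (cc : Fin 16 → ℂ) (hs : ∑ t, cc t * zq 16 ^ (t : ℕ) ≠ 0) =>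
    gptQE hE hT hLoc hn R hg.u0 hua
      hB hL he hr her hkk hN' hNd (q := 16) (by norm_num) cc hs
  rw [hrE] at key
  simp only [one_mul] at key
  have hz16 : (1 : ℂ) - zq 16 ≠ 0 := by
    intro h0
    exact (zq_prim (q := 16) (by norm_num)).ne_one (by norm_num) (by linear_combination -h0)
  have hz4 : (1 : ℂ) - zq 16 ^ 4 ≠ 0 := by
    intro h0
    have h1 : zq 16 ^ 4 = 1 := by linear_combination -h0
    have h2 := (zq_prim (q := 16) (by norm_num)).pow_eq_one_iff_dvd 4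
    have h3 := h2.1 h1
    norm_num at h3
  constructor
  · obtain ⟨cc, hcc⟩ : ∃ cc : Fin 16 → ℂ, cc = fun t => (if t = 0 then 1 else 0) -
      (if t = 1 then 1 else 0) := ⟨_, rfl⟩
    have hF : ∀ F : Fin 16 → ℂ, ∑ t, cc t * F t = F 0 - F 1 := by
      intro F
      rw [hcc]
      simp only [sub_mul, ite_mul, one_mul, zero_mul, Finset.sum_sub_distrib, Finset.sum_ite_eq',
        Finset.mem_univ, if_true]
    have hs : ∑ t, cc t * zq 16 ^ (t : ℕ) = 1 - zq 16 := by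
      rw [hF (fun t => zq 16 ^ (t : ℕ))]
      norm_num
    obtain ⟨a, b, c, d, m1, m2, m3, m4⟩ := key cc (by rw [hs]; exact hz16)
    refine ⟨a, b, c, d, m1, m2, m3, ?_⟩
    rw [hs, hF (fun t => PhiKE R e kk (mob (16 : ℕ) (t : ℕ) 0 (16 : ℕ) ∞)
      (mob (16 : ℕ) (t : ℕ) 0 (16 : ℕ) (mob a b c d ∞)) / (u * R.om R.i0))] at m4
    rw [← v16 V]
    refine pow_le_pow_left₀ zero_le ?_ 8
    unfold PTq
    dsimp only
    have e0 : (((0 : Fin 16) : ℕ) : ℤ) = 0 := rfl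
    have e1 : (((1 : Fin 16) : ℕ) : ℤ) = 1 := rfl
    rw [e0, e1] at m4
    rw [TrQ.mob_zero _ (by norm_num), TrQ.mob_zero _ (by norm_num)] at m4
    exact m4
  · obtain ⟨cc, hcc⟩ : ∃ cc : Fin 16 → ℂ, cc = fun t => (if t = 0 then 1 else 0) -
      (if t = 1 then 1 else 0) - (if t = 4 then 1 else 0) + (if t = 5 then 1 else 0) := ⟨_, rfl⟩
    have hF : ∀ F : Fin 16 → ℂ, ∑ t, cc t * F t = F 0 - F 1 - F 4 + F 5 := by
      intro F
      rw [hcc]
      simp only [sub_mul, add_mul, ite_mul, one_mul, zero_mul, Finset.sum_sub_distrib,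
        Finset.sum_add_distrib, Finset.sum_ite_eq', Finset.mem_univ, if_true]
    have hs : ∑ t, cc t * zq 16 ^ (t : ℕ) = (1 - zq 16) * (1 - zq 16 ^ 4) := by
      rw [hF (fun t => zq 16 ^ (t : ℕ))]
      norm_num
      ring
    obtain ⟨a, b, c, d, m1, m2, m3, m4⟩ := key cc (by rw [hs]; exact mul_ne_zero hz16 hz4)
    refine ⟨a, b, c, d, m1, m2, m3, ?_⟩
    rw [hs, hF (fun t => PhiKE R e kk (mob (16 : ℕ) (t : ℕ) 0 (16 : ℕ) ∞)
      (mob (16 : ℕ) (t : ℕ) 0 (16 : ℕ) (mob a b c d ∞)) / (u * R.om R.i0))] at m4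
    have hv : V.valuation (2 : ℂ) ^ 5 = V.valuation ((1 - zq 16) * (1 - zq 16 ^ 4)) ^ 8 := by
      rw [map_mul, mul_pow, v16, show (8 : ℕ) = 2 * 4 by norm_num, pow_mul, v4, ← pow_succ']
    rw [hv]
    refine pow_le_pow_left₀ zero_le ?_ 8
    unfold PTq
    dsimp only
    have e0 : (((0 : Fin 16) : ℕ) : ℤ) = 0 := rfl
    have e1 : (((1 : Fin 16) : ℕ) : ℤ) = 1 := rfl
    have e4 : (((4 : Fin 16) : ℕ) : ℤ) = 4 := rfl
    have e5 : (((5 : Fin 16) : ℕ) : ℤ) = 5 := rfl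
    rw [e0, e1, e4, e5] at m4
    rw [TrQ.mob_zero _ (by norm_num), TrQ.mob_zero _ (by norm_num)] at m4
    have t4 : ∀ x : OnePoint ℚ, mob 4 1 0 4 x = mob ((16 : ℕ) : ℤ) 4 0 ((16 : ℕ) : ℤ) x := by
      intro x
      have := TrQ.mob_red 4 1 4 (by norm_num) (by norm_num) x
      norm_num at this ⊢
      exact this.symm
    have t5 : ∀ x : OnePoint ℚ, mob 4 1 0 4 (mob 16 1 0 16 x) =
        mob ((16 : ℕ) : ℤ) 5 0 ((16 : ℕ) : ℤ) x := by
      intro x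
      have h1 := TrQ.mob_mob 4 1 16 1 (by norm_num) (by norm_num) x
      have h2 := TrQ.mob_red 16 5 4 (by norm_num) (by norm_num) x
      norm_num at h1 h2 ⊢
      rw [h1, h2]
    rw [t5, t5, t4, t4]
    refine m4.trans (le_of_eq ?_)
    congr 1
    push_cast
    ring

end

end Pool.Agent.MEG
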