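import Pool.Agent.ME2.G_GPT3
import Pool.Agent.N2.GSAll

/-!
# ME2, block G (helper6): Theorem G+ at `p = 2` in the frame of the exceptional fields (`2` ramified): the translates by `1/8`, `1/32` of `PhiKE R e kk / (rE u om)`
-/

set_option autoImplicit false

namespace Pool.Agent.MEG

open _root_.MU3 Pool.Agent.MU3A Pool.Agent.MU3B Pool.Agent.MU3Q Pool.Agent.MUX Pool.Agent.MuSym
  Pool.Agent.MUXN Pool.Agent.NS Pool.Agent.NSG Pool.Agent.N2 OnePoint UpperHalfPlane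
open Pool.Agent.ME hiding ActE
open Pool.Agent.MUXU

noncomputable section

variable {A B : ℤ} {n : ℕ} {ι : Type}

/-- the lattice `u L`, its integrality property at `V` -/
theorem legQE (hE : CaseE A B) (hT : TorXE A B) {n : ℕ}
    (R : RepsE A B n ι) {V : ValuationSubring ℂ} (h2V : V.valuation (2 : ℂ) < 1) {u e a1 a3 : ℂ}
    (h : GoodQ V (R.L R.i0) u e a1 a3) :
    ∃ (L' : PeriodPair) (S : Finset ℂ), BinE V L' S ∧ LatO A B L' (u * R.om R.i0) := by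
  obtain ⟨L', hL'⟩ := u_SCX (R.L R.i0) u h.u0
  obtain ⟨s1, s2, -, -⟩ := ta_SCP (R.L R.i0) L' u h.u0 hL'
  obtain ⟨-, -, k1, k3⟩ := leg3_algE hE hT (R.nl R.i0) h.u0 h.tor h.eq
  have hv1 : V.valuation a1 ≤ 1 := by
    by_contra hcon
    push Not at hcon
    have h1 := h.v1
    have h3 : (1 : V.ValueGroup) < V.valuation a1 ^ 2 := one_lt_pow₀ hcon two_ne_zero
    exact absurd (h3.trans_le h1) (not_lt.2 h2V.le)
  obtain ⟨S, hB⟩ := bin_E Pool.Agent.MU3Q.wq tg_DV V h2V L' (e / u ^ 2) a1 a3 (by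
    intro z hz
    have e1 : z = u * (u⁻¹ * z) := by rw [mul_inv_cancel_left₀ h.u0]
    have hz' : u⁻¹ * z ∉ (R.L R.i0).lattice := by
      intro h4
      apply hz
      rw [e1]
      exact (hL' _).1 h4
    have h5 := h.eq _ hz'
    rw [e1, s1, s2, h5]
    have hu := h.u0
    ring) k1 k3 hv1 h.v3
  exact ⟨L', S, hB, latE R h.u0 hL'⟩

/-- (GPT) Theorem G+ for the translates, `2` ramified -/
theorem gptQ4 (hE : CaseE A B) (hT : TorXE A B) {P : Ideal (OO A B)} (hP : IsPN 2 P)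
    {V : ValuationSubring ℂ} (hV : OverI V P) (hn : 2 ≤ n) (hn2 : 2 ∣ n) [Fintype ι]
    (R : RepsE A B n ι) {u el a1 a3 : ℂ} (hg : GoodQ V (R.L R.i0) u el a1 a3) {e : OO A B → ℂ}
    (he : IsEIE (idl (A := A) (B := B) n) e) {r : ℕ} (hr : r ≠ 0)
    (her : ∀ x, e x ≠ 0 → e x ^ r = 1) {kk : ι → ℂ} (hkk : V.valuation (kk R.i0) = 1)
    {N' : ℕ} (hN' : N' ≠ 0) (hNd : absD A B * ((n : ℕ) : ℤ) ^ 2 ∣ (N' : ℤ)) :
    ∃ a b c d : ℤ, a * d - b * c = 1 ∧ (N' : ℤ) ∣ c ∧ (N' : ℤ) ∣ d - 1 ∧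
      V.valuation (rE A B : ℂ) < V.valuation (PTq 32 (PTq 8
        (fun x y => PhiKE R e kk x y / (u * R.om R.i0))) ∞ (mob a b c d ∞)) := by
  classical
  have hc : CQ A B := hE.toCQ
  have hv2 : V.valuation (2 : ℂ) < 1 := by
    have h1 : emb ((2 : ℕ) : OO A B) ∈ V.nonunits := (hV _).2 hP.mem
    have h2 : emb ((2 : ℕ) : OO A B) = 2 := by
      unfold emb
      rw [QuadraticAlgebra.re_natCast, QuadraticAlgebra.im_natCast]
      push_cast
      ring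
    rw [h2, ValuationSubring.mem_nonunits_iff] at h1
    exact h1
  have hLoc : LocN A B V := by
    intro S hS
    obtain ⟨t, ht, hy⟩ := tg_LOC A B hc 2 Nat.prime_two P hP V hV S hS
    refine ⟨t, ?_, hy⟩
    have hle : V.valuation (emb t) ≤ 1 := (V.valuation_le_one_iff _).2 (N_GJ.emb_mem_V hc V t)
    refine le_antisymm hle (not_lt.1 fun hlt => ht ((hV t).1 ?_))
    exact (ValuationSubring.mem_nonunits_iff _).2 hlt
  obtain ⟨L', S₀, hB, hL⟩ := legQE hE hT R hv2 hg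
  have hua := (leg3_algE hE hT (R.nl R.i0) hg.u0 hg.tor hg.eq).1
  have hv20 : V.valuation (2 : ℂ) ≠ 0 := (Valuation.ne_zero_iff _).2 two_ne_zero
  obtain ⟨cc, hcc⟩ : ∃ cc : Fin 32 → ℂ, cc = fun t => (if t = 0 then 1 else 0) -
    (if t = 1 then 1 else 0) - (if t = 4 then 1 else 0) + (if t = 5 then 1 else 0) := ⟨_, rfl⟩
  have hF : ∀ F : Fin 32 → ℂ, ∑ t, cc t * F t = F 0 - F 1 - F 4 + F 5 := by
    intro F
    rw [hcc]
    simp only [sub_mul, add_mul, ite_mul, one_mul, zero_mul, Finset.sum_sub_distrib,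
      Finset.sum_add_distrib, Finset.sum_ite_eq', Finset.mem_univ, if_true]
  have hs : ∑ t, cc t * zq 32 ^ (t : ℕ) = (1 - zq 32) * (1 - zq 32 ^ 4) := by
    rw [hF (fun t => zq 32 ^ (t : ℕ))]
    norm_num
    ring
  have hvs : V.valuation (2 : ℂ) < V.valuation (∑ t, cc t * zq 32 ^ (t : ℕ)) ^ 3 := by
    rw [hs]
    by_contra hcon
    push Not at hcon
    have h9 := pow_le_pow_left' hcon 16
    have h10 : (V.valuation ((1 - zq 32) * (1 - zq 32 ^ 4)) ^ 3) ^ 16 =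
        V.valuation (2 : ℂ) ^ 15 := by
      calc (V.valuation ((1 - zq 32) * (1 - zq 32 ^ 4)) ^ 3) ^ 16
          = (V.valuation (1 - zq 32) ^ 16) ^ 3 * (V.valuation (1 - zq 32 ^ 4) ^ 4) ^ 12 := by
            rw [map_mul, ← pow_mul, ← pow_mul, ← pow_mul, mul_pow]
        _ = _ := by rw [v32, v8, ← pow_add]
    rw [h10, pow_succ (V.valuation (2 : ℂ)) 15] at h9
    have h11 : (0 : V.ValueGroup) < V.valuation (2 : ℂ) ^ 15 :=
      zero_lt_iff.2 (pow_ne_zero _ hv20)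
    have h12 : V.valuation (2 : ℂ) ^ 15 * V.valuation (2 : ℂ) < V.valuation (2 : ℂ) ^ 15 * 1 :=
      mul_lt_mul_of_pos_left hv2 h11
    rw [mul_one] at h12
    exact absurd h9 (not_le.2 h12)
  obtain ⟨a, b, c, d, m1, m2, m3, m4⟩ :=
    gptEE hE hT hLoc hn hn2 R hg.u0 hua hB hL he hr her hkk hN' hNd (q := 32) (by norm_num) cc hvs
  refine ⟨a, b, c, d, m1, m2, m3, ?_⟩
  rw [hF (fun t => PhiKE R e kk (mob (32 : ℕ) (t : ℕ) 0 (32 : ℕ) ∞)
    (mob (32 : ℕ) (t : ℕ) 0 (32 : ℕ) (mob a b c d ∞)) / (u * R.om R.i0))] at m4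
  unfold PTq
  dsimp only
  have e0 : (((0 : Fin 32) : ℕ) : ℤ) = 0 := rfl
  have e1 : (((1 : Fin 32) : ℕ) : ℤ) = 1 := rfl
  have e4 : (((4 : Fin 32) : ℕ) : ℤ) = 4 := rfl
  have e5 : (((5 : Fin 32) : ℕ) : ℤ) = 5 := rfl
  rw [e0, e1, e4, e5] at m4
  rw [TrQ.mob_zero _ (by norm_num), TrQ.mob_zero _ (by norm_num)] at m4
  have t4 : ∀ x : OnePoint ℚ, mob 8 1 0 8 x = mob ((32 : ℕ) : ℤ) 4 0 ((32 : ℕ) : ℤ) x := by
    intro x
    have := TrQ.mob_red 8 1 4 (by norm_num) (by norm_num) x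
    norm_num at this ⊢
    exact this.symm
  have t5 : ∀ x : OnePoint ℚ, mob 8 1 0 8 (mob 32 1 0 32 x) =
      mob ((32 : ℕ) : ℤ) 5 0 ((32 : ℕ) : ℤ) x := by
    intro x
    have h1 := TrQ.mob_mob 8 1 32 1 (by norm_num) (by norm_num) x
    have h2 := TrQ.mob_red 32 5 8 (by norm_num) (by norm_num) x
    norm_num at h1 h2 ⊢
    rw [h1, h2]
  rw [t5, t5, t4, t4]
  refine m4.trans_le (le_of_eq ?_)
  congr 1
  push_cast
  ring

/-- the same for the symbol divided by `2` (`D = -4`) -/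
theorem gptQ4' (hE : CaseE A B) (hB0 : B = 0) (hT : TorXE A B) {P : Ideal (OO A B)}
    (hP : IsPN 2 P) {V : ValuationSubring ℂ} (hV : OverI V P) (hn : 2 ≤ n) (hn2 : 2 ∣ n)
    [Fintype ι] (R : RepsE A B n ι) {u el a1 a3 : ℂ} (hg : GoodQ V (R.L R.i0) u el a1 a3)
    {e : OO A B → ℂ} (he : IsEIE (idl (A := A) (B := B) n) e) {r : ℕ} (hr : r ≠ 0)
    (her : ∀ x, e x ≠ 0 → e x ^ r = 1) {kk : ι → ℂ} (hkk : V.valuation (kk R.i0) = 1)
    {N' : ℕ} (hN' : N' ≠ 0) (hNd : absD A B * ((n : ℕ) : ℤ) ^ 2 ∣ (N' : ℤ)) :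
    ∃ a b c d : ℤ, a * d - b * c = 1 ∧ (N' : ℤ) ∣ c ∧ (N' : ℤ) ∣ d - 1 ∧
      1 < V.valuation (PTq 32 (PTq 8
        (fun x y => PhiKE R e kk x y / (2 * u * R.om R.i0))) ∞ (mob a b c d ∞)) := by
  obtain ⟨a, b, c, d, m1, m2, m3, m4⟩ := gptQ4 hE hT hP hV hn hn2 R hg he hr her hkk hN' hNd
  refine ⟨a, b, c, d, m1, m2, m3, ?_⟩
  have hrE : (rE A B : ℂ) = 2 := by
    have h3 : rE A B = 2 := by
      unfold rE
      rw [hB0]
      rfl
    rw [h3]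
    rfl
  rw [hrE] at m4
  have hv20 : (0 : V.ValueGroup) < V.valuation (2 : ℂ) :=
    zero_lt_iff.2 ((Valuation.ne_zero_iff _).2 two_ne_zero)
  have hu := hg.u0
  have ho : R.om R.i0 ≠ 0 := (R.nl R.i0).om_ne
  have e1 : PTq 32 (PTq 8 (fun x y => PhiKE R e kk x y / (u * R.om R.i0))) ∞ (mob a b c d ∞) =
      2 * PTq 32 (PTq 8 (fun x y => PhiKE R e kk x y / (2 * u * R.om R.i0))) ∞
        (mob a b c d ∞) := by
    unfold PTq
    dsimp only
    field_simp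
  rw [e1, map_mul] at m4
  by_contra hcon
  push Not at hcon
  have := mul_le_mul_of_nonneg_left hcon hv20.le
  rw [mul_one] at this
  exact absurd m4 (not_lt.2 this)

end

end Pool.Agent.MEG
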