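import Pool.Agent.ME2.G_GPT4
import Pool.Agent.ME2.Defs4

/-!
# ME2, block G (helper6): `T4_GPT` (`p = 2`, `D = -4`)
-/

set_option autoImplicit false

namespace Pool.Agent.MEG

open _root_.MU3 Pool.Agent.MUX Pool.Agent.MuSym Pool.Agent.NS Pool.Agent.N2 OnePoint
open Pool.Agent.ME hiding ActE

/-- (GPT) `p = 2`, `D = -4` -/
theorem g_GPT4Q : Pool.Agent.ME2.T4_GPT := by
  intro A B P V f hST hT ι _ R u el a1 a3 hg e he r hr her kk hkk N' hN' hNd
  obtain ⟨a, b, c, d, m1, m2, m3, m4⟩ := gptQ4 (n := 2 * f) hST.case hT hST.hP hST.hV (by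
    have := Nat.pos_of_ne_zero hST.f0
    omega) (Dvd.intro _ rfl) R hg he hr her hkk hN' hNd
  refine ⟨a, b, c, d, m1, m2, m3, ?_⟩
  have hrE : (rE A B : ℂ) = 2 := by
    have h3 : rE A B = 2 := by
      unfold rE
      rw [hST.hB]
      rfl
    rw [h3]
    rfl
  rw [hrE] at m4
  exact m4

end Pool.Agent.MEG
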