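import Pool.Agent.ME2.Defs3
import Pool.Agent.ME.CEAll
import Pool.Agent.N2.RAll

/-!
# ME2, block R (helper77): the reduction of the normalised lattices at the places above `2`, exceptional fields

The parts which are common to `D = -3` (`2` inert) and `D = -4` (`2` ramified), and `T3_RFIN` (`D = -3`).
-/

set_option autoImplicit false

namespace Pool.Agent.ME2

open _root_.MU3 Pool.Agent.MU3A Pool.Agent.MU3B Pool.Agent.RI Pool.Agent.MUX Pool.Agent.MUXU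
  Pool.Agent.NS Pool.Agent.MEC
open Pool.Agent.ME hiding ActE
open Pool.Agent.N2 (GoodT et yt WT)
open Pool.Agent.N2R (Deu IsW CtxB r_ALB r_ALC r_HPD r_RED r_GRT)
open Pool.Agent.MUX2 (GRG)
open Pool.Agent.MUXV (InK tX)

noncomputable section

variable {A B : ℤ}

/-- the coordinates of the points of order three of a normalised lattice -/
lemma xnE_mem3 {b : Ideal (OO A B)} {L : PeriodPair} {om : ℂ} (hL : IsNE b L om)
    {w : ℂ} (hw : w ∉ L.lattice) (h3 : 3 * w ∈ L.lattice) (hC : CQ A B) :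
    L.weierstrassP w ∈ RFE (idl (A := A) (B := B) 3) := by
  refine IntermediateField.subset_adjoin _ _ ⟨b, L, om, hL, Or.inr ⟨w, ?_, hw, rfl⟩⟩
  intro x hx
  obtain ⟨y, rfl⟩ := Ideal.mem_span_singleton.1 hx
  have hCM : HasCM A B L := hL.toIsLI.hasCM hC
  have e : emb (((3 : ℕ) : OO A B) * y) * w = emb y * (3 * w) := by
    rw [Pool.Agent.MUX.emb_mul hC, Pool.Agent.MUX.emb_natCast hC]
    push_cast
    ring
  rw [e]
  exact hCM y _ h3

/-- the reduction of the normalised lattices: the model -/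
theorem modG (hC : CQ A B) {V : ValuationSubring ℂ} {β : OO A B} {N : ℕ} (hN : CtxB A B V β N)
    {b : Ideal (OO A B)} {L : PeriodPair} {om : ℂ} (hL : IsNE b L om) :
    ∃ w₁ w₂ u a c : ℂ, IsW L u (L.weierstrassP w₁) c w₁ ∧
      (w₂ ∉ L.lattice ∧ 3 * w₂ ∈ L.lattice) ∧ L.weierstrassP w₂ ≠ L.weierstrassP w₁ ∧
      u ^ 2 = L.weierstrassP w₂ - L.weierstrassP w₁ ∧ Deu L u (L.weierstrassP w₁) a c ∧
      V.valuation a * V.valuation (emb β) ≤ V.valuation (2 : ℂ) ∧ V.valuation a < 1 ∧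
      V.valuation c = 1 ∧ u ^ 2 ∈ RFE (idl (A := A) (B := B) 3) ∧
      L.weierstrassP w₁ ∈ RFE (idl (A := A) (B := B) 3) := by
  obtain ⟨w₁, w₂, u, a, c, hw1, ⟨hw2, hw23⟩, hne, hu, hdeu, ha, hc, hac⟩ := r_HPD V L hN.v3
  obtain ⟨r1, r2, r3⟩ := r_RED A B V β N hN b L om hL.toIsLI _ _ _ _ hdeu ha hc hac
  have m1 := xnE_mem3 hL hw1.ne hw1.three hC
  have m2 := xnE_mem3 hL hw2 hw23 hC
  refine ⟨w₁, w₂, u, a, c, hw1, ⟨hw2, hw23⟩, hne, hu, hdeu, r1, r2, r3, ?_, m1⟩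
  rw [hu]
  exact sub_mem m2 m1

/-- congruences modulo `2` and modulo an odd `f` -/
lemma idl_two_mul {f : ℕ} (h2 : ¬ 2 ∣ f) {x : OO A B}
    (hx2 : x ∈ idl (A := A) (B := B) 2) (hxf : x ∈ idl (A := A) (B := B) f) :
    x ∈ idl (A := A) (B := B) (2 * f) := by
  obtain ⟨k, hk⟩ : ∃ k, f = 2 * k + 1 := ⟨f / 2, by omega⟩
  obtain ⟨y, hy⟩ := Ideal.mem_span_singleton.1 hx2
  obtain ⟨z, hz⟩ := Ideal.mem_span_singleton.1 hxf
  refine Ideal.mem_span_singleton.2 ⟨y - (k : OO A B) * z, ?_⟩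
  have hkf : (f : OO A B) = 2 * (k : OO A B) + 1 := by rw [hk]; push_cast; ring
  have e : x = (f : OO A B) * x - 2 * (k : OO A B) * x := by
    rw [hkf]; ring
  rw [e]
  nth_rewrite 1 [hy]
  rw [hz]
  push_cast
  ring

/-- `σ` in the inertia group of `RFE (2 f)` which fixes the `x`-coordinates of the points of order three is trivial on `RFE (2 f)`;
`3 ∣ f`, `f` odd and a unit at `V` -/
theorem inerG (h : CaseE A B) (T : TorXE A B) (V : ValuationSubring ℂ)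
    (G : ∀ (b : Ideal (OO A B)) (L : PeriodPair) (om : ℂ), IsNE b L om →
      ∃ (u e : ℂ) (W : WeierstrassCurve.Affine ℂ) (Y : ℂ → ℂ) (ξ : ℂ →+ W.Point),
        u ^ 2 ∈ RFE (idl (A := A) (B := B) 3) ∧ e ∈ RFE (idl (A := A) (B := B) 3) ∧
        GRG V W L (xu L u e) Y ξ)
    {f : ℕ} (hf : f ≠ 0) (hf2 : ¬ 2 ∣ f) (h3 : 3 ∣ f) (hv : V.valuation (f : ℂ) = 1)
    (σ : ℂ ≃+* ℂ) (hσ : FixK A B σ)
    (hin : ∀ y ∈ RFE (idl (A := A) (B := B) (2 * f)), y ∈ V → σ y - y ∈ V.nonunits)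
    (hfix3 : ∀ y ∈ RFE (idl (A := A) (B := B) 3), σ y = y) :
    ∀ y ∈ RFE (idl (A := A) (B := B) (2 * f)), σ y = y := by
  have hC := h.toCQ
  have hm : (idl (A := A) (B := B) (2 * f)) ≠ ⊥ := by
    intro h0
    exact natCast_ne_zero' hC (mul_ne_zero two_ne_zero hf) (Ideal.span_singleton_eq_bot.1 h0)
  have hmf : (idl (A := A) (B := B) f) ≠ ⊥ := by
    intro h0
    exact natCast_ne_zero' hC hf (Ideal.span_singleton_eq_bot.1 h0)
  have hmmf : (idl (A := A) (B := B) (2 * f)) ≤ idl f := by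
    rw [Ideal.span_singleton_le_span_singleton]
    exact ⟨2, by push_cast; ring⟩
  have hm2 : (idl (A := A) (B := B) (2 * f)) ≤ idl 2 := by
    rw [Ideal.span_singleton_le_span_singleton]
    exact ⟨(f : OO A B), by push_cast; ring⟩
  have hm3 : (idl (A := A) (B := B) (2 * f)) ≤ idl 3 := by
    obtain ⟨k, rfl⟩ := h3
    rw [Ideal.span_singleton_le_span_singleton]
    exact ⟨2 * (k : OO A B), by push_cast; ring⟩
  have hR3 : RFE (idl (A := A) (B := B) 3) ≤ RFE (idl (A := A) (B := B) (2 * f)) :=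
    T.mono _ _ hm3
  obtain ⟨L, om, hL⟩ := exists_isNE h (⊤ : Ideal (OO A B)) (by
    intro h0
    have := (Submodule.mem_bot (OO A B)).1 (h0 ▸ Submodule.mem_top : (1 : OO A B) ∈ (⊥ : Ideal _))
    have h1 := congrArg emb this
    rw [Pool.Agent.MUX.emb_one hC, Pool.Agent.MUX.emb_zero hC] at h1
    exact one_ne_zero h1)
  have hCM : HasCM A B L := hL.toIsLI.hasCM hC
  obtain ⟨u, e, W, Y, ξ, hu, he, g⟩ := G _ L om hL
  obtain ⟨a, -, ha⟩ := T.act _ hm σ hσ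
  obtain ⟨b', L', om', mu, hL', hact⟩ := ha ⊤ L om hL
  obtain ⟨c, hc, hac, hc2⟩ := T.two _ a σ ⊤ L L' om mu hm hm2 hσ hL hact hL'.nrm
  refine (T.triv _ a σ ⊤ L L' om mu hm (Or.inl hm2) hσ hL hact hL'.nrm).2 ?_
  obtain ⟨hlat, -, hco⟩ := c_SGQ A B L L' hL.nrm hL'.nrm
  obtain ⟨z, hz, hzm, -⟩ := Pool.Agent.MUXC.c_GEN A B hC ⊤ _ L om hL.toIsLI hmf
  have hz2 : Tor (idl (A := A) (B := B) (2 * f)) L z := hz.mono hmmf
  by_cases hzL : z ∈ L.lattice
  · have h1 : (1 : OO A B) ∈ idl (A := A) (B := B) f := (hzm 1).1 (by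
      rwa [Pool.Agent.MUX.emb_one hC, one_mul])
    exact ⟨c, idl_two_mul hf2 hc2 (by rw [(Ideal.eq_top_iff_one _).2 h1]; trivial), hac⟩
  rcases hact.act z hz2 with ⟨h1, -⟩ | ⟨-, hmz', hx, -⟩
  · exact absurd h1 hzL
  have hmz : mu * z ∉ L.lattice := fun h1 => hmz' ((hlat _).1 h1)
  have hxz : σ (xnE L z) = xnE L (mu * z) := by rw [hx, (hco _).1]
  have hX : σ (xu L u e z) = xu L u e (mu * z) := by
    unfold xu
    rw [map_div₀, map_sub, hfix3 _ hu, hfix3 _ he]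
    have : σ (L.weierstrassP z) = L.weierstrassP (mu * z) := hxz
    rw [this]
  have htm : Tor (idl (A := A) (B := B) f) L (mu * z) := by
    intro x hx
    have e1 : emb x * (mu * z) = mu * (emb x * z) := by ring
    rw [e1, hc]
    exact hCM c _ (hz x hx)
  have hK : ∀ y : ℂ, Tor (idl (A := A) (B := B) f) L y → InK V L (xu L u e) y →
      y ∈ L.lattice := by
    intro y hy hyK
    apply Pool.Agent.MUX2.gmem_of_nat_mul g hyK hv
    have h5 := hy ((f : ℕ) : OO A B) (Ideal.mem_span_singleton_self _)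
    rwa [Pool.Agent.MUX.emb_natCast hC] at h5
  have hzK : ¬ InK V L (xu L u e) z := fun h1 => hzL (hK z hz h1)
  have hmK : ¬ InK V L (xu L u e) (mu * z) := fun h1 => hmz (hK _ htm h1)
  have hxV : xu L u e z ∈ V :=
    (ValuationSubring.valuation_le_one_iff _ _).1 (Pool.Agent.MUXV.int_X hzK).2
  have hxR : xu L u e z ∈ RFE (idl (A := A) (B := B) (2 * f)) := by
    have h1 : xnE L z ∈ RFE (idl (A := A) (B := B) (2 * f)) :=
      IntermediateField.subset_adjoin _ _ ⟨⊤, L, om, hL, Or.inr ⟨z, hz2, hzL, rfl⟩⟩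
    exact div_mem (sub_mem h1 (hR3 he)) (hR3 hu)
  have hlt := hin _ hxR hxV
  rw [hX, ValuationSubring.mem_nonunits_iff] at hlt
  by_cases hm1 : mu * z - z ∈ L.lattice
  · refine ⟨c, idl_two_mul hf2 hc2 ((hzm _).1 ?_), hac⟩
    rw [Pool.Agent.MUX.emb_sub hC, Pool.Agent.MUX.emb_one hC, ← hc, sub_mul, one_mul]
    exact hm1
  by_cases hp1 : mu * z + z ∈ L.lattice
  · refine ⟨-c, idl_two_mul hf2 ?_ ?_, ?_⟩
    · have e1 : -c - 1 = -(c - 1) - 2 := by ring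
      rw [e1]
      refine sub_mem (neg_mem hc2) ?_
      exact Ideal.mem_span_singleton.2 ⟨1, by push_cast; ring⟩
    · have h9 : c + 1 ∈ idl (A := A) (B := B) f := by
        refine (hzm _).1 ?_
        rw [Pool.Agent.MUX.emb_add hC, Pool.Agent.MUX.emb_one hC, ← hc, add_mul, one_mul]
        exact hp1
      have e1 : -c - 1 = -(c + 1) := by ring
      rw [e1]
      exact neg_mem h9
    · rw [hac]
      exact (Ideal.span_singleton_neg c).symm
  exfalso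
  have := Pool.Agent.MUX2.gv_X_sub g hmK hzK (fun h1 => hp1 (hK _ (htm.add hz) h1))
    (fun h1 => hm1 (hK _ (by
      have := htm.add hz.neg
      rwa [← sub_eq_add_neg] at this) h1))
  exact absurd this hlt.ne

/-- odd numbers are units at `V` -/
lemma v_odd {V : ValuationSubring ℂ} (v2 : V.valuation (2 : ℂ) < 1) {n : ℕ} (hn : ¬ 2 ∣ n) :
    V.valuation (n : ℂ) = 1 := by
  have hle : ∀ k : ℤ, V.valuation (k : ℂ) ≤ 1 := fun k => by
    rw [ValuationSubring.valuation_le_one_iff]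
    exact intCast_mem V k
  have hco : IsCoprime (2 : ℤ) (n : ℤ) := by
    have : Nat.Coprime 2 n := (Nat.Prime.coprime_iff_not_dvd Nat.prime_two).2 hn
    exact_mod_cast Nat.isCoprime_iff_coprime.2 this
  obtain ⟨x, y, hxy⟩ := hco
  have h1 : (x : ℂ) * 2 + y * n = 1 := by exact_mod_cast hxy
  by_contra hne
  have hlt : V.valuation (n : ℂ) < 1 := lt_of_le_of_ne (by exact_mod_cast hle n) hne
  have h2 : V.valuation ((x : ℂ) * 2 + y * n) < 1 := by
    refine Valuation.map_add_lt _ ?_ ?_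
    · rw [map_mul]
      exact lt_of_le_of_lt (mul_le_of_le_one_left' (hle x)) v2
    · rw [map_mul]
      exact lt_of_le_of_lt (mul_le_of_le_one_left' (hle y)) hlt
  rw [h1, map_one] at h2
  exact lt_irrefl _ h2

/-- the two parts together -/
theorem inerM (h : CaseE A B) (T : TorXE A B) (V : ValuationSubring ℂ) {β : OO A B} {N : ℕ}
    (hN : CtxB A B V β N) {f : ℕ} (hf : f ≠ 0) (hf2 : ¬ 2 ∣ f) (h3 : 3 ∣ f)
    (σ : ℂ ≃+* ℂ) (hσ : FixK A B σ)
    (hin : ∀ y ∈ RFE (idl (A := A) (B := B) (2 * f)), y ∈ V → σ y - y ∈ V.nonunits)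
    (hfix3 : ∀ y ∈ RFE (idl (A := A) (B := B) 3), σ y = y) :
    ∀ y ∈ RFE (idl (A := A) (B := B) (2 * f)), σ y = y := by
  refine inerG h T V ?_ hf hf2 h3 (v_odd hN.v2 hf2) σ hσ hin hfix3
  intro b L om hL
  obtain ⟨w₁, w₂, u, a, c, -, -, -, -, hdeu, -, ha, hc, hu, he⟩ := modG h.toCQ hN hL
  obtain ⟨ξ, g, -⟩ := r_GRT V L u _ a c hN.v3 ha hc hdeu
  exact ⟨u, _, _, _, ξ, hu, he, g⟩

/-- the good model in the form of `DefsT.lean` -/
lemma goodT_of {V : ValuationSubring ℂ} {L : PeriodPair} {w₁ w₂ u a c : ℂ}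
    (hw1 : IsW L u (L.weierstrassP w₁) c w₁) (hw2 : w₂ ∉ L.lattice) (hw23 : 3 * w₂ ∈ L.lattice)
    (hne : L.weierstrassP w₂ ≠ L.weierstrassP w₁)
    (hu : u ^ 2 = L.weierstrassP w₂ - L.weierstrassP w₁)
    (hdeu : Deu L u (L.weierstrassP w₁) a c) (r1 : V.valuation a ≤ V.valuation (2 : ℂ))
    (r3 : V.valuation c = 1) : GoodT V L u (L.weierstrassP w₁) a c := by
  refine ⟨hdeu.u0, ⟨w₁, w₂, hw1.three, hw23, hw1.ne, hw2, ?_, ?_, rfl, hu⟩, hdeu.eq, r1, r3⟩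
  · intro h
    apply hne
    have h6 := L.weierstrassP_add_coe w₁ ⟨w₂ - w₁, h⟩
    rw [← h6]
    congr 1
    show w₂ = w₁ + (w₂ - w₁)
    ring
  · intro h
    apply hne
    have h6 := L.weierstrassP_add_coe (-w₁) ⟨w₂ + w₁, h⟩
    rw [← L.weierstrassP_neg w₁, ← h6]
    congr 1
    show w₂ = -w₁ + (w₂ + w₁)
    ring

/-- (RFIN) for `D = -3`, `p = 2` -/
theorem r3_RFIN : T3_RFIN := by
  intro A B V h hB hV T
  have hC := h.toCQ
  obtain ⟨β, N, hN, hβ⟩ := r_ALB A B V hC (by rw [hB, h.hA]; norm_num) hV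
  refine ⟨fun b L om hL => ?_, fun f hf hf2 h3 σ hσ hin hfix3 => ?_⟩
  · obtain ⟨w₁, w₂, u, a, c, hw1, ⟨hw2, hw23⟩, hne, hu, hdeu, r1, r2, r3, m1, m2⟩ :=
      modG hC hN hL
    rw [hβ, mul_one] at r1
    exact ⟨u, _, a, c, goodT_of hw1 hw2 hw23 hne hu hdeu r1 r3, m1, m2⟩
  · exact inerM h T V hN hf hf2 h3 σ hσ hin hfix3

end

end Pool.Agent.ME2
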