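import Pool.Agent.ME2.H_HfinT
import Pool.Agent.ME2.G_GPT3
import Pool.Agent.ME2.T_TYF3
import Pool.Agent.ME2.R3_RFIN
import Pool.Agent.ME2.EUAll
import Pool.Agent.N2.HTAll
import Pool.Agent.ME.X.YAll

/-! # ME2, `p = 2`, `D = -3`: blocks R, E, T, G, H without hypotheses (helper34) -/

namespace Pool.Agent.ME2H

open Pool.Agent.ME2

/-- the character sums, `p = 2`, `D = -3` -/
theorem h_HFIN3 : T3_HFIN :=
  th_HFIN Pool.Agent.N2H.ht_HT Pool.Agent.MEG.g_GPT3 (t3_TYF r3_RFIN) Pool.Agent.MUXY.y_ALP_E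
    Pool.Agent.MUXY.y_COP_E

/-- the criterion for squares, `p = 2`, `D = -3` -/
theorem e_EFIN3 : T3_EFIN := Pool.Agent.ME2E.v_EFIN r3_RFIN

end Pool.Agent.ME2H

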