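import Pool.Agent.ME2.Defs4
import Pool.Agent.ME2.R3_RFIN

/-!
# ME2, block R (helper77), `D = -4`, `p = 2`: `T4_RFIN`

`σ` in the inertia group of `RFE (2 f)`, `3 ∣ f`, fixes the third roots of unity; it acts as `c`, `N c ≡ 1` modulo 3, so `c` is congruent to a unit modulo 3.
-/

set_option autoImplicit false

namespace Pool.Agent.ME2

open _root_.MU3 Pool.Agent.MU3A Pool.Agent.MU3B Pool.Agent.RI Pool.Agent.MUX Pool.Agent.MUXU
  Pool.Agent.NS Pool.Agent.MEC
open Pool.Agent.ME hiding ActE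
open Pool.Agent.N2 (GoodQ et yt WT)
open Pool.Agent.N2R (Deu IsW CtxB r_ALB r_ALC r_HPD r_RED r_GRT)
open Pool.Agent.MUX2 (GRG)
open Pool.Agent.MUXV (InK tX)

noncomputable section

variable {A B : ℤ}

namespace R4

/-- points of order three, congruent multipliers -/
lemma wp_cong3 (hC : CQ A B) {L : PeriodPair} (hL : HasCM A B L) {c c' : OO A B}
    (hc : c - c' ∈ idl (A := A) (B := B) 3) {w : ℂ} (hw : 3 * w ∈ L.lattice) :
    L.weierstrassP (emb c * w) = L.weierstrassP (emb c' * w) := by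
  obtain ⟨y, hy⟩ := Ideal.mem_span_singleton'.1 hc
  have h1 : emb c * w - emb c' * w = emb y * (3 * w) := by
    have h2 : emb c - emb c' = emb y * 3 := by
      rw [← Pool.Agent.MUX.emb_sub hC, ← hy, Pool.Agent.MUX.emb_mul hC,
        Pool.Agent.MUX.emb_natCast hC]
      push_cast
      ring
    linear_combination w * h2
  have h3 : emb c * w - emb c' * w ∈ L.lattice := by
    rw [h1]
    exact hL y _ hw
  have h4 := L.weierstrassP_add_coe (emb c' * w) ⟨_, h3⟩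
  have h5 : emb c' * w + ((⟨emb c * w - emb c' * w, h3⟩ : L.lattice) : ℂ) = emb c * w := by
    show emb c' * w + (emb c * w - emb c' * w) = emb c * w
    ring
  rw [h5] at h4
  exact h4

/-- norms `≡ 1` modulo three: `c` is congruent to a unit modulo 3 -/
lemma unit3 (hA : A = -1) (hB : B = 0) {c : OO A B} (hc : nm c % 3 = 1) :
    c - 1 ∈ idl (A := A) (B := B) 3 ∨ c - -1 ∈ idl (A := A) (B := B) 3 ∨
      c - ⟨0, 1⟩ ∈ idl (A := A) (B := B) 3 ∨ c - -⟨0, 1⟩ ∈ idl (A := A) (B := B) 3 := by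
  subst hA
  subst hB
  have hn : nm c = c.re * c.re + c.im * c.im := by
    unfold nm
    ring
  rw [hn] at hc
  have key : ∀ d : OO (-1) 0, (3 : ℤ) ∣ c.re - d.re → (3 : ℤ) ∣ c.im - d.im →
      c - d ∈ idl (A := -1) (B := 0) 3 := by
    rintro d ⟨k, hk⟩ ⟨l, hl⟩
    refine Ideal.mem_span_singleton.2 ⟨⟨k, l⟩, ?_⟩
    have e3 : (((3 : ℕ) : OO (-1) 0)).re = 3 ∧ (((3 : ℕ) : OO (-1) 0)).im = 0 := ⟨rfl, rfl⟩
    apply QuadraticAlgebra.ext
    · rw [QuadraticAlgebra.re_sub, QuadraticAlgebra.re_mul, hk, e3.1, e3.2]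
      ring
    · rw [QuadraticAlgebra.im_sub, QuadraticAlgebra.im_mul, hl, e3.1, e3.2]
      ring
  have h1 : c.re % 3 = 0 ∨ c.re % 3 = 1 ∨ c.re % 3 = 2 := by omega
  have h2 : c.im % 3 = 0 ∨ c.im % 3 = 1 ∨ c.im % 3 = 2 := by omega
  rcases h1 with h1 | h1 | h1 <;> rcases h2 with h2 | h2 | h2
  · simp [Int.add_emod, Int.mul_emod, h1, h2] at hc
  · exact Or.inr (Or.inr (Or.inl (key ⟨0, 1⟩ (by show (3 : ℤ) ∣ c.re - 0; omega)
      (by show (3 : ℤ) ∣ c.im - 1; omega))))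
  · exact Or.inr (Or.inr (Or.inr (key (-⟨0, 1⟩) (by show (3 : ℤ) ∣ c.re - -0; omega)
      (by show (3 : ℤ) ∣ c.im - -1; omega))))
  · exact Or.inl (key 1 (by show (3 : ℤ) ∣ c.re - 1; omega)
      (by show (3 : ℤ) ∣ c.im - 0; omega))
  · simp [Int.add_emod, Int.mul_emod, h1, h2] at hc
  · simp [Int.add_emod, Int.mul_emod, h1, h2] at hc
  · exact Or.inr (Or.inl (key (-1) (by show (3 : ℤ) ∣ c.re - -1; omega)
      (by show (3 : ℤ) ∣ c.im - -0; omega)))
  · simp [Int.add_emod, Int.mul_emod, h1, h2] at hc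
  · simp [Int.add_emod, Int.mul_emod, h1, h2] at hc

lemma eq_one_of_pow {V : ValuationSubring ℂ} {x : V.ValueGroup} {n : ℕ} (hn : n ≠ 0)
    (h : x ^ n = 1) : x = 1 := by
  rcases lt_trichotomy x 1 with h1 | h1 | h1
  · exact absurd h (pow_lt_one₀ zero_le h1 hn).ne
  · exact h1
  · exact absurd h (one_lt_pow₀ h1 hn).ne'

lemma nm_nonneg4 (hA : A = -1) (hB : B = 0) (c : OO A B) : 0 ≤ nm c := by
  subst hA
  subst hB
  unfold nm
  nlinarith [sq_nonneg c.re, sq_nonneg c.im]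

lemma nm_one_two (hA : A = -1) (hB : B = 0) :
    nm (1 : OO A B) = 1 ∧ nm (((2 : ℕ) : OO A B)) = 4 := by
  subst hA
  subst hB
  exact ⟨rfl, rfl⟩

/-- `1 - ζ` is a unit at `V` for a primitive third root of unity -/
lemma zeta3 {V : ValuationSubring ℂ} (v3 : V.valuation (3 : ℂ) = 1) :
    ∃ z : ℂ, z ^ 3 = 1 ∧ V.valuation z = 1 ∧ V.valuation (z - 1) = 1 := by
  obtain ⟨z, hz⟩ : ∃ z : ℂ, IsPrimitiveRoot z 3 := ⟨_, Complex.isPrimitiveRoot_exp 3 (by norm_num)⟩
  have h1 : z ^ 3 = 1 := hz.pow_eq_one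
  have hne : z ≠ 1 := hz.ne_one (by norm_num)
  have h2 : z ^ 2 + z + 1 = 0 := by
    have h3 : (z - 1) * (z ^ 2 + z + 1) = 0 := by linear_combination h1
    exact (mul_eq_zero.1 h3).resolve_left (sub_ne_zero.2 hne)
  have hv : V.valuation z = 1 := by
    have h3 := congrArg V.valuation h1
    rw [map_pow, map_one] at h3
    exact eq_one_of_pow (by norm_num) h3
  refine ⟨z, h1, hv, ?_⟩
  have h4 : (z - 1) ^ 2 = -(3 * z) := by linear_combination h2
  have h5 := congrArg V.valuation h4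
  rw [map_pow, Valuation.map_neg, map_mul, v3, hv, one_mul] at h5
  exact eq_one_of_pow (by norm_num) h5

end R4

/-- the action on the `x`-coordinates of the points of order three -/
theorem dich4 (h : CaseE A B) (hB : B = 0) (T : TorXE A B) (V : ValuationSubring ℂ)
    (v3 : V.valuation (3 : ℂ) = 1) {f : ℕ} (hf : f ≠ 0) (h3 : 3 ∣ f)
    (σ : ℂ ≃+* ℂ) (hσ : FixK A B σ)
    (hin : ∀ y ∈ RFE (idl (A := A) (B := B) (2 * f)), y ∈ V → σ y - y ∈ V.nonunits) :
    (∀ y ∈ RFE (idl (A := A) (B := B) 3), σ y = y) ∨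
      ∀ (b : Ideal (OO A B)) (L : PeriodPair) (om : ℂ), IsNE b L om →
        ∀ w ∉ L.lattice, 3 * w ∈ L.lattice → σ (L.weierstrassP w) = -L.weierstrassP w := by
  have hC := h.toCQ
  have hm : (idl (A := A) (B := B) (2 * f)) ≠ ⊥ := by
    intro h0
    exact natCast_ne_zero' hC (mul_ne_zero two_ne_zero hf) (Ideal.span_singleton_eq_bot.1 h0)
  have hm2 : (idl (A := A) (B := B) (2 * f)) ≤ idl 2 := by
    rw [Ideal.span_singleton_le_span_singleton]
    exact ⟨(f : OO A B), by push_cast; ring⟩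
  have hm3 : (idl (A := A) (B := B) (2 * f)) ≤ idl 3 := by
    obtain ⟨k, rfl⟩ := h3
    rw [Ideal.span_singleton_le_span_singleton]
    exact ⟨2 * (k : OO A B), by push_cast; ring⟩
  obtain ⟨L, om, hL⟩ := exists_isNE h (⊤ : Ideal (OO A B)) (by
    intro h0
    have := (Submodule.mem_bot (OO A B)).1 (h0 ▸ Submodule.mem_top : (1 : OO A B) ∈ (⊥ : Ideal _))
    have h1 := congrArg emb this
    rw [Pool.Agent.MUX.emb_one hC, Pool.Agent.MUX.emb_zero hC] at h1
    exact one_ne_zero h1)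
  have hCM : HasCM A B L := hL.toIsLI.hasCM hC
  obtain ⟨a, -, ha⟩ := T.act _ hm σ hσ
  obtain ⟨b', L', om', mu, hL', hact⟩ := ha ⊤ L om hL
  obtain ⟨c, hc, hac, hc2⟩ := T.two _ a σ ⊤ L L' om mu hm hm2 hσ hL hact hL'.nrm
  obtain ⟨hlat, -, hco⟩ := c_SGQ A B L L' hL.nrm hL'.nrm
  have hfk := TRV.fix hσ
  -- the norm of `c` is `1` modulo 3
  have hc0 : c ≠ 0 := by
    rintro rfl
    have h1 : (1 : OO A B) ∈ idl (A := A) (B := B) 2 := by
      have := neg_mem hc2
      rwa [zero_sub, neg_neg] at this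
    obtain ⟨y, hy⟩ := Ideal.mem_span_singleton.1 h1
    have h2 : nm (1 : OO A B) = nm (((2 : ℕ) : OO A B)) * nm y := by
      rw [← nm_mul hC, ← hy]
    obtain ⟨h4, h5⟩ := R4.nm_one_two h.hA hB
    rw [h4, h5] at h2
    omega
  have hnm : nm c % 3 = 1 := by
    obtain ⟨z, hz3, hvz, hvz1⟩ := R4.zeta3 v3
    obtain ⟨hzR, hσz⟩ := T.zeta 3 _ a σ ⊤ L L' om mu hm hσ (by norm_num) hm3 hL hact z hz3
    have hzV : z ∈ V := (ValuationSubring.valuation_le_one_iff _ _).1 hvz.le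
    have hlt := hin z hzR hzV
    rw [ValuationSubring.mem_nonunits_iff, hσz] at hlt
    have hnI : (nI a : ℤ) = nm c := by
      rw [hac, nI_sp hC hc0]
      exact Int.natAbs_of_nonneg (R4.nm_nonneg4 h.hA hB c)
    rw [← hnI]
    have hr : nI a % 3 = 0 ∨ nI a % 3 = 1 ∨ nI a % 3 = 2 := by omega
    have hpow : z ^ nI a = z ^ (nI a % 3) := by
      conv_lhs => rw [← Nat.div_add_mod (nI a) 3, pow_add, pow_mul, hz3, one_pow, one_mul]
    rcases hr with hr | hr | hr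
    · exfalso
      rw [hpow, hr, pow_zero, ← neg_sub, Valuation.map_neg, hvz1] at hlt
      exact lt_irrefl _ hlt
    · omega
    · exfalso
      rw [hpow, hr] at hlt
      have e1 : z ^ 2 - z = z * (z - 1) := by ring
      rw [e1, map_mul, hvz, hvz1, mul_one] at hlt
      exact lt_irrefl _ hlt
  -- the action on the points of order three
  have hw : ∀ w, w ∉ L.lattice → 3 * w ∈ L.lattice →
      σ (L.weierstrassP w) = L.weierstrassP (emb c * w) := by
    intro w hw0 hw3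
    have ht : Tor (idl (A := A) (B := B) (2 * f)) L w := by
      intro x hx
      obtain ⟨y, rfl⟩ := Ideal.mem_span_singleton.1 (hm3 hx)
      have e : emb (((3 : ℕ) : OO A B) * y) * w = emb y * (3 * w) := by
        rw [Pool.Agent.MUX.emb_mul hC, Pool.Agent.MUX.emb_natCast hC]
        push_cast
        ring
      rw [e]
      exact hCM y _ hw3
    rcases hact.act w ht with ⟨h1, -⟩ | ⟨-, -, hx, -⟩
    · exact absurd h1 hw0
    · have := (hco (mu * w)).1
      rw [← this, hc] at hx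
      exact hx
  have hgen : (∀ w, w ∉ L.lattice → 3 * w ∈ L.lattice →
      σ (L.weierstrassP w) = L.weierstrassP w) →
      ∀ y ∈ RFE (idl (A := A) (B := B) 3), σ y = y := by
    intro hall y hy
    induction hy using IntermediateField.adjoin_induction with
    | mem x hx =>
      obtain ⟨b1, L1, om1, hL1, hx⟩ := hx
      obtain ⟨hlat1, -, hco1⟩ := c_SGQ A B L L1 hL.nrm hL1.nrm
      rcases hx with rfl | ⟨z, hz, hz0, rfl⟩
      · have e1 : kapE L1 ∈ kk A B := by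
          unfold kapE
          rw [hL1.nrm.g2, hL1.nrm.g3]
          unfold g2E g3E
          rw [if_pos hB, if_pos hB, add_zero]
          exact_mod_cast natCast_mem (kk A B) 4
        exact hfk _ e1
      · rw [← (hco1 z).1]
        refine hall z (fun h1 => hz0 ((hlat1 _).1 h1)) ?_
        rw [hlat1]
        have h5 := hz ((3 : ℕ) : OO A B) (Ideal.mem_span_singleton_self _)
        rw [Pool.Agent.MUX.emb_natCast hC] at h5
        exact_mod_cast h5
    | algebraMap x => exact hfk _ x.2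
    | add x y _ _ hx hy => rw [map_add, hx, hy]
    | inv x _ hx => rw [map_inv₀, hx]
    | mul x y _ _ hx hy => rw [map_mul, hx, hy]
  have hall : ∀ (b : Ideal (OO A B)) (L1 : PeriodPair) (om1 : ℂ), IsNE b L1 om1 →
      ∀ w, (w ∈ L.lattice ↔ w ∈ L1.lattice) ∧ L.weierstrassP w = L1.weierstrassP w := by
    intro b1 L1 om1 hL1 w
    obtain ⟨hlat1, -, hco1⟩ := c_SGQ A B L L1 hL.nrm hL1.nrm
    exact ⟨hlat1 w, (hco1 w).1⟩
  obtain ⟨hs, -, -, -⟩ := w_scal h hCM
  have hw2 : wC A B ^ 2 = -1 := by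
    have := w_sq h
    rw [hB] at this ⊢
    push_cast at this
    linear_combination this
  rcases R4.unit3 h.hA hB hnm with hu | hu | hu | hu
  · left
    apply hgen
    intro w hw0 hw3
    rw [hw w hw0 hw3, R4.wp_cong3 hC hCM hu hw3, Pool.Agent.MUX.emb_one hC, one_mul]
  · left
    apply hgen
    intro w hw0 hw3
    rw [hw w hw0 hw3, R4.wp_cong3 hC hCM hu hw3, Pool.Agent.MUX.emb_neg hC,
      Pool.Agent.MUX.emb_one hC, neg_one_mul, L.weierstrassP_neg]
  · right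
    intro b1 L1 om1 hL1 w hw0 hw3
    have hw0' : w ∉ L.lattice := fun h1 => hw0 ((hall _ _ _ hL1 w).1.1 h1)
    have hw3' : 3 * w ∈ L.lattice := (hall _ _ _ hL1 (3 * w)).1.2 hw3
    rw [← (hall _ _ _ hL1 w).2, hw w hw0' hw3', R4.wp_cong3 hC hCM hu hw3',
      Pool.Agent.MUX.emb_w, hs, hw2]
    ring
  · right
    intro b1 L1 om1 hL1 w hw0 hw3
    have hw0' : w ∉ L.lattice := fun h1 => hw0 ((hall _ _ _ hL1 w).1.1 h1)
    have hw3' : 3 * w ∈ L.lattice := (hall _ _ _ hL1 (3 * w)).1.2 hw3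
    rw [← (hall _ _ _ hL1 w).2, hw w hw0' hw3', R4.wp_cong3 hC hCM hu hw3',
      Pool.Agent.MUX.emb_neg hC, Pool.Agent.MUX.emb_w, neg_mul, L.weierstrassP_neg, hs, hw2]
    ring

/-- the good model in the form of `DefsR2.lean` -/
lemma goodQ_of {V : ValuationSubring ℂ} {L : PeriodPair} {w₁ w₂ u a c : ℂ}
    (hw1 : IsW L u (L.weierstrassP w₁) c w₁) (hw2 : w₂ ∉ L.lattice) (hw23 : 3 * w₂ ∈ L.lattice)
    (hne : L.weierstrassP w₂ ≠ L.weierstrassP w₁)
    (hu : u ^ 2 = L.weierstrassP w₂ - L.weierstrassP w₁)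
    (hdeu : Deu L u (L.weierstrassP w₁) a c)
    (r1 : V.valuation a ^ 2 ≤ V.valuation (2 : ℂ))
    (r3 : V.valuation c = 1) : GoodQ V L u (L.weierstrassP w₁) a c := by
  refine ⟨hdeu.u0, ⟨w₁, w₂, hw1.three, hw23, hw1.ne, hw2, ?_, ?_, rfl, hu⟩, hdeu.eq, r1, r3⟩
  · intro h
    apply hne
    have h6 := L.weierstrassP_add_coe w₁ ⟨w₂ - w₁, h⟩
    rw [← h6]
    congr 1
    show w₂ = w₁ + (w₂ - w₁)
    ring
  · intro h
    apply hne
    have h6 := L.weierstrassP_add_coe (-w₁) ⟨w₂ + w₁, h⟩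
    rw [← L.weierstrassP_neg w₁, ← h6]
    congr 1
    show w₂ = -w₁ + (w₂ + w₁)
    ring

/-- (RFIN) for `D = -4`, `p = 2` -/
theorem r4_RFIN : T4_RFIN := by
  intro A B P V h hB hP hV T
  have hC := h.toCQ
  obtain ⟨β, N, hN, hβ⟩ := r_ALC A B V P hC (by rw [hB, h.hA]; norm_num) hV hP.mem
  refine ⟨fun b L om hL => ?_, fun f hf hf2 h3 σ hσ hin => ⟨fun hfix3 => ?_, ?_⟩⟩
  · obtain ⟨w₁, w₂, u, a, c, hw1, ⟨hw2, hw23⟩, hne, hu, hdeu, r1, r2, r3, m1, m2⟩ :=
      modG hC hN hL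
    have r2 : V.valuation a ^ 2 ≤ V.valuation (2 : ℂ) := by
      have h2p : (0 : V.ValueGroup) < V.valuation (2 : ℂ) :=
        zero_lt_iff.2 ((Valuation.ne_zero_iff _).2 two_ne_zero)
      have e1 : V.valuation a ^ 2 * V.valuation (2 : ℂ) ≤
          V.valuation (2 : ℂ) * V.valuation (2 : ℂ) := by
        have e2 := pow_le_pow_left₀ zero_le r1 2
        rw [mul_pow, hβ, sq (V.valuation (2 : ℂ))] at e2
        exact e2
      exact le_of_mul_le_mul_right e1 h2p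
    exact ⟨u, _, a, c, goodQ_of hw1 hw2 hw23 hne hu hdeu r2 r3, m1, m2⟩
  · exact inerM h T V hN hf hf2 h3 σ hσ hin hfix3
  · exact dich4 h hB T V hN.v3 hf h3 σ hσ hin

end

end Pool.Agent.ME2
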