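import Pool.Agent.ME2.Defs4
import Pool.Agent.ME2.T_TYF3
import Pool.Agent.N2.T3_TYF
import Pool.Agent.N2.RAll

/-!
# ME2, block T, `p = 2`, `D = -4` (helper4): the result `T4_TYF`

`y² = x³ - x`, `L = om O`. `σ` in the inertia group at `V` of a large Galois extension `F / k`. By `T4_RFIN` it acts on the `x`-coordinates of the points of order three as `s = ± 1`, so `σ(u²) = s u²`,
`σ e = s e`. `σ` acts on the points of level `m` as `c`, `c ≡ 1` modulo `2` (`actE`). `X = (℘ - e)/u²` is the `x`-coordinate of a model with good reduction. `η = 1` or `i`, `η² = s`: `σ(X z) = X(η c z)`, so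
`X(η c z) ≡ X z` modulo `m_V` for `z = om/m'`, and `η c z = ± z` (`redU`). So `c ≡ ζ` modulo `m'`, `ζ` a unit: `e(c) = ζ` (`OddF4.cond`), `ζ σ(u a3) = u a3` (`sguQ`) and `σ Q = Q` for the
values `Q = PhiI/(u a3 om)`: they are in the inertia field.
-/

set_option autoImplicit false

namespace Pool.Agent.ME2

open _root_.MU3 Pool.Agent.MU3A Pool.Agent.MU3B Pool.Agent.RI Pool.Agent.MUX Pool.Agent.MUXU
open OnePoint Pool.Agent.NS
open Pool.Agent.ME hiding ActE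
open Pool.Agent.N2 (GoodT GoodQ WT yt et)
open Pool.Agent.N2R (Deu)
open Pool.Agent.MUX2 (GRG)
open Pool.Agent.MUXV (InK)
open Pool.Agent.MUXY (ActN Dn)
open Pool.Agent.NST (KIn nt_GLC)
open Pool.Agent.NST.TYF (dn_mono idl_ne_bot)

noncomputable section

variable {A B : ℤ} {L : PeriodPair} {om : ℂ} {b : Ideal (OO A B)} {V : ValuationSubring ℂ}
  {P : Ideal (OO A B)}

/-! ### The prime ideal above two -/

/-- a generator of `P` -/
theorem p_unif (hQ : CQ A B) (hA : A = -1) (hB : B = 0) (hP : IsPN 2 P) (hV : OverI V P) :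
    V.valuation (2 : ℂ) < 1 ∧ ∃ ϖ : OO A B, ϖ ∈ P ∧ ϖ ∉ P ^ 2 ∧
      V.valuation (emb ϖ) ^ 2 = V.valuation (2 : ℂ) := by
  have h2 : V.valuation (2 : ℂ) < 1 := Pool.Agent.N2T.r_v2 hQ hP hV
  refine ⟨h2, ?_⟩
  subst hA
  subst hB
  have hint : ∀ y : OO (-1) 0, V.valuation (emb y) ≤ 1 := (Pool.Agent.MUXV.q_VQI (-1) 0 hQ.toF V).1
  have hwv : V.valuation (emb (⟨0, 1⟩ : OO (-1) 0)) = 1 := by
    have h3 : (⟨0, 1⟩ : OO (-1) 0) * ⟨0, -1⟩ = 1 := QuadraticAlgebra.ext rfl rfl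
    have h4 := congrArg (fun x => V.valuation (emb x)) h3
    simp only [MUX.emb_mul hQ, MUX.emb_one hQ, map_mul, map_one] at h4
    refine le_antisymm (hint _) ?_
    rw [← h4]
    exact mul_le_of_le_one_right' (hint _)
  have hϖ2 : (⟨1, 1⟩ : OO (-1) 0) * ⟨1, 1⟩ = ((2 : ℕ) : OO (-1) 0) * ⟨0, 1⟩ := by
    ext
    · rw [QuadraticAlgebra.re_mul, QuadraticAlgebra.re_mul, QuadraticAlgebra.re_natCast,
        QuadraticAlgebra.im_natCast]
      norm_num
    · rw [QuadraticAlgebra.im_mul, QuadraticAlgebra.im_mul, QuadraticAlgebra.re_natCast,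
        QuadraticAlgebra.im_natCast]
      norm_num
  have hϖv : V.valuation (emb (⟨1, 1⟩ : OO (-1) 0)) ^ 2 = V.valuation (2 : ℂ) := by
    rw [pow_two, ← map_mul, ← MUX.emb_mul hQ, hϖ2, MUX.emb_mul hQ, MUX.emb_natCast hQ, map_mul,
      hwv, mul_one, Nat.cast_ofNat]
  have hϖP : (⟨1, 1⟩ : OO (-1) 0) ∈ P := by
    have h3 : (⟨1, 1⟩ : OO (-1) 0) * ⟨1, 1⟩ ∈ P := by
      rw [hϖ2]
      exact P.mul_mem_right _ hP.mem
    rcases hP.prime.mem_or_mem h3 with h | h <;> exact h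
  refine ⟨⟨1, 1⟩, hϖP, ?_, hϖv⟩
  -- elements of `P`
  have hle : ∀ x ∈ P, V.valuation (emb x) ≤ V.valuation (emb (⟨1, 1⟩ : OO (-1) 0)) := by
    intro x hx
    have hxv : V.valuation (emb x) < 1 := by
      have := (hV x).2 hx
      rwa [ValuationSubring.mem_nonunits_iff] at this
    have hs := MUX.mul_star x
    have hs2 : emb x * emb (star x) = ((nm x : ℤ) : ℂ) := by
      rw [← MUX.emb_mul hQ, hs, MUX.emb_intCast hQ]
    have hn : (2 : ℤ) ∣ nm x := by
      by_contra h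
      have h3 := (Pool.Agent.N2T.r_int (V := V) h2 _).2.2 h
      rw [← hs2, map_mul] at h3
      exact absurd h3 (mul_lt_one_of_lt_of_le hxv (hint _)).ne
    have hn' : nm x = x.re ^ 2 + x.im ^ 2 := by
      unfold nm
      ring
    have hd : (2 : ℤ) ∣ x.re - x.im := by
      rw [hn'] at hn
      have h3 : (2 : ℤ) ∣ (x.re - x.im) ^ 2 := by
        have h4 : (x.re - x.im) ^ 2 = (x.re ^ 2 + x.im ^ 2) - 2 * (x.re * x.im) := by ring
        rw [h4]
        exact dvd_sub hn (Dvd.intro _ rfl)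
      exact Int.prime_two.dvd_of_dvd_pow h3
    obtain ⟨k, hk⟩ := hd
    have hx2 : emb x = 2 * (k : ℂ) + (x.im : ℂ) * emb (⟨1, 1⟩ : OO (-1) 0) := by
      have h3 : (x.re : ℂ) = x.im + 2 * k := by
        have : x.re = x.im + 2 * k := by linarith
        exact_mod_cast this
      unfold emb
      rw [h3]
      push_cast
      ring
    rw [hx2]
    have h3 : V.valuation (2 : ℂ) ≤ V.valuation (emb (⟨1, 1⟩ : OO (-1) 0)) := by
      rw [← hϖv, pow_two]
      exact mul_le_of_le_one_right' (hint _)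
    refine (V.valuation.map_add _ _).trans (max_le ?_ ?_)
    · rw [map_mul]
      exact (mul_le_of_le_one_right' (Pool.Agent.N2T.r_int h2 k).1).trans h3
    · rw [map_mul]
      exact mul_le_of_le_one_left' (Pool.Agent.N2T.r_int h2 x.im).1
  have hle2 : ∀ x ∈ P ^ 2, V.valuation (emb x) ≤ V.valuation (2 : ℂ) := by
    intro x hx
    rw [pow_two] at hx
    induction hx using Submodule.mul_induction_on' with
    | mem_mul_mem a ha c hc =>
      show V.valuation (emb (a * c)) ≤ _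
      rw [MUX.emb_mul hQ, map_mul, ← hϖv, pow_two]
      exact mul_le_mul' (hle a ha) (hle c hc)
    | add a _ c _ h5 h6 =>
      rw [MUX.emb_add hQ]
      exact (V.valuation.map_add _ _).trans (max_le h5 h6)
  intro h
  have h3 := hle2 _ h
  have hv0 : V.valuation (2 : ℂ) ≠ 0 := (Valuation.ne_zero_iff _).2 two_ne_zero
  have h4 : V.valuation (2 : ℂ) ≤ V.valuation (2 : ℂ) ^ 2 := by
    calc V.valuation (2 : ℂ) = V.valuation (emb (⟨1, 1⟩ : OO (-1) 0)) ^ 2 := hϖv.symm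
      _ ≤ V.valuation (2 : ℂ) ^ 2 := pow_le_pow_left₀ zero_le h3 2
  have h5 : V.valuation (2 : ℂ) ^ 2 < V.valuation (2 : ℂ) := by
    rw [pow_two]
    exact mul_lt_of_lt_one_right (zero_lt_iff.2 hv0) h2
  exact absurd h4 (not_le.2 h5)

/-! ### The multiplier of `u a3` -/

theorem sguQ (hC : CQ A B) (hL : IsLI b L om) {u e a1 a3 : ℂ}
    (hG : GoodQ V L u e a1 a3) {m : ℕ} (h3 : 3 ∣ m) {σ : ℂ ≃+* ℂ} {c η η' : OO A B}
    (hA : ActN σ m (sp c) L L (emb c)) (hη : η * η' = 1)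
    (hc : c - η ∈ idl (A := A) (B := B) 3) : emb η * σ (u * a3) = u * a3 := by
  have ha3 : a3 ≠ 0 := by
    rintro rfl
    have := hG.v3
    rw [map_zero] at this
    exact zero_ne_one this
  have hG' : GoodT (⊤ : ValuationSubring ℂ) L u e a1 a3 := by
    have htop : ∀ x : ℂ, x ≠ 0 → (⊤ : ValuationSubring ℂ).valuation x = 1 := by
      intro x hx
      have h1 : ∀ y : ℂ, (⊤ : ValuationSubring ℂ).valuation y ≤ 1 := fun y =>
        (ValuationSubring.valuation_le_one_iff _ _).2 trivial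
      refine le_antisymm (h1 x) ?_
      have h4 := h1 x⁻¹
      rw [map_inv₀] at h4
      exact (inv_le_one₀ (zero_lt_iff.2 ((Valuation.ne_zero_iff _).2 hx))).1 h4
    refine ⟨hG.u0, hG.tor, hG.eq, ?_, htop a3 ha3⟩
    rw [htop 2 two_ne_zero]
    exact (ValuationSubring.valuation_le_one_iff _ _).2 trivial
  exact sguE hC hL hG' h3 hA hη hc

/-! ### The reduction -/

/-- an automorphism in the inertia group which acts as `s` on the points of order three acts as a unit modulo `m'` -/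
theorem redU (hC : CQ A B) (hA : A = -1) (hB : B = 0) (h2 : V.valuation (2 : ℂ) < 1)
    (hL : IsNE (⊤ : Ideal (OO A B)) L om) {u e a1 a3 : ℂ} (hG : GoodQ V L u e a1 a3) {m m' : ℕ}
    (hm2 : ¬ 2 ∣ m') (h3m : 3 ∣ m') (hmm : m' ∣ m) {σ : ℂ ≃+* ℂ} {c : OO A B}
    (hAct : ActN σ m (sp c) L L (emb c)) {s : ℤ} (hs : s = 1 ∨ s = -1)
    (hs3 : ∀ w ∉ L.lattice, 3 * w ∈ L.lattice → σ (L.weierstrassP w) = s * L.weierstrassP w)
    (hin : ∀ y ∈ RFE (idl (A := A) (B := B) (2 * m')), y ∈ V → σ y - y ∈ V.nonunits) :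
    ∃ ζ ζ' : OO A B, ζ * ζ' = 1 ∧ c - ζ ∈ idl (A := A) (B := B) m' := by
  have hm0 : m' ≠ 0 := by
    rintro rfl
    exact hm2 (dvd_zero 2)
  have h3m' : 3 ≤ m' := Nat.le_of_dvd (Nat.pos_of_ne_zero hm0) h3m
  have hmC : (m' : ℂ) ≠ 0 := by exact_mod_cast hm0
  have hCM : HasCM A B L := hL.toIsLI.hasCM hC
  obtain ⟨w1, w2, h31, h32, hw1, hw2, -, -, he, hu2⟩ := hG.tor
  have hu0 := hG.u0
  have hdeu : Deu L u e a1 a3 := ⟨hG.u0, hG.eq⟩
  have v1 : V.valuation a1 < 1 := by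
    by_contra h
    exact absurd ((one_le_pow_of_one_le' (not_lt.1 h) 2).trans hG.v1) (not_le.2 h2)
  have v3 : V.valuation (3 : ℂ) = 1 := by
    have := (Pool.Agent.N2T.r_int (V := V) h2 3).2.2 (by norm_num)
    exact_mod_cast this
  obtain ⟨ξ, G, -⟩ := Pool.Agent.N2R.r_GRT V L u e a1 a3 v3 v1 hG.v3 hdeu
  have hvm : V.valuation (m' : ℂ) = 1 := by
    have := (Pool.Agent.N2T.r_int (V := V) h2 m').2.2 (by exact_mod_cast hm2)
    exact_mod_cast this
  -- the unit `η`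
  obtain ⟨η, η', hη, hη2⟩ : ∃ η η' : OO A B, η * η' = 1 ∧ emb η ^ 2 = s := by
    rcases hs with rfl | rfl
    · exact ⟨1, 1, one_mul 1, by rw [MUX.emb_one hC]; norm_num⟩
    · subst hA
      subst hB
      refine ⟨⟨0, 1⟩, ⟨0, -1⟩, QuadraticAlgebra.ext rfl rfl, ?_⟩
      have h3 : (⟨0, 1⟩ : OO (-1) 0) ^ 2 = ((-1 : ℤ) : OO (-1) 0) := by
        rw [pow_two]
        ext
        · rw [QuadraticAlgebra.re_mul, QuadraticAlgebra.re_intCast]
          norm_num
        · rw [QuadraticAlgebra.im_mul, QuadraticAlgebra.im_intCast]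
          norm_num
      rw [← MUX.emb_pow hC, h3, MUX.emb_intCast hC]
  obtain ⟨hη0, hηL, hηP, -⟩ := unit_hom hC hL.toIsLI hη
  have hs1 : (s : ℂ) ^ 2 = 1 := by
    rcases hs with rfl | rfl <;> norm_num
  have hs0 : (s : ℂ) ≠ 0 := by
    intro h
    rw [h] at hs1
    norm_num at hs1
  -- the point
  obtain ⟨z, hz⟩ : ∃ z, z = om / m' := ⟨_, rfl⟩
  have key : ∀ y : OO A B, emb y * z ∈ L.lattice → y ∈ idl (A := A) (B := B) m' := by
    intro y hy
    obtain ⟨x, -, hx⟩ := (hL.mem _).1 hy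
    have h1 : emb y = emb (x * ((m' : ℕ) : OO A B)) := by
      rw [MUX.emb_mul hC, MUX.emb_natCast hC]
      have hom := hL.om_ne
      rw [hz] at hx
      field_simp at hx
      linear_combination hx
    rw [MUX.emb_inj hC h1]
    exact Ideal.mul_mem_left _ _ (natCast_mem_idl m')
  have hmz : (m' : ℂ) * z ∈ L.lattice := by
    rw [hz, mul_div_cancel₀ _ hmC]
    exact (hL.mem _).2 ⟨1, trivial, by rw [MUX.emb_one hC, mul_one]⟩
  have hz0 : z ∉ L.lattice := by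
    intro h
    have h1 := key 1 (by rwa [MUX.emb_one hC, one_mul])
    rw [mem_idl_iff] at h1
    have h3 : ((m' : ℕ) : ℤ) ∣ 1 := h1.1
    have := Int.le_of_dvd one_pos h3
    omega
  have hmz' : (m : ℂ) * z ∈ L.lattice := by
    obtain ⟨k, rfl⟩ := hmm
    have h1 := nsmul_mem hmz k
    rw [nsmul_eq_mul] at h1
    have e1 : ((m' * k : ℕ) : ℂ) * z = (k : ℂ) * ((m' : ℂ) * z) := by push_cast; ring
    rw [e1]
    exact h1
  obtain ⟨hc0, hPc, -⟩ := hAct.act z hmz' hz0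
  -- torsion points are not in the kernel of reduction
  have hK : ∀ y : ℂ, (m' : ℂ) * y ∈ L.lattice → InK V L (xu L u e) y → y ∈ L.lattice :=
    fun y hy hyK => Pool.Agent.MUX2.gmem_of_nat_mul G hyK hvm hy
  have hmc : ∀ x : OO A B, (m' : ℂ) * (emb x * z) ∈ L.lattice := by
    intro x
    rw [mul_left_comm]
    exact hCM x _ hmz
  -- conjugation
  have hse : σ e = s * e := by rw [he, hs3 w1 hw1 h31]
  have hsu : σ (u ^ 2) = s * u ^ 2 := by
    rw [hu2, map_sub, hs3 w1 hw1 h31, hs3 w2 hw2 h32]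
    ring
  have hcz : emb (η * c) * z ∉ L.lattice := by
    intro h
    apply hc0
    rw [hηL, ← mul_assoc, ← MUX.emb_mul hC]
    exact h
  have hX : σ (xu L u e z) = xu L u e (emb (η * c) * z) := by
    unfold xu
    rw [map_div₀, map_sub, hse, hsu, ← hPc, MUX.emb_mul hC, mul_assoc, hηP, hη2]
    rw [div_eq_div_iff (mul_ne_zero hs0 (pow_ne_zero 2 hu0)) (pow_ne_zero 2 hu0)]
    field_simp
  have hzK : ¬ InK V L (xu L u e) z := fun h => hz0 (hK z hmz h)
  have hcK : ¬ InK V L (xu L u e) (emb (η * c) * z) := fun h => hcz (hK _ (hmc _) h)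
  have hxV : xu L u e z ∈ V :=
    (ValuationSubring.valuation_le_one_iff _ _).1 (Pool.Agent.MUXV.int_X hzK).2
  have hle3 : idl (A := A) (B := B) (2 * m') ≤ idl (A := A) (B := B) 3 :=
    idl_mono (h3m.mul_left 2)
  have hxR : xu L u e z ∈ RFE (idl (A := A) (B := B) (2 * m')) := by
    have hmem : ∀ w : ℂ, w ∉ L.lattice → (m' : ℂ) * w ∈ L.lattice →
        L.weierstrassP w ∈ RFE (idl (A := A) (B := B) (2 * m')) := by
      intro w hw hw'
      apply wp_mem hC hL hw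
      have h1 := nsmul_mem hw' 2
      rw [nsmul_eq_mul] at h1
      have e1 : ((2 * m' : ℕ) : ℂ) * w = ((2 : ℕ) : ℂ) * ((m' : ℂ) * w) := by push_cast; ring
      rw [e1]
      exact h1
    have h3w : ∀ w : ℂ, 3 * w ∈ L.lattice → (m' : ℂ) * w ∈ L.lattice := by
      intro w hw
      obtain ⟨k, rfl⟩ := h3m
      have h1 := nsmul_mem hw k
      rw [nsmul_eq_mul] at h1
      have e1 : ((3 * k : ℕ) : ℂ) * w = (k : ℂ) * (3 * w) := by push_cast; ring
      rw [e1]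
      exact h1
    unfold xu
    rw [hu2, he]
    exact div_mem (sub_mem (hmem z hz0 hmz) (hmem w1 hw1 (h3w _ h31)))
      (sub_mem (hmem w2 hw2 (h3w _ h32)) (hmem w1 hw1 (h3w _ h31)))
  have hlt := hin _ hxR hxV
  rw [hX, ValuationSubring.mem_nonunits_iff] at hlt
  have hη'0 : η' * η = 1 := by rw [mul_comm]; exact hη
  by_cases hm1 : emb (η * c) * z - z ∈ L.lattice
  · refine ⟨η', η, hη'0, ?_⟩
    have h1 := key (η * c - 1) (by
      rw [MUX.emb_sub hC, MUX.emb_one hC, sub_mul, one_mul]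
      exact hm1)
    have h3 : c - η' = η' * (η * c - 1) := by
      rw [mul_sub, ← mul_assoc, hη'0, one_mul, mul_one]
    rw [h3]
    exact Ideal.mul_mem_left _ _ h1
  by_cases hp1 : emb (η * c) * z + z ∈ L.lattice
  · refine ⟨-η', -η, by rw [neg_mul_neg, hη'0], ?_⟩
    have h1 := key (η * c + 1) (by
      rw [MUX.emb_add hC, MUX.emb_one hC, add_mul, one_mul]
      exact hp1)
    have h3 : c - -η' = η' * (η * c + 1) := by
      rw [mul_add, ← mul_assoc, hη'0, one_mul, mul_one, sub_neg_eq_add]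
    rw [h3]
    exact Ideal.mul_mem_left _ _ h1
  exfalso
  have := Pool.Agent.MUX2.gv_X_sub G hcK hzK (fun h1 => hp1 (hK _ (by
    rw [mul_add]
    exact add_mem (hmc _) hmz) h1)) (fun h1 => hm1 (hK _ (by
    rw [mul_sub]
    exact sub_mem (hmc _) hmz) h1))
  exact absurd this hlt.ne

/-! ### Roots of unity -/

/-- fourth roots of unity -/
lemma four_root (hC : CQ A B) (hA : A = -1) (hB : B = 0) {x : ℂ} (hx : x ^ 4 = 1) :
    ∃ z : OO A B, x = emb z := by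
  subst hA
  subst hB
  have hi : emb (⟨0, 1⟩ : OO (-1) 0) ^ 2 = -1 := by
    have h3 : (⟨0, 1⟩ : OO (-1) 0) ^ 2 = ((-1 : ℤ) : OO (-1) 0) := by
      rw [pow_two]
      ext
      · rw [QuadraticAlgebra.re_mul, QuadraticAlgebra.re_intCast]
        norm_num
      · rw [QuadraticAlgebra.im_mul, QuadraticAlgebra.im_intCast]
        norm_num
    rw [← MUX.emb_pow hC, h3, MUX.emb_intCast hC]
    norm_num
  have h1 : (x - 1) * (x + 1) * ((x - emb (⟨0, 1⟩ : OO (-1) 0)) *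
      (x + emb (⟨0, 1⟩ : OO (-1) 0))) = 0 := by
    linear_combination hx - (x ^ 2 - 1) * hi
  rcases mul_eq_zero.1 h1 with h | h
  · rcases mul_eq_zero.1 h with h | h
    · exact ⟨1, by rw [MUX.emb_one hC]; linear_combination h⟩
    · exact ⟨-1, by rw [MUX.emb_neg hC, MUX.emb_one hC]; linear_combination h⟩
  · rcases mul_eq_zero.1 h with h | h
    · exact ⟨⟨0, 1⟩, by linear_combination h⟩
    · exact ⟨-⟨0, 1⟩, by rw [MUX.emb_neg hC]; linear_combination h⟩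

/-- roots of unity of order `4 r`, `r` odd -/
lemma root_split {z : ℂ} {r : ℕ} (hr : ¬ 2 ∣ r) (hz : z ^ (4 * r) = 1) :
    ∃ x y : ℂ, x ^ 4 = 1 ∧ y ^ r = 1 ∧ z = x ^ r * y⁻¹ := by
  obtain ⟨k, hk⟩ : ∃ k, r * r = 1 + 4 * k := by
    obtain ⟨l, hl⟩ : ∃ l, r = 2 * l + 1 := ⟨r / 2, by omega⟩
    exact ⟨l * l + l, by rw [hl]; ring⟩
  have hz0 : z ≠ 0 := by
    rintro rfl
    rw [zero_pow (by
      intro h
      apply hr
      have : r = 0 := by omega
      rw [this]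
      exact dvd_zero 2)] at hz
    exact zero_ne_one hz
  refine ⟨z ^ r, z ^ (4 * k), ?_, ?_, ?_⟩
  · rw [← pow_mul, mul_comm, hz]
  · rw [← pow_mul, mul_right_comm, pow_mul, hz, one_pow]
  · rw [← pow_mul, hk, pow_add, pow_one, mul_assoc, mul_inv_cancel₀ (pow_ne_zero _ hz0), mul_one]

/-! ### The result -/

theorem t4_TYF (hR : T4_RFIN) : T4_TYF := by
  intro A B P V f hS hT ι _ R u el a1 a3 hG e he r hr her
  have hE := hS.case
  have hQ : CQ A B := hE.toCQ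
  have hL := R.nl R.i0
  have hL0 : IsNE (⊤ : Ideal (OO A B)) (R.L R.i0) (R.om R.i0) := by
    have h1 := hL
    rw [R.b0] at h1
    exact h1
  have hom0 : R.om R.i0 ≠ 0 := hL.om_ne
  have hu0 : u ≠ 0 := hG.u0
  have ha30 : a3 ≠ 0 := by
    rintro rfl
    have := hG.v3
    rw [map_zero] at this
    exact zero_ne_one this
  have hr0 : r ≠ 0 := by
    rintro rfl
    exact hr (dvd_zero 2)
  have h4r0 : 4 * r ≠ 0 := mul_ne_zero (by norm_num) hr0
  obtain ⟨h2, ϖ, hϖ, hϖ2, hϖv⟩ := p_unif hQ hE.hA hS.hB hS.hP hS.hV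
  have h3f : 3 ∣ f := by
    have h1 : (3 : ℤ) ∣ 8 * (f : ℤ) := (Dvd.intro _ rfl).trans hS.fD
    omega
  have hf3 : 3 ≤ f := Nat.le_of_dvd (Nat.pos_of_ne_zero hS.f0) h3f
  have h2f : 2 * f ≠ 0 := mul_ne_zero (by norm_num) hS.f0
  have hgt : idl (A := A) (B := B) (2 * f) ≠ ⊤ := NST.VAL.idl_ne_top (by omega)
  have hgb : idl (A := A) (B := B) (2 * f) ≠ ⊥ := idl_ne_bot hQ h2f
  have hcopb : IsCoprime (sp ((nI (R.b R.i0) : ℕ) : OO A B))
      (idl (A := A) (B := B) (2 * f)) := NST.VAL.coprime_idl (R.cop R.i0)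
  obtain ⟨U, hU⟩ : ∃ U, U = u * a3 := ⟨_, rfl⟩
  have hU0 : U ≠ 0 := by rw [hU]; exact mul_ne_zero hu0 ha30
  have hUa : IsAlgebraic ℚ U := by
    obtain ⟨w1, w2, h31, h32, hw1, hw2, -, -, he1, hu2⟩ := hG.tor
    have h31' : ((3 : ℕ) : ℂ) * w1 ∈ (R.L R.i0).lattice := by exact_mod_cast h31
    have h32' : ((3 : ℕ) : ℂ) * w2 ∈ (R.L R.i0).lattice := by exact_mod_cast h32
    have hP1 : IsAlgebraic ℚ ((R.L R.i0).weierstrassP w1) :=
      alg_RFE hQ hT three_ne_zero (wp_mem hQ hL hw1 h31')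
    have hP2 : IsAlgebraic ℚ ((R.L R.i0).weierstrassP w2) :=
      alg_RFE hQ hT three_ne_zero (wp_mem hQ hL hw2 h32')
    have hu2a : IsAlgebraic ℚ (u ^ 2) := by rw [hu2]; exact hP2.sub hP1
    have h4 : IsAlgebraic ℚ (4 : ℂ) := by simpa using NST.ALT.alg_num 4
    have h0 : IsAlgebraic ℚ (0 : ℂ) := isAlgebraic_zero
    have hg2 : IsAlgebraic ℚ (R.L R.i0).g₂ := by
      rw [hL.nrm.g2]
      unfold g2E
      split_ifs
      · exact h4
      · exact h0
    have hg3 : IsAlgebraic ℚ (R.L R.i0).g₃ := by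
      rw [hL.nrm.g3]
      unfold g3E
      split_ifs
      · exact h0
      · exact h4.neg
    have hD : IsAlgebraic ℚ ((R.L R.i0).derivWeierstrassP w1) := by
      apply IsAlgebraic.of_pow two_pos
      rw [(R.L R.i0).derivWeierstrassP_sq w1 hw1]
      exact ((h4.mul (hP1.pow 3)).sub (hg2.mul hP1)).sub hg3
    have heq := hG.eq w1 hw1
    rw [← he1, sub_self, zero_div, mul_zero, zero_add, zero_pow (by norm_num), mul_zero,
      zero_add] at heq
    have hua : (u * a3) ^ 2 = ((R.L R.i0).derivWeierstrassP w1) ^ 2 * ((u ^ 2) ^ 2)⁻¹ := by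
      rw [mul_pow, ← heq]
      field_simp
    rw [hU]
    apply IsAlgebraic.of_pow two_pos
    rw [hua]
    exact (hD.pow 2).mul (hu2a.pow 2).inv
  -- the values of `P = PhiI/(u a3 om_0)`
  obtain ⟨Q, hQdef⟩ : ∃ Q : OnePoint ℚ × OnePoint ℚ → ℂ,
    Q = fun q => PhiI (R.b R.i0) e q.1 q.2 / (U * R.om R.i0) := ⟨_, rfl⟩
  obtain ⟨S, N00, hN00, hSD0, hgen⟩ := fgE hQ hL.b_ne hgb he.toIsEI (U * R.om R.i0)
  have hgen' : ∀ x y, Q (x, y) ∈ AddSubgroup.closure
      (Q '' (S : Set (OnePoint ℚ × OnePoint ℚ))) := by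
    rw [hQdef]
    exact hgen
  obtain ⟨j, N, hN2, hjN⟩ := Nat.exists_eq_pow_mul_and_not_dvd hN00 2 (by norm_num)
  rw [hjN] at hSD0
  have hN0 : N ≠ 0 := by
    rintro rfl
    exact hN2 (dvd_zero 2)
  obtain ⟨m', hm'⟩ : ∃ m', m' = f * N := ⟨_, rfl⟩
  have hm'0 : m' ≠ 0 := by rw [hm']; exact mul_ne_zero hS.f0 hN0
  have hm'2 : ¬ 2 ∣ m' := by
    intro h
    rw [hm'] at h
    rcases (Nat.Prime.dvd_mul Nat.prime_two).1 h with h | h
    · exact hS.fp h
    · exact hN2 h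
  have hfm : f ∣ m' := by rw [hm']; exact Dvd.intro _ rfl
  have h3m : 3 ∣ m' := h3f.trans hfm
  obtain ⟨m, hm⟩ : ∃ m, m = 2 ^ (j + 1) * m' := ⟨_, rfl⟩
  have hm0 : m ≠ 0 := by rw [hm]; exact mul_ne_zero (by positivity) hm'0
  have h2m : 2 ∣ m := by
    rw [hm]
    exact (dvd_pow_self 2 (Nat.succ_ne_zero j)).mul_right _
  have hmm : m' ∣ m := by rw [hm]; exact dvd_mul_left _ _
  have hpm : 2 * f ∣ m := by
    rw [hm, pow_succ, mul_assoc]
    exact (mul_dvd_mul_left 2 hfm).mul_left _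
  have hdvd : 2 ^ j * N ∣ m := by
    rw [hm, hm']
    exact mul_dvd_mul (pow_dvd_pow 2 (Nat.le_succ j)) (Dvd.intro_left _ rfl)
  have hQalg : ∀ q, IsAlgebraic ℚ (Q q) := by
    intro q
    have h1 := algE hE hT hL he.toIsEI hgt h2f (natCast_mem_idl (2 * f)) hcopb h4r0 her q.1 q.2
    have h3 : Q q = PhiI (R.b R.i0) e q.1 q.2 / R.om R.i0 * U⁻¹ := by
      rw [hQdef]
      field_simp
    rw [h3]
    exact h1.mul hUa.inv
  -- the field
  set Ts : Set ℂ := (Q '' (S : Set (OnePoint ℚ × OnePoint ℚ))) ∪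
    ((Polynomial.nthRootsFinset r (1 : ℂ) : Finset ℂ) : Set ℂ) with hTs
  have hTfin : Ts.Finite :=
    Set.Finite.union ((Finset.finite_toSet S).image _) (Finset.finite_toSet _)
  have hTalg : ∀ t ∈ Ts, IsAlgebraic ℚ t := by
    rintro t (⟨q, -, rfl⟩ | ht)
    · exact hQalg q
    · rw [Finset.mem_coe, Polynomial.mem_nthRootsFinset (Nat.pos_of_ne_zero hr0)] at ht
      refine ⟨Polynomial.X ^ r - 1, Polynomial.X_pow_sub_C_ne_zero
        (Nat.pos_of_ne_zero hr0) (1 : ℚ), ?_⟩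
      simp [ht]
  obtain ⟨F, hFf, hFg, hEF, hTF⟩ := nt_GLC A B hQ (RFE (idl (A := A) (B := B) (2 * m')))
    (hT.fin _ (idl_ne_bot hQ (mul_ne_zero two_ne_zero hm'0))) Ts hTfin hTalg
  have hrF : ∀ z : ℂ, z ^ r = 1 → z ∈ F := fun z hz => hTF (Or.inr (by
    rw [Finset.mem_coe, Polynomial.mem_nthRootsFinset (Nat.pos_of_ne_zero hr0)]
    exact hz))
  have hQF : ∀ q ∈ S, Q q ∈ F := fun q hq => hTF (Or.inl ⟨q, hq, rfl⟩)
  have hembF : ∀ x : OO A B, emb x ∈ F := fun x => F.algebraMap_mem ⟨emb x, MUX.emb_mem x⟩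
  have hembσ : ∀ σ : ℂ ≃+* ℂ, FixK A B σ → ∀ x : OO A B, σ (emb x) = emb x := by
    intro σ hσ x
    have h1 : σ (wC A B) = wC A B := hσ
    unfold emb
    rw [map_add, map_mul, map_intCast, map_intCast, h1]
  have hroot : ∀ σ : ℂ ≃+* ℂ, InI A B V (F : Set ℂ) σ →
      ∀ z : ℂ, (z = 0 ∨ z ^ (4 * r) = 1) → σ z = z := by
    intro σ hσ z hz
    rcases hz with rfl | hz
    · exact map_zero σ
    obtain ⟨x, y, hx, hy, rfl⟩ := root_split hr hz
    obtain ⟨t, rfl⟩ := four_root hQ hE.hA hS.hB hx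
    have hy1 : σ y = y := by
      refine Pool.Agent.N2T.rtu2 h2 hr σ ?_ y (Or.inr (by rw [mul_comm, pow_mul, hy, one_pow]))
      intro z hz
      have hz1 : V.valuation z = 1 := NST.RTU.v_root hr0 hz
      have h1 := hσ.iner z (hrF z hz) ((V.valuation_le_one_iff _).1 hz1.le)
      rwa [ValuationSubring.mem_nonunits_iff] at h1
    rw [map_mul, map_pow, map_inv₀, hy1, hembσ σ hσ.fix]
  have hkin : ∀ z : ℂ, (z = 0 ∨ z ^ (4 * r) = 1) → z ∈ KIn A B V F := by
    intro z hz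
    refine ⟨?_, fun σ hσ => hroot σ hσ z hz⟩
    rcases hz with rfl | hz
    · exact F.zero_mem
    · obtain ⟨x, y, hx, hy, rfl⟩ := root_split hr hz
      obtain ⟨t, rfl⟩ := four_root hQ hE.hA hS.hB hx
      exact mul_mem (pow_mem (hembF t) r) (inv_mem (hrF y hy))
  -- the values are in the inertia field
  have hkey : ∀ σ : ℂ ≃+* ℂ, InI A B V (F : Set ℂ) σ → ∀ q ∈ S, σ (Q q) = Q q := by
    intro σ hσ q hq
    have hinr : ∀ y ∈ RFE (idl (A := A) (B := B) (2 * m')), y ∈ V → σ y - y ∈ V.nonunits :=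
      fun y hy hyV => hσ.iner y (hEF hy) hyV
    have hs : ∃ s : ℤ, (s = 1 ∨ s = -1) ∧ ∀ w ∉ (R.L R.i0).lattice,
        3 * w ∈ (R.L R.i0).lattice →
        σ ((R.L R.i0).weierstrassP w) = s * (R.L R.i0).weierstrassP w := by
      rcases ((hR A B P V hE hS.hB hS.hP hS.hV hT).2 m' hm'0 hm'2 h3m σ hσ.fix hinr).2 with h | h
      · refine ⟨1, Or.inl rfl, fun w hw h3w => ?_⟩
        rw [h _ (wp_mem hQ hL hw (by exact_mod_cast h3w)), Int.cast_one, one_mul]
      · refine ⟨-1, Or.inr rfl, fun w hw h3w => ?_⟩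
        rw [h _ _ _ hL w hw h3w]
        push_cast
        ring
    obtain ⟨s, hs, hs3⟩ := hs
    obtain ⟨c, -, hcop, hact, hz⟩ := actE hE hT hm0 h2m hσ.fix
    have hA := hact _ _ _ hL
    obtain ⟨ζ, ζ', hζ, hcζ⟩ := redU hQ hE.hA hS.hB h2 hL0 hG hm'2 h3m hmm hA hs hs3 hinr
    have hζ0 : emb ζ ≠ 0 := (unit_hom hQ hL.toIsLI hζ).1
    have hsu : emb ζ * σ U = U := by
      rw [hU]
      exact sguQ hQ hL.toIsLI hG (h3m.trans hmm) hA hζ (idl_mono h3m hcζ)
    have hse : ∀ x, σ (e x) = e x := by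
      intro x
      apply hroot σ hσ
      by_cases hx : e x = 0
      · exact Or.inl hx
      · exact Or.inr (her x hx)
    have hcop2 : ∀ x : OO A B, IsCoprime (sp x) (idl (A := A) (B := B) m) →
        IsCoprime x ((2 * f : ℕ) : OO A B) := by
      intro x hx
      obtain ⟨a, ha, b, hb, hab⟩ := Ideal.isCoprime_iff_exists.1 hx
      obtain ⟨a', rfl⟩ := Ideal.mem_span_singleton'.1 ha
      obtain ⟨b', rfl⟩ := Ideal.mem_span_singleton'.1 hb
      obtain ⟨k, hk⟩ := hpm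
      refine ⟨a', b' * ((k : ℕ) : OO A B), ?_⟩
      rw [← hab, hk]
      push_cast
      ring
    have hec : e c = emb ζ := by
      rw [← he.unit ζ (IsUnit.of_mul_eq_one ζ' hζ)]
      apply he.cond
      · exact hcop2 c hcop
      · exact ⟨ζ', 0, by rw [zero_mul, add_zero, mul_comm, hζ]⟩
      · exact idl_mono hfm hcζ
    have h1 := valE hQ hL.toIsLI hm0 hA hz he.toIsEI hgt
      (idl_mono hpm (natCast_mem_idl m)) hcopb hse q.1 q.2
      (dn_mono hdvd (hSD0 q hq).1) (dn_mono hdvd (hSD0 q hq).2)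
    have hσU : σ U = U / emb ζ := by
      rw [eq_div_iff hζ0, mul_comm]
      exact hsu
    have h3 : ∀ q, Q q = PhiI (R.b R.i0) e q.1 q.2 / R.om R.i0 / U := by
      intro q
      rw [hQdef]
      field_simp
    rw [h3, map_div₀, hσU]
    nth_rewrite 2 [← h1]
    rw [hec]
    field_simp
  have hin : ∀ x y, Q (x, y) ∈ KIn A B V F := by
    intro x y
    have hle : AddSubgroup.closure (Q '' (S : Set (OnePoint ℚ × OnePoint ℚ))) ≤
        (KIn A B V F).toAddSubgroup := by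
      rw [AddSubgroup.closure_le]
      rintro _ ⟨q, hq, rfl⟩
      exact ⟨hQF q hq, fun σ hσ => hkey σ hσ q hq⟩
    exact hle (hgen' x y)
  have hi0 : ∀ i, i = R.i0 := one_elt hE R
  refine ⟨a3, KIn A B V F, ?_, ?_, ⟨emb ϖ, ⟨hembF ϖ, fun σ hσ => hembσ σ hσ.fix ϖ⟩, hϖv⟩, hG.v3⟩
  · intro kk hkk x y
    refine ⟨kk R.i0 * Q (x, y), mul_mem (hkin _ (hkk R.i0)) (hin x y), ?_⟩
    unfold PhiKE
    rw [Finset.sum_eq_single R.i0 (fun i _ hi => absurd (hi0 i) hi)
      (fun h => absurd (Finset.mem_univ _) h), hQdef, hU]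
    field_simp
  · intro w hw hw1
    have h1 := Pool.Agent.N2T.unfP hQ hS.hV hϖ hϖ2 F w hw hw1
    have h3 := pow_le_pow_left₀ zero_le h1 2
    rwa [hϖv] at h3

end

end Pool.Agent.ME2
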