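import Pool.Agent.ME2.H_Hfin4
import Pool.Agent.ME2.T_TYF4
import Pool.Agent.ME2.R4_RFIN

/-!
# ME2, `p = 2`, `D = -4`: blocks R, T, G, H without hypotheses (helper41)
-/

set_option autoImplicit false

namespace Pool.Agent.ME2H

open Pool.Agent.ME2

/-- the character sums, `p = 2`, `D = -4` -/
theorem t4_HFIN : T4_HFIN := h_HFIN4 (t4_TYF r4_RFIN)

end Pool.Agent.ME2H
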