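import Pool.Agent.ME2.StI3
import Pool.Agent.N2.I_TE2
import Pool.Agent.N2.I_EPT

/-!
# ME2, `D = -3`, `p = 2`, block I: the characters (helper34; models `N2/I_TE2.lean`, `N2/I_KAP.lean`, `N2/I_EPT.lean`)

`κ` is the character of `(O/√-3)^*` of order two, `w2` the Teichmueller character of `(O/2)^*`; `κ(z) w2(z) = z` for the units `z`.
-/

set_option autoImplicit false

namespace Pool.Agent.ME2I

open _root_.MU3 Pool.Agent.MU3 Pool.Agent.MU3A Pool.Agent.MU3B Pool.Agent.RI Pool.Agent.RID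
  Pool.Agent.MUX Pool.Agent.MUXK Pool.Agent.MUXI Pool.Agent.NSI
open Pool.Agent.ME hiding ActE
open Pool.Agent.ME2 (SetT3 TT2E InCycE)
open Pool.Agent.N2 (GoodT OddT IsTei2)
open Pool.Agent.MU3I (w3 zt)

noncomputable section

open Pool.Agent.N2I.TE2 in
/-- (TE2) existence of the Teichmueller character -/
theorem tt3_TE2 : St3_TE2 := by
  classical
  intro A B V hC hV
  have hc : CQ A B := hC.toCQ
  have v2 := v_two hc hV
  have hP : (idl (A := A) (B := B) 2).IsPrime := prime hc hV
  choose η hη3 hηv using fun (x : OO A B) (hx : x ∉ idl (A := A) (B := B) 2) => exists_eta hc hV hx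
  have key : ∀ (x : OO A B) (hx : x ∉ idl (A := A) (B := B) 2) (ξ : ℂ), ξ ^ 3 = 1 →
      V.valuation (ξ - emb x) < 1 → η x hx = ξ := by
    intro x hx ξ hξ hv
    refine root_eq v2 (hη3 x hx) hξ ?_
    have e1 : η x hx - ξ = (η x hx - emb x) - (ξ - emb x) := by ring
    rw [e1]
    exact lt_of_le_of_lt (V.valuation.map_sub _ _) (max_lt (lt_of_le_of_lt (hηv x hx) v2) hv)
  refine ⟨fun x => if hx : x ∈ idl (A := A) (B := B) 2 then 0 else η x hx, ?_, ?_, ?_, ?_, ?_, ?_⟩
  · have h1 : (1 : OO A B) ∉ idl (A := A) (B := B) 2 := (Ideal.ne_top_iff_one _).1 hP.ne_top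
    rw [dif_neg h1]
    refine key 1 h1 1 (one_pow 3) ?_
    rw [emb_one hc, sub_self, map_zero]
    exact zero_lt_one
  · intro x y
    by_cases hx : x ∈ idl (A := A) (B := B) 2
    · rw [dif_pos hx, dif_pos (Ideal.mul_mem_right y _ hx), zero_mul]
    · by_cases hy : y ∈ idl (A := A) (B := B) 2
      · rw [dif_pos hy, dif_pos (Ideal.mul_mem_left _ x hy), mul_zero]
      · have hxy : x * y ∉ idl (A := A) (B := B) 2 := fun h => (hP.mem_or_mem h).elim hx hy
        rw [dif_neg hx, dif_neg hy, dif_neg hxy]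
        refine key (x * y) hxy _ (by rw [mul_pow, hη3, hη3, one_mul]) ?_
        have e1 : η x hx * η y hy - emb (x * y) =
            η x hx * (η y hy - emb y) + emb y * (η x hx - emb x) := by
          rw [emb_mul hc]
          ring
        rw [e1]
        refine lt_of_le_of_lt (V.valuation.map_add _ _) (max_lt ?_ ?_)
        · rw [map_mul, v_root (hη3 x hx), one_mul]
          exact lt_of_le_of_lt (hηv y hy) v2
        · rw [map_mul]
          exact lt_of_le_of_lt (mul_le_of_le_one_left' (v_emb hc V y))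
            (lt_of_le_of_lt (hηv x hx) v2)
  · intro x y hxy
    by_cases hx : x ∈ idl (A := A) (B := B) 2
    · have hy : y ∈ idl (A := A) (B := B) 2 := by
        have h := Ideal.sub_mem _ hx hxy
        rwa [sub_sub_cancel] at h
      rw [dif_pos hx, dif_pos hy]
    · have hy : y ∉ idl (A := A) (B := B) 2 := by
        intro h
        apply hx
        have h := Ideal.add_mem _ hxy h
        rwa [sub_add_cancel] at h
      rw [dif_neg hx, dif_neg hy]
      refine key x hx _ (hη3 y hy) ?_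
      have e1 : η y hy - emb x = (η y hy - emb y) - emb (x - y) := by
        rw [emb_sub hc]
        ring
      rw [e1]
      exact lt_of_le_of_lt (V.valuation.map_sub _ _)
        (max_lt (lt_of_le_of_lt (hηv y hy) v2) (lt_of_le_of_lt (v_mem hc V hxy) v2))
  · intro x hx
    rw [dif_pos hx]
  · intro x hx
    rw [dif_neg hx]
    exact hη3 x hx
  · intro x
    by_cases hx : x ∈ idl (A := A) (B := B) 2
    · rw [dif_pos hx, zero_sub, Valuation.map_neg]
      exact v_mem hc V hx
    · rw [dif_neg hx]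
      exact hηv x hx


/-- KAP. -/
theorem tt3_KAP : St3_KAP := by
  intro A B hC hB
  subst hB
  have hA := hC.hA
  subst hA
  have habs : (absD (-1) 1).toNat = 3 := rfl
  -- the homomorphism `w ↦ -1`
  let φ : OO (-1) 1 → ZMod 3 := fun x => (x.re : ZMod 3) - (x.im : ZMod 3)
  have φmul : ∀ x y, φ (x * y) = φ x * φ y := by
    intro x y
    simp only [φ, QuadraticAlgebra.re_mul, QuadraticAlgebra.im_mul]
    push_cast
    have h3 : (3 : ZMod 3) = 0 := rfl
    linear_combination (-(x.im : ZMod 3) * (y.im : ZMod 3)) * h3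
  have r1 : (1 : OO (-1) 1).re = 1 := rfl
  have i1 : (1 : OO (-1) 1).im = 0 := rfl
  have φone : φ 1 = 1 := by
    simp only [φ, r1, i1]; push_cast; ring
  have φneg : φ (-1) = -1 := by
    simp only [φ, QuadraticAlgebra.re_neg, QuadraticAlgebra.im_neg, r1, i1]; push_cast; ring
  have φsub : ∀ x y, φ (x - y) = φ x - φ y := by
    intro x y
    simp only [φ, QuadraticAlgebra.re_sub, QuadraticAlgebra.im_sub]
    push_cast; ring
  have φadd : ∀ x y, φ (x + y) = φ x + φ y := by
    intro x y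
    simp only [φ, QuadraticAlgebra.re_add, QuadraticAlgebra.im_add]
    push_cast; ring
  have φD : ∀ x, x ∈ idl (A := -1) (B := 1) 3 → φ x = 0 := by
    intro x hx
    obtain ⟨c, rfl⟩ := Ideal.mem_span_singleton'.1 hx
    rw [φmul]
    have h1 : φ ((3 : ℕ) : OO (-1) 1) = 0 := by
      have h2 : (((3 : ℕ) : OO (-1) 1)).re = 3 := rfl
      have h3 : (((3 : ℕ) : OO (-1) 1)).im = 0 := rfl
      simp only [φ, h2, h3]
      rfl
    rw [h1, mul_zero]
  refine ⟨fun x => quadraticChar (ZMod 3) (φ x), ⟨?_, ?_, ?_, ?_, ?_⟩⟩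
  · simp only [φone, map_one]
  · intro x y; simp only [φmul, map_mul]
  · simp only [φneg]
    rw [quadraticChar_neg_one (by rw [ZMod.ringChar_zmod_n]; norm_num), ZMod.card]
    exact ZMod.χ₄_nat_three_mod_four (by norm_num)
  · intro x y hxy
    rw [habs] at hxy
    have h1 := φD _ hxy
    rw [φsub, sub_eq_zero] at h1
    simp only [h1]
  · intro x hx
    rw [habs] at hx
    have h1 : φ x ≠ 0 := by
      intro h0
      obtain ⟨a, ha, b, hb, hab⟩ := Ideal.isCoprime_iff_exists.1 hx
      obtain ⟨c, rfl⟩ := Ideal.mem_span_singleton'.1 ha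
      have h2 : φ (c * x + b) = 1 := by rw [hab, φone]
      rw [φadd, φmul, h0, mul_zero, zero_add, φD b hb] at h2
      exact zero_ne_one h2
    exact quadraticChar_dichotomy h1

/-- the third power of a unit -/
lemma unit_cube {A B : ℤ} (hC : CaseE A B) (hB : B = 1) {z : OO A B} (hz : IsUnit z) :
    z ^ 3 = 1 ∨ z ^ 3 = -1 := by
  have hA := hC.hA
  subst hA
  subst hB
  have hCQ : MUX.CQ (-1) 1 := hC.toCQ
  obtain ⟨y, hy⟩ := hz.exists_right_inv
  have h1 : nm z * nm y = 1 := by
    rw [← nm_mul hCQ, hy]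
    rfl
  have h2 : nm z = z.re * z.re + z.re * z.im + z.im * z.im := by
    unfold nm
    ring
  have h3 : nm z = 1 := by
    have h4 : 0 ≤ nm z := by
      rw [h2]
      nlinarith [mul_self_nonneg (z.re + z.im), mul_self_nonneg z.re, mul_self_nonneg z.im]
    exact Int.eq_one_of_mul_eq_one_right h4 h1
  rw [h2] at h3
  have h5 : z.re ≤ 1 := by nlinarith [mul_self_nonneg (z.re + 2 * z.im)]
  have h6 : -1 ≤ z.re := by nlinarith [mul_self_nonneg (z.re + 2 * z.im)]
  have h7 : z.im ≤ 1 := by nlinarith [mul_self_nonneg (z.im + 2 * z.re)]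
  have h8 : -1 ≤ z.im := by nlinarith [mul_self_nonneg (z.im + 2 * z.re)]
  have e : ∀ a b : ℤ, z.re = a → z.im = b → z = ⟨a, b⟩ := fun a b h h' =>
    QuadraticAlgebra.ext h h'
  have h9 : z.re = -1 ∨ z.re = 0 ∨ z.re = 1 := by omega
  have h10 : z.im = -1 ∨ z.im = 0 ∨ z.im = 1 := by omega
  rcases h9 with h9 | h9 | h9 <;> rcases h10 with h10 | h10 | h10 <;> rw [h9, h10] at h3 <;>
    first
    | (exfalso; revert h3; decide)
    | (rw [e _ _ h9 h10]; exact Or.inl rfl)
    | (rw [e _ _ h9 h10]; exact Or.inr rfl)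

/-- `κ(z) w2(z) = z` for the units -/
lemma unit_om {A B : ℤ} {V : ValuationSubring ℂ} (hC : CaseE A B) (hB : B = 1)
    (hV : OverI V (idl (A := A) (B := B) 2)) {κ : OO A B → ℤ} (hκ : Pool.Agent.MUX2.KapD A B κ)
    {w : OO A B → ℂ} (hw : IsTei2 V w) {z : OO A B} (hz : IsUnit z) :
    (κ z : ℂ) * w z = emb z := by
  have hCQ : MUX.CQ A B := hC.toCQ
  have v2 := Pool.Agent.N2I.TE2.v_two hCQ hV
  have hP := Pool.Agent.N2I.TE2.prime hCQ hV
  have hz2 : z ∉ idl (A := A) (B := B) 2 := fun h => hP.ne_top (Ideal.eq_top_of_isUnit_mem _ h hz)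
  have hk : κ z = 1 ∨ κ z = -1 := by
    refine hκ.unit z ?_
    have : sp z = ⊤ := Ideal.span_singleton_eq_top.2 hz
    rw [this, ← Ideal.one_eq_top]
    exact isCoprime_one_left
  have hk2 : κ z * κ z = 1 := by
    rcases hk with h | h <;> rw [h] <;> norm_num
  have hk3 : κ (z ^ 3) = κ z := by
    rw [pow_succ, pow_two, hκ.mul, hκ.mul, hk2, one_mul]
  have h3 : ((κ z : ℂ) * emb z) ^ 3 = 1 := by
    have e1 : ((κ z : ℂ) * emb z) ^ 3 = ((κ z * κ z : ℤ) : ℂ) * ((κ z : ℂ) * emb (z ^ 3)) := by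
      rw [emb_pow hCQ]
      push_cast
      ring
    rw [e1, hk2]
    rcases unit_cube hC hB hz with h | h
    · rw [h] at hk3
      rw [← hk3, hκ.one, h, emb_one hCQ]
      norm_num
    · rw [h] at hk3
      rw [← hk3, hκ.neg, h]
      have : emb (-1 : OO A B) = -1 := by
        rw [emb_neg hCQ, emb_one hCQ]
      rw [this]
      norm_num
  have hv : V.valuation (w z - (κ z : ℂ) * emb z) < 1 := by
    have hc := lt_of_le_of_lt (hw.cong z) v2
    rcases hk with h | h
    · rw [h]
      push_cast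
      rw [one_mul]
      exact hc
    · rw [h]
      have e2 : w z - ((-1 : ℤ) : ℂ) * emb z = (w z - emb z) + 2 * emb z := by
        push_cast
        ring
      rw [e2]
      refine lt_of_le_of_lt (V.valuation.map_add _ _) (max_lt hc ?_)
      rw [map_mul]
      exact lt_of_le_of_lt (mul_le_of_le_one_right' (Pool.Agent.N2I.TE2.v_emb hCQ V z)) v2
  have h4 := Pool.Agent.N2I.TE2.root_eq v2 (hw.pow z hz2) h3 hv
  rw [h4, ← mul_assoc]
  have e3 : (κ z : ℂ) * (κ z : ℂ) = 1 := by exact_mod_cast hk2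
  rw [e3, one_mul]

open Pool.Agent.N2I.EPT in
theorem tt3_EPT (h1 : St3_KAP) (h2 : St3_TE2) : St3_EPT := by
  intro A B V f hS e0 r hr one neg mul per supp pow uni
  obtain ⟨κ, hκ⟩ := h1 A B hS.case hS.hB
  obtain ⟨w, hw⟩ := h2 A B V hS.case hS.hV
  have habs : 0 < absD A B := by
    have := hS.case.toCQ.neg
    unfold absD
    omega
  have hDf : (absD A B).toNat ∣ f := by
    have h4 : absD A B ∣ (f : ℤ) := (dvd_mul_left _ 3).trans hS.fD
    rw [← Int.toNat_of_nonneg habs.le] at h4
    exact_mod_cast h4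
  have hD2 : (absD A B).toNat ∣ 2 * f := hDf.trans (dvd_mul_left f 2)
  have hκneg : ∀ x, κ (-x) = -κ x := by
    intro x
    rw [← neg_one_mul, hκ.mul, hκ.neg, neg_one_mul]
  have hwneg : ∀ x, w (-x) = w x := by
    intro x
    apply hw.per
    rw [Pool.Agent.MUX2.idl_mem]
    exact ⟨-x, by push_cast; ring⟩
  have hn2 : ∀ x, IsCoprime x ((2 * f : ℕ) : OO A B) → x ∉ idl (A := A) (B := B) 2 := by
    intro x hx hx2
    have hc : IsCoprime x ((2 : ℕ) : OO A B) := cop_dvd ⟨f, rfl⟩ hx
    obtain ⟨a, b, hab⟩ := hc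
    have h5 : (1 : OO A B) ∈ idl (A := A) (B := B) 2 := by
      rw [← hab]
      exact add_mem (Ideal.mul_mem_left _ a hx2)
        (Ideal.mul_mem_left _ b (Ideal.mem_span_singleton_self _))
    have h6 := (hS.hV 1).2 h5
    have h7 : emb (1 : OO A B) = 1 := by
      exact emb_one hS.case.toCQ
    rw [h7, ValuationSubring.mem_nonunits_iff, map_one] at h6
    exact lt_irrefl _ h6
  have hκu : ∀ x, IsCoprime x ((2 * f : ℕ) : OO A B) → κ x = 1 ∨ κ x = -1 := by
    intro x hx
    exact hκ.unit x (cop_iff.2 (cop_dvd hD2 hx))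
  have hodd : OddT f V (fun x => (κ x : ℂ) * w x) := by
    refine ⟨?_, ?_, ?_⟩
    · intro x
      show (κ (-x) : ℂ) * w (-x) = -((κ x : ℂ) * w x)
      rw [hκneg, hwneg]
      push_cast
      ring
    · intro x y h
      show (κ x : ℂ) * w x = (κ y : ℂ) * w y
      rw [hκ.per x y (idl_le hD2 h), hw.per x y (idl_le ⟨f, rfl⟩ h)]
    · intro x hx
      show V.valuation ((κ x : ℂ) * w x - emb x) ≤ V.valuation (2 : ℂ)
      rcases hκu x hx with h | h
      · rw [h]
        have e : ((1 : ℤ) : ℂ) * w x - emb x = w x - emb x := by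
          push_cast
          ring
        rw [e]
        exact hw.cong x
      · rw [h]
        have e : ((-1 : ℤ) : ℂ) * w x - emb x = (w x - emb x) - 2 * w x := by
          push_cast
          ring
        rw [e]
        refine (Valuation.map_sub V.valuation _ _).trans (max_le (hw.cong x) ?_)
        rw [map_mul]
        have h9 := hw.pow x (hn2 x hx)
        have h4 : V.valuation (w x) ^ 3 = 1 := by
          rw [← map_pow, h9, map_one]
        have h5 : V.valuation (w x) ≤ 1 := by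
          by_contra h6
          push Not at h6
          exact absurd h4 (one_lt_pow₀ h6 (by norm_num)).ne'
        exact mul_le_of_le_one_right' h5
  have per2f := per2 hr one mul per supp pow
  refine ⟨fun x => (κ x : ℂ) * w x, fun x => e0 x * ((κ x : ℂ) * w x), hodd,
    ⟨⟨?_, ?_, ?_, ?_, ?_⟩, ?_⟩, ?_, ?_⟩
  · show e0 1 * ((κ 1 : ℂ) * w 1) = 1
    rw [one, hκ.one, hw.one]
    norm_num
  · intro x y
    show e0 (x * y) * ((κ (x * y) : ℂ) * w (x * y)) =
      (e0 x * ((κ x : ℂ) * w x)) * (e0 y * ((κ y : ℂ) * w y))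
    rw [mul, hκ.mul, hw.mul]
    push_cast
    ring
  · intro x y h
    show e0 x * ((κ x : ℂ) * w x) = e0 y * ((κ y : ℂ) * w y)
    rw [per2f x y h, hκ.per x y (idl_le hD2 h), hw.per x y (idl_le ⟨f, rfl⟩ h)]
  · intro x
    rw [cop_iff]
    constructor
    · intro h
      exact cop4.1 ((supp x).1 (left_ne_zero_of_mul h))
    · intro hx
      refine mul_ne_zero ((supp x).2 (cop4.2 hx)) (mul_ne_zero ?_ ?_)
      · rcases hκu x hx with h | h
        · rw [h]; norm_num
        · rw [h]; norm_num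
      · intro h0
        have h3 := hw.pow x (hn2 x hx)
        rw [h0] at h3
        norm_num at h3
  · show e0 (-1) * ((κ (-1) : ℂ) * w (-1)) = -1
    rw [neg, hκ.neg, hwneg, hw.one]
    norm_num
  · intro z hz
    show e0 z * ((κ z : ℂ) * w z) = emb z
    rw [uni z hz, one_mul]
    exact unit_om hS.case hS.hB hS.hV hκ hw hz
  · intro x hx
    have h0 : e0 x ≠ 0 := left_ne_zero_of_mul hx
    have hc : IsCoprime x ((2 * f : ℕ) : OO A B) := cop4.1 ((supp x).1 h0)
    show (e0 x * ((κ x : ℂ) * w x)) ^ (2 * (3 * r)) = 1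
    have e1 : e0 x ^ (2 * (3 * r)) = 1 := by
      rw [show 2 * (3 * r) = r * 6 by ring, pow_mul, pow x h0, one_pow]
    have e2 : (κ x : ℂ) ^ (2 * (3 * r)) = 1 := by
      have h3 : (κ x : ℂ) ^ 2 = 1 := by
        rcases hκu x hc with h | h
        · rw [h]; norm_num
        · rw [h]; norm_num
      rw [pow_mul, h3, one_pow]
    have e3 : w x ^ (2 * (3 * r)) = 1 := by
      rw [show 2 * (3 * r) = 3 * (2 * r) by ring, pow_mul, hw.pow x (hn2 x hc), one_pow]
    rw [mul_pow, mul_pow, e1, e2, e3]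
    norm_num
  · intro x _
    rfl

end

end Pool.Agent.ME2I
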