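import Pool.Agent.ME2.StI3
import Pool.Agent.ME.N.ZL
import Pool.Agent.ME.Z_Reps
import Pool.Agent.ME.X.StWX2
import Pool.Agent.MUX.StYR

/-!
# ME2, `D = -3`, `p = 2`, block I: INPG, the inputs of block J (helper34; models `N2/I_INPG.lean` of helper36, `ME/Z3_INPG.lean` of helper87)
-/

set_option autoImplicit false

open NumberField IsDedekindDomain

namespace Pool.Agent.ME2I

open _root_.MU3 Pool.Agent.MU3 Pool.Agent.MU3A Pool.Agent.MU3B Pool.Agent.RI Pool.Agent.RID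
  Pool.Agent.MUX Pool.Agent.MUXK Pool.Agent.MUXJ Pool.Agent.MUXW Pool.Agent.MUXZ Pool.Agent.NSI
  Pool.Agent.NSZ
open Pool.Agent.ME hiding ActE
open Pool.Agent.ME2 (SetT3 TT2E InCycE T3_RFIN T3_EFIN)
open Pool.Agent.N2 (GoodT OddT IsTei2)
open Pool.Agent.MU3V (Sub GD)

noncomputable section

/-- the input of block I for the norm to any field `D ≤ RFE (lvX 2 f n)` -/
theorem eInp3 (hME : Sy_MEM) (hCX : Sy_CXS_E) (hEF : T3_EFIN)
    {A B : ℤ} {V : ValuationSubring ℂ} {f : ℕ}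
    (hS : SetT3 A B V f) (hT : TorXE A B) (hLV : Zl_LVX)
    {ι : Type} [Fintype ι] (R : RepsE A B (2 * f) ι) {u e a1 a3 : ℂ}
    (hG : GoodT V (R.L R.i0) u e a1 a3) {H : ι → Finset ℂ}
    {θ : ∀ n : ℕ, (RFE (idl (A := A) (B := B) (lvX 2 f n)) : IntermediateField (kk A B) ℂ)}
    (hth : ThN_E 2 f R H θ) (n : ℕ) (hn : 2 ≤ n) (D : IntermediateField ℚ ℂ) (h : kk A B ≤ D)
    (hD : ∀ y ∈ D, y ∈ RFE (idl (A := A) (B := B) (lvX 2 f n)))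
    (hDc : InCycE A B f (2 ^ (n + 2)) D) :
    EInp3 V f R u n h (fun τ => cWt h (θ n) τ) := by
  obtain ⟨hl0, _, _, hl2, hlu, hodd, hac, _, _, hcop⟩ := hLV 2 A B f (setL_3 hS) n
  have hb : (idl (A := A) (B := B) (lvX 2 f n)) ≠ ⊥ := by
    intro hh
    apply hl0
    have := (Ideal.span_singleton_eq_bot.mp hh)
    exact_mod_cast (by
      have h1 := congrArg (fun x : OO A B => x.re) this
      simpa using h1 : ((lvX 2 f n : ℕ) : ℤ) = 0)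
  have := hT.fin _ hb
  have := hT.gal _ hb
  obtain ⟨h1, h2, h3, _, _⟩ := hME A B _ (hT.fin _ hb) (hT.gal _ hb) (hT.comm _ hb) D h hD (θ n)
    (hth.ne n)
  let := algC h
  have hconj : ∀ τ : D ≃ₐ[kk A B] D, ∃ y : D, (y : ℂ) = cWt h (θ n) 1 ∧
      ((τ y : D) : ℂ) = cWt h (θ n) τ := by
    intro τ
    refine ⟨⟨cWt h (θ n) 1, (h2 1).1⟩, rfl, ?_⟩
    have hm : cW h (θ n) ∈ D := by rw [h1]; exact (h2 1).1
    have := h3 τ hm
    have he : (⟨cWt h (θ n) 1, (h2 1).1⟩ : D) = ⟨cW h (θ n), hm⟩ := Subtype.ext h1.symm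
    rw [he]; exact this
  have h2m : 2 ∣ lvX 2 f n := by
    have h5 : lvX 2 f n = f * 4 * 2 ^ n := by
      unfold lvX
      simp [q0]
    rw [h5]
    exact ⟨f * 2 * 2 ^ n, by ring⟩
  refine ⟨(h2 1).2, hconj, ?_⟩
  intro om hom g hg τ'
  refine (hEF A B V f hS hT ι R u e a1 a3 hG om hom n hn H hth.half D h hD hDc
    (fun τ => cWt h (θ n) τ) hconj ?_).2 g hg τ'
  intro τ
  obtain ⟨S, hS1, hS2, hS3⟩ := hCX A B hS.case hT (2 * f) ι R (lvX 2 f n) hl0 h2m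
    (fun i => hcop _ (R.cop i)) hl2 (aX 2 f) H (by unfold aX; omega) hac hth.half (θ n)
    (hth.ptE n) D h hD τ
  exact ⟨S, ⟨fun q hq => (hS1 q).2 (Or.inl hq), fun q hq => (hS1 q).1 hq, hS2⟩, hS3⟩

/-- the inputs of block J -/
theorem tt3_INPG (hRF : T3_RFIN) (hEF : T3_EFIN) (hINP : St3_INP) (hCYC : St3_CYC) (hLV : Zl_LVX)
    (hIW : Zl_INW_E) (hSUB : Sn_SUB_E) (hTH : Sz_THN_E) (hME : Sy_MEM) (hCX : Sy_CXS_E) :
    St3_INPG := by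
  intro A B V hC hB hV hT f hf0 hfp hfd K₀ K Bn _ _ _ hX hK hH hk hk₀ hkK
  have hCQ : CQ A B := hC.toCQ
  have hS : SetT3 A B V f := by
    refine ⟨hC, hB, hV, hf0, hfp, ?_⟩
    have hD : absD A B = 3 := by
      unfold absD
      rw [hC.hA, hB]
      norm_num
    rw [hD]
    exact_mod_cast hfd
  have hL : SetL 2 A B f := setL_3 hS
  have hl2 : 2 ∣ lvX 2 f 0 := by
    have h5 : lvX 2 f 0 = f * 4 := by
      unfold lvX
      simp [q0]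
    rw [h5]
    exact ⟨f * 2, by ring⟩
  have : Fact (Nat.Prime 2) := ⟨Nat.prime_two⟩
  obtain ⟨R⟩ := Pool.Agent.MEZ.exists_reps hC (2 * f)
  have hodd := (hLV 2 A B f hL 0).2.2.2.2.2.1
  obtain ⟨H, hHalf, hθ⟩ := hTH A B hCQ hT (2 * f) Unit R (aX 2 f) hodd
  have hθ' : ∀ n : ℕ, ∃ θ : (RFE (idl (A := A) (B := B) (lvX 2 f n)) :
      IntermediateField (kk A B) ℂ),
      (θ : ℂ) = ThetaH (R.L R.i0) (H R.i0) (ptE R (lvX 2 f n) R.i0 1) ∧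
      (θ : ℂ) = ThetaH (R.L R.i0) (H R.i0) (R.om R.i0 / emb ((lvX 2 f n : ℕ) : OO A B)) ∧
      θ ≠ 0 := fun n =>
    hθ (lvX 2 f n) (hLV 2 A B f hL n).1 (hLV 2 A B f hL n).2.2.2.2.1
      (hLV 2 A B f hL n).2.2.2.2.2.2.1
  choose θ hθ1 hθ2 hθ3 using hθ'
  have hth : ThN_E 2 f R H θ := ⟨hHalf, hθ1, hθ2, hθ3⟩
  obtain ⟨S, hW⟩ := hIW 2 A B f hL hC hl2 hT Unit R H θ hth K₀ K Bn hX hK hH hk hk₀
  obtain ⟨u, e, a1, a3, hG, -, -⟩ := (hRF A B V hC hB hV hT).1 _ _ _ (R.nl R.i0)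
  have hNL : ∃ (b : Ideal (OO A B)) (L : PeriodPair) (om : ℂ), IsNE b L om :=
    ⟨_, _, _, R.nl R.i0⟩
  have hK₀ : ∀ y ∈ K₀, y ∈ RFE (idl (A := A) (B := B) (lvX 2 f 0)) := fun y hy => hK y (hX.le hy)
  have hDn : ∀ n, ∀ y ∈ K₀ ⊔ Bn n, y ∈ RFE (idl (A := A) (B := B) (lvX 2 f n)) := fun n =>
    hSUB 2 A B f hL hT hNL K₀ hK₀ n (Bn n) (hX.b0.lay n)
  refine ⟨S, fun n => cW (hk n) (θ n), fun n => cW (hk₀ n) (θ n), 0, ?_⟩
  refine hINP A B V f hS hT Unit R u e a1 a3 hG K₀ K Bn hX hK₀ hk hk₀ hkK S _ _ 0 hW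
    (fun n τ => cWt (hk₀ n) (θ n) τ) (fun n hn => ?_) (fun n hn => ?_)
  · exact eInp3 hME hCX hEF hS hT hLV R hG hth n hn (K₀ ⊔ Bn n) (hk₀ n) (hDn n)
      (hCYC A B f K₀ hK₀ n (Bn n) (hX.b0.lay n))
  · have hb : (idl (A := A) (B := B) (lvX 2 f n)) ≠ ⊥ := by
      intro hh
      apply (hLV 2 A B f hL n).1
      have := (Ideal.span_singleton_eq_bot.mp hh)
      exact_mod_cast (by
        have h1 := congrArg (fun x : OO A B => x.re) this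
        simpa using h1 : ((lvX 2 f n : ℕ) : ℤ) = 0)
    exact (hME A B _ (hT.fin _ hb) (hT.gal _ hb) (hT.comm _ hb) _ (hk₀ n) (hDn n) (θ n)
      (hth.ne n)).1

end

end Pool.Agent.ME2I
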