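import Pool.Agent.ME.N.IAll
import Pool.Agent.ME.X.WAll
import Pool.Agent.ME.X.Z_THN
import Pool.Agent.ME2.I3_EPT
import Pool.Agent.ME2.I3_CYC
import Pool.Agent.ME2.I3_I31
import Pool.Agent.ME2.I3_INP
import Pool.Agent.ME2.I3_INPG
import Pool.Agent.ME2.HAll3
import Pool.Agent.ME2.ZFinE

/-!
# ME2, `D = -3`, `p = 2`, block I without hypotheses, and the final theorem (helper34)
-/

set_option autoImplicit false

open NumberField IsDedekindDomain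

namespace Pool.Agent.ME2I

open _root_.MU3 Pool.Agent.MU3 Pool.Agent.MU3A Pool.Agent.MU3B Pool.Agent.RI Pool.Agent.RID
  Pool.Agent.MUX Pool.Agent.MUXF Pool.Agent.MUXI Pool.Agent.MUXK Pool.Agent.MUXJ Pool.Agent.NSI Pool.Agent.MUXW
open Pool.Agent.ME hiding ActE
open Pool.Agent.ME2

theorem i3_KAP : St3_KAP := tt3_KAP
theorem i3_TE2 : St3_TE2 := tt3_TE2
theorem i3_EPT : St3_EPT := tt3_EPT i3_KAP i3_TE2
theorem i3_CYC : St3_CYC := tt3_CYC i_LAY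
theorem i3_LVX : Pool.Agent.NSZ.Zl_LVX := Pool.Agent.NSZ.tl_LVX
theorem i3_INW : Pool.Agent.NSZ.Zl_INW_E := Pool.Agent.NSZ.l_INW_E n_SUB_E

theorem i3_I31 : St3_I31 :=
  tt3_I31 Pool.Agent.MUXJ.j_RES i_CHI n_FOU Pool.Agent.MU3I.t_ITG i3_EPT n_E0_E i_ARF_E i_XXF_E n_SUB_E
    i_GAM n_XMX_E i_BIJ n_TH_E i_GEN Pool.Agent.ME2H.h_HFIN3 k_GALX

theorem i3_INP : St3_INP := tt3_INP i3_I31 n_LEM1 n_NRX

theorem i3_INPG : St3_INPG :=
  tt3_INPG r3_RFIN Pool.Agent.ME2H.e_EFIN3 i3_INP i3_CYC i3_LVX i3_INW n_SUB_E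
    (Pool.Agent.MUXZ.tz_THN_E y_THG_E) y_MEM y_CXS_E

/-- block I, `D = -3`, `p = 2` -/
theorem i3_T3_INPG : T3_INPG := fun A B V hC hB hV hT =>
  ⟨9, by norm_num, by norm_num, i3_INPG A B V hC hB hV hT⟩

/-- THE MAIN THEOREM, `D = -3`, `p = 2`, no hypotheses -/
theorem final32 (A B : ℤ) (hC : CaseE A B) (hB : B = 1)
    (F M K : IntermediateField ℚ ℂ) [FiniteDimensional ℚ M] (hF : kk A B ≤ F) (h : F ≤ M)
    (a : ℕ) (hT : TorU_E A B F) (hGal : IsGalois F (IntermediateField.extendScalars h))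
    (ha : Module.finrank F (IntermediateField.extendScalars h) = 2 ^ a) (hK : K ≤ M) :
    ∃ C : ℕ, ∀ (n : ℕ) (Q : IntermediateField ℚ ℂ), IsLayer 2 n Q →
      padicValNat 2 (classNo (K ⊔ Q)) ≤ C * (n + 1) ^ C :=
  z_main32 i3_T3_INPG A B hC hB F M K hF h a hT hGal ha hK

end Pool.Agent.ME2I
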