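import Pool.Agent.ME2.StI4
import Pool.Agent.N2.IR_EPQ
import Pool.Agent.ME.Lib

/-!
# ME2, block I, `D = -4`, `p = 2`, module EPQ: the weights and the odd character (model: `N2/IR_EPQ.lean`)
-/

set_option autoImplicit false

namespace Pool.Agent.ME2I

open _root_.MU3 Pool.Agent.MU3 Pool.Agent.MU3A Pool.Agent.MU3B Pool.Agent.RI Pool.Agent.RID
  Pool.Agent.MUX Pool.Agent.MUXK Pool.Agent.MUXI Pool.Agent.NSI Pool.Agent.ME2
open Pool.Agent.ME hiding ActE
open Pool.Agent.N2 (GoodQ et yt WT OddQ dR PTq)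
open Pool.Agent.MU3I (w3 zt)

noncomputable section

private lemma epq4_lv (f : ℕ) : lvX 2 f 0 = 2 * (2 * f) := by
  simp [lvX, q0]
  ring

private lemma epq4_cop {A B : ℤ} (f : ℕ) (x : OO A B) :
    IsCoprime x ((lvX 2 f 0 : ℕ) : OO A B) ↔ IsCoprime x ((2 * f : ℕ) : OO A B) := by
  rw [epq4_lv]
  push_cast
  rw [IsCoprime.mul_right_iff, IsCoprime.mul_right_iff]
  tauto

/-- a unit modulo `2` has square `1` modulo `2` -/
private lemma epq4_sq {A : ℤ} (z : OO A 0) (h : IsCoprime z 2) : (2 : OO A 0) ∣ z ^ 2 - 1 := by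
  obtain ⟨u, v, h⟩ := h
  have h1 : u.re * z.re + A * u.im * z.im + v.re * 2 = 1 := by
    have := congrArg QuadraticAlgebra.re h
    simpa [QuadraticAlgebra.re_ofNat, QuadraticAlgebra.im_ofNat, QuadraticAlgebra.re_one] using this
  have h2 : u.re * z.im + u.im * z.re + v.im * 2 = 0 := by
    have := congrArg QuadraticAlgebra.im h
    simpa [QuadraticAlgebra.re_ofNat, QuadraticAlgebra.im_ofNat, QuadraticAlgebra.im_one] using this
  have h3 : ((z.re ^ 2 + A * z.im ^ 2 - 1 : ℤ) : ZMod 2) = 0 := by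
    have g1 := congrArg (fun n : ℤ => (n : ZMod 2)) h1
    have g2 := congrArg (fun n : ℤ => (n : ZMod 2)) h2
    push_cast at g1 g2 ⊢
    have two : (2 : ZMod 2) = 0 := by decide
    rw [two, mul_zero, add_zero] at g1 g2
    generalize (z.re : ZMod 2) = a at *
    generalize (z.im : ZMod 2) = b at *
    generalize (u.re : ZMod 2) = c at *
    generalize (u.im : ZMod 2) = d at *
    generalize (A : ZMod 2) = e at *
    revert a b c d e
    decide
  rw [ZMod.intCast_zmod_eq_zero_iff_dvd] at h3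
  obtain ⟨k, hk⟩ := h3
  refine ⟨⟨k, z.re * z.im⟩, ?_⟩
  apply QuadraticAlgebra.ext
  · simp only [pow_two, QuadraticAlgebra.re_sub, QuadraticAlgebra.re_mul,
      QuadraticAlgebra.re_ofNat, QuadraticAlgebra.im_ofNat, QuadraticAlgebra.re_one]
    push_cast at hk
    linarith
  · simp only [pow_two, QuadraticAlgebra.im_sub, QuadraticAlgebra.im_mul,
      QuadraticAlgebra.re_ofNat, QuadraticAlgebra.im_ofNat, QuadraticAlgebra.im_one]
    ring

/-- the fourth power of an element prime to `2` and `1` modulo `f`, `f` odd, is `1` modulo `4 f` -/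
private lemma epq4_four {A : ℤ} (f : ℕ) (hf : ¬ 2 ∣ f) (z : OO A 0) (h : IsCoprime z 2)
    (h1 : ((f : ℕ) : OO A 0) ∣ z - 1) : ((2 * (2 * f) : ℕ) : OO A 0) ∣ z ^ 4 - 1 := by
  have h2 : (4 : OO A 0) ∣ z ^ 4 - 1 := by
    obtain ⟨s, hs⟩ := epq4_sq z h
    refine ⟨s + s ^ 2, ?_⟩
    have : z ^ 2 = 1 + 2 * s := by linear_combination hs
    have h4 : z ^ 4 = (z ^ 2) ^ 2 := by ring
    rw [h4, this]
    ring
  have h3 : ((f : ℕ) : OO A 0) ∣ z ^ 4 - 1 := by
    have : z ^ 4 - 1 = (z - 1) * (z ^ 3 + z ^ 2 + z + 1) := by ring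
    rw [this]
    exact h1.mul_right _
  have h5 : IsCoprime (4 : OO A 0) ((f : ℕ) : OO A 0) := by
    have h6 : Nat.Coprime 4 f := by
      have : Nat.Coprime 2 f := (Nat.Prime.coprime_iff_not_dvd Nat.prime_two).2 hf
      have h7 := Nat.Coprime.pow_left 2 this
      simpa using h7
    have h7 := Nat.isCoprime_iff_coprime.2 h6
    have h8 := h7.map (Int.castRingHom (OO A 0))
    simpa using h8
  have h6 := h5.mul_dvd h2 h3
  have e : ((2 * (2 * f) : ℕ) : OO A 0) = 4 * ((f : ℕ) : OO A 0) := by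
    push_cast
    ring
  rw [e]
  exact h6

private lemma epq4_key {A : ℤ} (f : ℕ) (hf : ¬ 2 ∣ f) (e0 : OO A 0 → ℂ) (r : ℕ) (hr : ¬ 2 ∣ r)
    (h1 : e0 1 = 1) (hm : ∀ x y, e0 (x * y) = e0 x * e0 y)
    (hp : ∀ x y, x - y ∈ idl (A := A) (B := 0) (lvX 2 f 0) → e0 x = e0 y)
    (hs : ∀ x, e0 x ≠ 0 ↔ IsCoprime x ((lvX 2 f 0 : ℕ) : OO A 0))
    (hr1 : ∀ x, e0 x ≠ 0 → e0 x ^ r = 1) (x y : OO A 0)
    (hx : IsCoprime x ((2 * f : ℕ) : OO A 0)) (hy : IsCoprime y ((2 * f : ℕ) : OO A 0))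
    (hxy : x - y ∈ idl (A := A) (B := 0) f) : e0 x = e0 y := by
  rw [← epq4_cop] at hx hy
  obtain ⟨a, b, hab⟩ := hy
  have ha : IsCoprime a ((lvX 2 f 0 : ℕ) : OO A 0) := ⟨y, b, by rw [mul_comm y a]; exact hab⟩
  have hz : IsCoprime (x * a) ((lvX 2 f 0 : ℕ) : OO A 0) := hx.mul_left ha
  have hz2 : IsCoprime (x * a) 2 := by
    have h3 := hz
    rw [epq4_lv] at h3
    push_cast at h3
    exact (IsCoprime.mul_right_iff.1 h3).1
  have hya : e0 (y * a) = 1 := by
    rw [← h1]
    refine hp _ _ ?_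
    rw [Ideal.mem_span_singleton]
    exact ⟨-b, by linear_combination hab⟩
  have hfz : ((f : ℕ) : OO A 0) ∣ x * a - 1 := by
    rw [Ideal.mem_span_singleton] at hxy
    obtain ⟨c, hc⟩ := hxy
    refine ⟨c * a - b * 4, ?_⟩
    rw [epq4_lv] at hab
    push_cast at hab
    linear_combination a * hc + hab
  have h4 : e0 (x * a) ^ 4 = 1 := by
    have h5 : e0 ((x * a) ^ 4) = 1 := by
      rw [← h1]
      refine hp _ _ ?_
      rw [Ideal.mem_span_singleton, epq4_lv]
      exact epq4_four f hf _ hz2 hfz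
    have h6 : (x * a) ^ 4 = (x * a) * (x * a) * ((x * a) * (x * a)) := by ring
    rw [h6, hm, hm] at h5
    rw [← h5]
    ring
  have h5 : e0 (x * a) = 1 := by
    have h6 := hr1 _ ((hs _).2 hz)
    rw [← orderOf_eq_one_iff]
    have h7 := orderOf_dvd_of_pow_eq_one h4
    have h8 := orderOf_dvd_of_pow_eq_one h6
    have h9 : Nat.Coprime 4 r := by
      have : Nat.Coprime 2 r := (Nat.Prime.coprime_iff_not_dvd Nat.prime_two).2 hr
      have h7 := Nat.Coprime.pow_left 2 this
      simpa using h7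
    exact Nat.eq_one_of_dvd_coprimes h9 h7 h8
  calc e0 x = e0 x * e0 (y * a) := by rw [hya, mul_one]
    _ = e0 y * e0 (x * a) := by rw [hm, hm]; ring
    _ = e0 y := by rw [h5, mul_one]

/-- (EPQ) the weights and the odd character -/
theorem t4_EPQ : S4_EPQ := by
  intro A B P V f hS e0 r hr h1 hm hp hs hr1 hun
  have hCQ : MUX.CQ A B := hS.case.toCQ
  obtain rfl : B = 0 := hS.hB
  obtain ⟨κ, hκ⟩ := hS.kap
  have hle : idl (A := A) (B := 0) (2 * f) ≤ idl (A := A) (B := 0) f := by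
    rw [Ideal.span_singleton_le_span_singleton]
    exact ⟨2, by push_cast; ring⟩
  have hcf : ∀ x : OO A 0, IsCoprime x ((2 * f : ℕ) : OO A 0) →
      IsCoprime (sp x) (idl (A := A) (B := 0) f) := by
    intro x hx
    rw [Ideal.isCoprime_span_singleton_iff]
    push_cast at hx
    exact (IsCoprime.mul_right_iff.1 hx).2
  have hkey := epq4_key f hS.fp e0 r hr h1 hm hp hs hr1
  have hsx : ∀ x : OO A 0, e0 x ≠ 0 ↔ IsCoprime x ((2 * f : ℕ) : OO A 0) := fun x =>
    (hs x).trans (epq4_cop f x)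
  have hκ0 : ∀ x : OO A 0, IsCoprime x ((2 * f : ℕ) : OO A 0) → κ x ≠ 0 := by
    intro x hx h0
    have h2 := hκ.pow x (hcf x hx)
    rw [h0] at h2
    norm_num at h2
  have hκn : κ (-1) = -1 := by
    rw [hκ.unit (-1) isUnit_one.neg, MUX.emb_neg hCQ, MUX.emb_one hCQ]
  have hV2 : V.valuation (2 : ℂ) ≤ 1 := by
    rw [ValuationSubring.valuation_le_one_iff]
    have : (2 : ℂ) = 1 + 1 := by norm_num
    rw [this]
    exact V.add_mem _ _ V.one_mem V.one_mem
  have hV2' : V.valuation (2 : ℂ) ^ 2 ≤ V.valuation (2 : ℂ) := by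
    rw [pow_two]
    exact mul_le_of_le_one_left' hV2
  have hn : e0 (-1) = 1 := hun _ isUnit_one.neg
  refine ⟨κ, fun x => e0 x * κ x, ⟨?_, ?_, ?_⟩, ⟨⟨⟨?_, ?_, ?_, ?_, ?_⟩, ?_⟩, ?_⟩,
    ?_, fun x _ => rfl⟩
  · intro x
    have h2 : -x = -1 * x := by ring
    rw [h2, hκ.mul, hκn]
    ring
  · intro x y hxy
    exact hκ.per x y (hle hxy)
  · intro x hx
    have h4 := hκ.pow x (hcf x hx)
    have h5 : (κ x - 1) * (κ x + 1) * (κ x ^ 2 + 1) = 0 := by linear_combination h4
    rcases mul_eq_zero.1 h5 with h6 | h6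
    · rcases mul_eq_zero.1 h6 with h7 | h7
      · rw [h7]
        simp
      · have h8 : κ x - 1 = -2 := by linear_combination h7
        rw [h8, Valuation.map_neg]
        exact hV2'
    · have h7 : (κ x - 1) ^ 2 = -(2 * κ x) := by linear_combination h6
      rw [← map_pow, h7, Valuation.map_neg, map_mul]
      have h8 : V.valuation (κ x) = 1 := by
        have h9 : V.valuation (κ x) ^ 4 = 1 := by rw [← map_pow, h4, map_one]
        rcases pow_eq_one_iff.1 h9 with h10 | h10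
        · exact h10
        · omega
      rw [h8, mul_one]
  · simp only [h1, hκ.one]
    simp
  · intro x y
    simp only [hm, hκ.mul]
    ring
  · intro x y hxy
    simp only [hκ.per x y (hle hxy)]
    by_cases hx : IsCoprime x ((2 * f : ℕ) : OO A 0)
    · have hy : IsCoprime y ((2 * f : ℕ) : OO A 0) := by
        rw [Ideal.mem_span_singleton] at hxy
        obtain ⟨c, hc⟩ := hxy
        have h2 : y = x + ((2 * f : ℕ) : OO A 0) * (-c) := by linear_combination -hc
        rw [h2]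
        exact IsCoprime.add_mul_left_left hx _
      rw [hkey x y hx hy (hle hxy)]
    · have hy : ¬ IsCoprime y ((2 * f : ℕ) : OO A 0) := by
        intro hy
        apply hx
        rw [Ideal.mem_span_singleton] at hxy
        obtain ⟨c, hc⟩ := hxy
        have h2 : x = y + ((2 * f : ℕ) : OO A 0) * c := by linear_combination hc
        rw [h2]
        exact IsCoprime.add_mul_left_left hy _
      rw [← hsx, not_not] at hx hy
      rw [hx, hy]
  · intro x
    rw [Ideal.isCoprime_span_singleton_iff, ← hsx, mul_ne_zero_iff]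
    constructor
    · exact fun h => h.1
    · exact fun h => ⟨h, hκ0 x ((hsx x).1 h)⟩
  · simp only [hn, hκn]
    ring
  · intro z hz
    simp only [hun z hz, hκ.unit z hz, one_mul]
  · intro x y hx hy hxy
    simp only [hκ.per x y hxy, hkey x y hx hy hxy]
  · intro x hx
    have h2 := left_ne_zero_of_mul hx
    have h3 := hκ.pow x (hcf x ((hsx x).1 h2))
    simp only
    rw [mul_pow, mul_comm 4 r, pow_mul, hr1 x h2, one_pow, one_mul, mul_comm r 4, pow_mul, h3,
      one_pow]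

end

end Pool.Agent.ME2I
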