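import Pool.Agent.ME2.I4_EPQ
import Pool.Agent.ME2.I4_CYC
import Pool.Agent.ME2.I4_I31
import Pool.Agent.ME2.I4_INP
import Pool.Agent.ME2.I4_INPG
import Pool.Agent.ME.N.IAll
import Pool.Agent.ME.X.WAll
import Pool.Agent.ME.X.Z_THN
import Pool.Agent.NS.ZL
import Pool.Agent.N2.IR_LEM1Y

/-!
# ME2, block I without hypotheses (helper36): `p = 2`, `D = -4`; the inputs are blocks R, E, H
-/

set_option autoImplicit false

namespace Pool.Agent.ME2I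

open Pool.Agent.MUXF Pool.Agent.MUXI Pool.Agent.MUXK Pool.Agent.NSI Pool.Agent.ME2


theorem i4_EPQ : S4_EPQ := t4_EPQ
theorem i4_CYC : S4_CYC := t4_CYC i_LAY

theorem i4_I31 (hH : T4_HFIN) : S4_I31 :=
  t4_I31 Pool.Agent.MUXJ.j_RES i_CHI n_FOU Pool.Agent.MU3I.t_ITG i4_EPQ n_E0_E i_ARF_E i_XXF_E
    n_SUB_E i_GAM n_XMX_E i_BIJ n_TH_E i_GEN hH k_GALX

theorem i4_INP (hH : T4_HFIN) : S4_INP :=
  t4_INP (i4_I31 hH) (Pool.Agent.N2IR.tr_LEM1Y k_GALX k_RSX) n_NRX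

/-- the result of block I for `D = -4`, `p = 2` -/
theorem i4_INPG (hRF : T4_RFIN) (hEF : T4_EFIN) (hH : T4_HFIN) : T4_INPG :=
  t4_INPG0 hRF hEF (i4_INP hH) i4_CYC Pool.Agent.NSZ.tl_LVX (Pool.Agent.NSZ.l_INW_E n_SUB_E) n_SUB_E
    (Pool.Agent.MUXZ.tz_THN_E MUXW.y_THG_E) MUXW.y_MEM MUXW.y_CXS_E

end Pool.Agent.ME2I
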