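import Pool.Agent.ME2.Defs4

/-!
# ME2, `p = 2`, `D = -4`, block I, module EPQ (helper41): the weights and the character (after `N2/IR_EPQ.lean`)
-/

set_option autoImplicit false

namespace Pool.Agent.ME2

open _root_.MU3 Pool.Agent.MU3 Pool.Agent.MU3A Pool.Agent.MU3B Pool.Agent.RI Pool.Agent.RID
  Pool.Agent.MUX Pool.Agent.NS
open Pool.Agent.ME hiding ActE
open Pool.Agent.N2 (OddQ)

noncomputable section

private lemma epq_lv (f : ℕ) : lvX 2 f 0 = 2 * (2 * f) := by
  simp [lvX, q0]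
  ring

private lemma epq_cop {A B : ℤ} (f : ℕ) (x : OO A B) :
    IsCoprime x ((lvX 2 f 0 : ℕ) : OO A B) ↔ IsCoprime x ((2 * f : ℕ) : OO A B) := by
  rw [epq_lv]
  push_cast
  rw [IsCoprime.mul_right_iff, IsCoprime.mul_right_iff]
  tauto

/-- a unit modulo `2` has square `1` modulo `2` -/
private lemma epq_sq {A : ℤ} (z : OO A 0) (h : IsCoprime z 2) : (2 : OO A 0) ∣ z ^ 2 - 1 := by
  obtain ⟨u, v, h⟩ := h
  have h1 : u.re * z.re + A * u.im * z.im + v.re * 2 = 1 := by
    have := congrArg QuadraticAlgebra.re h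
    simpa [QuadraticAlgebra.re_ofNat, QuadraticAlgebra.im_ofNat, QuadraticAlgebra.re_one] using this
  have h2 : u.re * z.im + u.im * z.re + v.im * 2 = 0 := by
    have := congrArg QuadraticAlgebra.im h
    simpa [QuadraticAlgebra.re_ofNat, QuadraticAlgebra.im_ofNat, QuadraticAlgebra.im_one] using this
  have h3 : ((z.re ^ 2 + A * z.im ^ 2 - 1 : ℤ) : ZMod 2) = 0 := by
    have g1 := congrArg (fun n : ℤ => (n : ZMod 2)) h1
    have g2 := congrArg (fun n : ℤ => (n : ZMod 2)) h2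
    push_cast at g1 g2 ⊢
    have two : (2 : ZMod 2) = 0 := by decide
    rw [two, mul_zero, add_zero] at g1 g2
    generalize (z.re : ZMod 2) = a at *
    generalize (z.im : ZMod 2) = b at *
    generalize (u.re : ZMod 2) = c at *
    generalize (u.im : ZMod 2) = d at *
    generalize (A : ZMod 2) = e at *
    revert a b c d e
    decide
  rw [ZMod.intCast_zmod_eq_zero_iff_dvd] at h3
  obtain ⟨k, hk⟩ := h3
  refine ⟨⟨k, z.re * z.im⟩, ?_⟩
  apply QuadraticAlgebra.ext
  · simp only [pow_two, QuadraticAlgebra.re_sub, QuadraticAlgebra.re_mul,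
      QuadraticAlgebra.re_ofNat, QuadraticAlgebra.im_ofNat, QuadraticAlgebra.re_one]
    push_cast at hk
    linarith
  · simp only [pow_two, QuadraticAlgebra.im_sub, QuadraticAlgebra.im_mul,
      QuadraticAlgebra.re_ofNat, QuadraticAlgebra.im_ofNat, QuadraticAlgebra.im_one]
    ring

/-- the fourth power of an element prime to `2` and `1` modulo `f`, `f` odd, is `1` modulo `4 f` -/
private lemma epq_four {A : ℤ} (f : ℕ) (hf : ¬ 2 ∣ f) (z : OO A 0) (h : IsCoprime z 2)
    (h1 : ((f : ℕ) : OO A 0) ∣ z - 1) : ((2 * (2 * f) : ℕ) : OO A 0) ∣ z ^ 4 - 1 := by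
  have h2 : (4 : OO A 0) ∣ z ^ 4 - 1 := by
    obtain ⟨s, hs⟩ := epq_sq z h
    refine ⟨s + s ^ 2, ?_⟩
    have : z ^ 2 = 1 + 2 * s := by linear_combination hs
    have h4 : z ^ 4 = (z ^ 2) ^ 2 := by ring
    rw [h4, this]
    ring
  have h3 : ((f : ℕ) : OO A 0) ∣ z ^ 4 - 1 := by
    have : z ^ 4 - 1 = (z - 1) * (z ^ 3 + z ^ 2 + z + 1) := by ring
    rw [this]
    exact h1.mul_right _
  have h5 : IsCoprime (4 : OO A 0) ((f : ℕ) : OO A 0) := by
    have h6 : Nat.Coprime 4 f := by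
      have : Nat.Coprime 2 f := (Nat.Prime.coprime_iff_not_dvd Nat.prime_two).2 hf
      have h7 := Nat.Coprime.pow_left 2 this
      simpa using h7
    have h7 := Nat.isCoprime_iff_coprime.2 h6
    have h8 := h7.map (Int.castRingHom (OO A 0))
    simpa using h8
  have h6 := h5.mul_dvd h2 h3
  have e : ((2 * (2 * f) : ℕ) : OO A 0) = 4 * ((f : ℕ) : OO A 0) := by
    push_cast
    ring
  rw [e]
  exact h6

private lemma epq_key {A : ℤ} (f : ℕ) (hf : ¬ 2 ∣ f) (e0 : OO A 0 → ℂ) (r : ℕ) (hr : ¬ 2 ∣ r)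
    (h1 : e0 1 = 1) (hm : ∀ x y, e0 (x * y) = e0 x * e0 y)
    (hp : ∀ x y, x - y ∈ idl (A := A) (B := 0) (lvX 2 f 0) → e0 x = e0 y)
    (hs : ∀ x, e0 x ≠ 0 ↔ IsCoprime x ((lvX 2 f 0 : ℕ) : OO A 0))
    (hr1 : ∀ x, e0 x ≠ 0 → e0 x ^ r = 1) (x y : OO A 0)
    (hx : IsCoprime x ((2 * f : ℕ) : OO A 0)) (hy : IsCoprime y ((2 * f : ℕ) : OO A 0))
    (hxy : x - y ∈ idl (A := A) (B := 0) f) : e0 x = e0 y := by
  rw [← epq_cop] at hx hy
  obtain ⟨a, b, hab⟩ := hy
  have ha : IsCoprime a ((lvX 2 f 0 : ℕ) : OO A 0) := ⟨y, b, by rw [mul_comm y a]; exact hab⟩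
  have hz : IsCoprime (x * a) ((lvX 2 f 0 : ℕ) : OO A 0) := hx.mul_left ha
  have hz2 : IsCoprime (x * a) 2 := by
    have h3 := hz
    rw [epq_lv] at h3
    push_cast at h3
    exact (IsCoprime.mul_right_iff.1 h3).1
  have hya : e0 (y * a) = 1 := by
    rw [← h1]
    refine hp _ _ ?_
    rw [Ideal.mem_span_singleton]
    exact ⟨-b, by linear_combination hab⟩
  have hfz : ((f : ℕ) : OO A 0) ∣ x * a - 1 := by
    rw [Ideal.mem_span_singleton] at hxy
    obtain ⟨c, hc⟩ := hxy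
    refine ⟨c * a - b * 4, ?_⟩
    rw [epq_lv] at hab
    push_cast at hab
    linear_combination a * hc + hab
  have h4 : e0 (x * a) ^ 4 = 1 := by
    have h5 : e0 ((x * a) ^ 4) = 1 := by
      rw [← h1]
      refine hp _ _ ?_
      rw [Ideal.mem_span_singleton, epq_lv]
      exact epq_four f hf _ hz2 hfz
    have h6 : (x * a) ^ 4 = (x * a) * (x * a) * ((x * a) * (x * a)) := by ring
    rw [h6, hm, hm] at h5
    rw [← h5]
    ring
  have h5 : e0 (x * a) = 1 := by
    have h6 := hr1 _ ((hs _).2 hz)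
    rw [← orderOf_eq_one_iff]
    have h7 := orderOf_dvd_of_pow_eq_one h4
    have h8 := orderOf_dvd_of_pow_eq_one h6
    have h9 : Nat.Coprime 4 r := by
      have : Nat.Coprime 2 r := (Nat.Prime.coprime_iff_not_dvd Nat.prime_two).2 hr
      have h7 := Nat.Coprime.pow_left 2 this
      simpa using h7
    exact Nat.eq_one_of_dvd_coprimes h9 h7 h8
  calc e0 x = e0 x * e0 (y * a) := by rw [hya, mul_one]
    _ = e0 y * e0 (x * a) := by rw [hm, hm]; ring
    _ = e0 y := by rw [h5, mul_one]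

/-- a fourth root of unity is `1` modulo the square root of `2` -/
private lemma epq_i {V : ValuationSubring ℂ} {z : ℂ} (hz : z ^ 4 = 1) :
    V.valuation (z - 1) ^ 2 ≤ V.valuation (2 : ℂ) := by
  have hV2 : V.valuation (2 : ℂ) ≤ 1 := by
    rw [ValuationSubring.valuation_le_one_iff]
    have : (2 : ℂ) = 1 + 1 := by norm_num
    rw [this]
    exact V.add_mem _ _ V.one_mem V.one_mem
  have hv : V.valuation z = 1 := by
    have h1 : V.valuation z ^ 4 = 1 := by rw [← map_pow, hz, map_one]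
    exact (pow_eq_one_iff_of_nonneg zero_le (by norm_num)).1 h1
  have h2 : (z - 1) * ((z + 1) * (z ^ 2 + 1)) = 0 := by linear_combination hz
  rcases mul_eq_zero.1 h2 with h3 | h3
  · rw [h3]
    simp
  · rcases mul_eq_zero.1 h3 with h4 | h4
    · have h5 : z - 1 = -2 := by linear_combination h4
      rw [h5, Valuation.map_neg, pow_two]
      exact mul_le_of_le_one_left' hV2
    · have h5 : (z - 1) ^ 2 = -(2 * z) := by linear_combination h4
      rw [← map_pow, h5, Valuation.map_neg, map_mul, hv, mul_one]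

/-- (EPQ) the weights and the character -/
theorem i4_EPQ {A B : ℤ} {P : Ideal (OO A B)} {V : ValuationSubring ℂ} {f : ℕ}
    (hS : SetT4 A B P V f) (e0 : OO A B → ℂ) (r : ℕ) (hr : ¬ 2 ∣ r)
    (h1 : e0 1 = 1) (hm : ∀ x y, e0 (x * y) = e0 x * e0 y)
    (hp : ∀ x y, x - y ∈ idl (A := A) (B := B) (lvX 2 f 0) → e0 x = e0 y)
    (hs : ∀ x, e0 x ≠ 0 ↔ IsCoprime x ((lvX 2 f 0 : ℕ) : OO A B))
    (hr1 : ∀ x, e0 x ≠ 0 → e0 x ^ r = 1) (hu : ∀ z, IsUnit z → e0 z = 1) :
    ∃ (om e : OO A B → ℂ), OddQ f V om ∧ OddF4 f e ∧ (∀ x, e x ≠ 0 → e x ^ (4 * r) = 1) ∧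
      ∀ x, IsCoprime x ((lvX 2 f 0 : ℕ) : OO A B) → e0 x * om x = e x := by
  have hB := hS.hB
  subst hB
  obtain ⟨κ, hκ⟩ := hS.kap
  have hle : idl (A := A) (B := 0) (2 * f) ≤ idl (A := A) (B := 0) f := by
    rw [Ideal.span_singleton_le_span_singleton]
    exact ⟨2, by push_cast; ring⟩
  have hcf : ∀ x : OO A 0, IsCoprime x ((2 * f : ℕ) : OO A 0) →
      IsCoprime (sp x) (idl (A := A) (B := 0) f) := by
    intro x hx
    rw [Ideal.isCoprime_span_singleton_iff]
    push_cast at hx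
    exact (IsCoprime.mul_right_iff.1 hx).2
  have hkey := epq_key f hS.fp e0 r hr h1 hm hp hs hr1
  have hsx : ∀ x : OO A 0, e0 x ≠ 0 ↔ IsCoprime x ((2 * f : ℕ) : OO A 0) := fun x =>
    (hs x).trans (epq_cop f x)
  have hκ0 : ∀ x : OO A 0, IsCoprime x ((2 * f : ℕ) : OO A 0) → κ x ≠ 0 := by
    intro x hx h0
    have h2 := hκ.pow x (hcf x hx)
    rw [h0] at h2
    norm_num at h2
  have hum : IsUnit (-1 : OO A 0) := isUnit_one.neg
  have hn : e0 (-1) = 1 := hu _ hum
  have hκn : κ (-1) = -1 := by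
    rw [hκ.unit _ hum]
    unfold emb
    rw [QuadraticAlgebra.re_neg, QuadraticAlgebra.im_neg, QuadraticAlgebra.re_one,
      QuadraticAlgebra.im_one]
    simp
  refine ⟨κ, fun x => e0 x * κ x, ⟨?_, ?_, ?_⟩, ⟨⟨⟨?_, ?_, ?_, ?_, ?_⟩, ?_⟩, ?_⟩,
    ?_, fun x _ => rfl⟩
  · intro x
    have h2 : -x = -1 * x := by ring
    rw [h2, hκ.mul, hκn]
    ring
  · intro x y hxy
    exact hκ.per x y (hle hxy)
  · intro x hx
    exact epq_i (hκ.pow x (hcf x hx))
  · simp only [h1, hκ.one]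
    simp
  · intro x y
    simp only [hm, hκ.mul]
    ring
  · intro x y hxy
    simp only [hκ.per x y (hle hxy)]
    by_cases hx : IsCoprime x ((2 * f : ℕ) : OO A 0)
    · have hy : IsCoprime y ((2 * f : ℕ) : OO A 0) := by
        rw [Ideal.mem_span_singleton] at hxy
        obtain ⟨c, hc⟩ := hxy
        have h2 : y = x + ((2 * f : ℕ) : OO A 0) * (-c) := by linear_combination -hc
        rw [h2]
        exact IsCoprime.add_mul_left_left hx _
      rw [hkey x y hx hy (hle hxy)]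
    · have hy : ¬ IsCoprime y ((2 * f : ℕ) : OO A 0) := by
        intro hy
        apply hx
        rw [Ideal.mem_span_singleton] at hxy
        obtain ⟨c, hc⟩ := hxy
        have h2 : x = y + ((2 * f : ℕ) : OO A 0) * c := by linear_combination hc
        rw [h2]
        exact IsCoprime.add_mul_left_left hy _
      rw [← hsx, not_not] at hx hy
      rw [hx, hy]
  · intro x
    rw [Ideal.isCoprime_span_singleton_iff, ← hsx, mul_ne_zero_iff]
    constructor
    · exact fun h => h.1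
    · exact fun h => ⟨h, hκ0 x ((hsx x).1 h)⟩
  · simp only [hn, hκn]
    ring
  · intro z hz
    simp only [hu z hz, hκ.unit z hz]
    ring
  · intro x y hx hy hxy
    simp only [hκ.per x y hxy, hkey x y hx hy hxy]
  · intro x hx
    have h2 := left_ne_zero_of_mul hx
    have h3 := hκ.pow x (hcf x ((hsx x).1 h2))
    beta_reduce
    rw [mul_pow, mul_comm 4 r, pow_mul, hr1 x h2, one_pow, one_mul, mul_comm r 4, pow_mul, h3,
      one_pow]

end

end Pool.Agent.ME2
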