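import Pool.Agent.ME2.Defs4
import Pool.Agent.ME.CLib

/-!
# ME2 (helper77): `T4_KAP`: the character modulo `2 + i`, level 15
-/

set_option autoImplicit false

namespace Pool.Agent.ME2

open _root_.MU3 Pool.Agent.MU3A Pool.Agent.MU3B Pool.Agent.RI Pool.Agent.MUX Pool.Agent.ME

noncomputable section

namespace Kap4

/-- the quartic character of `(ℤ/5)^*` with values in `ℤ[i]`, `χ (-2) = i` -/
def chi (t : ZMod 5) : OO (-1) 0 :=
  if t = 1 then ⟨1, 0⟩ else if t = 3 then ⟨0, 1⟩ else if t = 4 then ⟨-1, 0⟩ else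
    if t = 2 then ⟨0, -1⟩ else ⟨0, 0⟩

lemma chi_mul : ∀ s t : ZMod 5, chi (s * t) = chi s * chi t := by
  decide

lemma chi_one : chi 1 = 1 := rfl

lemma chi_pow : ∀ s : ZMod 5, s ≠ 0 → chi s ^ 4 = 1 := by
  decide

/-- reduction modulo `2 + i` -/
def red (x : OO (-1) 0) : ZMod 5 := (x.re : ZMod 5) - 2 * (x.im : ZMod 5)

lemma red_one : red 1 = 1 := rfl

lemma red_mul (x y : OO (-1) 0) : red (x * y) = red x * red y := by
  unfold red
  rw [QuadraticAlgebra.re_mul, QuadraticAlgebra.im_mul]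
  push_cast
  have h5 : (5 : ZMod 5) = 0 := rfl
  linear_combination -(x.im : ZMod 5) * y.im * h5

lemma red_add (x y : OO (-1) 0) : red (x + y) = red x + red y := by
  unfold red
  rw [QuadraticAlgebra.re_add, QuadraticAlgebra.im_add]
  push_cast
  ring

lemma red_idl {x : OO (-1) 0} (hx : x ∈ idl (A := -1) (B := 0) 15) : red x = 0 := by
  obtain ⟨y, rfl⟩ := Ideal.mem_span_singleton.1 hx
  rw [red_mul]
  have : red (((15 : ℕ) : OO (-1) 0)) = 0 := rfl
  rw [this, zero_mul]

lemma unit_cases {z : OO (-1) 0} (hC : CQ (-1) 0) (hz : IsUnit z) :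
    z = ⟨1, 0⟩ ∨ z = ⟨-1, 0⟩ ∨ z = ⟨0, 1⟩ ∨ z = ⟨0, -1⟩ := by
  obtain ⟨y, hy⟩ := hz.exists_right_inv
  have h1 : nm z * nm y = 1 := by
    rw [← nm_mul hC, hy]
    rfl
  have h2 : nm z = z.re * z.re + z.im * z.im := by
    unfold nm
    ring
  have h3 : nm z = 1 := by
    have h4 : 0 ≤ nm z := by
      rw [h2]
      nlinarith [mul_self_nonneg z.re, mul_self_nonneg z.im]
    exact Int.eq_one_of_mul_eq_one_right h4 h1
  rw [h2] at h3
  have h5 : z.re ≤ 1 := by nlinarith
  have h6 : -1 ≤ z.re := by nlinarith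
  have h7 : z.im ≤ 1 := by nlinarith
  have h8 : -1 ≤ z.im := by nlinarith
  have e : ∀ a b : ℤ, z.re = a → z.im = b → z = ⟨a, b⟩ := fun a b h h' =>
    QuadraticAlgebra.ext h h'
  have h9 : z.re = -1 ∨ z.re = 0 ∨ z.re = 1 := by omega
  have h10 : z.im = -1 ∨ z.im = 0 ∨ z.im = 1 := by omega
  rcases h9 with h9 | h9 | h9 <;> rcases h10 with h10 | h10 | h10 <;> rw [h9, h10] at h3 <;>
    first
    | (exfalso; revert h3; decide)
    | exact Or.inl (e _ _ h9 h10)
    | exact Or.inr (Or.inl (e _ _ h9 h10))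
    | exact Or.inr (Or.inr (Or.inl (e _ _ h9 h10)))
    | exact Or.inr (Or.inr (Or.inr (e _ _ h9 h10)))

end Kap4

theorem t4_KAP : T4_KAP := by
  intro A B h hB
  have hA := h.hA
  subst hA
  subst hB
  have hC := h.toCQ
  refine ⟨15, by norm_num, by norm_num, ?_, fun x => emb (Kap4.chi (Kap4.red x)), ?_⟩
  · have : absD (-1) 0 = 4 := rfl
    rw [this]
    norm_num
  · constructor
    · rw [Kap4.red_one, Kap4.chi_one, Pool.Agent.MUX.emb_one hC]
    · intro x y
      rw [Kap4.red_mul, Kap4.chi_mul, Pool.Agent.MUX.emb_mul hC]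
    · intro z hz
      rcases Kap4.unit_cases hC hz with rfl | rfl | rfl | rfl
      · rfl
      · rfl
      · rfl
      · rfl
    · intro x y hxy
      have h1 := Kap4.red_idl hxy
      have h2 : Kap4.red x = Kap4.red y := by
        have h3 := Kap4.red_add (x - y) y
        rw [sub_add_cancel, h1, zero_add] at h3
        exact h3
      rw [h2]
    · intro x hx
      have hr : Kap4.red x ≠ 0 := by
        intro h0
        obtain ⟨p, hp, q, hq, hpq⟩ := Ideal.isCoprime_iff_exists.1 hx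
        obtain ⟨t, rfl⟩ := Ideal.mem_span_singleton'.1 hp
        have h3 := Kap4.red_add (t * x) q
        rw [hpq, Kap4.red_mul, h0, Kap4.red_idl hq, mul_zero, add_zero, Kap4.red_one] at h3
        exact absurd h3 (by decide)
      rw [← Pool.Agent.MUX.emb_pow hC, Kap4.chi_pow _ hr, Pool.Agent.MUX.emb_one hC]

end

end Pool.Agent.ME2
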