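import Pool.Agent.ME2.IAll4
import Pool.Agent.ME2.R4_RFIN
import Pool.Agent.ME2.Kap4
import Pool.Agent.ME2.T_TYF4
import Pool.Agent.ME2.H_Hfin4

/-!
# ME2: the inputs of block J for `D = -4`, `p = 2` from `T4_EFIN` (helper21)
-/

set_option autoImplicit false

namespace Pool.Agent.ME2

theorem zin4 (hEF : T4_EFIN) : T4_INPG :=
  Pool.Agent.ME2I.i4_INPG r4_RFIN hEF (Pool.Agent.ME2H.h_HFIN4 (t4_TYF r4_RFIN))

end Pool.Agent.ME2
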