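import Pool.Agent.ME2.JFinE
import Pool.Agent.ME2.ZIn4

/-!
# ME: the final theorems for `p = 2`, `k = ℚ(i), ℚ(√-3)` and all finite abelian `K / k`, from (JT) in the frame E and the inputs of block J (helper21)
-/

set_option autoImplicit false

open NumberField IsDedekindDomain

namespace Pool.Agent.ME2

open _root_.MU3 Pool.Agent.MU3 Pool.Agent.MU3A Pool.Agent.MU3B Pool.Agent.RI Pool.Agent.RID
  Pool.Agent.MUX Pool.Agent.MUXK Pool.Agent.MUXE Pool.Agent.MUXJ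
open Pool.Agent.ME hiding ActE

/-- `p = 2`, `k = ℚ(i)` -/
theorem bdJ2_one (hEF : T4_EFIN) (hJ : ∀ A B : ℤ, CaseE A B → JTEx A B) :
    BdJ 2 (MUXZ.pA 1) (MUXZ.pB 1) := by
  refine bdJ_of (hJ _ _ case_one.1) ?_
  intro F M K _ hF h a hT hGal ha hK
  exact z_main42 t4_KAP (zin4 hEF) _ _ case_one.1 case_one.2 F M K hF h a hT hGal ha hK

/-- `p = 2`, `k = ℚ(√-3)` -/
theorem bdJ2_three (hG : T3_INPG) (hJ : ∀ A B : ℤ, CaseE A B → JTEx A B) :
    BdJ 2 (MUXZ.pA 3) (MUXZ.pB 3) := by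
  refine bdJ_of (hJ _ _ case_three.1) ?_
  intro F M K _ hF h a hT hGal ha hK
  exact z_main32 hG _ _ case_three.1 case_three.2 F M K hF h a hT hGal ha hK

end Pool.Agent.ME2
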