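import Pool.Agent.HB.JT2
import Pool.Agent.ME.JTE
import Pool.Agent.ME2.JFin2
import Pool.Agent.ME2.I3All
import Pool.Agent.ME2.F4All

/-!
# `μ = 0` for `p = 2`, all imaginary quadratic fields and all their finite abelian extensions, no hypotheses (helper21)
-/

set_option autoImplicit false

open NumberField

namespace Pool.Agent.JT

open _root_.MU3 Pool.Agent.MU3A Pool.Agent.RI Pool.Agent.MUX Pool.Agent.MUXJ Pool.Agent.HB

/-- `p = 2`, `k = ℚ(i)` -/
theorem finJ2_one : FinJ 2 1 := ME2.bdJ2_one (ME2F.f_EFIN ME2.r4_RFIN) JTE.torU_E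

/-- `p = 2`, `k = ℚ(√-3)` -/
theorem finJ2_three : FinJ 2 3 := ME2.bdJ2_three ME2I.i3_T3_INPG JTE.torU_E

/-- `p = 2`, all `k` -/
theorem finJ2_all (d : ℕ) (hd : Squarefree d) : FinJ 2 d := by
  by_cases h1 : d = 1
  · subst h1
    exact finJ2_one
  · by_cases h3 : d = 3
    · subst h3
      exact finJ2_three
    · exact finJ2_non d hd h1 h3

/-- the final theorem for `p = 2` -/
theorem final2J (k K : IntermediateField ℚ ℂ) [FiniteDimensional ℚ K] (h : k ≤ K)
    (h2 : Module.finrank ℚ k = 2) (hi : ∃ z ∈ k, (starRingEnd ℂ) z ≠ z)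
    (hG : IsGalois k (IntermediateField.extendScalars h))
    (hc : ∀ σ τ : (IntermediateField.extendScalars h) ≃ₐ[k] (IntermediateField.extendScalars h),
      σ * τ = τ * σ) :
    ∃ C : ℕ, ∀ (n : ℕ) (Q : IntermediateField ℚ ℂ), IsLayer 2 n Q →
      padicValNat 2 (classNo (K ⊔ Q)) ≤ C * (n + 1) ^ C :=
  final_all finJ2_all k K h h2 hi hG hc

end Pool.Agent.JT
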