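import Pool.Agent.ME2.FinE
import Pool.Agent.MUX.ZUni

/-!
# ME: the final theorems for `k = ℚ(i), ℚ(√-3)` and all finite abelian `K / k`, from (JT) in the frame E and the main theorems: general part (helper21)
-/

set_option autoImplicit false

open NumberField IsDedekindDomain

namespace Pool.Agent.ME2

open _root_.MU3 Pool.Agent.MU3 Pool.Agent.MU3A Pool.Agent.MU3B Pool.Agent.RI Pool.Agent.RID
  Pool.Agent.MUX Pool.Agent.MUXK Pool.Agent.MUXE Pool.Agent.MUXJ
open Pool.Agent.ME hiding ActE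

/-- (JT) in the frame E: a finite abelian extension of `k` is contained in a ray class field -/
def JTEx (A B : ℤ) : Prop :=
  ∀ (K : IntermediateField ℚ ℂ) [FiniteDimensional ℚ K] (hk : kk A B ≤ K),
    IsGalois (kk A B) (IntermediateField.extendScalars hk) →
    (∀ σ τ : (IntermediateField.extendScalars hk) ≃ₐ[kk A B]
      (IntermediateField.extendScalars hk), σ * τ = τ * σ) → TorU_E A B K

/-- the bound for all finite abelian extensions of `kk A B` -/
def BdJ (p : ℕ) (A B : ℤ) : Prop :=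
  ∀ (K : IntermediateField ℚ ℂ) [FiniteDimensional ℚ K] (h : kk A B ≤ K),
    IsGalois (kk A B) (IntermediateField.extendScalars h) →
    (∀ σ τ : (IntermediateField.extendScalars h) ≃ₐ[kk A B]
      (IntermediateField.extendScalars h), σ * τ = τ * σ) →
    ∃ C : ℕ, ∀ (n : ℕ) (Q : IntermediateField ℚ ℂ), IsLayer p n Q →
      padicValNat p (classNo (K ⊔ Q)) ≤ C * (n + 1) ^ C

theorem bdJ_of {p : ℕ} {A B : ℤ} (hJ : JTEx A B)
    (hmain : ∀ (F M K : IntermediateField ℚ ℂ) [FiniteDimensional ℚ M] (_ : kk A B ≤ F)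
      (h : F ≤ M) (a : ℕ), TorU_E A B F → IsGalois F (IntermediateField.extendScalars h) →
      Module.finrank F (IntermediateField.extendScalars h) = p ^ a → K ≤ M →
      ∃ C : ℕ, ∀ (n : ℕ) (Q : IntermediateField ℚ ℂ), IsLayer p n Q →
        padicValNat p (classNo (K ⊔ Q)) ≤ C * (n + 1) ^ C) : BdJ p A B := by
  intro K _ h hGal hc
  exact fin_of hmain K h (hJ K h hGal hc)

/-- `ℚ(i)` -/
theorem case_one : CaseE (MUXZ.pA 1) (MUXZ.pB 1) ∧ MUXZ.pB 1 = 0 :=
  ⟨{ MUXZ.cq_p (d := 1) squarefree_one with hA := by unfold MUXZ.pA; norm_num },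
    by unfold MUXZ.pB; norm_num⟩

/-- `ℚ(√-3)` -/
theorem case_three : CaseE (MUXZ.pA 3) (MUXZ.pB 3) ∧ MUXZ.pB 3 = 1 :=
  ⟨{ MUXZ.cq_p (d := 3) Nat.prime_three.squarefree with hA := by unfold MUXZ.pA; norm_num },
    by unfold MUXZ.pB; norm_num⟩

end Pool.Agent.ME2
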