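import Pool.Agent.ME2.Defs4
import Pool.Agent.ME.ZLib
import Pool.Agent.ME.X.JGAll

/-!
# ME2: blocks K and J for `p = 2`, `D = -4` (helper21)

`K = K₀` (the degree of `K₀ / k` is odd, `k = ℚ(i)`).
-/

set_option autoImplicit false

open NumberField IsDedekindDomain
open scoped nonZeroDivisors Pointwise

namespace Pool.Agent.ME2

open _root_.MU3 Pool.Agent.MU3 Pool.Agent.MU3A Pool.Agent.MU3B Pool.Agent.RI Pool.Agent.RID
  Pool.Agent.MUX Pool.Agent.MUXK Pool.Agent.MUXE Pool.Agent.MUXJ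
open Pool.Agent.ME hiding ActE

noncomputable section

namespace JF4

variable {A B : ℤ}

lemma w4 (h : CaseE A B) (hB : B = 0) : IsPrimitiveRoot (wC A B) 4 := by
  have hw := MEC.w_sq h
  rw [hB] at hw ⊢
  push_cast at hw
  rw [zero_mul, add_zero] at hw
  have h4 : wC A 0 ^ 4 = 1 := by
    calc wC A 0 ^ 4 = (wC A 0 ^ 2) ^ 2 := by ring
      _ = 1 := by rw [hw]; ring
  refine IsPrimitiveRoot.mk_of_lt _ (by norm_num) h4 ?_
  intro l hl0 hl4 hl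
  have h2 : wC A 0 ^ 2 ≠ 1 := by
    rw [hw]
    norm_num
  interval_cases l
  · apply h2
    rw [pow_one] at hl
    rw [hl]
    norm_num
  · exact h2 hl
  · apply h2
    have h5 : wC A 0 ^ 4 = wC A 0 := by
      calc wC A 0 ^ 4 = wC A 0 ^ 3 * wC A 0 := by ring
        _ = wC A 0 := by rw [hl, one_mul]
    rw [← h5, h4]
    norm_num

/-- the degree of a cyclotomic field -/
lemma fin_cyc {ζ : ℂ} {n : ℕ} (hn : 0 < n) (hζ : IsPrimitiveRoot ζ n) :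
    Module.finrank ℚ (IntermediateField.adjoin ℚ {ζ}) = n.totient := by
  have h1 : IsIntegral ℚ ζ := (hζ.isIntegral hn).tower_top
  rw [IntermediateField.adjoin.finrank h1, ← Polynomial.cyclotomic_eq_minpoly_rat hζ hn,
    Polynomial.natDegree_cyclotomic]

lemma fin_k (h : CaseE A B) (hB : B = 0) : Module.finrank ℚ (kk A B) = 2 := by
  have h1 := fin_cyc (by norm_num) (w4 h hB)
  have h2 : Nat.totient 4 = 2 := by decide
  rw [h2] at h1
  exact h1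

lemma set4 (h : CaseE A B) (hB : B = 0) {d : ℕ} (hd : d ≠ 0) (h2d : ¬ 2 ∣ d) (hT : TorXE A B)
    (hN : NLex_E A B) (K₀ : IntermediateField ℚ ℂ) [FiniteDimensional ℚ K₀] (hk : kk A B ≤ K₀)
    (hcop : ¬ 2 ∣ Module.finrank (kk A B) (IntermediateField.extendScalars hk))
    (hTU : TorU_E A B K₀) (Bn : ℕ → IntermediateField ℚ ℂ) (hlay : ∀ n, IsLayer 2 n (Bn n))
    (hmono : Monotone Bn) :
    ∃ f : ℕ, SetX 2 (kk A B) K₀ K₀ Bn ∧ f ≠ 0 ∧ ¬ 2 ∣ f ∧ d ∣ f ∧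
      (∀ y ∈ K₀, y ∈ RFE (idl (A := A) (B := B) (lvX 2 f 0))) ∧
      ∀ y ∈ RFE (⊤ : Ideal (OO A B)), y ∈ K₀ := by
  have hcq := h.toCQ
  obtain ⟨M, hM, hKM⟩ := j_DIR_E A B hcq hT K₀ hTU
  obtain ⟨f, hf0, hfp, hfd, hKf⟩ := j_LEVG_E 2 d A B hcq (Or.inl rfl) hd h2d (by norm_num) hT hN K₀
    hk hcop M hM hKM
  have hlv0 : (idl (A := A) (B := B) (lvX 2 f 0)) ≠ ⊥ := by
    have h1 : lvX 2 f 0 ≠ 0 := by
      unfold lvX q0
      simp [hf0]
    rw [Ne, Ideal.span_singleton_eq_bot]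
    exact natCast_ne_zero' hcq h1
  obtain ⟨hgal0, -, hab0⟩ := j_GAL_E A B hT _ hlv0 K₀ hk hKf
  have hi : wC A B ∈ K₀ := hk (IntermediateField.mem_adjoin_simple_self ℚ (wC A B))
  have hw4 := w4 h hB
  have hB1 : ¬ Bn 1 ≤ K₀ := by
    intro hB1
    obtain ⟨ζ, hζK, hζ⟩ := j_ROT 2 (Or.inl rfl) (Bn 1) K₀ (hlay 1) hB1 ⟨wC A B, hi, hw4⟩
    have h8 : q0 2 * 2 = 8 := rfl
    rw [h8] at hζ
    have hle : IntermediateField.adjoin ℚ {ζ} ≤ K₀ := by
      rw [IntermediateField.adjoin_le_iff]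
      rintro x hx
      rw [Set.mem_singleton_iff] at hx
      rw [hx]
      exact hζK
    have h1 := fin_cyc (by norm_num) hζ
    have h2 : Nat.totient 8 = 4 := by decide
    rw [h2] at h1
    have h3 := IntermediateField.finrank_dvd_of_le_right hle
    rw [h1] at h3
    have h4 : Module.finrank ℚ (kk A B) *
        Module.finrank (kk A B) (IntermediateField.extendScalars hk) = Module.finrank ℚ K₀ :=
      Module.finrank_mul_finrank ℚ (kk A B) (IntermediateField.extendScalars hk)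
    rw [fin_k h hB] at h4
    rw [← h4] at h3
    apply hcop
    omega
  refine ⟨f, ?_, hf0, hfp, hfd, hKf, fun y hy => hk (MEZ.mem_of_top h hy)⟩
  have hb : BasX 2 (kk A B) K₀ Bn := ⟨hk, hgal0, hab0, j_LDX 2 K₀ Bn hlay hmono hB1, hlay, hmono⟩
  exact
    { b0 := hb
      b := hb
      le := le_rfl
      cop := hcop
      om := ⟨-1, neg_mem (one_mem _), IsPrimitiveRoot.neg_one 0 (by norm_num)⟩
      ze := ⟨wC A B, hi, hw4⟩ }

/-- the case of a field `K₀` of odd degree over `k` -/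
theorem cop4 (h : CaseE A B) (hB : B = 0) (V : ValuationSubring ℂ)
    (hV2 : (2 : ℂ) ∈ V.nonunits) {d : ℕ} (hd : d ≠ 0)
    (h2d : ¬ 2 ∣ d) (hT : TorXE A B) (hN : NLex_E A B) (hI : InpG_E 2 d A B V)
    (K₀ : IntermediateField ℚ ℂ) [FiniteDimensional ℚ K₀]
    (hk : kk A B ≤ K₀) (hcop : ¬ 2 ∣ Module.finrank (kk A B) (IntermediateField.extendScalars hk))
    (hTU : TorU_E A B K₀)
    (Bn : ℕ → IntermediateField ℚ ℂ) (hlay : ∀ n, IsLayer 2 n (Bn n)) (hmono : Monotone Bn) :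
    ∃ C : ℕ, ∀ n, padicValNat 2 (classNo (K₀ ⊔ Bn n)) ≤ C * (n + 1) ^ 2 := by
  have : Fact (Nat.Prime 2) := ⟨Nat.prime_two⟩
  obtain ⟨f, hSX, hf0, hpf, hdf, hKR, hHK⟩ := set4 h hB hd h2d hT hN K₀ hk hcop hTU Bn hlay hmono
  have hfk : FiniteDimensional ℚ (kk A B) :=
    Module.Finite.of_injective (IntermediateField.inclusion hk).toLinearMap
      (IntermediateField.inclusion hk).injective
  have hfB : ∀ n, FiniteDimensional ℚ ↥(K₀ ⊔ Bn n) := fun n => by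
    obtain ⟨h1, -, -⟩ := LAY_thm 2 n (Bn n) (hlay n)
    exact IntermediateField.finiteDimensional_sup K₀ (Bn n)
  have hkn : ∀ n, kk A B ≤ K₀ ⊔ Bn n := fun n => hk.trans le_sup_left
  obtain ⟨S, c, c₀, n₁, hInp⟩ := hI f hf0 hpf hdf K₀ K₀ Bn hSX hKR hHK hkn hkn hk
  obtain ⟨hchar, halg⟩ := j_RES 2 V (by exact_mod_cast hV2)
  exact k_MAINKX (IsLocalRing.ResidueField V) 2 (kk A B) K₀ K₀ Bn hSX hkn hkn hk S c c₀ n₁ hInp

end JF4

/-- (JFIN) blocks K and J for `p = 2`, `D = -4` -/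
theorem j4_JFIN : T4_JFIN := by
  intro A B P V d hc hB hP hV hd h2d hT hN hI F M K _ hkF hFM a hTU hgal hdeg hKM
  have : Fact (Nat.Prime 2) := ⟨Nat.prime_two⟩
  have hcq := hc.toCQ
  have hV2 : (2 : ℂ) ∈ V.nonunits := by
    have h1 := (hV ((2 : ℕ) : OO A B)).2 (by
      have h2 := nI_mem hcq (b := P) (by
        rintro rfl
        exact MEC.FRO.ne_bot_of_prime _ Nat.prime_two hP.norm rfl)
      rwa [hP.norm] at h2)
    rw [Pool.Agent.MUX.emb_natCast hcq] at h1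
    exact_mod_cast h1
  have hfF : FiniteDimensional ℚ F :=
    Module.Finite.of_injective (IntermediateField.inclusion hFM).toLinearMap
      (IntermediateField.inclusion hFM).injective
  obtain ⟨-, hTot⟩ := j_FLD A B hcq
  obtain ⟨Bn, hlay, hmono, huniq⟩ := j_LAY 2 (Or.inl rfl)
  obtain ⟨M₀, hM₀, hFR⟩ := j_DIR_E A B hcq hT F hTU
  have hM₀' : (idl (A := A) (B := B) M₀) ≠ ⊥ := by
    rw [Ne, Ideal.span_singleton_eq_bot]
    exact natCast_ne_zero' hcq hM₀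
  obtain ⟨hgF, -, hab⟩ := j_GAL_E A B hT (idl M₀) hM₀' F hkF hFR
  obtain ⟨F₀, hk₀, h₂, -, hn1, hg2, b, hb⟩ := MU3.u_SYL 2 (kk A B) F hkF hgF hab
  have hfF₀ : FiniteDimensional ℚ F₀ :=
    Module.Finite.of_injective (IntermediateField.inclusion h₂).toLinearMap
      (IntermediateField.inclusion h₂).injective
  have hTU₀ : TorU_E A B F₀ := fun x hx => hTU x (h₂ hx)
  obtain ⟨C, hC0⟩ := JF4.cop4 hc hB V hV2 hd h2d hT hN hI F₀ hk₀ hn1 hTU₀ Bn hlay hmono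
  have hE := MU3.u_PEX 2 b F₀ F Bn h₂ hg2 hb (hTot F₀ hk₀) hlay hmono ⟨C, 2, hC0⟩
  obtain ⟨C', j, hC'⟩ := MU3.u_PEX 2 a F M Bn hFM hgal hdeg (hTot F hkF) hlay hmono hE
  obtain ⟨C₁, hC₁⟩ := j_SUB 2 K M hKM
  refine ⟨C' + C₁ + j, fun n Q hQ => ?_⟩
  have e1 := hC₁ n Q hQ
  rw [huniq n Q hQ] at e1 ⊢
  have e2 := hC' n
  have e3 : (n + 1) ^ j ≤ (n + 1) ^ (C' + C₁ + j) :=
    Nat.pow_le_pow_right (Nat.succ_pos n) (Nat.le_add_left _ _)
  have e4 : 1 ≤ (n + 1) ^ (C' + C₁ + j) := Nat.one_le_pow _ _ (Nat.succ_pos n)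
  calc padicValNat 2 (classNo (K ⊔ Bn n)) ≤ padicValNat 2 (classNo (M ⊔ Bn n)) + C₁ := e1
    _ ≤ C' * (n + 1) ^ j + C₁ := by omega
    _ ≤ C' * (n + 1) ^ (C' + C₁ + j) + C₁ * (n + 1) ^ (C' + C₁ + j) :=
        add_le_add (Nat.mul_le_mul_left _ e3) (Nat.le_mul_of_pos_right _ e4)
    _ = (C' + C₁) * (n + 1) ^ (C' + C₁ + j) := by rw [add_mul]
    _ ≤ (C' + C₁ + j) * (n + 1) ^ (C' + C₁ + j) :=
        Nat.mul_le_mul_right _ (Nat.le_add_right _ _)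

end

end Pool.Agent.ME2
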