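import Pool.Agent.ME2.Defs3
import Pool.Agent.N2.StE2

/-!
# ME2, block E for `D = -3`, `p = 2`: the improved criterion for squares (helper34)

Twin of `Pool/Agent/N2/StE2.lean` in the frame of `ME/DefsE.lean`, `ME/StXEE.lean` (`(A, B) = (-1, 1)`, `2` inert). The statements `Sd_LAG, PRD, COE, GRT, TPT, UNT, RAT, THT, DST, NE1, PRT` on lattices are used as they are (`Pool.Agent.N2E.td_X`).
All levels are even, `M₀ = RFE (2 f a)` has ramification index `3` at `V`.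
Module: theorem `ty_X (h : ...) : Sy_X` in `Pool/Agent/ME2/EU_X.lean`, namespace `Pool.Agent.ME2E`. Ports of `Pool/Agent/N2/E_X.lean`.
-/

set_option autoImplicit false

open Polynomial

namespace Pool.Agent.ME2E

open _root_.MU3 Pool.Agent.MU3A Pool.Agent.MU3B Pool.Agent.MUX Pool.Agent.MUXU
open Pool.Agent.RI Pool.Agent.NS
open Pool.Agent.ME hiding ActE
open Pool.Agent.MEE Pool.Agent.ME2
open Pool.Agent.MUXE (RingE)
open Pool.Agent.N2 (GoodT et yt WT IsTei2 OddT PTq)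
open Pool.Agent.N2E (dlg del cc IsoT)
open Pool.Agent.NSE (IntP)
open Pool.Agent.MUX2 (GRG)
open Pool.Agent.MUXV (InK tX)

noncomputable section

/-- the automorphism `s` of `ℂ / k` acts as the principal ideal `(c)` on level `m` -/
structure AutCE {A B : ℤ} (m : Ideal (OO A B)) (c : OO A B) (s : ℂ ≃+* ℂ) : Prop where
  fix : FixK A B s
  kapE : ∀ L, NLE A B L → s (kapE L) = kapE L
  xnE : ∀ L, NLE A B L → ∀ z, Tor m L z → z ∉ L.lattice →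
    emb c * z ∉ L.lattice ∧ s (xnE L z) = xnE L (emb c * z)
  triv : ∀ m' : Ideal (OO A B), m ≤ m' → m' ≤ idl 2 → c - 1 ∈ m' → ∀ y ∈ RFE m', s y = y
  zeta : ∀ M : ℕ, M ≠ 0 → m ≤ idl M → ∀ z : ℂ, z ^ M = 1 → s z = z ^ nI (sp c)

/-- everything on `O`, `k`, `V` and the reduction which is used -/
structure CtxU (A B : ℤ) (V : ValuationSubring ℂ) : Prop where
  ring : RingE A B
  cq : CQ A B
  two : (8 : ℤ) ∣ B ^ 2 + 4 * A - 5
  case : CaseE A B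
  hB : B = 1
  v2 : V.valuation (2 : ℂ) < 1
  int : ∀ x : OO A B, V.valuation (emb x) ≤ 1
  unit : ∀ x : OO A B, x ∉ idl (A := A) (B := B) 2 → V.valuation (emb x) = 1
  nat : ∀ n : ℕ, ¬ 2 ∣ n → V.valuation (n : ℂ) = 1
  max : (idl (A := A) (B := B) 2).IsMaximal
  nrm : ∀ x : OO A B, x ∉ idl (A := A) (B := B) 2 → ¬ (2 : ℤ) ∣ nm x
  kval : ∀ y ∈ kk A B, y ≠ 0 → ∃ k : ℤ, V.valuation y = V.valuation (2 : ℂ) ^ k
  good : ∀ L, NLE A B L → ∃ u e a1 a3 : ℂ, GoodT V L u e a1 a3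
  iner : ∀ f : ℕ, f ≠ 0 → ¬ 2 ∣ f → 3 ∣ f → ∀ σ : ℂ ≃+* ℂ, FixK A B σ →
    (∀ y ∈ RFE (idl (A := A) (B := B) (2 * f)), y ∈ V → σ y - y ∈ V.nonunits) →
    (∀ y ∈ RFE (idl (A := A) (B := B) 3), σ y = y) →
    ∀ y ∈ RFE (idl (A := A) (B := B) (2 * f)), σ y = y

/-- the hypotheses on the levels: `m = 2^(n+2) f` -/
structure SetEU (A B : ℤ) (V : ValuationSubring ℂ) (n f a m : ℕ) : Prop where
  ctx : CtxU A B V
  tor : TorXE A B
  n2 : 2 ≤ n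
  f3 : 3 ≤ f
  fd : 3 ∣ f
  fo : ¬ 2 ∣ f
  a3 : 3 ≤ a
  ao : ¬ 2 ∣ a
  af : a.Coprime f
  hm : m = 2 ^ (n + 2) * f

/-! ## The fields -/

/-- (CTX) from the standing hypotheses to `CtxU`. Model `E_CTX.lean`.

PROOF. `B² + 4A ≡ 5` modulo 8: `B = 1`, `A` odd, `nm x = re² + re im - A im²` is even only if `re` and `im` are even: `nrm`, and `O/(2)` is a field (`max`: `nm x = x star x`). `v 2 < 1`: `OverI` for `x = 2`. `int`: `emb x` is integral. `unit`: `OverI`. `nat`: `1 = 2 a + n b`. `kval`: `x = 2^j y`, `y ∉ (2)`; every element of `k` is `emb x/n`, `n` a positive integer. `good`, `iner`: `T3_RFIN`. -/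
def Sy_CTX : Prop :=
  ∀ (A B : ℤ) (V : ValuationSubring ℂ), CaseE A B → B = 1 →
    OverI V (idl (A := A) (B := B) 2) → TorXE A B → T3_RFIN → CtxU A B V

/-- (RAM) a finite Galois extension `F / k` with trivial inertia group at `V` is unramified. Model `E_RAM.lean` (with `2` in place of `3`). -/
def Sy_RAM : Prop :=
  ∀ (A B : ℤ) (V : ValuationSubring ℂ), CtxU A B V →
    ∀ (F : IntermediateField (kk A B) ℂ) [FiniteDimensional (kk A B) F] [IsGalois (kk A B) F],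
      (∀ σ : F ≃ₐ[kk A B] F, (∀ x : F, V.valuation (x : ℂ) ≤ 1 →
        V.valuation ((σ x : ℂ) - x) < 1) → σ = 1) →
      ∀ y ∈ F, y ≠ 0 → ∃ k : ℤ, V.valuation y = V.valuation (2 : ℂ) ^ k

/-- (UNR) the ramification index of `RFE (2 f)` at `V` divides `3`, if `f` is odd.

Uses Sy_RAM. PROOF. `RFE (2 f) ≤ RFE (6 f)` (`tm_FAC`), so suppose `3 ∣ f`; `F = RFE (idl (2 f))`, `RFE (3) ≤ F`. `L` a normalised lattice (if there is none then `F = k`: `CtxU.kval`), `g₂ = 0`, `g₃ = -4`. The `x`-coordinates of the points of order three are `0, t, ω t, ω² t`, `t³ = -4`, `ω ∈ k`. `I` = the automorphisms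
in the inertia group of `F`; `CtxU.iner`: `σ ∈ I` is determined by `σ t ∈ {t, ω t, ω² t}`. If all `σ ∈ I` fix `t` then `I = 1` and (RAM) applies. Otherwise there is `σ ∈ I` with `σ t = ω t`, `I = {1, σ, σ²}` on `F`; `y ∈ F`: `N = y σ y σ² y` is fixed by `I`, so `v N ∈ v(2)^ℤ` (`unfP` of `Pool/Agent/N2/T3_UNF.lean` for `N 2^k`), and `v(σ y) = v y`. -/
def Sy_UNR : Prop :=
  ∀ (A B : ℤ) (V : ValuationSubring ℂ), CtxU A B V → TorXE A B →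
    ∀ f : ℕ, f ≠ 0 → ¬ 2 ∣ f → ∀ y ∈ RFE (idl (A := A) (B := B) (2 * f)), y ≠ 0 →
      ∃ k : ℤ, V.valuation y ^ 3 = V.valuation (2 : ℂ) ^ k

/-- (DEG) the degree of `RFE (2^(j+1) f)` over `RFE (2 f)`.

PROOF. As `N2/E_DEG.lean`: `σ` trivial on `RFE (2 f)` acts as `α ≡ 1` modulo `2 f` (`GalEE.ker`): `4^j` classes modulo `2^(j+1)`. -/
def Sy_DEG : Prop :=
  ∀ (A B : ℤ) (V : ValuationSubring ℂ), CtxU A B V → GalEE A B → ∀ (j f : ℕ), f ≠ 0 → ¬ 2 ∣ f →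
    Module.finrank (kk A B) (RFE (idl (A := A) (B := B) (2 ^ (j + 1) * f))) ≤
      4 ^ j * Module.finrank (kk A B) (RFE (idl (A := A) (B := B) (2 * f)))

/-- (AUT) automorphisms of `ℂ` which act as a principal ideal.

PROOF. `s` from `TorXE.surj` for the ideal `sp c`: for every normalised `L` there are `L', mu` with `ActE s m (sp c) L L' mu`, `L'` normalised. `GalX.core` (`Pool/Agent/MUX/E_GAL.lean`): `kapE L' = kapE L`, `mu = ± emb c`, `L'` and `L` have the same lattice and `℘`. `kapE`, `xnE`: as `GalX.mk` there. `triv`: `ActE s m' (sp c) L L' mu` (`m ≤ m'`: `Tor m'` implies `Tor m`) for one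
normalised `L` (if there is none then `RFE m'` is `k`; `GalX.fix`) and `TorXE.triv`. `zeta`: `TorXE.zeta` (`L` normalised exists by hypothesis). -/
def Sy_AUT : Prop :=
  ∀ (A B : ℤ), CaseE A B → RingE A B → TorXE A B → (∃ L, NLE A B L) →
    ∀ (m : Ideal (OO A B)), m ≠ ⊥ → m ≤ idl (A := A) (B := B) 2 → ∀ c : OO A B, c ≠ 0 →
      IsCoprime (sp c) m → c - 1 ∈ idl (A := A) (B := B) 2 → ∃ s : ℂ ≃+* ℂ, AutCE m c s

/-- (GTA) the automorphism acts on `Θ_a`.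

PROOF. `ThetaH L H z = ∏ (xnE L z - xnE L q)`; `s (xnE L z) = xnE L (emb c * z)`, `s (xnE L q) = xnE L (emb c * q) = xnE L q`, because `a q ∈ L` (so `Tor m L q`, `tm_TRA`), `q ∉ L` (`IsHalf.ne`), and `(c - 1) q ∈ L` (`c - 1 = y a`). -/
def Sy_GTA : Prop :=
  ∀ (A B : ℤ), RingE A B → ∀ L, NLE A B L → ∀ (a : ℕ) (H : Finset ℂ), IsHalf L (a : ℂ) H →
    ∀ (m : Ideal (OO A B)), m ≤ idl a → ∀ (c : OO A B) (s : ℂ ≃+* ℂ), AutCE m c s →
      c - 1 ∈ idl a → ∀ z, Tor m L z → z ∉ L.lattice →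
        s (ThetaH L H z) = ThetaH L H (emb c * z)

/-- (CON) the elements `c = 1 + N b`, `N = 2^n f a`.

PROOF. (1) `c ≡ 1` modulo `2`, `f`, `a`, so `c` is prime to `m a = 2^(n+2) f a` and not `0`; `4 f ∣ N`, `f a ∣ N`. (2) `del = 2 w - B`, `B` odd. `del` has trace `0` and norm `-D`, `D = B² + 4 A`: `nm (1 + t del) = 1 - t² D` for integers `t`; `t = N k` and `2^(n+2) ∣ N²` (`2 n ≥ n + 2`). `nI (sp x) = |nm x|` (`IDL` of `Pool/Agent/MUX/StXF.lean`, or `Algebra.norm`; look for it in `MUX/`), `nm x ≥ 0`.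
(3) `c_k c_l - c_(k+l) = N² k l D` and `m a ∣ N²`. (4) `N = m a/4`. (5) `c_2 x - x = 2 N del x`; `m ∣ 2 N del x` gives `2 ∣ a del x` in `O`, and `(2)` is a prime ideal which does not contain `a`, `del`, `x`. (6) `(om/m) N δ k = k emb del (a om/4)`. `4 R ∈ L` and `2 R ∉ L` for `R = emb del (a om/4)`: `L = om emb O`, `emb` injective. (7) `L = om emb O`: `Y = om emb b'/4`, take `b = a b'`, `a² ≡ 1` modulo 4. -/
def Sy_CON : Prop :=
  ∀ (A B : ℤ) (V : ValuationSubring ℂ) (n f a m : ℕ), SetEU A B V n f a m →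
    (∀ b : OO A B, IsCoprime (sp (cc (2 ^ n * f * a) b)) (idl (m * a)) ∧
      IsCoprime (cc (2 ^ n * f * a) b) ((m : ℕ) : OO A B) ∧
      cc (2 ^ n * f * a) b ≠ 0 ∧ cc (2 ^ n * f * a) b - 1 ∈ idl (2 * (f * a)) ∧
      cc (2 ^ n * f * a) b - 1 ∈ idl (4 * f) ∧ cc (2 ^ n * f * a) b - 1 ∈ idl a) ∧
    ((del : OO A B) ∉ idl (A := A) (B := B) 2 ∧
      ∀ k : ℕ, ∃ j : ℕ, nI (sp (cc (2 ^ n * f * a) ((k : OO A B) * del))) =
        1 + 2 ^ (n + 2) * j) ∧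
    (∀ k l : ℕ, cc (2 ^ n * f * a) ((k : OO A B) * del) * cc (2 ^ n * f * a) ((l : OO A B) * del) -
      cc (2 ^ n * f * a) (((k + l : ℕ) : OO A B) * del) ∈ idl (m * a)) ∧
    (cc (2 ^ n * f * a) (((4 : ℕ) : OO A B) * del) - 1 ∈ idl (m * a)) ∧
    (∀ x : OO A B, IsCoprime x ((m : ℕ) : OO A B) →
      cc (2 ^ n * f * a) (((2 : ℕ) : OO A B) * del) * x - x ∉ idl m) ∧
    ∀ (L : PeriodPair) (om : ℂ), IsNE (⊤ : Ideal (OO A B)) L om →
      (∀ b : OO A B, emb (cc (2 ^ n * f * a) b) * (om / m) = om / m + emb b * (a * om / 4)) ∧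
      (∀ k : ℕ, emb ((k : OO A B) * del) * (a * om / 4) = k * (emb (del : OO A B) * (a * om / 4))) ∧
      4 * (emb (del : OO A B) * (a * om / 4)) ∈ L.lattice ∧
      2 * (emb (del : OO A B) * (a * om / 4)) ∉ L.lattice ∧
      ∀ Y, 4 * Y ∈ L.lattice → ∃ b : OO A B, Y - emb b * (a * om / 4) ∈ L.lattice

/-- (SIG) integral elements of the ray class field are polynomials in `x(P)`, `P = om/m`. Model `E_SIG.lean`.

Uses Sd_COE, Sd_GRT, Sd_TPT, Sy_UNR, Sy_DEG, Se_BAS (`Pool.Agent.NSE`). PROOF. `M = RFE (m a)`, `M₀ = RFE (2 f a)`, `m a = 2^(n+2) (f a)`. `GoodT.tor`: `e = ℘ w1`, `u² = ℘ w2 - ℘ w1`, `3 w_i ∈ L`: `e, u² ∈ RFE (3) ≤ M₀` (`3 ∣ f`; `xnE L w_i = ℘ w_i - 1/12`, `tm_FAC`). `k` with `2^(n+2) k ≡ 1` modulo `f`, `P₀ = 2^(n+2) k P`, `P₁ = P - P₀`: `f P₀ ∈ L`,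
`2 P₀ ∉ L` (`f ≥ 3` odd, `k` prime to `f`), `2^(n+2) P₁ ∈ L`, `2^(n+1) P₁ ∉ L` (`1 - 2^(n+2) k` is odd). `P₀, 2 P₀ ∉ InK` (TPT (1)), so `v(2 y + a1 x + a3) = 1` at `P₀` (`gv_DX`). `π = x(P) - x(P₀)`: `gnear`: `v(π) = v(t(P₁))`, so `v(π)^(3·4^(n+1)) = v 2` (TPT (2), `j = n + 1`). (BAS) with `N = 3·4^(n+1)` (DEG with `j = n + 1`, `f := f a`; UNR; `tm_GAL`): `w = Σ a_i π^i`,
`a_i ∈ M₀`, `v a_i ≤ 1`. `h = Σ C(a_i) (X - C(x P₀))^i`. `s` is trivial on `M₀` (`AutCE.triv`, `c - 1 ∈ (2 f a)`), so on `a_i`, `e`, `u²`, `x(P₀)`, and `s(xnE L P) = xnE L (emb c * P)`: `s(x P) = x(emb c * P)` (`x = (xnE + 1/12 - e)/u²`). -/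
def Sy_SIG : Prop :=
  ∀ (A B : ℤ) (V : ValuationSubring ℂ) (n f a m : ℕ), SetEU A B V n f a m →
    ∀ (L : PeriodPair) (om u e a1 a3 : ℂ), IsNE (⊤ : Ideal (OO A B)) L om →
    GoodT V L u e a1 a3 →
    ∀ w ∈ RFE (idl (A := A) (B := B) (m * a)), V.valuation w ≤ 1 →
    ∃ h : ℂ[X], IntP V h ∧ w = h.eval (xu L u e (om / m)) ∧
      ∀ (c : OO A B) (s : ℂ ≃+* ℂ), AutCE (idl (m * a)) c s → c - 1 ∈ idl (2 * (f * a)) →
        s w = h.eval (xu L u e (emb c * (om / m)))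

/-! ## The points -/

/-- (MUL) the isogenies `μ_i x : L_(i0) → L_i` have odd degree. Model `E_MUL.lean`. -/
def Sy_MUL : Prop :=
  ∀ (A B : ℤ) (V : ValuationSubring ℂ), CtxU A B V → ∀ (n : ℕ) (ι : Type) (R : RepsE A B n ι),
    n ≠ 0 → 2 ∣ n → ∀ (i : ι) (x : OO A B), x ∉ idl (A := A) (B := B) 2 →
      muXE R i * emb x ≠ 0 ∧ Isg (R.L R.i0) (R.L i) (muXE R i * emb x) ∧
      ∃ N : ℕ, ¬ 2 ∣ N ∧ ∀ z, muXE R i * emb x * z ∈ (R.L i).lattice →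
        (N : ℂ) * z ∈ (R.L R.i0).lattice

/-- (GPO) the values of `Θ_a` at the points `(i, x)` as rational functions over `V` of `x(P)`.

Uses Sd_COE, Sd_GRT, Sd_THT, Sd_NE1, Sy_MUL, Sy_UNR. PROOF. `μ = muXE R i * emb x`, a model `u', e', a1', a3'` of `R.L i` (`CtxU.good`), `IsoT` by (MUL). `P, Q` from (THT); `κ = (u'²)^|H|`. `|H|` is even (`b_HRE`: `2 |H| + 1 = a²`, `a` odd, so `8 ∣ a² - 1`), `u'² = xnE w2 - xnE w1 ∈ RFE (3)` (`GoodT.tor`), so `v(u'²)³` is a power of `v 2` (UNR), and `3 ∣ |H|` (`3 ∤ a`). `IsCoprime (c x) m`: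
`ptE R m i (c x) = μ (emb c om_0/m)` has exact order `m` (`tm_PT`; `m.primeFactors ⊆ (2 f).primeFactors`), so (NE1) applies (`j = n + 2`), and (THT) with `z = emb c * (om_0/m)`. `v(et) ≤ 1`: `et = 2 y + a1 x + a3`, `z ∉ InK` (`gInt_Y`). -/
def Sy_GPO : Prop :=
  ∀ (A B : ℤ) (V : ValuationSubring ℂ) (n f a m : ℕ), SetEU A B V n f a m →
    ∀ (ι : Type) (R : RepsE A B (2 * f) ι) (u e a1 a3 : ℂ), GoodT V (R.L R.i0) u e a1 a3 →
    ∀ (i : ι) (H : Finset ℂ), IsHalf (R.L i) (a : ℂ) H →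
    ∀ x : OO A B, x ∉ idl (A := A) (B := B) 2 →
    ∃ (κ : ℂ) (k : ℤ) (P Q : ℂ[X]), IntP V P ∧ IntP V Q ∧
      V.valuation κ = (V.valuation (2 : ℂ) ^ k) ^ 2 ∧
      ∀ c : OO A B, IsCoprime (c * x) ((m : ℕ) : OO A B) →
        V.valuation (xu (R.L R.i0) u e (emb c * (R.om R.i0 / m))) ≤ 1 ∧
        V.valuation (et (R.L R.i0) u (emb c * (R.om R.i0 / m))) ≤ 1 ∧
        V.valuation (P.eval (xu (R.L R.i0) u e (emb c * (R.om R.i0 / m)))) = 1 ∧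
        V.valuation (Q.eval (xu (R.L R.i0) u e (emb c * (R.om R.i0 / m)))) = 1 ∧
        ThetaH (R.L i) H (ptE R m i (c * x)) *
            Q.eval (xu (R.L R.i0) u e (emb c * (R.om R.i0 / m))) =
          κ * P.eval (xu (R.L R.i0) u e (emb c * (R.om R.i0 / m))) ∧
        muXE R i * emb x * dlX (R.L i) a (ptE R m i (c * x)) / u =
          dlg P Q (xu (R.L R.i0) u e (emb c * (R.om R.i0 / m))) *
            et (R.L R.i0) u (emb c * (R.om R.i0 / m))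

/-! ## The two estimates -/

/-- (SQR) squares, for products over arbitrary finite families of points `(i, x)`.

Uses Sd_LAG, Sd_PRD, Sd_COE, Sd_DST, Sy_AUT, Sy_GTA, Sy_CON, Sy_SIG, Sd_NE1, Sy_GPO. PROOF. `N = 2^n f a`, `c_b = cc N b`, `P = om_0/m`, `P, 2 P ∉ InK` (NE1; exact order `m`: `tm_PT` for `i0`, `x = 1`). The elements `q = (i, x)` of all `X j`: `κ_q, k_q, P_q, Q_q` from (GPO) (`x` is prime to `m`, so not in `(2)`). `v(y)² = ∏ v(κ_q)^(g_j) = v(2)^(2 K)`, `K = Σ g_j k_q`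
(GPO with `c = 1`): `v(y) = v(2)^K` (`y ≠ 0`), `w = y/2^K ∈ RFE m ≤ RFE (m a)`, `v w = 1`. (SIG): `h`. For `b ∈ O` let `s_b` be an automorphism with `AutCE (idl (m a)) c_b s_b` (AUT, CON), `ξ_b = xu (emb c_b * P) = xu (P + emb b * (a om_0/4))`. `s_b(Θ(z)) = Θ(emb c_b z) = Θ(ptE R m i (c_b x))` (GTA) and (GPO) with `c = c_b`:
`s_b(y)² = ∏ (κ_q P_q(ξ_b)/Q_q(ξ_b))^(g_j) = κ₀ P(ξ_b)/Q(ξ_b)`, `κ₀ = ∏ κ_q^(g_j)`, `v κ₀ = v(2)^(2K)`, with `P, Q` from (PRD) for the finite family of the `(j, q)` (`J := Σ j, X j`, or the finset `Finset.univ.sigma X`), `T = {ξ_b}`. `s_b(y) = 2^K h(ξ_b)` (SIG; `2^K` is rational). So `P(ξ_b) = κ h(ξ_b)² Q(ξ_b)`, `κ = 4^K/κ₀`, `v κ = 1`, for all `b ∈ O`, in particular at `ξ_0 = xu P`.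
(DST (1)): `S`; its elements are `xu (P + Y)`, `4 Y ∈ L`, `Y ≡ emb b (a om_0/4)` (CON), so they are some `ξ_b`. (DST (2)) with `R = emb del (a om_0/4)`: `S'`; its elements are `xu (P + k R) = ξ_(k del)`, and `h(ξ_(k del)) = s w = w = h(ξ_0)` since `s y = y` by hypothesis. (LAG (4)): `v(P' Q - P Q')² ≤ max (v(2)² v(2)) (v(2)⁴) ≤ v(2)³` at `ξ_0`, so `v(dlg P Q ξ_0)² ≤ v(2)³`.
The sum is `Σ g_j emb x muXE dlX/u = Σ g_j dlg P_q Q_q (ξ_0) et(P) = dlg P Q (ξ_0) et(P)` (GPO with `c = 1`: `emb 1 = 1`, `1 * x = x`; PRD), `v(et P) ≤ 1`. -/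
def Sy_SQR : Prop :=
  ∀ (A B : ℤ) (V : ValuationSubring ℂ) (n f a m : ℕ), SetEU A B V n f a m →
    ∀ (ι : Type) (R : RepsE A B (2 * f) ι) (u e a1 a3 : ℂ), GoodT V (R.L R.i0) u e a1 a3 →
    ∀ (H : ι → Finset ℂ), (∀ i, IsHalf (R.L i) (a : ℂ) (H i)) →
    ∀ (J : Type) [Fintype J] (X : J → Finset (ι × OO A B)) (g : J → ℤ),
      (∀ j, ∀ q ∈ X j, IsCoprime q.2 ((m : ℕ) : OO A B)) →
      (∃ y ∈ RFE (idl (A := A) (B := B) m),
        (∀ (k : ℕ) (s : ℂ ≃+* ℂ),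
          AutCE (idl (m * a)) (cc (2 ^ n * f * a) ((k : OO A B) * del)) s → s y = y) ∧
        y ^ 2 = ∏ j, (∏ q ∈ X j, ThetaH (R.L q.1) (H q.1) (ptE R m q.1 q.2)) ^ g j) →
      V.valuation ((∑ j, (g j : ℂ) * ∑ q ∈ X j, emb q.2 * muXE R q.1 *
        dlX (R.L q.1) a (ptE R m q.1 q.2)) / u) ^ 2 ≤ V.valuation (2 : ℂ) ^ 3

/-- (ORB) the sum over one orbit of `1 + N del`, `N = 2^n f a`.

Uses Sd_LAG, Sd_PRD, Sd_COE, Sd_DST, Sy_CON, Sd_NE1, Sy_GPO. PROOF. `c_k = cc N (k del)`, `P = om_0/m`, `ξ_j = xu (emb c_j P) = xu (P + j R)`, `R = emb del (a om_0/4)` (CON). (1) (GPO) with `c = 1`: `v(muXE emb x dlX/u) ≤ 1` (`P, Q` over `V` with unit values at `ξ_0 ∈ V`), `v(emb x) = 1` (`CtxU.unit`; `x` is prime to `m`, so not in `(2)`).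
(2) `Θ` and `dlX` at `ptE R m i x` depend only on `x` modulo `m` (periodic: `b_TIN`, `b_TDL`; `ptE` by `tm_PT`). Let `x_k = c_k x` (`k = 0..3`), prime to `m`; `κ_k, P_k, Q_k` from (GPO) for `x_k`. For `c = c_j`: `c_j x_k ≡ c_(j+k) x` modulo `m` (CON (3)), `c_4 ≡ 1`, so `∏_k Θ(ptE (c_j x_k)) = ∏_(k<4) Θ(ptE (c_(j+k) x))` does not depend on `j < 4`; so `∏_k κ_k P_k(ξ_j)/Q_k(ξ_j)` does not depend on `j`,
and with `P, Q` from (PRD) (exponents `1`): `P(ξ_j) Q(ξ_0) = P(ξ_0) Q(ξ_j)`. (DST (2)), (LAG (3)): `v(dlg P Q ξ_0)² ≤ v 2`. So `Σ_k muXE emb(x_k) dlX(ptE x_k)/u = dlg P Q (ξ_0) et(P)` has `v(..)² ≤ v 2`. `emb x_k - emb x = emb x N k emb del`, `v ≤ v(4)` (`n ≥ 2`), `v(muXE dlX(ptE x_k)/u) ≤ 1` by (1), so `v(emb x Σ_k muXE dlX(ptE x_k)/u)² ≤ max (v 2) (v(4)²) = v 2`. -/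
def Sy_ORB : Prop :=
  ∀ (A B : ℤ) (V : ValuationSubring ℂ) (n f a m : ℕ), SetEU A B V n f a m →
    ∀ (ι : Type) (R : RepsE A B (2 * f) ι) (u e a1 a3 : ℂ), GoodT V (R.L R.i0) u e a1 a3 →
    ∀ (i : ι) (H : Finset ℂ), IsHalf (R.L i) (a : ℂ) H →
    ∀ x : OO A B, IsCoprime x ((m : ℕ) : OO A B) →
      V.valuation (muXE R i * dlX (R.L i) a (ptE R m i x) / u) ≤ 1 ∧
      ∀ y : ℕ → OO A B,
        (∀ k < 4, y k - cc (2 ^ n * f * a) ((k : OO A B) * del) * x ∈ idl m) →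
        V.valuation ((∑ k ∈ Finset.range 4, muXE R i * dlX (R.L i) a (ptE R m i (y k))) / u) ^ 2 ≤
          V.valuation (2 : ℂ)

/-! ## The sets `XXE` -/

/-- (GLC) the automorphisms `1 + k N del` are trivial on `D`.

Uses Sy_CON. PROOF. `InCycE` for `s`: `AutCE.fix`; `AutCE.triv` with `m' = idl (2 f)` (`c - 1 ∈ (4 f) ≤ (2 f)`, `2 f ∣ m a`); `z^(2^(n+2)) = 1`: `s z = z^(1 + 2^(n+2) j) = z` (`AutCE.zeta` with `M = 2^(n+2)`, CON (2)). -/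
def Sy_GLC : Prop :=
  ∀ (A B : ℤ) (V : ValuationSubring ℂ) (n f a m : ℕ), SetEU A B V n f a m →
    ∀ D : IntermediateField ℚ ℂ, InCycE A B f (2 ^ (n + 2)) D → ∀ (k : ℕ) (s : ℂ ≃+* ℂ),
      AutCE (idl (m * a)) (cc (2 ^ n * f * a) ((k : OO A B) * del)) s → ∀ y ∈ D, s y = y

/-- (XXS) stability of `XXE` under `-1` and under `c`.

PROOF. Let `q = (i, X) ∈ XXE`, `x = out X`, `σ` as in `XXE`. (1) `out (-X) ≡ -x` modulo `m`: prime to `m`; `xnE` is even and periodic, `ptE R m i` of two elements which are congruent modulo `m` differ by an element of `L_i` (`tm_PT` or directly: `om_i N(b_i) emb y`, `N(b_i) ∈ b_i`): `HitsE` for the same `σ`. (2) `σ' = σ.trans s` (first `σ`): `FixK`, `ExtC` (`s` is trivial on `D`),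
`kapE (R.L i) = s (σ ..)` (`AutCE.kapE`), `s (xnE L_i (ptE R m i x)) = xnE L_i (emb c * ptE R m i x) = xnE L_i (ptE R m i x')`, `x' = out (c X) ≡ c x`; `emb c * ptE ∉ L_i` (`AutCE.xnE`; `Tor (idl (m a))` of the point: `m ptE ∈ L_i`). `c x` is prime to `m`. -/
def Sy_XXS : Prop :=
  ∀ (A B : ℤ) (V : ValuationSubring ℂ) (n f a m : ℕ), SetEU A B V n f a m →
    ∀ (ι : Type) (R : RepsE A B (2 * f) ι) (D : IntermediateField ℚ ℂ) (h : kk A B ≤ D),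
    letI := algC h
    ∀ (τ : D ≃ₐ[kk A B] D), ∀ q ∈ XXE R m h τ, (q.1, -q.2) ∈ XXE R m h τ ∧
      ∀ (c : OO A B) (s : ℂ ≃+* ℂ), IsCoprime c ((m : ℕ) : OO A B) → AutCE (idl (m * a)) c s →
        (∀ y ∈ D, s y = y) → (q.1, Ideal.Quotient.mk (idl (A := A) (B := B) m) c * q.2) ∈ XXE R m h τ

/-- (HEQ) sums and products of even functions over half systems.

Uses Sy_XXS. PROOF. `S` is in bijection with `S'`: `q ↦ q` if `q ∈ S'`, `q ↦ (q.1, -q.2)` otherwise (`cov`, `dis`; `Finset.prod_bij'`). `XXE` is the disjoint union of `S` and its image under `-1` (`sub`, `cov`, `dis`, XXS): `finsum_mem_coe_finset`. -/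
def Sy_HEQ : Prop :=
  ∀ (A B : ℤ) (V : ValuationSubring ℂ) (n f a m : ℕ), SetEU A B V n f a m →
    ∀ (ι : Type) (R : RepsE A B (2 * f) ι) (D : IntermediateField ℚ ℂ) (h : kk A B ≤ D),
    letI := algC h
    ∀ (τ : D ≃ₐ[kk A B] D) (S : Finset (ι × (OO A B ⧸ idl (A := A) (B := B) m))),
      HalfSE R m h τ S → ∀ F : ι × (OO A B ⧸ idl (A := A) (B := B) m) → ℂ,
      (∀ q ∈ XXE R m h τ, F (q.1, -q.2) = F q) →
      (∀ S', HalfSE R m h τ S' → ∏ q ∈ S, F q = ∏ q ∈ S', F q) ∧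
      ∑ᶠ q ∈ XXE R m h τ, F q = 2 * ∑ q ∈ S, F q

/-- (HAL) half systems which are stable under `1 + N del`.

Uses Sy_CON, Sy_XXS. PROOF. `XXE` is finite (`ι` and `O/m` are finite). For `X ∈ O/m` let `r(X) ∈ O/(f)` be the class of `out X` (`f ∣ m`): `r(-X) = -r(X)`, `r(c X) = r(X)` (`c - 1 ∈ (4 f) ≤ (f)`), `r(X) ≠ -r(X)` if `out X` is prime to `m` (otherwise `f ∣ 2 x`, `f` odd, so `f ∣ x` with `x` prime to `f ≥ 3`, false). Take an injection `j` of the finite (or countable) set `O/(f)` into `ℕ` and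
`S = {q ∈ XXE : j(r(q.2)) < j(-r(q.2))}`. -/
def Sy_HAL : Prop :=
  ∀ (A B : ℤ) (V : ValuationSubring ℂ) (n f a m : ℕ), SetEU A B V n f a m →
    ∀ (ι : Type) [Finite ι] (R : RepsE A B (2 * f) ι) (D : IntermediateField ℚ ℂ)
      (h : kk A B ≤ D),
    letI := algC h
    ∀ (τ : D ≃ₐ[kk A B] D),
      (∀ q ∈ XXE R m h τ, (q.1, Ideal.Quotient.mk (idl (A := A) (B := B) m) (cc (2 ^ n * f * a) del) * q.2) ∈
        XXE R m h τ) →
      ∃ S : Finset (ι × (OO A B ⧸ idl (A := A) (B := B) m)), HalfSE R m h τ S ∧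
        ∀ q ∈ S, (q.1, Ideal.Quotient.mk (idl (A := A) (B := B) m) (cc (2 ^ n * f * a) del) * q.2) ∈ S

/-- (MAIN) both estimates for families of sets of pairs which are stable under `c = 1 + N del`.

Uses Sy_CON, Sy_SQR, Sy_ORB, Sd_PRT. PROOF. `φ q = (q.1, c q.2)`; `φ^[k] q = (q.1, c^k q.2)` and `c^k ≡ c_k := cc N (k del)` modulo `m` (CON (3), induction), `c_4 ≡ 1`, `φ^[2] q ≠ q` (CON (5)): (PRT) gives `T_j`. `F q = om(out q.2) muXE dlX(..)/u`. `y_k = out ((φ^[k] t).2) ≡ c_k out(t.2)` modulo `m`: `om(y_k) = om(out t.2)` (`OddT.per`; `2 f ∣ m`, `c_k - 1 ∈ (4 f)`),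
`v(om(..)) ≤ 1` (`OddT.cong`, `CtxU.int`). (i) `Σ_k F(φ^[k] t) = om(out t.2) Σ_k muXE dlX(ptE y_k)/u`, by (ORB (2)) `v(..)² ≤ v 2`; sum over `t`. (ii) (SQR) for `X j = {(q.1, out q.2) : q ∈ S j}`: `v(Σ g_j Σ_q emb(out q.2) E q)² ≤ v(2)³`, `E q = muXE dlX/u`, `v(E q) ≤ 1` (ORB (1)). The difference to the claim is `Σ_j g_j Σ_(t ∈ T_j) D_t`,
`D_t = Σ_k (om(y_k) - emb(y_k)) E(φ^[k] t) = (om(x) - emb(x)) Σ_k E(φ^[k] t) - Σ_k (emb(y_k) - emb(x)) E(φ^[k] t)`, `x = out t.2`: `v(first)² ≤ v(2)² v(2)` (`OddT.cong`, ORB (2)), `v(second) ≤ v(4)` (`y_k - x ∈ (4)`). -/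
def Sy_MAIN : Prop :=
  ∀ (A B : ℤ) (V : ValuationSubring ℂ) (n f a m : ℕ), SetEU A B V n f a m →
    ∀ (ι : Type) (R : RepsE A B (2 * f) ι) (u e a1 a3 : ℂ), GoodT V (R.L R.i0) u e a1 a3 →
    ∀ (H : ι → Finset ℂ), (∀ i, IsHalf (R.L i) (a : ℂ) (H i)) →
    ∀ om : OO A B → ℂ, OddT f V om →
    ∀ (J : Type) [Fintype J] (S : J → Finset (ι × (OO A B ⧸ idl (A := A) (B := B) m))),
      (∀ j, ∀ q ∈ S j, IsCoprime (Quotient.out q.2 : OO A B) ((m : ℕ) : OO A B)) →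
      (∀ j, ∀ q ∈ S j,
        (q.1, Ideal.Quotient.mk (idl (A := A) (B := B) m) (cc (2 ^ n * f * a) del) * q.2) ∈ S j) →
      (∀ j, V.valuation ((∑ q ∈ S j, om (Quotient.out q.2) * muXE R q.1 *
        dlX (R.L q.1) a (ptE R m q.1 (Quotient.out q.2))) / u) ^ 2 ≤ V.valuation (2 : ℂ)) ∧
      ∀ g : J → ℤ,
        (∃ y ∈ RFE (idl (A := A) (B := B) m),
          (∀ (k : ℕ) (s : ℂ ≃+* ℂ),
            AutCE (idl (m * a)) (cc (2 ^ n * f * a) ((k : OO A B) * del)) s → s y = y) ∧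
          y ^ 2 = ∏ j, (∏ q ∈ S j,
            ThetaH (R.L q.1) (H q.1) (ptE R m q.1 (Quotient.out q.2))) ^ g j) →
        V.valuation ((∑ j, (g j : ℂ) * ∑ q ∈ S j, om (Quotient.out q.2) * muXE R q.1 *
          dlX (R.L q.1) a (ptE R m q.1 (Quotient.out q.2))) / u) ^ 2 ≤ V.valuation (2 : ℂ) ^ 3

/-- (FIN) the final form.

Uses Sy_CTX, Sy_AUT, Sy_CON, Sy_GLC, Sy_XXS, Sy_HEQ, Sy_HAL, Sy_MAIN. PROOF. `m = lvX 2 f n = f * 4 * 2^n = 2^(n+2) f`, `a = aX 2 f = 1 + 8 f`, `f ≥ 3` (`3 absD ∣ f`), `SetEU` (CTX). `c = cc N del`, `s` with `AutCE (idl (m a)) c s` (AUT, CON; a normalised lattice exists: `R.nl`), trivial on `D` (GLC with `k = 1`): (XXS), (HAL): stable half systems `S τ`. `C τ = ∏_(q ∈ S τ) Θ` (HEQ; `Θ` is even and periodic, `b_TIN`).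
`TT2E = 1/2 · 2 Σ_(q ∈ S τ) om muXE dlX` (HEQ: the function is even, since `om` and `dlX` are odd: `om (out (-X)) = om (-out X)` by `OddT.per`; `dlX` is odd and periodic, `b_TDL`, or `ee`). First claim: (MAIN (i)), `J = Unit`. Second claim: `J = D ≃ₐ D` (finite: `D` is contained in `RFE m`; `τ ↦ C τ`), `S j := S (j τ')`, `y' = τ' y ∈ D`: `y'² = ∏ C(τ τ')^(g τ)`, because
`τ'(C τ) = τ'(τ(C 1)) = C(τ' τ) = C(τ τ')` (`Gal(D/k)` is commutative: extend to `ℂ` (`TorXE.ext`), restrict to `RFE m` (`TorXE.comm`); see `E_MAIN.lean`, `E_FIN.lean` and `Pool/Agent/MUX/E_MAIN0.lean`), `y' ∈ D` is fixed by all `s` (GLC), (MAIN (ii)). -/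
def Sy_FIN : Prop := T3_RFIN → T3_EFIN

end

end Pool.Agent.ME2E
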