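import Pool.Agent.N2.StER2
import Pool.Agent.ME2.StE3
import Pool.Agent.ME2.Defs4

/-!
# ME2, block E for `D = -4`, `p = 2` (ramified): squares and logarithmic derivatives (helper59)

Twin of `Pool/Agent/N2/StER2.lean` (block ER2, finished: `Pool/Agent/N2/VAll.lean`, theorems `Pool.Agent.N2V.v_X : Sv_X`, proofs `tv_X` in `Pool/Agent/N2/V_X.lean`) in the frame of `ME/DefsE.lean`, `ME/StXEE.lean`, `ME2/StE3.lean`: `(A, B) = (-1, 0)`, `O = ℤ[i]`, `P = (1 + i)`, `2 O = P²`, `w0 = i`, `d = dR A = 2`.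
The statements on lattices `Sv_COE, GRT, UNT, RAT, THT, NE1, PVI, TWO, DS2` are used as they are (`Pool.Agent.N2V.v_COE`, .. in `N2/VAll.lean`), also `Sd_LAG, Sd_PRD` (`Pool.Agent.N2E.td_X`) and helper34's `AutCE`, `Sy_AUT`, `Sy_GTA` (general `CaseE`; `ME2/StE3.lean`). All levels are even, `RFE (2 f)` (`f` odd) has
ramification index 2 over `k` at `V`: the values on it are in `(1/4) ℤ` (UNR). Automorphisms are given for `c ≡ 1` modulo `2` only; `c = 1 + N b`, `1 + m' b` satisfy this. The numbers are those of `StER2.lean` with `d = 2`; they are written with `dR A` so that the proofs can be copied.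

Module: theorem `t4_X (h : ...) : S4_X` in `Pool/Agent/ME2/F4_X.lean`, namespace `Pool.Agent.ME2F`. All are PORTS of `Pool/Agent/N2/V_X.lean`: `CtxU → CtxF`, `SetV → SetF`, `TorX → TorXE`, `GalE → GalEE`, `RF → RFE`, `NL → NLE`, `IsNL → IsNE`, `xn L z → xnE L z = ℘ z` (no `1/12`), `kap → kapE`, `Reps → RepsE`, `pt → ptE`, `muX → muXE`, `XX → XXE`, `HalfS → HalfSE`,
`TT2 → TT2E`, `AutC → AutCE`, `InCyc → InCycE`, `te_TRA, TRB, FAC, GTH, PT, GAL → tm_TRA, ..` (`Pool/Agent/ME/X_*.lean`, namespace `Pool.Agent.MEE`). Only CTX, UNR, DEG, SIG, GPO (value of `κ`), GLC have changes.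
-/

set_option autoImplicit false

open Polynomial

namespace Pool.Agent.ME2F

open _root_.MU3 Pool.Agent.MU3A Pool.Agent.MU3B Pool.Agent.MUX Pool.Agent.MUXU
open Pool.Agent.RI Pool.Agent.NS
open Pool.Agent.ME hiding ActE
open Pool.Agent.MEE Pool.Agent.ME2
open Pool.Agent.MUXE (RingE)
open Pool.Agent.N2 (GoodQ OddQ dR et yt WT PTq)
open Pool.Agent.N2E (dlg cc)
open Pool.Agent.N2V (IsoU NN w0 bb)
open Pool.Agent.ME2E (AutCE)
open Pool.Agent.NSE (IntP)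
open Pool.Agent.MUX2 (GRG)
open Pool.Agent.MUXV (InK tX)

noncomputable section

/-! ## Definitions -/

/-- everything on `O`, `k`, `P`, `V` and the reduction which is used -/
structure CtxF (A B : ℤ) (P : Ideal (OO A B)) (V : ValuationSubring ℂ) : Prop where
  ring : RingE A B
  cq : CQ A B
  case : CaseE A B
  B0 : B = 0
  mod : A % 4 = 2 ∨ A % 4 = 3
  v2 : V.valuation (2 : ℂ) < 1
  int : ∀ x : OO A B, V.valuation (emb x) ≤ 1
  unit : ∀ x : OO A B, x ∉ P → V.valuation (emb x) = 1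
  nat : ∀ n : ℕ, ¬ 2 ∣ n → V.valuation (n : ℂ) = 1
  max : P.IsMaximal
  one : ∀ x : OO A B, x ∉ P → x - 1 ∈ P
  nrm : ∀ x : OO A B, x ∉ P → ¬ (2 : ℤ) ∣ nm x
  pi : ∃ ϖ : OO A B, V.valuation (emb ϖ) ^ 2 = V.valuation (2 : ℂ)
  w0 : V.valuation (emb (⟨0, 1⟩ : OO A B)) ^ 2 = V.valuation (2 : ℂ) ^ (dR A - 2)
  /-- the powers of `P`, with the valuation -/
  pw : ∀ (k : ℕ) (x : OO A B), x ∈ P ^ k ↔
    V.valuation (emb x) ^ 2 ≤ V.valuation (2 : ℂ) ^ k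
  /-- divisibility by `2^k`, with the valuation -/
  dv : ∀ (k : ℕ) (x : OO A B), x ∈ idl (A := A) (B := B) (2 ^ k) ↔
    V.valuation (emb x) ≤ V.valuation (2 : ℂ) ^ k
  good : ∀ L, NLE A B L → ∃ u e a1 a3 : ℂ, GoodQ V L u e a1 a3
  iner : ∀ f : ℕ, f ≠ 0 → ¬ 2 ∣ f → 3 ∣ f → ∀ σ : ℂ ≃+* ℂ, FixK A B σ →
    (∀ y ∈ RFE (idl (A := A) (B := B) (2 * f)), y ∈ V → σ y - y ∈ V.nonunits) →
    ((∀ y ∈ RFE (idl (A := A) (B := B) 3), σ y = y) →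
      ∀ y ∈ RFE (idl (A := A) (B := B) (2 * f)), σ y = y) ∧
    ((∀ y ∈ RFE (idl (A := A) (B := B) 3), σ y = y) ∨
      ∀ (b : Ideal (OO A B)) (L : PeriodPair) (om : ℂ), IsNE b L om →
        ∀ w ∉ L.lattice, 3 * w ∈ L.lattice → σ (L.weierstrassP w) = -L.weierstrassP w)
  exq : ∀ (L : PeriodPair), NLE A B L → ∃ (N : PeriodPair) (nu : ℂ), NLE A B N ∧ IsQ P L N nu

/-- the hypotheses on the levels: `m = 2^(n+2) f` (points, sets `XXE`), `m' = 2^(n+1) f` (fields) -/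
structure SetF (A B : ℤ) (P : Ideal (OO A B)) (V : ValuationSubring ℂ) (n f a m m' : ℕ) :
    Prop where
  ctx : CtxF A B P V
  tor : TorXE A B
  n5 : 5 ≤ n
  f3 : 3 ≤ f
  fd : 3 ∣ f
  fo : ¬ 2 ∣ f
  a3 : 3 ≤ a
  ao : ¬ 2 ∣ a
  af : a.Coprime f
  hm : m = 2 ^ (n + 2) * f
  hm' : m' = 2 ^ (n + 1) * f

/-- the product over one fibre -/
def GFibE {A B : ℤ} {n : ℕ} {ι : Type} (R : RepsE A B n ι) (H : ι → Finset ℂ) (m m' : ℕ) (i : ι)
    (x : OO A B) : ℂ :=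
  ∏ l ∈ Finset.range 4, ThetaH (R.L i) (H i) (ptE R m i (x + (m' : OO A B) * bb l))

/-- the sum over one fibre -/
def FFibE {A B : ℤ} {n : ℕ} {ι : Type} (R : RepsE A B n ι) (a m m' : ℕ) (i : ι)
    (x : OO A B) : ℂ :=
  ∑ l ∈ Finset.range 4, dlX (R.L i) a (ptE R m i (x + (m' : OO A B) * bb l))

/-! ## Points of order a power of 2 -/

/-- (PST) one step `L → N = ν P⁻¹ L`. PORT of `V_PST.lean`.

Uses Sv_TWO, Sv_PVI, Su_BAC. PROOF. `q ∈ Tor P L`, `q ∉ L`: `2 ∈ P` (`pw`, `k = 1`), so `2 q ∈ L`, `q ∈ InK`, `v(2) v(x q) ≤ 1` (TWO). Let `R` be representatives of the nonzero classes of `{z : ν z ∈ N} = {z : Tor P L z}` (BAC). `E[P]` has two elements: `q, q' ∉ L` in `E[P]` are congruent modulo `L`: by `tm_TRB` (2) (`P` maximal) `q' ≡ emb x q`, `x ∉ P`,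
and `x - 1 ∈ P` (`one`). And `E[P] ≠ 0` (`tm_TRB`, or: otherwise (PVI) with `R = ∅` gives `v(ν u'/u) = 1` in what follows). So `R = {q}` or `R = ∅`, and in both cases (PVI) and (TWO) give `v 2 ≤ v(ν u'/u)²` (*). Let `N'`, `ν'` be a second step (`exq` for `N`; `good`): `v 2 ≤ v(ν' u''/u')²`. The composition
`ν ν' : L → N'` has the kernel `{z : emb p (emb p' z) ∈ L for all p, p' ∈ P} = {z : 2 z ∈ L}`: `←`: `p p' ∈ P ^ 2`, `p p' = 2 y` (`pw`, `dv`: `v(p p') ≤ v 2`, so `p p' ∈ (2)`); `→`: `2 ∈ P ^ 2 = P * P` (`pw`) is a sum of products `p p'` (`Submodule.mul_induction_on`). So there is `R` with `IsRpM L L 2 R` (BAC) and `IsRpM L N' (ν ν') R`: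
(PVI), (TWO (3)): `v(ν ν' u''/u)² = v(2)²`, and `(ν u'/u)(ν' u''/u') = ν ν' u''/u`. So both factors in (*) are equal to `v 2`, in particular `R = {q}`, `v(2) v(x q) = 1` (PVI). -/
def S4_PST : Prop :=
  ∀ (A B : ℤ) (P : Ideal (OO A B)) (V : ValuationSubring ℂ), CtxF A B P V →
    ∀ (L N : PeriodPair) (nu u e a1 a3 u' e' a1' a3' : ℂ), NLE A B L → NLE A B N → IsQ P L N nu →
      GoodQ V L u e a1 a3 → GoodQ V N u' e' a1' a3' →
      V.valuation (nu * u' / u) ^ 2 = V.valuation (2 : ℂ) ∧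
      ∃ q, Tor P L q ∧ q ∉ L.lattice ∧ IsRpM L N nu {q} ∧
        V.valuation (2 : ℂ) * V.valuation (xu L u e q) = 1

/-- (TPU) the points of exact order `P^(j+1)`. PORT of `V_TPU.lean`.

Uses Sv_COE, Sv_GRT, Sv_TWO, S4_PST, Su_PFI. PROOF. Claim: `1 < v(x z)`, `v(x z)^(2^j) v(2) = 1`; then `v(t z)² v(x z) = 1` (`gv_tX_lt`) gives `v(t z)^(2^(j+1)) = v 2`. Induction on `j`, for all lattices; `j = 0`: (PST) (`Tor (P^0) L z` iff `z ∈ L`; `z ≡ q` by `IsRpM.surj`, `ν z ∈ N`).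
Step (as `Sf_TPR`, `StER.lean`): `Tor (P^(j+2)) L z`, not `Tor (P^(j+1)) L z`. `N`, `ν` (`exq`), `u', ..` (`good`), `z' = ν z`: `Tor (P^(j+1)) N z'`, not `Tor (P^j) N z'` (`emb x (ν z) ∈ N` iff `emb p (emb x z) ∈ L` for all `p ∈ P`; `P ^ (j+1) = P * P ^ j`), so `Y = v(x' z') > 1`, `Y^(2^j) v(2) = 1`. `q` from (PST), `T = v(x q)`, `v(2) T = 1`, `T > 1`,
so `Y ≤ T` (`Y^(2^j) = T`). `w = ω₁/5`: `w, w + q ∉ InK V L`, `ν w ∉ InK V N` (see PVI). (PFI): `(ν u'/u)² (x'(z') - x'(ν w)) (x z - x q) = (x z - x w)(x z - x(w + q))`, `v(ν u'/u)² = v 2`, `v(x'(z') - x'(ν w)) = Y`. If `v(x z) ≤ 1`: left side `v(2) Y T = Y > 1`, right side `≤ 1`: false. So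
`X = v(x z) > 1`, right side `X²`. `X > T`: `v(2) Y X = X²`, `X = v(2) Y ≤ v(2) T = 1`: false. `X = T`: `X² ≤ v(2) Y T = Y ≤ T = X`, false. So `X < T`: `v(2) Y T = X²`, `X² = Y`. -/
def S4_TPU : Prop :=
  ∀ (A B : ℤ) (P : Ideal (OO A B)) (V : ValuationSubring ℂ), CtxF A B P V →
    ∀ (j : ℕ) (L : PeriodPair) (u e a1 a3 : ℂ), NLE A B L → GoodQ V L u e a1 a3 →
      ∀ z, Tor (P ^ (j + 1)) L z → ¬ Tor (P ^ j) L z → InK V L (xu L u e) z ∧ z ∉ L.lattice ∧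
        V.valuation (tX (xu L u e) (yt L u e a1 a3) z) ^ (2 ^ (j + 1)) = V.valuation (2 : ℂ)

/-- (DST) the distances. PORT of `V_DST.lean`.

Uses Sv_COE, Sv_GRT, Sv_TWO, S4_TPU, Su_BAC. PROOF. For `Y ∈ InK`, `Y ∉ L`: `gnear` and `gv_DX` (`2 Q ∉ InK`): `Q + Y ∉ InK` and `v(x(Q + Y) - x Q) = v(t Y)`. If `x(Q + Y) = x(Q + Y')`, `Y, Y' ∈ InK`, then `Y ≡ Y'` (`b_NEQ`; `2 Q ≡ -Y - Y'` is impossible). (1) `R` with `IsRpM L L 4 R` (BAC), in `InK` (TWO (2)), `S` = the `x(Q + q)`, `q ∈ R`;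
`v(t q)² v(x q) = 1` (`gv_tX_lt`), so (TWO (3)) `(∏ v(t q))² = v(2)⁴`. (2) `S = {x(Q + Y), x(Q + 2 Y), x(Q + 3 Y)}`. `d = 2` or `3`. `Y` and `3 Y` have exact order `P^(6-d)` (`3` is prime to `P`), `2 Y` has exact order `P^(4-d)`: `emb x (2 Y) ∈ L` iff `2 x ∈ ..`: `Tor (P^(4-d)) L (2 Y)` because `2 P^(4-d) ⊆ P^(6-d)` (`pw`);
not `Tor (P^(3-d)) L (2 Y)`: every `x ∈ P^(5-d)` is `2 y` with `y ∈ P^(3-d)` (`dv`, `pw`), so it would give `Tor (P^(5-d)) L Y` (`d = 2`: `x ∈ P³`, `y ∈ P`; `d = 3`: `x ∈ P²`, `y ∈ P^0`). (TPU), `d = 2`: `α = v(t Y) = v(t(3 Y))`, `α^16 = v 2`, `β = v(t(2 Y))`, `β⁴ = v 2`: `(α β α)^8 = v(2)³`. `d = 3`: `α^8 = v 2`, `β² = v 2`: `(α β α)^8 = v(2)^6`. -/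
def S4_DST : Prop :=
  ∀ (A B : ℤ) (P : Ideal (OO A B)) (V : ValuationSubring ℂ), CtxF A B P V →
    ∀ (L : PeriodPair) (u e a1 a3 : ℂ), NLE A B L → GoodQ V L u e a1 a3 →
    ∀ Q : ℂ, ¬ InK V L (xu L u e) Q → ¬ InK V L (xu L u e) (2 * Q) →
    (∃ S : Finset ℂ, xu L u e Q ∉ S ∧
      (∀ x ∈ S, V.valuation x ≤ 1 ∧ ∃ Y, 4 * Y ∈ L.lattice ∧ x = xu L u e (Q + Y)) ∧
      ∏ x ∈ S, V.valuation (xu L u e Q - x) ≤ V.valuation (2 : ℂ) ^ 2) ∧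
    ∀ Y, Tor (P ^ (6 - dR A)) L Y → ¬ Tor (P ^ (5 - dR A)) L Y →
      ∃ S : Finset ℂ, xu L u e Q ∉ S ∧
        (∀ x ∈ S, V.valuation x ≤ 1 ∧ ∃ k : ℕ, k < 4 ∧ x = xu L u e (Q + k * Y)) ∧
        (∏ x ∈ S, V.valuation (xu L u e Q - x)) ^ 8 ≤ V.valuation (2 : ℂ) ^ (3 * (dR A - 1))

/-! ## The fields -/

/-- (CTX) from the standing hypotheses to `CtxF`. PORT of `tv_CTX` (`V_CTX.lean`) for `A = -1`, `B = 0`.

PROOF. `A = -1` (`CaseE.hA`), `A % 4 = 3`, `dR A = 2`; `ϖ = 1 + i`, `v(emb ϖ)² = v 2`, `w0 = i` a unit. The proof of `tv_CTX` uses `CaseR2` only for `CQ`, `B = 0` and `mod`. `ring`: `Pool.Agent.MUXE.te_RNG`. `exq`: `TorXE.surj` for `m = ⊤`, `a = P`. `good`, `iner`: `T4_RFIN`. -/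
def S4_CTX : Prop :=
  ∀ (A B : ℤ) (P : Ideal (OO A B)) (V : ValuationSubring ℂ), CaseE A B → B = 0 → IsPN 2 P →
    OverI V P → TorXE A B → T4_RFIN → CtxF A B P V

/-- (UNR) the ramification index of `RFE (2 f)` over `k` at `V` divides `2`, if `f` is odd.

Model: `EU_UNR.lean`; uses `ramI` (`Pool/Agent/ME2/L_RamI.lean`). PROOF. `RFE (2 f) ≤ RFE (6 f)` (`tm_FAC`), so suppose `3 ∣ f`; `F = RFE (idl (2 f))`, `RFE (3) ≤ F`. `I` from `ramI`. `σ ∈ I` extends to an automorphism of `ℂ` (`FixK`), so (`CtxF.iner`) either it fixes `RFE (3)`, and then `σ = 1`, or it acts as `-1` on the `x`-coordinates of the points of order three of all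
normalised lattices. Two `σ, σ'` of the second type: `σ⁻¹ σ' ∈ I` fixes these coordinates and `kapE L` (`= 4`), so it fixes `RFE (3)`, so it is `1`. So `|I| ≤ 2`, and `v(y)²` is a power of `v(emb ϖ)`, `v(emb ϖ)² = v 2`. -/
def S4_UNR : Prop :=
  ∀ (A B : ℤ) (P : Ideal (OO A B)) (V : ValuationSubring ℂ), CtxF A B P V → TorXE A B →
    ∀ f : ℕ, f ≠ 0 → ¬ 2 ∣ f → ∀ y ∈ RFE (idl (A := A) (B := B) (2 * f)), y ≠ 0 →
      ∃ k : ℤ, V.valuation y ^ 4 = V.valuation (2 : ℂ) ^ k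

/-- (DEG) the degree of `RFE (2^(j+1) f)` over `RFE (2 f)`. Model `V_DEG.lean`, `Sy_DEG` of `StE3.lean`.

PROOF. `σ` trivial on `RFE (2 f)` acts as `α ≡ 1` modulo `2 f` (`GalEE.ker`): `4^j` classes modulo `2^(j+1) f` (`tm_FAC`: the action of `σ` is determined by the class of `α`). -/
def S4_DEG : Prop :=
  ∀ (A B : ℤ) (P : Ideal (OO A B)) (V : ValuationSubring ℂ), CtxF A B P V → GalEE A B →
    ∀ (j f : ℕ), f ≠ 0 → ¬ 2 ∣ f →
    Module.finrank (kk A B) (RFE (idl (A := A) (B := B) (2 ^ (j + 1) * f))) ≤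
      4 ^ j * Module.finrank (kk A B) (RFE (idl (A := A) (B := B) (2 * f)))

/-- (CON) the elements `c = 1 + N b`, `N = NN n f a = 2^(n-1) f a`. PORT of `V_CON.lean` (new: `c - 1 ∈ (2 f a)`, as `n ≥ 2`).

PROOF. `m' a = 4 N`, `m = 2 m'`. (1) `n - 1 ≥ 2`: `c ≡ 1` modulo `4 f`, `a`; so `c` is prime to `m a` and not 0. (2) `nm (1 + t w0) = 1 - t² A` (`B = 0`) for integers `t`, `≥ 1`, `t = N k`, `2^(n+2) ∣ N²` (`2 (n - 1) ≥ n + 2`). `nm (1 + m' b) = (1 + m' b₁)² - m'² b₂² A`, `b = ⟨b₁, b₂⟩`: `2 m' = m` and `m'²` are divisible by `2^(n+2)`; it is `> 0`. `nI (sp x) = |nm x|` (see `E_CON.lean`).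
(3) `c_k c_l - c_(k+l) = N² k l A`, `m a ∣ N²`. (4) `c_4 - 1 = 4 N w0 = m' a w0`. (5) `c_2 x - x = 2 N w0 x`; if it is in `(m')` then `2 ∣ a w0 x`: `v(a w0 x)² = v(w0)² ≥ v 2 > v(2)²` (`CtxF.w0`, `unit`; `x` is prime to `m` so `∉ P`), contradiction to `dv`. (6) `N/m' = a/4`. `R = emb w0 (a om/4)`: `emb x R ∈ L = om emb O` iff `4 ∣ a w0 x` iff (`dv`) `v(x)² v(w0)² ≤ v(2)⁴` iff
`v(x)² ≤ v(2)^(6-d)` iff `x ∈ P^(6-d)` (`pw`); and `P^(5-d)` is not contained in `P^(6-d)` (powers of `ϖ`). (7) `L = om emb O`: `Y = om emb b'/4`, take `b = a b'`, `a² ≡ 1` modulo 4. -/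
def S4_CON : Prop :=
  ∀ (A B : ℤ) (P : Ideal (OO A B)) (V : ValuationSubring ℂ) (n f a m m' : ℕ),
    SetF A B P V n f a m m' →
    (∀ b : OO A B, IsCoprime (sp (cc (NN n f a) b)) (idl (m * a)) ∧
      IsCoprime (cc (NN n f a) b) ((m : ℕ) : OO A B) ∧
      cc (NN n f a) b ≠ 0 ∧ cc (NN n f a) b - 1 ∈ idl (2 * (f * a)) ∧
      cc (NN n f a) b - 1 ∈ idl (4 * f) ∧ cc (NN n f a) b - 1 ∈ idl a) ∧
    ((∀ k : ℕ, ∃ j : ℕ, nI (sp (cc (NN n f a) ((k : OO A B) * w0))) = 1 + 2 ^ (n + 2) * j) ∧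
      ∀ b : OO A B, ∃ j : ℕ, nI (sp (cc m' b)) = 1 + 2 ^ (n + 2) * j) ∧
    (∀ k l : ℕ, cc (NN n f a) ((k : OO A B) * w0) * cc (NN n f a) ((l : OO A B) * w0) -
      cc (NN n f a) (((k + l : ℕ) : OO A B) * w0) ∈ idl (m * a)) ∧
    (cc (NN n f a) (((4 : ℕ) : OO A B) * w0) - 1 = ((m' * a : ℕ) : OO A B) * w0) ∧
    (∀ x : OO A B, IsCoprime x ((m : ℕ) : OO A B) →
      cc (NN n f a) (((2 : ℕ) : OO A B) * w0) * x - x ∉ idl m') ∧
    ∀ (L : PeriodPair) (om : ℂ), IsNE (⊤ : Ideal (OO A B)) L om →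
      (∀ b : OO A B, emb (cc (NN n f a) b) * (om / m') = om / m' + emb b * (a * om / 4)) ∧
      (∀ k : ℕ, emb ((k : OO A B) * w0) * (a * om / 4) =
        k * (emb (w0 : OO A B) * (a * om / 4))) ∧
      Tor (P ^ (6 - dR A)) L (emb (w0 : OO A B) * (a * om / 4)) ∧
      ¬ Tor (P ^ (5 - dR A)) L (emb (w0 : OO A B) * (a * om / 4)) ∧
      ∀ Y, 4 * Y ∈ L.lattice → ∃ b : OO A B, Y - emb b * (a * om / 4) ∈ L.lattice

/-- (SIG) integral elements of the ray class field are polynomials in `x(Q)`, `Q = om/m'`. PORT of `V_SIG.lean`.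

Uses Sv_COE, Sv_GRT, S4_TPU, S4_UNR, S4_DEG, `te_BAS` (`Pool.Agent.NSE.te_BAS`). PROOF. As there with `M₀ = RFE (2 f a)`, `M = RFE (m' a)`, `m' a = 2^(n+1) (f a)`: `[M : M₀] ≤ 4^n` (DEG with `j = n`), `v(π)^(2^(2n+2)) = v 2`. (BAS) with `N = 4^n` and any `p ∈ ℂ` with `p^4 = 2`: `(v(π)^(4^n))^4 = v 2 = (v p)^4`, so `v(π)^(4^n) = v p`; for `y ∈ M₀`, `y ≠ 0`: `v(y)^4 = v(2)^k`
(UNR), so `v y = (v p)^k`. `e, u² ∈ RFE (3) ≤ M₀` (`3 ∣ f`; `GoodQ.tor`). `s` is trivial on `M₀` (`AutCE.triv`: `c - 1 ∈ (2 f a)`). -/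
def S4_SIG : Prop :=
  ∀ (A B : ℤ) (P : Ideal (OO A B)) (V : ValuationSubring ℂ) (n f a m m' : ℕ),
    SetF A B P V n f a m m' →
    ∀ (L : PeriodPair) (om u e a1 a3 : ℂ), IsNE (⊤ : Ideal (OO A B)) L om →
    GoodQ V L u e a1 a3 →
    ∀ w ∈ RFE (idl (A := A) (B := B) (m' * a)), V.valuation w ≤ 1 →
    ∃ h : ℂ[X], IntP V h ∧ w = h.eval (xu L u e (om / m')) ∧
      ∀ (c : OO A B) (s : ℂ ≃+* ℂ), AutCE (idl (m * a)) c s → c - 1 ∈ idl (2 * (f * a)) →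
        s w = h.eval (xu L u e (emb c * (om / m')))

/-! ## The points -/

/-- (MUL) the isogenies `μ_i x : L_(i0) → L_i` have odd degree. PORT of `V_MUL.lean`. -/
def S4_MUL : Prop :=
  ∀ (A B : ℤ) (P : Ideal (OO A B)) (V : ValuationSubring ℂ), CtxF A B P V →
    ∀ (n : ℕ) (ι : Type) (R : RepsE A B n ι),
    n ≠ 0 → 2 ∣ n → ∀ (i : ι) (x : OO A B), x ∉ P →
      muXE R i * emb x ≠ 0 ∧ Isg (R.L R.i0) (R.L i) (muXE R i * emb x) ∧
      ∃ N : ℕ, ¬ 2 ∣ N ∧ ∀ z, muXE R i * emb x * z ∈ (R.L i).lattice →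
        (N : ℂ) * z ∈ (R.L R.i0).lattice

/-- (FIB) the fibres: `G_(i,x)` and `F_(i,x)` in terms of the point `ptE R m' i x`.

Uses Sv_GRT, Sv_TWO, Sv_DS2, Su_BAC, `tm_PT`. PROOF. `ptE R m i (x + m' b) = ptE R m i x + N(b_i) om_i emb b/2` (`m = 2 m'`), `2 ptE R m i x = ptE R m' i x`. The four points `z_l = N(b_i) om_i emb (bb l)/2` represent `{z : 2 z ∈ L_i}/L_i`: `2 z_l ∈ L_i` (`N(b_i) ∈ b_i`); `z = om_i emb y/2`, `y ∈ b_i`: `N(b_i)` is odd: `y ≡ N(b_i) y'` modulo `2 b_i`, `y' = y N(b_i)`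
(`N(b_i)² ≡ 1` modulo 2), and `y' ≡ bb l` modulo 2 for exactly one `l < 4`, `N(b_i) (y' - bb l) ∈ 2 b_i`. Different `l`: if `N(b_i) (bb l - bb l') ∈ 2 b_i` then `2 ∣ bb l - bb l'` (`N(b_i)` odd, `b_i` contained in `O`). So with `R' = {z_1, z_2, z_3}` `IsRpM L_i L_i 2 R'`, and (DS2) for `z = ptE R m i x` (`a ptE R m' i x ∉ L_i`). `κ = (-4)^|H| ∏∏(℘ h - ℘ q)`:
`℘ h - ℘ q = u'² (x h - x q)`, `v(x h - x q) = v(x q)` (`h ∉ InK` of odd order, `q ∈ InK`), `∏_(q ∈ R') v(x q) v(2)² = 1` (TWO (3)): `v κ = (v(2)² v(u'²)³ v(2)⁻²)^|H| = v(u'²)^(3|H|)`. The points `ptE R m i (x + m' b)` only matter modulo `L_i`: `m b' ∈ (m)`. -/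
def S4_FIB : Prop :=
  ∀ (A B : ℤ) (P : Ideal (OO A B)) (V : ValuationSubring ℂ) (n f a m m' : ℕ),
    SetF A B P V n f a m m' →
    ∀ (ι : Type) (R : RepsE A B (2 * f) ι) (H : ι → Finset ℂ) (i : ι),
    IsHalf (R.L i) (a : ℂ) (H i) →
    ∃ κ : ℂ, κ ≠ 0 ∧
      (∀ u' e' a1' a3' : ℂ, GoodQ V (R.L i) u' e' a1' a3' →
        V.valuation κ = V.valuation (u' ^ 2) ^ (3 * (H i).card)) ∧
      ∀ x : OO A B, IsCoprime x ((m : ℕ) : OO A B) →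
        GFibE R H m m' i x = κ * ThetaH (R.L i) (H i) (ptE R m' i x) ∧
        FFibE R a m m' i x = 2 * dlX (R.L i) a (ptE R m' i x) ∧
        (∀ y : OO A B, y - x ∈ idl (A := A) (B := B) m' →
          GFibE R H m m' i y = GFibE R H m m' i x ∧ FFibE R a m m' i y = FFibE R a m m' i x)

/-- (GPO) the fibres as rational functions over `V` of `x(Q)`, `Q = om_0/m'`. PORT of `V_GPO.lean`.

Uses Sv_COE, Sv_GRT, Sv_THT, Sv_NE1, S4_MUL, S4_FIB, S4_UNR. PROOF. As there; only the value of `κ = κ_FIB (u'²)^|H|` changes: `v κ = v(u'²)^(4|H|)`, `u'² = ℘ w2 - ℘ w1 ∈ RFE (3) ≤ RFE (6)` (`GoodQ.tor`, `tm_FAC`), `v(u'²)^4 = v(2)^k` (UNR with `f = 3`), so `v κ = v(2)^(k |H|)`, and `|H|` is even (`b_HRE`: `2 |H| + 1 = a²`, `a` odd, so `8 ∣ a² - 1`). -/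
def S4_GPO : Prop :=
  ∀ (A B : ℤ) (P : Ideal (OO A B)) (V : ValuationSubring ℂ) (n f a m m' : ℕ),
    SetF A B P V n f a m m' →
    ∀ (ι : Type) (R : RepsE A B (2 * f) ι) (u e a1 a3 : ℂ), GoodQ V (R.L R.i0) u e a1 a3 →
    ∀ (H : ι → Finset ℂ) (i : ι), IsHalf (R.L i) (a : ℂ) (H i) →
    ∀ x : OO A B, x ∉ P →
    ∃ (κ : ℂ) (k : ℤ) (Pq Qr : ℂ[X]), IntP V Pq ∧ IntP V Qr ∧
      V.valuation κ = (V.valuation (2 : ℂ) ^ k) ^ 2 ∧
      ∀ c : OO A B, IsCoprime (c * x) ((m : ℕ) : OO A B) →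
        V.valuation (xu (R.L R.i0) u e (emb c * (R.om R.i0 / m'))) ≤ 1 ∧
        V.valuation (et (R.L R.i0) u (emb c * (R.om R.i0 / m'))) ≤ 1 ∧
        V.valuation (Pq.eval (xu (R.L R.i0) u e (emb c * (R.om R.i0 / m')))) = 1 ∧
        V.valuation (Qr.eval (xu (R.L R.i0) u e (emb c * (R.om R.i0 / m')))) = 1 ∧
        GFibE R H m m' i (c * x) * Qr.eval (xu (R.L R.i0) u e (emb c * (R.om R.i0 / m'))) =
          κ * Pq.eval (xu (R.L R.i0) u e (emb c * (R.om R.i0 / m'))) ∧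
        muXE R i * emb x * FFibE R a m m' i (c * x) / u =
          2 * dlg Pq Qr (xu (R.L R.i0) u e (emb c * (R.om R.i0 / m'))) *
            et (R.L R.i0) u (emb c * (R.om R.i0 / m'))

/-! ## The two estimates -/

/-- (SQR) squares, for products over arbitrary finite families of fibres `(i, x)`. PORT of `V_SQR.lean`.

Uses Sd_LAG, Sd_PRD, Sv_COE, S4_DST, Sy_AUT, Sy_GTA, S4_CON, S4_SIG, Sv_NE1, S4_FIB, S4_GPO. PROOF. `E_SQR.lean` with `m'` for `m`, `NN n f a` for `2^n f a`, `GFibE`, `FFibE`. The automorphisms `s_b` with `AutCE (idl (m a)) c_b s_b`: `s_b(Θ(ptE R m i z)) = Θ(emb c_b ptE R m i z) = Θ(ptE R m i (c_b z))` (GTA), `c_b (x + m' bb l) = c_b x + m' (c_b bb l)` and `c_b bb l ≡ bb l` modulo 2, so modulo `m`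
`c_b (x + m' bb l) ≡ c_b x + m' bb l`: `s_b(G_(i,x)) = G_(i, c_b x)`. So `P(ξ_b) = κ h(ξ_b)² Q(ξ_b)` for all `b ∈ O`; `S` from (DST (1)): `∏ ≤ v(2)²`, `S'` from (DST (2)) with `Y = emb w0 (a om_0/4)`: `(∏_(S'))^8 ≤ v(2)^(3(d-1))`, `h` is constant on `S'` as `s y = y` by hypothesis. (LAG (4)): `v(P' Q - P Q')^8 ≤ max (v(2)^8 v(2)^(3(d-1))) (v(2)^16) = v(2)^(3 d + 5)`
(`3 d + 5 ≤ 16`), and the sum is `2 dlg P Q (ξ_0) et(Q)`: `v^8 ≤ v(2)^(3 d + 13)`. -/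
def S4_SQR : Prop :=
  ∀ (A B : ℤ) (P : Ideal (OO A B)) (V : ValuationSubring ℂ) (n f a m m' : ℕ),
    SetF A B P V n f a m m' →
    ∀ (ι : Type) (R : RepsE A B (2 * f) ι) (u e a1 a3 : ℂ), GoodQ V (R.L R.i0) u e a1 a3 →
    ∀ (H : ι → Finset ℂ), (∀ i, IsHalf (R.L i) (a : ℂ) (H i)) →
    ∀ (J : Type) [Fintype J] (X : J → Finset (ι × OO A B)) (g : J → ℤ),
      (∀ j, ∀ q ∈ X j, IsCoprime q.2 ((m : ℕ) : OO A B)) →
      (∃ y ∈ RFE (idl (A := A) (B := B) m'),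
        (∀ (k : ℕ) (s : ℂ ≃+* ℂ),
          AutCE (idl (m * a)) (cc (NN n f a) ((k : OO A B) * w0)) s → s y = y) ∧
        y ^ 2 = ∏ j, (∏ q ∈ X j, GFibE R H m m' q.1 q.2) ^ g j) →
      V.valuation ((∑ j, (g j : ℂ) * ∑ q ∈ X j, emb q.2 * muXE R q.1 *
        FFibE R a m m' q.1 q.2) / u) ^ 8 ≤ V.valuation (2 : ℂ) ^ (3 * dR A + 13)

/-- (ORB) the sum over one orbit of `1 + N w0`. PORT of `V_ORB.lean`.

Uses Sd_LAG, Sd_PRD, Sv_COE, S4_DST, S4_CON, Sv_NE1, S4_FIB, S4_GPO. PROOF. `E_ORB.lean` with `m'`, `GFibE`, `FFibE`: (1) (GPO) with `c = 1`: the factor 2. (2) `x_k = c_k x`, `c_j x_k ≡ c_(j+k) x` modulo `m'`, `c_4 ≡ 1` modulo `m'` (CON), `G` depends only on the class modulo `m'` (FIB): `∏_k G_(i, c_j x_k)` does not depend on `j < 4`. (DST (2)), (LAG (3)): `v(dlg P Q ξ_0)^8 ≤ v(2)^(3(d-1))`, times 2.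
`emb x_k - emb x = emb x N k emb w0`, `v ≤ v(4)`. -/
def S4_ORB : Prop :=
  ∀ (A B : ℤ) (P : Ideal (OO A B)) (V : ValuationSubring ℂ) (n f a m m' : ℕ),
    SetF A B P V n f a m m' →
    ∀ (ι : Type) (R : RepsE A B (2 * f) ι) (u e a1 a3 : ℂ), GoodQ V (R.L R.i0) u e a1 a3 →
    ∀ (H : ι → Finset ℂ) (i : ι), IsHalf (R.L i) (a : ℂ) (H i) →
    ∀ x : OO A B, IsCoprime x ((m : ℕ) : OO A B) →
      V.valuation (muXE R i * FFibE R a m m' i x / u) ≤ V.valuation (2 : ℂ) ∧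
      ∀ y : ℕ → OO A B,
        (∀ k < 4, y k - cc (NN n f a) ((k : OO A B) * w0) * x ∈ idl m') →
        V.valuation ((∑ k ∈ Finset.range 4, muXE R i * FFibE R a m m' i (y k)) / u) ^ 8 ≤
          V.valuation (2 : ℂ) ^ (3 * dR A + 5)

/-! ## The sets `XXE` -/

/-- (GLC) the automorphisms `1 + k N w0` and `1 + m' b` are trivial on `D`, and `D ≤ RFE (m')`. PORT of `V_GLC.lean` (the levels `4 f`, `m'` are even, so `AutCE.triv`, `TorXE.triv` apply).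

Uses S4_CON, `tm_GAL`. PROOF. As `E_GLC.lean` (`m' b ∈ (4 f)`). Last part: `y ∈ D`, so `y ∈ RFE (m)`; it is fixed by all `σ ∈ Gal(RFE (m)/k)` which are trivial on `RFE (m')`: extend `σ` to `s ∈ Aut(ℂ)` (`TorXE.ext` for `RFE m` as a field over `ℚ`), `FixK`; `s` is trivial on `RFE (4 f) ≤ RFE (m')`; `TorXE.act` (`m`): `ActI s (idl m) a' L L' mu`, and for `idl m'`: `TorXE.triv`: `a' = sp c`, `c - 1 ∈ (m')`,
so `c = 1 + m' b`, `s z = z^(nI a') = z` for `z^(2^(n+2)) = 1` (`TorXE.zeta`, CON (2)). `InCycE`: `s y = y`. Galois theory: `RFE m/k` is Galois, `y` is in the fixed field of `Gal(RFE m/RFE m')`, which is `RFE m'` (see `E_SIG`-type arguments in `Pool/Agent/NS/F_RP1.lean` or `IsGalois.fixedField_fixingSubgroup`). -/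
def S4_GLC : Prop :=
  ∀ (A B : ℤ) (P : Ideal (OO A B)) (V : ValuationSubring ℂ) (n f a m m' : ℕ),
    SetF A B P V n f a m m' →
    ∀ D : IntermediateField ℚ ℂ, InCycE A B f (2 ^ (n + 2)) D →
    (∀ (k : ℕ) (s : ℂ ≃+* ℂ),
      AutCE (idl (m * a)) (cc (NN n f a) ((k : OO A B) * w0)) s → ∀ y ∈ D, s y = y) ∧
    (∀ (b : OO A B) (s : ℂ ≃+* ℂ), AutCE (idl (m * a)) (cc m' b) s → ∀ y ∈ D, s y = y) ∧
    ((∀ y ∈ D, y ∈ RFE (idl (A := A) (B := B) m)) →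
      (∃ L, NLE A B L) → ∀ y ∈ D, y ∈ RFE (idl (A := A) (B := B) m'))

/-- (XXS) stability of `XXE` under `-1` and under `c`. PORT of `V_XXS.lean`. -/
def S4_XXS : Prop :=
  ∀ (A B : ℤ) (P : Ideal (OO A B)) (V : ValuationSubring ℂ) (n f a m m' : ℕ),
    SetF A B P V n f a m m' →
    ∀ (ι : Type) (R : RepsE A B (2 * f) ι) (D : IntermediateField ℚ ℂ) (h : kk A B ≤ D),
    letI := algC h
    ∀ (τ : D ≃ₐ[kk A B] D), ∀ q ∈ XXE R m h τ, (q.1, -q.2) ∈ XXE R m h τ ∧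
      ∀ (c : OO A B) (s : ℂ ≃+* ℂ), IsCoprime c ((m : ℕ) : OO A B) → AutCE (idl (m * a)) c s →
        (∀ y ∈ D, s y = y) →
          (q.1, Ideal.Quotient.mk (idl (A := A) (B := B) m) c * q.2) ∈ XXE R m h τ

/-- (HEQ) sums and products of even functions over half systems. PORT of `V_HEQ.lean`. Uses S4_XXS. -/
def S4_HEQ : Prop :=
  ∀ (A B : ℤ) (P : Ideal (OO A B)) (V : ValuationSubring ℂ) (n f a m m' : ℕ),
    SetF A B P V n f a m m' →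
    ∀ (ι : Type) (R : RepsE A B (2 * f) ι) (D : IntermediateField ℚ ℂ) (h : kk A B ≤ D),
    letI := algC h
    ∀ (τ : D ≃ₐ[kk A B] D) (S : Finset (ι × (OO A B ⧸ idl (A := A) (B := B) m))),
      HalfSE R m h τ S → ∀ F : ι × (OO A B ⧸ idl (A := A) (B := B) m) → ℂ,
      (∀ q ∈ XXE R m h τ, F (q.1, -q.2) = F q) →
      (∀ S', HalfSE R m h τ S' → ∏ q ∈ S, F q = ∏ q ∈ S', F q) ∧
      ∑ᶠ q ∈ XXE R m h τ, F q = 2 * ∑ q ∈ S, F q

/-- (HAL) half systems which are stable under `1 + N w0` and under the translations by `m' b`. PORT of `V_HAL.lean`.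

Uses S4_CON, S4_XXS. PROOF. `S = {q ∈ XXE : j(r(q.2)) < j(-r(q.2))}` as in `E_HAL.lean`, `r` the class modulo `f` (`f` divides `c - 1` and `m'`); `(q.1, q.2 + m' b) ∈ XXE` by hypothesis. -/
def S4_HAL : Prop :=
  ∀ (A B : ℤ) (P : Ideal (OO A B)) (V : ValuationSubring ℂ) (n f a m m' : ℕ),
    SetF A B P V n f a m m' →
    ∀ (ι : Type) [Finite ι] (R : RepsE A B (2 * f) ι) (D : IntermediateField ℚ ℂ)
      (h : kk A B ≤ D),
    letI := algC h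
    ∀ (τ : D ≃ₐ[kk A B] D),
      (∀ q ∈ XXE R m h τ, (q.1, Ideal.Quotient.mk (idl (A := A) (B := B) m) (cc (NN n f a) w0) *
        q.2) ∈ XXE R m h τ) →
      (∀ q ∈ XXE R m h τ, ∀ b : OO A B, (q.1, q.2 +
        Ideal.Quotient.mk (idl (A := A) (B := B) m) ((m' : OO A B) * b)) ∈ XXE R m h τ) →
      ∃ S : Finset (ι × (OO A B ⧸ idl (A := A) (B := B) m)), HalfSE R m h τ S ∧
        (∀ q ∈ S, (q.1, Ideal.Quotient.mk (idl (A := A) (B := B) m) (cc (NN n f a) w0) * q.2) ∈ S) ∧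
        ∀ q ∈ S, ∀ b : OO A B, (q.1, q.2 +
          Ideal.Quotient.mk (idl (A := A) (B := B) m) ((m' : OO A B) * b)) ∈ S

/-- (COS) a stable set is a union of orbits of 16 elements.

Uses S4_CON. PROOF. `c_k = cc N (k w0)`. Strong induction on the number of elements of `S`: if `S` is not empty take `q ∈ S`, `x = out q.2` (prime to `m` by hypothesis). The 16 elements `q_(k,l) = (q.1, mk (c_k x + m' bb l))`, `k, l < 4`, are in `S`: `(q.1, mk c_1 ^ k * q.2) ∈ S` by induction, `c_1^k ≡ c_k` modulo `m` (CON (3), induction), and the translations. They are different: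
`c_k x + m' bb l ≡ c_k' x + m' bb l'` modulo `m`; modulo `m'`: `c_k x ≡ c_k' x`; if `k ≠ k'`, say `k < k'`: multiply by `c_(4-k)`: `c_4 x ≡ c_(4 + k' - k) x`, `x ≡ c_(k'-k) x` modulo `m'` (CON (3), (4)), and doubling (multiply by `c_(k'-k)`) `x ≡ c_(2(k'-k)) x` gives for odd `k' - k` again `x ≡ c_2 x` (use `c_4 ≡ 1`), and for `k' - k = 2` directly: contradiction to CON (5).
So `k = k'` and `m' (bb l - bb l') ∈ (m)`, `2 ∣ bb l - bb l'`, `l = l'`. Let `S' = S` without these 16 elements; it is stable: the map `q ↦ (q.1, mk c_1 * q.2)` is injective on `S` and maps the 16 elements onto themselves (`c_1 c_k ≡ c_(k+1)`, `c_1 m' bb l ≡ m' bb l` modulo `m`, `c_4 x ≡ x + m' (a w0 x)` is in the set with `k = 0`), and the translations are permutations with inverse `-b`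
(`b + bb l ≡ bb l'` modulo 2). `T` = the one for `S'`, together with `(q.1, x)`. -/
def S4_COS : Prop :=
  ∀ (A B : ℤ) (P : Ideal (OO A B)) (V : ValuationSubring ℂ) (n f a m m' : ℕ),
    SetF A B P V n f a m m' →
    ∀ (ι : Type) (S : Finset (ι × (OO A B ⧸ idl (A := A) (B := B) m))),
      (∀ q ∈ S, IsCoprime (Quotient.out q.2 : OO A B) ((m : ℕ) : OO A B)) →
      (∀ q ∈ S, (q.1, Ideal.Quotient.mk (idl (A := A) (B := B) m) (cc (NN n f a) w0) * q.2) ∈ S) →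
      (∀ q ∈ S, ∀ b : OO A B, (q.1, q.2 +
        Ideal.Quotient.mk (idl (A := A) (B := B) m) ((m' : OO A B) * b)) ∈ S) →
      ∃ T : Finset (ι × OO A B), (∀ t ∈ T, IsCoprime t.2 ((m : ℕ) : OO A B)) ∧
        (∀ F : ι × (OO A B ⧸ idl (A := A) (B := B) m) → ℂ, ∑ q ∈ S, F q =
          ∑ t ∈ T, ∑ k ∈ Finset.range 4, ∑ l ∈ Finset.range 4,
            F (t.1, Ideal.Quotient.mk _ (cc (NN n f a) ((k : OO A B) * w0) * t.2 +
              (m' : OO A B) * bb l))) ∧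
        ∀ F : ι × (OO A B ⧸ idl (A := A) (B := B) m) → ℂ, ∏ q ∈ S, F q =
          ∏ t ∈ T, ∏ k ∈ Finset.range 4, ∏ l ∈ Finset.range 4,
            F (t.1, Ideal.Quotient.mk _ (cc (NN n f a) ((k : OO A B) * w0) * t.2 +
              (m' : OO A B) * bb l))

/-- (MAIN) both estimates for families of sets of pairs which are stable under `c = 1 + N w0` and the translations by `m' b`. PORT of `V_MAIN.lean`.

Uses S4_CON, S4_SQR, S4_ORB, S4_COS, S4_FIB. PROOF. `c_k = cc N (k w0)`, `T_j` from (COS). `F q = om(out q.2) muXE dlX(..)/u`; for `q = (i, mk y)`: `out ≡ y` modulo `m`, so `om(out) = om y` (`OddQ.per`, `2 f ∣ m`) and `dlX(ptE R m i out) = dlX(ptE R m i y)` (periodic: `b_TDL`/`ee`, `tm_PT`; the same for `Θ`); for `y = c_k t.2 + m' bb l`: `om y = om t.2` (`2 f ∣ m'`, `c_k - 1 ∈ (4 f)`).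
So the sum over the orbit of `t` is `om(t.2) Σ_k muXE FFibE(c_k t.2)/u`. `v(om x)  ≤ 1`. (i) (ORB (2)). (ii) (SQR) for `X j = {(t.1, c_k t.2) : t ∈ T_j, k < 4}` (injective by the argument in (COS); or write the product over `T_j × range 4` and use (SQR) with `J' = J × Fin 4`, `X (j, k) = {(t.1, c_k t.2) : t ∈ T_j}`, where `t ↦ (t.1, c_k t.2)` is injective: `c_k ≠ 0`, `O` a domain):
`v(Σ g_j Σ_q emb(q.2) E q)^8 ≤ v(2)^(3d+13)`, `E q = muXE FFibE/u`, `v(E q) ≤ v 2` (ORB (1)). The difference to the claim is `Σ_j g_j Σ_(t ∈ T_j) D_t`, `D_t = (om(x) - emb(x)) Σ_k E(c_k x) - Σ_k (emb(c_k x) - emb x) E(c_k x)`, `x = t.2`: `v(om x - emb x)² ≤ v 2` (`OddQ.cong`; `x - 1 ∈ P`, `pw`), so the first term has `v^8 ≤ v(2)^4 v(2)^(3d+5)`;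
the second `v ≤ v(4) v(2)`, `v^8 ≤ v(2)^24`. -/
def S4_MAIN : Prop :=
  ∀ (A B : ℤ) (P : Ideal (OO A B)) (V : ValuationSubring ℂ) (n f a m m' : ℕ),
    SetF A B P V n f a m m' →
    ∀ (ι : Type) (R : RepsE A B (2 * f) ι) (u e a1 a3 : ℂ), GoodQ V (R.L R.i0) u e a1 a3 →
    ∀ (H : ι → Finset ℂ), (∀ i, IsHalf (R.L i) (a : ℂ) (H i)) →
    ∀ om : OO A B → ℂ, OddQ f V om →
    ∀ (J : Type) [Fintype J] (S : J → Finset (ι × (OO A B ⧸ idl (A := A) (B := B) m))),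
      (∀ j, ∀ q ∈ S j, IsCoprime (Quotient.out q.2 : OO A B) ((m : ℕ) : OO A B)) →
      (∀ j, ∀ q ∈ S j,
        (q.1, Ideal.Quotient.mk (idl (A := A) (B := B) m) (cc (NN n f a) w0) * q.2) ∈ S j) →
      (∀ j, ∀ q ∈ S j, ∀ b : OO A B, (q.1, q.2 +
        Ideal.Quotient.mk (idl (A := A) (B := B) m) ((m' : OO A B) * b)) ∈ S j) →
      (∀ j, V.valuation ((∑ q ∈ S j, om (Quotient.out q.2) * muXE R q.1 *
        dlX (R.L q.1) a (ptE R m q.1 (Quotient.out q.2))) / u) ^ 8 ≤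
          V.valuation (2 : ℂ) ^ (3 * dR A + 5)) ∧
      ∀ g : J → ℤ,
        (∃ y ∈ RFE (idl (A := A) (B := B) m'),
          (∀ (k : ℕ) (s : ℂ ≃+* ℂ),
            AutCE (idl (m * a)) (cc (NN n f a) ((k : OO A B) * w0)) s → s y = y) ∧
          y ^ 2 = ∏ j, (∏ q ∈ S j,
            ThetaH (R.L q.1) (H q.1) (ptE R m q.1 (Quotient.out q.2))) ^ g j) →
        V.valuation ((∑ j, (g j : ℂ) * ∑ q ∈ S j, om (Quotient.out q.2) * muXE R q.1 *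
          dlX (R.L q.1) a (ptE R m q.1 (Quotient.out q.2))) / u) ^ 8 ≤
            V.valuation (2 : ℂ) ^ (3 * dR A + 9)

/-- (FIN) the final form. PORT of `V_FIN.lean`.

Uses S4_CTX, Sy_AUT, S4_CON, S4_GLC, S4_XXS, S4_HEQ, S4_HAL, S4_MAIN. PROOF. `m = lvX 2 f n = f * 4 * 2^n = 2^(n+2) f`, `m' = 2^(n+1) f`, `a = aX 2 f = 1 + 8 f`, `f ≥ 3`, `3 ∣ f`, `SetF` (CTX). (GLC): the automorphisms `c_1` and `1 + m' b` are trivial on `D`, `D ≤ RFE (m')`. Stability of `XXE` under `c_1`: (AUT), (XXS). Under translations: `q ∈ XXE`, `b`: `x = out q.2` is prime to 2,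
so there is `b'` with `b' x ≡ b` modulo 2 (`IsCoprime`), `c = cc m' b'`: `mk c * q.2 = q.2 + mk (m' b)` (`m = 2 m'`), `c` is prime to `m a`.. (`c ≡ 1` modulo `m'`; prime to `a`: replace `b'` by `b' a a'`, `a a' ≡ 1` modulo 2; then `c ≡ 1` modulo `m' a`). (HAL): stable half systems `S τ`. `C τ = ∏_(q ∈ S τ) Θ` (HEQ). `TT2E = 1/2 · 2 Σ_(q ∈ S τ) om muXE dlX` (HEQ). First claim: (MAIN (i)):
`v^8 ≤ v(2)^(3d+5) ≤ v(2)^(4d+2)` (`3 d + 5 ≥ 4 d + 2` as `d ≤ 3`), take square roots (`pow_le_pow_left₀` for squares: `(v^4)² ≤ (v(2)^(2d+1))²`). Second claim: as in `E_FIN.lean`, (MAIN (ii)): `v^8 ≤ v(2)^(3d+9) ≤ v(2)^(4d+6)`. -/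
def S4_FIN : Prop := T4_RFIN → T4_EFIN

end

end Pool.Agent.ME2F
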