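import Pool.Agent.ME.N.StIN
import Pool.Agent.ME2.Defs3
import Pool.Agent.N2.StIT
import Pool.Agent.ME.X.StJG

/-!
# ME2, `D = -3`, `p = 2`, block I (helper34): from blocks E, H to the input (I3) of block K

As `Pool/Agent/N2/StIT.lean` (2 inert), in the frame ME. The general statements of `ME/N/StIN.lean` are used as they are, with `p = 2`.
-/

set_option autoImplicit false

namespace Pool.Agent.ME2I

open _root_.MU3 Pool.Agent.MU3 Pool.Agent.MU3A Pool.Agent.MU3B Pool.Agent.RI Pool.Agent.RID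
  Pool.Agent.MUX Pool.Agent.MUXK Pool.Agent.MUXI Pool.Agent.NSI
open Pool.Agent.ME hiding ActE
open Pool.Agent.ME2 (SetT3 TT2E InCycE)
open Pool.Agent.N2 (GoodT OddT IsTei2)
open Pool.Agent.MU3I (w3 zt)

noncomputable section

/-! ## Definitions -/

lemma setL_3 {A B : ℤ} {V : ValuationSubring ℂ} {f : ℕ} (h : SetT3 A B V f) : SetL 2 A B f :=
  ⟨h.case.toCQ, Or.inl rfl, h.f0, h.fp⟩

/-- the input from block E for one field `D` -/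
structure EInp3 {A B : ℤ} (V : ValuationSubring ℂ) (f : ℕ) {ι : Type}
    (R : RepsE A B (2 * f) ι) (u : ℂ) (n : ℕ) {D : IntermediateField ℚ ℂ} (h : kk A B ≤ D)
    (C : (letI := algC h; D ≃ₐ[kk A B] D) → ℂ) : Prop where
  ne : C (letI := algC h; 1) ≠ 0
  conj : letI := algC h
    ∀ τ : D ≃ₐ[kk A B] D, ∃ y : D, (y : ℂ) = C 1 ∧ ((τ y : D) : ℂ) = C τ
  ew : letI := algC h
    ∀ om : OO A B → ℂ, OddT f V om → ∀ g : (D ≃ₐ[kk A B] D) → ℤ,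
      (∃ y ∈ D, y ^ 2 = ∏ᶠ τ : D ≃ₐ[kk A B] D, C τ ^ g τ) → ∀ τ' : D ≃ₐ[kk A B] D,
        V.valuation ((∑ᶠ τ : D ≃ₐ[kk A B] D, (g τ : ℂ) *
          TT2E R om (lvX 2 f n) (aX 2 f) h (τ * τ')) / u) ^ 2 ≤ V.valuation (2 : ℂ) ^ 3

/-! ## Characters -/

/-- (KAP) the odd sign function modulo `√-3` -/
def St3_KAP : Prop :=
  ∀ A B : ℤ, CaseE A B → B = 1 → ∃ κ : OO A B → ℤ, Pool.Agent.MUX2.KapD A B κ

/-- (TE2) existence of the Teichmueller character. -/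
def St3_TE2 : Prop :=
  ∀ (A B : ℤ) (V : ValuationSubring ℂ), CaseE A B → OverI V (idl (A := A) (B := B) 2) →
    ∃ w : OO A B → ℂ, IsTei2 V w

/-- (EPT) the weights and the odd character. -/
def St3_EPT : Prop :=
  ∀ (A B : ℤ) (V : ValuationSubring ℂ) (f : ℕ) (_ : SetT3 A B V f) (e0 : OO A B → ℂ) (r : ℕ)
    (_ : ¬ 2 ∣ r)
    (_ : e0 1 = 1) (_ : e0 (-1) = 1) (_ : ∀ x y, e0 (x * y) = e0 x * e0 y)
    (_ : ∀ x y, x - y ∈ idl (A := A) (B := B) (lvX 2 f 0) → e0 x = e0 y)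
    (_ : ∀ x, e0 x ≠ 0 ↔ IsCoprime x ((lvX 2 f 0 : ℕ) : OO A B))
    (_ : ∀ x, e0 x ≠ 0 → e0 x ^ r = 1) (_ : ∀ z, IsUnit z → e0 z = 1),
    ∃ (om e : OO A B → ℂ), OddT f V om ∧ IsEIE (idl (A := A) (B := B) (2 * f)) e ∧
      (∀ x, e x ≠ 0 → e x ^ (2 * (3 * r)) = 1) ∧
      ∀ x, IsCoprime x ((lvX 2 f 0 : ℕ) : OO A B) → e0 x * om x = e x

/-- (CYC) `K B_n` is in the compositum of `RFE (4 f)` and the field of the `2^(n+2)`-th roots of unity. -/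
def St3_CYC : Prop :=
  ∀ (A B : ℤ) (f : ℕ) (K : IntermediateField ℚ ℂ),
    (∀ y ∈ K, y ∈ RFE (idl (A := A) (B := B) (lvX 2 f 0))) → ∀ (n : ℕ)
    (Bn : IntermediateField ℚ ℂ), IsLayer 2 n Bn → InCycE A B f (2 ^ (n + 2)) (K ⊔ Bn)

/-! ## The result -/

/-- (I31) one level, `T`. -/
def St3_I31 : Prop :=
  ∀ (A B : ℤ) (V : ValuationSubring ℂ) (f : ℕ), SetT3 A B V f → TorXE A B →
    ∀ (ι : Type) [Fintype ι] (R : RepsE A B (2 * f) ι) (u el a1 a3 : ℂ),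
    GoodT V (R.L R.i0) u el a1 a3 →
    ∀ (K : IntermediateField ℚ ℂ) (Bn : ℕ → IntermediateField ℚ ℂ)
    [FiniteDimensional ℚ K] [∀ n, FiniteDimensional ℚ ↥(K ⊔ Bn n)]
    (hB : BasX 2 (kk A B) K Bn)
    (_ : ¬ 2 ∣ Module.finrank (kk A B) (IntermediateField.extendScalars hB.hk))
    (_ : ∀ y ∈ K, y ∈ RFE (idl (A := A) (B := B) (lvX 2 f 0)))
    (hk : ∀ n, kk A B ≤ K ⊔ Bn n) (hkK : kk A B ≤ K)
    (C : ∀ n, (letI := algC (hk n); ↥(K ⊔ Bn n) ≃ₐ[kk A B] ↥(K ⊔ Bn n)) → ℂ)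
    (_ : ∀ n, 2 ≤ n → EInp3 V f R u n (hk n) (C n)) (c₀ : ℕ → ℂ)
    (mem : ∀ n, c₀ n ∈ K ⊔ Bn n) (_ : ∀ n, 2 ≤ n → c₀ n = C n (letI := algC (hk n); 1))
    (χ : (letI := algC hkK; (↥K ≃ₐ[kk A B] ↥K) →* (IsLocalRing.ResidueField V)ˣ)) (n₀ : ℕ),
    ∃ n, n₀ ≤ n ∧ I3At (IsLocalRing.ResidueField V) 2 (kk A B) K Bn hkK χ 1 n (hk n) (c₀ n) (mem n)

/-- the inputs of block K. -/
def St3_INP : Prop :=
  ∀ (A B : ℤ) (V : ValuationSubring ℂ) (f : ℕ), SetT3 A B V f → TorXE A B →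
    ∀ (ι : Type) [Fintype ι] (R : RepsE A B (2 * f) ι) (u el a1 a3 : ℂ),
    GoodT V (R.L R.i0) u el a1 a3 →
    ∀ (K₀ K : IntermediateField ℚ ℂ) (Bn : ℕ → IntermediateField ℚ ℂ)
    [FiniteDimensional ℚ (kk A B)] [FiniteDimensional ℚ K] [∀ n, FiniteDimensional ℚ ↥(K ⊔ Bn n)]
    (_ : SetX 2 (kk A B) K₀ K Bn)
    (_ : ∀ y ∈ K₀, y ∈ RFE (idl (A := A) (B := B) (lvX 2 f 0)))
    (hk : ∀ n, kk A B ≤ K ⊔ Bn n) (hk₀ : ∀ n, kk A B ≤ K₀ ⊔ Bn n) (hkK : kk A B ≤ K₀)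
    (S : Finset ℕ) (c c₀ : ℕ → ℂ) (n₁ : ℕ)
    (_ : Pool.Agent.MUXZ.InpW 2 (kk A B) K₀ K Bn hk hk₀ S c c₀ n₁)
    (C : ∀ n, (letI := algC (hk₀ n); ↥(K₀ ⊔ Bn n) ≃ₐ[kk A B] ↥(K₀ ⊔ Bn n)) → ℂ)
    (_ : ∀ n, 2 ≤ n → EInp3 V f R u n (hk₀ n) (C n))
    (_ : ∀ n, 2 ≤ n → c₀ n = C n (letI := algC (hk₀ n); 1)),
    InpX (IsLocalRing.ResidueField V) 2 (kk A B) K₀ K Bn hk hk₀ hkK S c c₀ n₁

/-- the inputs of block J for `D = -3`, `p = 2`. -/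
def St3_INPG : Prop :=
  ∀ (A B : ℤ) (V : ValuationSubring ℂ), CaseE A B → B = 1 → OverI V (idl (A := A) (B := B) 2) →
    TorXE A B → Pool.Agent.MUXJ.InpG_E 2 9 A B V

end

end Pool.Agent.ME2I
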